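import Pool.Agent.H845R4.LP.Stm

/-!
Task FE: linear change of variables `z ↦ (l_{f i}(z))_i` (equality).
-/

set_option autoImplicit false

noncomputable section

open MeasureTheory Filter Topology
open scoped BigOperators Matrix ENNReal

namespace H845LP

open H712MA

namespace FE'

/-- splitting real and imaginary parts preserves volume -/
lemma mp_split (n : ℕ) :
    MeasurePreserving (fun z : Fin n → ℂ => ((fun i => (z i).re, fun i => (z i).im) : E2 n)) := by
  have h1 : MeasurePreserving (fun (z : Fin n → ℂ) (i : Fin n) =>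
      Complex.measurableEquivRealProd (z i)) :=
    volume_preserving_pi fun _ => Complex.volume_preserving_equiv_real_prod
  have h2 := volume_measurePreserving_arrowProdEquivProdArrow ℝ ℝ (Fin n)
  exact h2.comp h1

end FE'

theorem FE : S_FE := by
  intro κ _ n l f h0
  set A : Matrix (Fin n) (Fin n) ℝ := Matrix.of fun i j => l (f i) j with hA
  have hdet : A.det ≠ 0 := h0
  have hu : IsUnit A.det := isUnit_iff_ne_zero.2 hdet
  have hrow : ∀ (i : Fin n) (v : Fin n → ℝ), l (f i) ⬝ᵥ v = (A *ᵥ v) i := fun i v => rfl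
  refine ⟨?_, ?_, ?_, ?_⟩
  · intro ξ i
    apply Complex.ext
    · change l (f i) ⬝ᵥ (A⁻¹ *ᵥ (fun i => (ξ i).re)) = (ξ i).re
      rw [hrow, Matrix.mulVec_mulVec, Matrix.mul_nonsing_inv _ hu, Matrix.one_mulVec]
    · change l (f i) ⬝ᵥ (A⁻¹ *ᵥ (fun i => (ξ i).im)) = (ξ i).im
      rw [hrow, Matrix.mulVec_mulVec, Matrix.mul_nonsing_inv _ hu, Matrix.one_mulVec]
  · intro z
    apply Prod.ext
    · change A⁻¹ *ᵥ (A *ᵥ z.1) = z.1
      rw [Matrix.mulVec_mulVec, Matrix.nonsing_inv_mul _ hu, Matrix.one_mulVec]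
    · change A⁻¹ *ᵥ (A *ᵥ z.2) = z.2
      rw [Matrix.mulVec_mulVec, Matrix.nonsing_inv_mul _ hu, Matrix.one_mulVec]
  · have hT : Continuous (Matrix.toLin' A⁻¹) :=
      LinearMap.continuous_of_finiteDimensional (Matrix.toLin' A⁻¹)
    have h1 : Continuous (fun ξ : Fin n → ℂ => (fun i => (ξ i).re : Fin n → ℝ)) :=
      continuous_pi fun i => Complex.continuous_re.comp (continuous_apply i)
    have h2 : Continuous (fun ξ : Fin n → ℂ => (fun i => (ξ i).im : Fin n → ℝ)) :=
      continuous_pi fun i => Complex.continuous_im.comp (continuous_apply i)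
    exact (hT.comp h1).prodMk (hT.comp h2)
  · intro G hG
    have hm := Real.map_matrix_volume_pi_eq_smul_volume_pi hdet
    have hT : Measurable (Matrix.toLin' A) :=
      (LinearMap.continuous_of_finiteDimensional (Matrix.toLin' A)).measurable
    have hmap : Measure.map (Prod.map (Matrix.toLin' A) (Matrix.toLin' A)) (volume : Measure (E2 n)) =
        (ENNReal.ofReal |A.det⁻¹| * ENNReal.ofReal |A.det⁻¹|) • (volume : Measure (E2 n)) := by
      have h1 := Measure.map_prod_map (volume : Measure (Fin n → ℝ)) (volume : Measure (Fin n → ℝ))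
        hT hT
      rw [hm] at h1
      rw [Measure.volume_eq_prod, ← h1, Measure.prod_smul_left, Measure.prod_smul_right, smul_smul]
    set H : E2 n → ℝ≥0∞ := fun z => G (fun i => ⟨z.1 i, z.2 i⟩) with hH
    have hHm : Measurable H := by
      refine hG.comp (measurable_pi_lambda _ fun i => ?_)
      have : (fun z : E2 n => (⟨z.1 i, z.2 i⟩ : ℂ)) =
          fun z : E2 n => Complex.measurableEquivRealProd.symm (z.1 i, z.2 i) := rfl
      rw [this]
      refine Complex.measurableEquivRealProd.symm.measurable.comp ?_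
      exact ((measurable_pi_apply i).comp measurable_fst).prodMk
        ((measurable_pi_apply i).comp measurable_snd)
    have e1 : ∀ z : E2 n, G (fun i => pk (l (f i)) z) =
        H (Prod.map (Matrix.toLin' A) (Matrix.toLin' A) z) := by
      intro z
      rfl
    have e2 : ∫⁻ z : E2 n, H z = ∫⁻ ξ : Fin n → ℂ, G ξ := by
      rw [← (FE'.mp_split n).lintegral_comp hHm]
    rw [lintegral_const_mul' _ _ ENNReal.ofReal_ne_top, lintegral_congr e1,
      ← lintegral_map hHm (hT.prodMap hT), hmap, lintegral_smul_measure, e2, smul_eq_mul,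
      ← mul_assoc]
    have e3 : ENNReal.ofReal ((dt l f) ^ 2) *
        (ENNReal.ofReal |A.det⁻¹| * ENNReal.ofReal |A.det⁻¹|) = 1 := by
      rw [← ENNReal.ofReal_mul (abs_nonneg _), ← ENNReal.ofReal_mul (sq_nonneg _)]
      have : (dt l f) ^ 2 * (|A.det⁻¹| * |A.det⁻¹|) = 1 := by
        rw [abs_mul_abs_self]
        have : dt l f = A.det := rfl
        rw [this]
        field_simp
      rw [this, ENNReal.ofReal_one]
    rw [e3, one_mul]

end H845LP
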