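import Pool.Agent.H845R4.LP.Stm

set_option autoImplicit false

noncomputable section

open MeasureTheory Filter Topology
open scoped BigOperators Matrix ENNReal

namespace H845LP

open H712MA

namespace Maux

theorem isProb_Wm {p : ℝ} (hp : 1 < p) : IsProbabilityMeasure (Wm p) := by
  have hp0 : 0 < p := by linarith
  have hint := integrableOn_rpow_mul_exp_neg_mul_rpow (p := p) (s := p - 1) (b := 1 / p)
    (by linarith) hp0 (by positivity)
  have hval := integral_rpow_mul_exp_neg_mul_rpow (p := p) (q := p - 1) (b := 1 / p) hp0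
    (by linarith) (by positivity)
  have h1 : ∫ x in Set.Ioi (0 : ℝ), x ^ (p - 1) * Real.exp (-(1 / p) * x ^ p) = 1 := by
    rw [hval, sub_add_cancel, div_self hp0.ne', Real.Gamma_one, mul_one, neg_div,
      div_self hp0.ne', Real.rpow_neg_one]
    field_simp
  constructor
  unfold Wm
  rw [withDensity_apply _ MeasurableSet.univ, Measure.restrict_univ]
  have h2 : (fun ρ : ℝ => ENNReal.ofReal (wt p ρ)) =
      (Set.Ioi (0 : ℝ)).indicator
        (fun ρ => ENNReal.ofReal (ρ ^ (p - 1) * Real.exp (-(1 / p) * ρ ^ p))) := by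
    funext ρ
    unfold wt
    by_cases h : 0 < ρ
    · rw [if_pos h, Set.indicator_of_mem (Set.mem_Ioi.2 h)]
      congr 3
      ring
    · rw [if_neg h, Set.indicator_of_notMem (fun h' => h (Set.mem_Ioi.1 h')), ENNReal.ofReal_zero]
  rw [h2, lintegral_indicator measurableSet_Ioi, ← ofReal_integral_eq_lintegral_ofReal hint, h1,
    ENNReal.ofReal_one]
  refine (ae_restrict_mem measurableSet_Ioi).mono fun x hx => ?_
  have hx : (0 : ℝ) < x := hx
  positivity

theorem isProb_Am : IsProbabilityMeasure Am := by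
  constructor
  unfold Am
  rw [Measure.smul_apply, Measure.restrict_apply_univ, Real.volume_Ioo, smul_eq_mul,
    ← ENNReal.ofReal_mul (by positivity)]
  have : 1 / (2 * Real.pi) * (Real.pi - -Real.pi) = 1 := by
    field_simp
    ring
  rw [this, ENNReal.ofReal_one]

theorem int_pos {p : ℝ} (hp : 0 < p) : 0 < ∫ t : ℝ, Real.exp (-(|t| ^ p / p)) := by
  have h1 := integral_comp_abs (f := fun t : ℝ => Real.exp (-(t ^ p / p)))
  have h2 : ∫ x in Set.Ioi (0 : ℝ), Real.exp (-(x ^ p / p)) =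
      (1 / p) ^ (-1 / p) * Real.Gamma (1 / p + 1) := by
    rw [← integral_exp_neg_mul_rpow hp (by positivity)]
    refine setIntegral_congr_fun measurableSet_Ioi fun x _ => ?_
    show Real.exp (-(x ^ p / p)) = Real.exp (-(1 / p) * x ^ p)
    congr 1
    ring
  rw [h1, h2]
  have h3 : 0 < Real.Gamma (1 / p + 1) := Real.Gamma_pos_of_pos (by positivity)
  positivity

theorem Sp_pos {p : ℝ} (hp : 1 < p) : 0 < Sp p :=
  mul_pos (int_pos (by linarith)) (int_pos (div_pos (by linarith) (by linarith)))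

theorem prod_ge {ι : Type} (s : Finset ι) (m : ι → ℝ) (h0 : ∀ i, 0 ≤ m i) (h1 : ∀ i, m i ≤ 1) :
    1 - ∑ i ∈ s, (1 - m i) ≤ ∏ i ∈ s, m i := by
  classical
  induction s using Finset.induction_on with
  | empty => simp
  | insert a s ha ih =>
    rw [Finset.sum_insert ha, Finset.prod_insert ha]
    have h2 : ∏ i ∈ s, m i ≤ 1 := Finset.prod_le_one (fun i _ => h0 i) fun i _ => h1 i
    have h3 : 0 ≤ ∏ i ∈ s, m i := Finset.prod_nonneg fun i _ => h0 i
    nlinarith [h0 a, h1 a, mul_nonneg (sub_nonneg.2 (h1 a)) (sub_nonneg.2 h2)]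

theorem X_le {n : ℕ} (F : Fin n → ℝ) (hF : ∀ i, 0 ≤ F i) {X : ℝ} (h0 : 0 ≤ X) (h1 : X ≤ 1) :
    ENNReal.ofReal X ≤ ENNReal.ofReal ((∏ i, F i) * X) +
      ∑ i, ENNReal.ofReal (1 - min 1 (F i)) := by
  have hm1 : ∀ i, min 1 (F i) ≤ 1 := fun i => min_le_left _ _
  have hm0 : ∀ i, 0 ≤ min 1 (F i) := fun i => le_min zero_le_one (hF i)
  have h2 := prod_ge Finset.univ (fun i => min 1 (F i)) hm0 hm1
  have h3 : ∏ i, min 1 (F i) ≤ ∏ i, F i :=
    Finset.prod_le_prod (fun i _ => hm0 i) fun i _ => min_le_right _ _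
  have h4 : 0 ≤ ∑ i, (1 - min 1 (F i)) := Finset.sum_nonneg fun i _ => by linarith [hm1 i]
  rw [← ENNReal.ofReal_sum_of_nonneg (fun i _ => by linarith [hm1 i]),
    ← ENNReal.ofReal_add (mul_nonneg (Finset.prod_nonneg fun i _ => hF i) h0) h4]
  apply ENNReal.ofReal_le_ofReal
  nlinarith [mul_le_mul_of_nonneg_right (h2.trans h3) h0, mul_le_mul_of_nonneg_left h1 h4]

theorem nonzero_case (hT : S_T) (hR : S_R) (hPL : S_PL) (κ : Type) [Fintype κ] (r : ℕ) (p : ℝ)
    (hp : 1 < p) (hp2 : p < 2) (l : κ → Fin (r + 1) → ℝ) (hl : Spans l) (hne : ∀ k, l k ≠ 0) :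
    ENNReal.ofReal ((Sp p) ^ (r + 1)) ≤
      (∫⁻ x : Fin (r + 1) → ℝ, ENNReal.ofReal (Real.exp (-((∑ k, |l k ⬝ᵥ x| ^ p) / p)))) *
        ∫⁻ y : Fin (r + 1) → ℝ,
          ENNReal.ofReal (Real.exp (-((dn p l y) ^ (p / (p - 1)) / (p / (p - 1))))) := by
  classical
  have hWm := isProb_Wm hp
  have hAm := isProb_Am
  have hPm : IsProbabilityMeasure (Pm p) := by
    unfold Pm
    infer_instance
  have hS := Sp_pos hp
  set RHS := (∫⁻ x : Fin (r + 1) → ℝ, ENNReal.ofReal (Real.exp (-((∑ k, |l k ⬝ᵥ x| ^ p) / p)))) *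
        ∫⁻ y : Fin (r + 1) → ℝ,
          ENNReal.ofReal (Real.exp (-((dn p l y) ^ (p / (p - 1)) / (p / (p - 1))))) with hRHS
  set c : ℝ := (Sp p) ^ (r + 1) / ((r + 1).factorial : ℝ) with hc
  have hc0 : 0 < c := by positivity
  set K : ℝ := (Fintype.card (Fin (r + 1) → κ) : ℝ) * ((r + 1 : ℕ) : ℝ) with hK
  have hK0 : 0 ≤ K := by positivity
  have key : ∀ ε : ℝ, 0 < ε → ENNReal.ofReal ((Sp p) ^ (r + 1)) ≤ RHS + ENNReal.ofReal (c * (K * ε)) := by
    intro ε hε
    obtain ⟨L, h, N, F, Y, Yb, hTD, hRD, hF⟩ := hPL p hp hp2 ε hε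
    have h1 := hT κ r L h N hTD l hl p hp
    have h2 := hR κ (r + 1) p (p / (p - 1)) (Sp p) h N F Y Yb hp rfl hS hTD.meas hTD.Ncont.measurable hRD
      l hl hne
    have hmarg : ∀ i : Fin (r + 1), ∫⁻ ω : Fin (r + 1) → ℝ × ℝ, ENNReal.ofReal (1 - min 1 (F (ω i).2))
        ∂(Measure.pi fun _ => Pm p) ≤ ENNReal.ofReal ε := by
      intro i
      have hg : Measurable fun θ : ℝ => ENNReal.ofReal (1 - min 1 (F θ)) :=
        (measurable_const.sub (measurable_const.min hRD.Fmeas)).ennreal_ofReal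
      have e1 := (measurePreserving_eval (fun _ : Fin (r + 1) => Pm p) i).lintegral_comp
        (hg.comp measurable_snd)
      have e2 := (measurePreserving_snd (μ := Wm p) (ν := Am)).lintegral_comp hg
      calc _ = ∫⁻ ω : Fin (r + 1) → ℝ × ℝ, ((fun θ : ℝ => ENNReal.ofReal (1 - min 1 (F θ))) ∘ Prod.snd)
            (Function.eval i ω) ∂(Measure.pi fun _ => Pm p) := rfl
        _ = ∫⁻ ω : ℝ × ℝ, ENNReal.ofReal (1 - min 1 (F ω.2)) ∂(Pm p) := e1
        _ = ∫⁻ θ, ENNReal.ofReal (1 - min 1 (F θ)) ∂Am := e2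
        _ ≤ _ := hF
    have hXP : ∀ (f : Fin (r + 1) → κ) (ξ : Fin (r + 1) → ℂ), 0 ≤ XP p N l f ξ ∧ XP p N l f ξ ≤ 1 := by
      intro f ξ
      unfold XP
      refine ⟨Finset.prod_nonneg fun k _ => (Real.exp_pos _).le, Finset.prod_le_one
        (fun k _ => (Real.exp_pos _).le) fun k _ => Real.exp_le_one_iff.2 ?_⟩
      have := Real.rpow_nonneg (hTD.Nnonneg (pk (l k) (zf l f ξ))) p
      have hp0 : 0 < p := by linarith
      have : 0 ≤ N (pk (l k) (zf l f ξ)) ^ p / p := by positivity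
      linarith
    have h3 : ∀ f : Fin (r + 1) → κ,
        (if dt l f = 0 then (0 : ℝ≥0∞) else
          ∫⁻ ω : Fin (r + 1) → ℝ × ℝ, ENNReal.ofReal (XP p N l f (fun i => xi h (ω i)))
            ∂(Measure.pi fun _ => Pm p)) ≤
        (if dt l f = 0 then 0 else
          ∫⁻ ω : Fin (r + 1) → ℝ × ℝ, ENNReal.ofReal ((∏ i, F (ω i).2) *
            XP p N l f (fun i => xi h (ω i))) ∂(Measure.pi fun _ => Pm p)) +
          ENNReal.ofReal (((r + 1 : ℕ) : ℝ) * ε) := by
      intro f
      by_cases hf : dt l f = 0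
      · rw [if_pos hf, if_pos hf]
        exact zero_le
      · rw [if_neg hf, if_neg hf]
        calc _ ≤ ∫⁻ ω : Fin (r + 1) → ℝ × ℝ, (ENNReal.ofReal ((∏ i, F (ω i).2) *
              XP p N l f (fun i => xi h (ω i))) + ∑ i, ENNReal.ofReal (1 - min 1 (F (ω i).2)))
              ∂(Measure.pi fun _ => Pm p) :=
              lintegral_mono fun ω => X_le (fun i => F (ω i).2) (fun i => hRD.Fnn _)
                (hXP f _).1 (hXP f _).2
          _ = (∫⁻ ω : Fin (r + 1) → ℝ × ℝ, ENNReal.ofReal ((∏ i, F (ω i).2) *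
              XP p N l f (fun i => xi h (ω i))) ∂(Measure.pi fun _ => Pm p)) +
              ∫⁻ ω : Fin (r + 1) → ℝ × ℝ, ∑ i, ENNReal.ofReal (1 - min 1 (F (ω i).2))
                ∂(Measure.pi fun _ => Pm p) := by
              apply lintegral_add_right
              refine Finset.measurable_fun_sum _ fun i _ => ?_
              exact (measurable_const.sub (measurable_const.min (hRD.Fmeas.comp
                (measurable_snd.comp (measurable_pi_apply i))))).ennreal_ofReal
          _ ≤ _ := by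
              refine add_le_add_right ?_ _
              rw [lintegral_finsetSum]
              · calc _ ≤ ∑ _i : Fin (r + 1), ENNReal.ofReal ε := Finset.sum_le_sum fun i _ => hmarg i
                  _ = ENNReal.ofReal (((r + 1 : ℕ) : ℝ) * ε) := by
                    rw [Finset.sum_const, Finset.card_univ, Fintype.card_fin, nsmul_eq_mul,
                      ENNReal.ofReal_mul (by positivity), ENNReal.ofReal_natCast]
              · intro i _
                exact (measurable_const.sub (measurable_const.min (hRD.Fmeas.comp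
                  (measurable_snd.comp (measurable_pi_apply i))))).ennreal_ofReal
    have h4 : ((r + 1).factorial : ℝ≥0∞) ≤ (∑ f : Fin (r + 1) → κ, if dt l f = 0 then (0 : ℝ≥0∞) else
          ∫⁻ ω : Fin (r + 1) → ℝ × ℝ, ENNReal.ofReal ((∏ i, F (ω i).2) *
            XP p N l f (fun i => xi h (ω i))) ∂(Measure.pi fun _ => Pm p)) +
          ENNReal.ofReal (K * ε) := by
      refine h1.trans ((Finset.sum_le_sum fun f _ => h3 f).trans ?_)
      rw [Finset.sum_add_distrib, Finset.sum_const, Finset.card_univ, nsmul_eq_mul, hK]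
      refine add_le_add_right (le_of_eq ?_) _
      rw [mul_assoc (Fintype.card (Fin (r + 1) → κ) : ℝ),
        ENNReal.ofReal_mul (p := (Fintype.card (Fin (r + 1) → κ) : ℝ)) (by positivity),
        ENNReal.ofReal_natCast]
    calc ENNReal.ofReal ((Sp p) ^ (r + 1)) = ENNReal.ofReal c * ((r + 1).factorial : ℝ≥0∞) := by
          rw [← ENNReal.ofReal_natCast, ← ENNReal.ofReal_mul hc0.le, hc]
          congr 1
          field_simp
      _ ≤ ENNReal.ofReal c * ((∑ f : Fin (r + 1) → κ, if dt l f = 0 then (0 : ℝ≥0∞) else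
          ∫⁻ ω : Fin (r + 1) → ℝ × ℝ, ENNReal.ofReal ((∏ i, F (ω i).2) *
            XP p N l f (fun i => xi h (ω i))) ∂(Measure.pi fun _ => Pm p)) +
          ENNReal.ofReal (K * ε)) := mul_le_mul_right h4 _
      _ ≤ RHS + ENNReal.ofReal (c * (K * ε)) := by
          rw [mul_add, ENNReal.ofReal_mul hc0.le]
          exact add_le_add_left h2 _
  apply ENNReal.le_of_forall_pos_le_add
  intro δ hδ _
  have hδ' : (0 : ℝ) < δ := hδ
  refine (key (δ / (c * K + 1)) (by positivity)).trans ?_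
  refine add_le_add_right ?_ _
  rw [← ENNReal.ofReal_coe_nnreal]
  apply ENNReal.ofReal_le_ofReal
  have h5 : c * (K * (δ / (c * K + 1))) = δ * ((c * K) / (c * K + 1)) := by ring
  rw [h5]
  have h6 : (c * K) / (c * K + 1) ≤ 1 := by
    rw [div_le_one (by positivity)]
    linarith
  calc (δ : ℝ) * ((c * K) / (c * K + 1)) ≤ δ * 1 := mul_le_mul_of_nonneg_left h6 hδ'.le
    _ = δ := mul_one _

end Maux

open Maux

/-- M: finite families -/
theorem M (hT : S_T) (hR : S_R) (hPL : S_PL) : S_M := by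
  classical
  intro κ _ r p hp hp2 l hl
  obtain ⟨f, hf⟩ := hl
  have hfne : ∀ i, l (f i) ≠ 0 := by
    intro i h
    apply hf
    unfold dt
    exact Matrix.det_eq_zero_of_row_eq_zero i fun j => by
      rw [Matrix.of_apply, h]
      rfl
  have hsum : ∀ x : Fin (r + 1) → ℝ, ∑ k : {k // l k ≠ 0}, |l k.1 ⬝ᵥ x| ^ p =
      ∑ k, |l k ⬝ᵥ x| ^ p := by
    intro x
    have h1 : ∑ k ∈ Finset.univ.filter (fun k => l k ≠ 0), |l k ⬝ᵥ x| ^ p =
        ∑ k, |l k ⬝ᵥ x| ^ p := by
      apply Finset.sum_filter_of_ne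
      intro k _ h2 h3
      apply h2
      rw [h3, zero_dotProduct, abs_zero, Real.zero_rpow (by linarith)]
    rw [← h1]
    exact (Finset.sum_subtype (Finset.univ.filter (fun k => l k ≠ 0)) (by simp)
      (fun k => |l k ⬝ᵥ x| ^ p)).symm
  have hdn : ∀ y, dn p (fun k : {k // l k ≠ 0} => l k.1) y = dn p l y := by
    intro y
    unfold dn
    congr 1
    ext t
    constructor
    · rintro ⟨x, hx, hx'⟩
      exact ⟨x, by rw [← hsum]; exact hx, hx'⟩
    · rintro ⟨x, hx, hx'⟩
      refine ⟨x, ?_, hx'⟩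
      rw [← hsum] at hx
      exact hx
  have h := nonzero_case hT hR hPL {k // l k ≠ 0} r p hp hp2 (fun k => l k.1)
    ⟨fun i => ⟨f i, hfne i⟩, hf⟩ fun k => k.2
  simp only [hdn, hsum] at h
  exact h

end H845LP
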