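import Pool.Agent.H845R4.LP.Stm

/-!
# PA: the `p`-cosine
-/

set_option autoImplicit false

noncomputable section

open MeasureTheory Filter Topology
open scoped BigOperators Matrix ENNReal

namespace H845LP

open H712MA

/-- the integrand `(1-t^p)^(-1/p)` -/
def pa_g (p t : ℝ) : ℝ := (1 - t ^ p) ^ (-(1 / p))

lemma pa_pow_le {p t : ℝ} (hp : 1 < p) (h0 : 0 ≤ t) (h1 : t ≤ 1) : t ^ p ≤ t := by
  rcases h0.eq_or_lt with h | h
  · rw [← h, Real.zero_rpow (by linarith)]
  · calc t ^ p ≤ t ^ (1 : ℝ) := Real.rpow_le_rpow_of_exponent_ge h h1 hp.le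
      _ = t := Real.rpow_one t

lemma pa_pow_lt {p t : ℝ} (hp : 1 < p) (h0 : 0 ≤ t) (h1 : t < 1) : t ^ p < 1 :=
  (pa_pow_le hp h0 h1.le).trans_lt h1

lemma pa_g_pos {p t : ℝ} (hp : 1 < p) (h0 : 0 ≤ t) (h1 : t < 1) : 0 < pa_g p t := by
  unfold pa_g
  exact Real.rpow_pos_of_pos (by have := pa_pow_lt hp h0 h1; linarith) _

lemma pa_g_meas (p : ℝ) : Measurable (pa_g p) := by
  unfold pa_g
  exact (measurable_const.sub (measurable_id.pow_const p)).pow_const _

lemma pa_g_cont {p t : ℝ} (hp : 1 < p) (h0 : 0 ≤ t) (h1 : t < 1) : ContinuousAt (pa_g p) t := by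
  unfold pa_g
  have h2 : ContinuousAt (fun t : ℝ => 1 - t ^ p) t :=
    continuousAt_const.sub (Real.continuousAt_rpow_const t p (Or.inr (by linarith)))
  refine h2.rpow_const (Or.inl ?_)
  have := pa_pow_lt hp h0 h1
  linarith

lemma pa_int {p : ℝ} (hp : 1 < p) : IntervalIntegrable (pa_g p) volume 0 1 := by
  have h1 : IntervalIntegrable (fun t : ℝ => t ^ (-(1 / p))) volume 1 0 := by
    apply intervalIntegral.intervalIntegrable_rpow'
    have : 1 / p < 1 := by rw [div_lt_one (by linarith)]; exact hp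
    linarith
  have h2 := h1.comp_sub_left 1
  have e0 : (1 : ℝ) - 1 = 0 := by norm_num
  have e1 : (1 : ℝ) - 0 = 1 := by norm_num
  rw [e0, e1] at h2
  refine h2.mono_fun' (pa_g_meas p).aestronglyMeasurable ?_
  rw [Set.uIoc_of_le zero_le_one]
  have h3 : ∀ᵐ t ∂(volume.restrict (Set.Ioc (0 : ℝ) 1)), t ≠ 1 := by
    have : ∀ᵐ t ∂(volume : Measure ℝ), t ≠ 1 := by
      simp [ae_iff, measure_singleton]
    exact ae_restrict_of_ae this
  filter_upwards [ae_restrict_mem measurableSet_Ioc, h3] with t ht ht1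
  have ht2 : t < 1 := lt_of_le_of_ne ht.2 ht1
  rw [Real.norm_eq_abs, abs_of_pos (pa_g_pos hp ht.1.le ht2)]
  unfold pa_g
  have h4 := pa_pow_le hp ht.1.le ht.2
  rw [Real.rpow_neg (by linarith), Real.rpow_neg (by linarith)]
  apply inv_anti₀
  · exact Real.rpow_pos_of_pos (by linarith) _
  · exact Real.rpow_le_rpow (by linarith) (by linarith) (by positivity)

/-- the primitive -/
def pa_F (p x : ℝ) : ℝ := ∫ t in (0:ℝ)..x, pa_g p t

lemma pa_int_sub {p a b : ℝ} (hp : 1 < p) (ha : 0 ≤ a) (ha1 : a ≤ 1) (hb : 0 ≤ b) (hb1 : b ≤ 1) :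
    IntervalIntegrable (pa_g p) volume a b := by
  apply (pa_int hp).mono_set
  rw [Set.uIcc_of_le (zero_le_one' ℝ)]
  exact Set.uIcc_subset_Icc ⟨ha, ha1⟩ ⟨hb, hb1⟩

lemma pa_F_mono {p : ℝ} (hp : 1 < p) : StrictMonoOn (pa_F p) (Set.Icc 0 1) := by
  intro a ha b hb hab
  have h1 : pa_F p b - pa_F p a = ∫ t in a..b, pa_g p t := by
    unfold pa_F
    exact intervalIntegral.integral_interval_sub_left
      (pa_int_sub hp le_rfl zero_le_one hb.1 hb.2) (pa_int_sub hp le_rfl zero_le_one ha.1 ha.2)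
  have h2 : 0 < ∫ t in a..b, pa_g p t := by
    apply intervalIntegral.intervalIntegral_pos_of_pos_on
      (pa_int_sub hp ha.1 ha.2 hb.1 hb.2) _ hab
    intro x hx
    exact pa_g_pos hp (ha.1.trans hx.1.le) (hx.2.trans_le hb.2)
  linarith

lemma pa_F_cont {p : ℝ} (hp : 1 < p) : ContinuousOn (pa_F p) (Set.Icc 0 1) := by
  have h := intervalIntegral.continuousOn_primitive_interval (μ := volume) (a := (0:ℝ)) (b := 1)
    (f := pa_g p) (by
      rw [Set.uIcc_of_le (zero_le_one' ℝ), integrableOn_Icc_iff_integrableOn_Ioc]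
      exact (intervalIntegrable_iff_integrableOn_Ioc_of_le zero_le_one).mp (pa_int hp))
  rw [Set.uIcc_of_le (zero_le_one' ℝ)] at h
  exact h

lemma pa_F_deriv {p x : ℝ} (hp : 1 < p) (h0 : 0 < x) (h1 : x < 1) :
    HasDerivAt (pa_F p) (pa_g p x) x := by
  apply intervalIntegral.integral_hasDerivAt_right
  · exact pa_int_sub hp le_rfl zero_le_one h0.le h1.le
  · exact (pa_g_meas p).stronglyMeasurable.stronglyMeasurableAtFilter
  · exact pa_g_cont hp h0.le h1

lemma pa_F_zero (p : ℝ) : pa_F p 0 = 0 := by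
  unfold pa_F
  simp

lemma pa_C_pos {p : ℝ} (hp : 1 < p) : 0 < pa_F p 1 := by
  have := pa_F_mono hp (Set.left_mem_Icc.mpr zero_le_one) (Set.right_mem_Icc.mpr zero_le_one)
    zero_lt_one
  rwa [pa_F_zero] at this

/-- the generalised sine -/
theorem pa_y {p : ℝ} (hp : 1 < p) : ∃ y : ℝ → ℝ, Continuous y ∧ (∀ t, 0 ≤ y t ∧ y t ≤ 1) ∧
    (∀ t, t ≤ 0 → y t = 0) ∧ (∀ t, pa_F p 1 ≤ t → y t = 1) ∧
    (∀ t, 0 < t → t < pa_F p 1 → 0 < y t ∧ y t < 1 ∧
      HasDerivAt y ((1 - y t ^ p) ^ (1 / p)) t) := by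
  set C := pa_F p 1 with hC
  have hC0 : 0 < C := pa_C_pos hp
  have hmono := pa_F_mono hp
  have hmaps : ∀ x ∈ Set.Icc (0:ℝ) 1, pa_F p x ∈ Set.Icc (0:ℝ) C := by
    intro x hx
    constructor
    · rw [← pa_F_zero p]
      exact hmono.monotoneOn (Set.left_mem_Icc.mpr zero_le_one) hx hx.1
    · exact hmono.monotoneOn hx (Set.right_mem_Icc.mpr zero_le_one) hx.2
  let f : Set.Icc (0:ℝ) 1 → Set.Icc (0:ℝ) C := fun x => ⟨pa_F p x, hmaps x x.2⟩
  have hf : StrictMono f := fun a b hab => hmono a.2 b.2 hab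
  have hsurj : Function.Surjective f := by
    rintro ⟨c, hc⟩
    have h1 := intermediate_value_Icc (zero_le_one' ℝ) (pa_F_cont hp)
    rw [pa_F_zero] at h1
    obtain ⟨x, hx, hxc⟩ := h1 hc
    exact ⟨⟨x, hx⟩, Subtype.ext hxc⟩
  let e := hf.orderIsoOfSurjective f hsurj
  have he : ∀ x, e x = f x := fun x => rfl
  let y : ℝ → ℝ := fun t => (e.symm (Set.projIcc 0 C hC0.le t) : ℝ)
  have hycont : Continuous y := by
    have h1 : Continuous e.symm := e.symm.continuous
    exact continuous_subtype_val.comp (h1.comp continuous_projIcc)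
  have hFy : ∀ t ∈ Set.Icc (0:ℝ) C, pa_F p (y t) = t := by
    intro t ht
    have h1 : e (e.symm (Set.projIcc 0 C hC0.le t)) = Set.projIcc 0 C hC0.le t :=
      e.apply_symm_apply _
    have h2 := congrArg Subtype.val h1
    rw [he, Set.projIcc_of_mem hC0.le ht] at h2
    simpa [f, y, Set.projIcc_of_mem hC0.le ht] using h2
  have hyI : ∀ t, y t ∈ Set.Icc (0:ℝ) 1 := fun t => (e.symm (Set.projIcc 0 C hC0.le t)).2
  refine ⟨y, hycont, fun t => ⟨(hyI t).1, (hyI t).2⟩, ?_, ?_, ?_⟩
  · intro t ht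
    have h1 : y t = y 0 := by
      simp only [y]
      rw [Set.projIcc_of_le_left hC0.le ht, Set.projIcc_left]
    rw [h1]
    have h2 := hFy 0 (Set.left_mem_Icc.mpr hC0.le)
    exact hmono.injOn (hyI 0) (Set.left_mem_Icc.mpr zero_le_one) (by rw [h2, pa_F_zero])
  · intro t ht
    have h1 : y t = y C := by
      simp only [y]
      rw [Set.projIcc_of_right_le hC0.le ht, Set.projIcc_right]
    rw [h1]
    have h2 := hFy C (Set.right_mem_Icc.mpr hC0.le)
    exact hmono.injOn (hyI C) (Set.right_mem_Icc.mpr zero_le_one) (by rw [h2])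
  · intro t ht0 htC
    have hFt := hFy t ⟨ht0.le, htC.le⟩
    have hy0 : 0 < y t := by
      rcases (hyI t).1.eq_or_lt with h | h
      · rw [← h, pa_F_zero] at hFt
        linarith
      · exact h
    have hy1 : y t < 1 := by
      rcases (hyI t).2.eq_or_lt with h | h
      · rw [h] at hFt
        linarith
      · exact h
    refine ⟨hy0, hy1, ?_⟩
    have hd := pa_F_deriv hp hy0 hy1
    have hne : pa_g p (y t) ≠ 0 := (pa_g_pos hp hy0.le hy1).ne'
    have h1 := HasDerivAt.of_local_left_inverse hycont.continuousAt hd hne (by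
      filter_upwards [Ioo_mem_nhds ht0 htC] with s hs
      exact hFy s ⟨hs.1.le, hs.2.le⟩)
    have h2 : (pa_g p (y t))⁻¹ = (1 - y t ^ p) ^ (1 / p) := by
      unfold pa_g
      rw [Real.rpow_neg (by have := pa_pow_lt hp hy0.le hy1; linarith), inv_inv]
    rw [h2] at h1
    exact h1

/-! ### the maps `xk`, `vk` for an even continuous kernel -/

lemma pa_arcsin_cos {τ : ℝ} (h : |τ| ≤ Real.pi) : Real.arcsin (Real.cos τ) = Real.pi / 2 - |τ| := by
  rw [← Real.cos_abs, ← Real.sin_pi_div_two_sub, Real.arcsin_sin]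
  · linarith [abs_nonneg τ]
  · linarith [abs_nonneg τ]

lemma pa_sign_mono : Monotone (fun x : ℝ => ((SignType.sign x : SignType) : ℝ)) := by
  intro a b hab
  have h := (SignType.sign (α := ℝ)).monotone hab
  have h2 : ∀ s t : SignType, s ≤ t → (s : ℝ) ≤ (t : ℝ) := by
    intro s t hst
    cases s <;> cases t <;> simp at hst ⊢
  exact h2 _ _ h

lemma pa_int_even {k : ℝ → ℝ} (he : ∀ s, k (-s) = k s) (a : ℝ) :
    ∫ s in (-a)..0, k s = ∫ s in (0:ℝ)..a, k s := by
  have h := intervalIntegral.integral_comp_neg (f := k) (a := 0) (b := a)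
  rw [neg_zero] at h
  rw [← h]
  exact intervalIntegral.integral_congr (fun s _ => he s)

lemma pa_vk {k : ℝ → ℝ} (hk : Continuous k) (he : ∀ s, k (-s) = k s) {θ : ℝ} (h0 : 0 ≤ θ)
    (h1 : θ ≤ Real.pi / 2) : vk k θ = 4 / Real.pi * ∫ s in (0:ℝ)..θ, k s := by
  have hpi := Real.pi_pos
  unfold vk
  set f : ℝ → ℝ := fun s => k s * (2 / Real.pi * (SignType.sign (Real.sin (θ - s)) : ℝ)) with hf
  have hmeas : Measurable (fun s : ℝ => ((SignType.sign (Real.sin (θ - s)) : SignType) : ℝ)) := by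
    have h2 : Measurable (fun s : ℝ => Real.sin (θ - s)) := by fun_prop
    exact pa_sign_mono.measurable.comp h2
  have hfint : ∀ a b : ℝ, IntervalIntegrable f volume a b := by
    intro a b
    have h2 : IntervalIntegrable (fun s => (2 / Real.pi) * |k s|) volume a b :=
      (continuous_const.mul hk.abs).intervalIntegrable a b
    refine h2.mono_fun' ?_ ?_
    · exact (hk.measurable.mul (measurable_const.mul hmeas)).aestronglyMeasurable
    · refine Eventually.of_forall fun s => ?_
      have h3 : |((SignType.sign (Real.sin (θ - s)) : SignType) : ℝ)| ≤ 1 := by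
        generalize (SignType.sign (Real.sin (θ - s)) : SignType) = u
        cases u <;> simp
      simp only [hf, Real.norm_eq_abs, abs_mul]
      rw [abs_of_pos (by positivity : (0:ℝ) < 2 / Real.pi)]
      have h4 : 0 ≤ |k s| := abs_nonneg _
      have h5 : 0 < 2 / Real.pi := by positivity
      nlinarith [mul_nonneg h4 h5.le, mul_le_mul_of_nonneg_left h3 (mul_nonneg h4 h5.le)]
  rw [← intervalIntegral.integral_add_adjacent_intervals (hfint (-(Real.pi / 2)) θ)
    (hfint θ (Real.pi / 2))]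
  have e1 : ∫ s in (-(Real.pi / 2))..θ, f s = ∫ s in (-(Real.pi / 2))..θ, 2 / Real.pi * k s := by
    rw [intervalIntegral.integral_of_le (by linarith), intervalIntegral.integral_of_le (by linarith),
      integral_Ioc_eq_integral_Ioo, integral_Ioc_eq_integral_Ioo]
    refine setIntegral_congr_fun measurableSet_Ioo fun s hs => ?_
    have h2 : 0 < Real.sin (θ - s) := Real.sin_pos_of_pos_of_lt_pi (by linarith [hs.2])
      (by linarith [hs.1])
    simp only [hf]
    rw [sign_pos h2]
    simp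
    ring
  have e2 : ∫ s in θ..(Real.pi / 2), f s = ∫ s in θ..(Real.pi / 2), -(2 / Real.pi * k s) := by
    rw [intervalIntegral.integral_of_le (by linarith), intervalIntegral.integral_of_le (by linarith),
      integral_Ioc_eq_integral_Ioo, integral_Ioc_eq_integral_Ioo]
    refine setIntegral_congr_fun measurableSet_Ioo fun s hs => ?_
    have h2 : Real.sin (θ - s) < 0 := by
      have : 0 < Real.sin (s - θ) := Real.sin_pos_of_pos_of_lt_pi (by linarith [hs.1])
        (by linarith [hs.2])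
      have e : θ - s = -(s - θ) := by ring
      rw [e, Real.sin_neg]
      linarith
    simp only [hf]
    rw [sign_neg h2]
    simp
    ring
  rw [e1, e2, intervalIntegral.integral_neg, intervalIntegral.integral_const_mul,
    intervalIntegral.integral_const_mul]
  have hki : ∀ a b : ℝ, IntervalIntegrable k volume a b := fun a b => hk.intervalIntegrable a b
  rw [← intervalIntegral.integral_add_adjacent_intervals (hki (-(Real.pi / 2)) 0) (hki 0 θ),
    pa_int_even he]
  have e3 : ∫ s in θ..(Real.pi / 2), k s = (∫ s in (0:ℝ)..(Real.pi / 2), k s) -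
      ∫ s in (0:ℝ)..θ, k s := by
    rw [← intervalIntegral.integral_add_adjacent_intervals (hki 0 θ) (hki θ (Real.pi / 2))]
    ring
  rw [e3]
  ring

/-- explicit form of `xk` on `[0, π/2]` -/
def pa_X (k : ℝ → ℝ) (θ : ℝ) : ℝ :=
  2 * (∫ s in (0:ℝ)..(Real.pi / 2), k s) - 4 / Real.pi * (θ * (∫ s in (0:ℝ)..θ, k s) -
    (∫ s in (0:ℝ)..θ, s * k s) + ∫ s in (0:ℝ)..(Real.pi / 2), s * k s)

lemma pa_int_odd {k : ℝ → ℝ} (he : ∀ s, k (-s) = k s) (a : ℝ) :
    ∫ s in (-a)..0, s * k s = -∫ s in (0:ℝ)..a, s * k s := by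
  have h := intervalIntegral.integral_comp_neg (f := fun s => s * k s) (a := 0) (b := a)
  rw [neg_zero] at h
  rw [← h, ← intervalIntegral.integral_neg]
  refine intervalIntegral.integral_congr (fun s _ => ?_)
  simp only [he]
  ring

lemma pa_xk {k : ℝ → ℝ} (hk : Continuous k) (he : ∀ s, k (-s) = k s) {θ : ℝ} (h0 : 0 ≤ θ)
    (h1 : θ ≤ Real.pi / 2) : xk k θ = pa_X k θ := by
  have hpi := Real.pi_pos
  unfold xk
  have e0 : ∫ s in (-(Real.pi / 2))..(Real.pi / 2), k s *
      (2 / Real.pi * Real.arcsin (Real.cos (θ - s))) =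
      ∫ s in (-(Real.pi / 2))..(Real.pi / 2), k s * (2 / Real.pi * (Real.pi / 2 - |θ - s|)) := by
    refine intervalIntegral.integral_congr (fun s hs => ?_)
    rw [Set.uIcc_of_le (by linarith)] at hs
    have h2 : |θ - s| ≤ Real.pi := by
      rw [abs_le]
      constructor <;> linarith [hs.1, hs.2]
    simp only [pa_arcsin_cos h2]
  rw [e0]
  set f : ℝ → ℝ := fun s => k s * (2 / Real.pi * (Real.pi / 2 - |θ - s|)) with hf
  have hfc : Continuous f := by
    rw [hf]; fun_prop
  rw [← intervalIntegral.integral_add_adjacent_intervals (hfc.intervalIntegrable (-(Real.pi / 2)) θ)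
    (hfc.intervalIntegrable θ (Real.pi / 2))]
  have hki : ∀ a b : ℝ, IntervalIntegrable k volume a b := fun a b => hk.intervalIntegrable a b
  have hsk : Continuous (fun s => s * k s) := continuous_id.mul hk
  have hski : ∀ a b : ℝ, IntervalIntegrable (fun s => s * k s) volume a b :=
    fun a b => hsk.intervalIntegrable a b
  have e1 : ∫ s in (-(Real.pi / 2))..θ, f s = (1 - 2 / Real.pi * θ) *
      (∫ s in (-(Real.pi / 2))..θ, k s) + 2 / Real.pi * ∫ s in (-(Real.pi / 2))..θ, s * k s := by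
    rw [← intervalIntegral.integral_const_mul, ← intervalIntegral.integral_const_mul,
      ← intervalIntegral.integral_add ((hki _ _).const_mul _) ((hski _ _).const_mul _)]
    refine intervalIntegral.integral_congr (fun s hs => ?_)
    rw [Set.uIcc_of_le (by linarith)] at hs
    simp only [hf]
    rw [abs_of_nonneg (by linarith [hs.2])]
    field_simp
    ring
  have e2 : ∫ s in θ..(Real.pi / 2), f s = (1 + 2 / Real.pi * θ) *
      (∫ s in θ..(Real.pi / 2), k s) - 2 / Real.pi * ∫ s in θ..(Real.pi / 2), s * k s := by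
    rw [← intervalIntegral.integral_const_mul, ← intervalIntegral.integral_const_mul,
      ← intervalIntegral.integral_sub ((hki _ _).const_mul _) ((hski _ _).const_mul _)]
    refine intervalIntegral.integral_congr (fun s hs => ?_)
    rw [Set.uIcc_of_le (by linarith)] at hs
    simp only [hf]
    rw [abs_of_nonpos (by linarith [hs.1])]
    field_simp
    ring
  rw [e1, e2]
  rw [← intervalIntegral.integral_add_adjacent_intervals (hki (-(Real.pi / 2)) 0) (hki 0 θ),
    ← intervalIntegral.integral_add_adjacent_intervals (hski (-(Real.pi / 2)) 0) (hski 0 θ),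
    pa_int_even he, pa_int_odd he]
  have e3 : ∫ s in θ..(Real.pi / 2), k s = (∫ s in (0:ℝ)..(Real.pi / 2), k s) -
      ∫ s in (0:ℝ)..θ, k s := by
    rw [← intervalIntegral.integral_add_adjacent_intervals (hki 0 θ) (hki θ (Real.pi / 2))]
    ring
  have e4 : ∫ s in θ..(Real.pi / 2), s * k s = (∫ s in (0:ℝ)..(Real.pi / 2), s * k s) -
      ∫ s in (0:ℝ)..θ, s * k s := by
    rw [← intervalIntegral.integral_add_adjacent_intervals (hski 0 θ) (hski θ (Real.pi / 2))]
    ring
  rw [e3, e4]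
  unfold pa_X
  ring

lemma pa_X_deriv {k : ℝ → ℝ} (hk : Continuous k) (θ : ℝ) :
    HasDerivAt (pa_X k) (-(4 / Real.pi * ∫ s in (0:ℝ)..θ, k s)) θ := by
  have hsk : Continuous (fun s => s * k s) := continuous_id.mul hk
  have h1 : HasDerivAt (fun θ => ∫ s in (0:ℝ)..θ, k s) (k θ) θ :=
    intervalIntegral.integral_hasDerivAt_right (hk.intervalIntegrable _ _)
      hk.measurable.stronglyMeasurable.stronglyMeasurableAtFilter hk.continuousAt
  have h2 : HasDerivAt (fun θ => ∫ s in (0:ℝ)..θ, s * k s) (θ * k θ) θ :=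
    intervalIntegral.integral_hasDerivAt_right (hsk.intervalIntegrable _ _)
      hsk.measurable.stronglyMeasurable.stronglyMeasurableAtFilter hsk.continuousAt
  have h3 := ((((hasDerivAt_id θ).mul h1).sub h2).add_const
    (∫ s in (0:ℝ)..(Real.pi / 2), s * k s)).const_mul (4 / Real.pi)
  have h4 := h3.const_sub (2 * (∫ s in (0:ℝ)..(Real.pi / 2), k s))
  refine h4.congr_deriv ?_
  simp

lemma pa_X_end (k : ℝ → ℝ) : pa_X k (Real.pi / 2) = 0 := by
  have hpi := Real.pi_pos
  unfold pa_X
  field_simp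
  ring

/-- reflection -/
lemma pa_xk_refl {k : ℝ → ℝ} (he : ∀ s, k (-s) = k s) (θ : ℝ) :
    xk k (Real.pi - θ) = - xk k θ := by
  unfold xk
  have h := intervalIntegral.integral_comp_neg (a := -(Real.pi / 2)) (b := Real.pi / 2)
    (f := fun s => k s * (2 / Real.pi * Real.arcsin (Real.cos (θ - s))))
  rw [neg_neg] at h
  rw [← h, ← intervalIntegral.integral_neg]
  refine intervalIntegral.integral_congr (fun s _ => ?_)
  have e : Real.pi - θ - s = Real.pi - (θ - -s) := by ring
  simp only [he]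
  rw [e, Real.cos_pi_sub, Real.arcsin_neg]
  ring

lemma pa_vk_refl {k : ℝ → ℝ} (he : ∀ s, k (-s) = k s) (θ : ℝ) :
    vk k (Real.pi - θ) = vk k θ := by
  unfold vk
  have h := intervalIntegral.integral_comp_neg (a := -(Real.pi / 2)) (b := Real.pi / 2)
    (f := fun s => k s * (2 / Real.pi * (SignType.sign (Real.sin (θ - s)) : ℝ)))
  rw [neg_neg] at h
  rw [← h]
  refine intervalIntegral.integral_congr (fun s _ => ?_)
  have e : Real.pi - θ - s = Real.pi - (θ - -s) := by ring
  simp only [he]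
  rw [e, Real.sin_pi_sub]

/-- PA: the `p`-cosine -/
theorem PA : S_PA := by
  intro p hp1 hp2
  have hpi := Real.pi_pos
  have hp0 : 0 < p := by linarith
  obtain ⟨y, hyc, hyI, hyl, hyr, hyd⟩ := pa_y hp1
  set C := pa_F p 1 with hC
  have hC0 : 0 < C := pa_C_pos hp1
  have hCdef : C = ∫ t in (0:ℝ)..1, (1 - t ^ p) ^ (-(1 / p)) := rfl
  set A : ℝ := 2 / Real.pi * C with hA
  have hA0 : 0 < A := by positivity
  have hAC : A * (Real.pi / 2) = C := by rw [hA]; field_simp
  set x : ℝ → ℝ := fun s => y (C - A * |s|) with hx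
  have hxc : Continuous x := hyc.comp (continuous_const.sub (continuous_const.mul continuous_abs))
  have hxI : ∀ s, 0 ≤ x s ∧ x s ≤ 1 := fun s => hyI _
  have hxeven : ∀ s, x (-s) = x s := fun s => by simp only [hx, abs_neg]
  have hx0 : x 0 = 1 := by
    simp only [hx, abs_zero, mul_zero, sub_zero]
    exact hyr C le_rfl
  have hxend : x (Real.pi / 2) = 0 := by
    simp only [hx]
    rw [abs_of_pos (by positivity), hAC, sub_self]
    exact hyl 0 le_rfl
  have hxmid : ∀ s, 0 < |s| → |s| < Real.pi / 2 → 0 < C - A * |s| ∧ C - A * |s| < C := by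
    intro s h0 h1
    constructor
    · rw [← hAC]
      have := mul_lt_mul_of_pos_left h1 hA0
      linarith
    · have := mul_pos hA0 h0
      linarith
  have hxpos : ∀ s, 0 < |s| → |s| < Real.pi / 2 → 0 < x s ∧ x s < 1 := by
    intro s h0 h1
    obtain ⟨h2, h3⟩ := hxmid s h0 h1
    obtain ⟨h4, h5, _⟩ := hyd _ h2 h3
    exact ⟨h4, h5⟩
  have hxp : ∀ s, 0 ≤ 1 - x s ^ p := by
    intro s
    have := Real.rpow_le_one (hxI s).1 (hxI s).2 hp0.le
    linarith
  set k : ℝ → ℝ := fun s => Real.pi / 4 * A ^ 2 * (x s ^ (p - 1) * (1 - x s ^ p) ^ (2 / p - 1))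
    with hk
  have h2p : 0 < 2 / p - 1 := by
    rw [sub_pos, lt_div_iff₀ hp0]
    linarith
  have hkc : Continuous k := by
    have h1 : Continuous (fun s => x s ^ (p - 1)) :=
      hxc.rpow_const (fun s => Or.inr (by linarith))
    have h2 : Continuous (fun s => x s ^ p) := hxc.rpow_const (fun s => Or.inr hp0.le)
    have h3 : Continuous (fun s => (1 - x s ^ p) ^ (2 / p - 1)) :=
      (continuous_const.sub h2).rpow_const (fun s => Or.inr h2p.le)
    exact continuous_const.mul (h1.mul h3)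
  have hke : ∀ s, k (-s) = k s := fun s => by simp only [hk, hxeven]
  have hker : Ker k := by
    refine ⟨hkc, hke, ?_, ?_⟩
    · intro s
      have h1 := Real.rpow_nonneg (hxI s).1 (p - 1)
      have h2 := Real.rpow_nonneg (hxp s) (2 / p - 1)
      simp only [hk]
      positivity
    · intro s h0 h1
      obtain ⟨h2, h3⟩ := hxpos s h0 h1
      have h4 : 0 < 1 - x s ^ p := by
        have := pa_pow_lt hp1 h2.le h3
        linarith
      have h5 := Real.rpow_pos_of_pos h2 (p - 1)
      have h6 := Real.rpow_pos_of_pos h4 (2 / p - 1)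
      simp only [hk]
      positivity
  -- derivative of x
  have hxd : ∀ s, 0 < s → s < Real.pi / 2 → HasDerivAt x (-(A * (1 - x s ^ p) ^ (1 / p))) s := by
    intro s h0 h1
    have hs : |s| = s := abs_of_pos h0
    obtain ⟨h2, h3⟩ := hxmid s (by rw [hs]; exact h0) (by rw [hs]; exact h1)
    obtain ⟨_, _, h4⟩ := hyd _ h2 h3
    have h5 : HasDerivAt (fun s : ℝ => C - A * |s|) (-(A * 1)) s :=
      ((hasDerivAt_abs_pos h0).const_mul A).const_sub C
    have h6 := HasDerivAt.comp s h4 h5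
    refine h6.congr_deriv ?_
    simp only [hx]
    ring
  -- the speed
  set v : ℝ → ℝ := fun s => A * (1 - x s ^ p) ^ (1 / p) with hv
  have hvc : Continuous v := by
    have h2 : Continuous (fun s => x s ^ p) := hxc.rpow_const (fun s => Or.inr hp0.le)
    exact continuous_const.mul ((continuous_const.sub h2).rpow_const
      (fun s => Or.inr (by positivity)))
  have hv0 : v 0 = 0 := by
    simp only [hv, hx0, Real.one_rpow, sub_self]
    rw [Real.zero_rpow (by positivity), mul_zero]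
  have hvd : ∀ s, 0 < s → s < Real.pi / 2 → HasDerivAt v (4 / Real.pi * k s) s := by
    intro s h0 h1
    have hs : |s| = s := abs_of_pos h0
    obtain ⟨h2, h3⟩ := hxpos s (by rw [hs]; exact h0) (by rw [hs]; exact h1)
    have h4 : 0 < 1 - x s ^ p := by
      have := pa_pow_lt hp1 h2.le h3
      linarith
    have h5 := (hxd s h0 h1).rpow_const (p := p) (Or.inl h2.ne')
    have h6 := (h5.const_sub 1).rpow_const (p := 1 / p) (Or.inl h4.ne')
    have h7 := h6.const_mul A
    refine h7.congr_deriv ?_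
    simp only [hk]
    set w := 1 - x s ^ p with hw
    have e1 : w ^ (2 / p - 1) = w ^ (1 / p) * w ^ (1 / p - 1) := by
      rw [← Real.rpow_add h4]
      congr 1
      ring
    rw [e1]
    field_simp
  have hK : ∀ θ, 0 ≤ θ → θ ≤ Real.pi / 2 → 4 / Real.pi * (∫ s in (0:ℝ)..θ, k s) = v θ := by
    intro θ h0 h1
    have h2 := intervalIntegral.integral_eq_sub_of_hasDerivAt_of_le h0 hvc.continuousOn
      (fun s hs => hvd s hs.1 (hs.2.trans_le h1))
      ((continuous_const.mul hkc).intervalIntegrable _ _)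
    rw [intervalIntegral.integral_const_mul, hv0, sub_zero] at h2
    exact h2
  have hX : ∀ θ, 0 ≤ θ → θ ≤ Real.pi / 2 → pa_X k θ = x θ := by
    intro θ h0 h1
    have hXc : Continuous (pa_X k) :=
      continuous_iff_continuousAt.mpr fun s => (pa_X_deriv hkc s).continuousAt
    have hd1 : ∀ s ∈ Set.Ioo θ (Real.pi / 2), HasDerivAt (pa_X k) (-(v s)) s := by
      intro s hs
      rw [← hK s (h0.trans hs.1.le) hs.2.le]
      exact pa_X_deriv hkc s
    have hd2 : ∀ s ∈ Set.Ioo θ (Real.pi / 2), HasDerivAt x (-(v s)) s := by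
      intro s hs
      exact hxd s (h0.trans_lt hs.1) hs.2
    have e1 := intervalIntegral.integral_eq_sub_of_hasDerivAt_of_le h1 hXc.continuousOn hd1
      (hvc.neg.intervalIntegrable _ _)
    have e2 := intervalIntegral.integral_eq_sub_of_hasDerivAt_of_le h1 hxc.continuousOn hd2
      (hvc.neg.intervalIntegrable _ _)
    rw [pa_X_end] at e1
    rw [hxend] at e2
    linarith
  have hxk : ∀ θ, 0 ≤ θ → θ ≤ Real.pi / 2 → xk k θ = x θ := fun θ h0 h1 =>
    (pa_xk hkc hke h0 h1).trans (hX θ h0 h1)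
  have hvk : ∀ θ, 0 ≤ θ → θ ≤ Real.pi / 2 → vk k θ = v θ := fun θ h0 h1 =>
    (pa_vk hkc hke h0 h1).trans (hK θ h0 h1)
  refine ⟨k, hker, ?_, ?_⟩
  · rw [hxk 0 le_rfl (by positivity), hx0]
  · -- the claim on (0, π/2]
    have main : ∀ θ, 0 < θ → θ ≤ Real.pi / 2 → |xk k θ| < 1 ∧ vk k θ =
        2 / Real.pi * (∫ t in (0:ℝ)..1, (1 - t ^ p) ^ (-(1 / p))) *
          (1 - |xk k θ| ^ p) ^ (1 / p) := by
      intro θ h0 h1
      rw [hxk θ h0.le h1, hvk θ h0.le h1, abs_of_nonneg (hxI θ).1]
      refine ⟨?_, rfl⟩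
      rcases h1.eq_or_lt with h | h
      · rw [h, hxend]; exact zero_lt_one
      · exact (hxpos θ (by rw [abs_of_pos h0]; exact h0) (by rw [abs_of_pos h0]; exact h)).2
    intro θ h0 h1
    rcases le_total θ (Real.pi / 2) with h | h
    · exact main θ h0 h
    · have h2 := main (Real.pi - θ) (by linarith) (by linarith)
      rw [pa_xk_refl hke, pa_vk_refl hke, abs_neg] at h2
      exact h2

end H845LP
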