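import Pool.Agent.H845R4.LP.Stm
import Pool.Agent.H712R2.MA.H1
import Pool.Agent.H712R2.MA.H3

/-!
# Task PB: the maps `HK`, `TK` (helper251)
-/

set_option autoImplicit false

noncomputable section

open MeasureTheory Filter Topology
open scoped BigOperators Matrix ENNReal

namespace H845LP

open H712MA

namespace PBaux

lemma norm_cis (s : ℝ) : ‖cis s‖ = 1 := by
  unfold cis
  exact Complex.norm_exp_ofReal_mul_I s

lemma cont_cis : Continuous cis := by
  unfold cis
  fun_prop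

lemma conj_cis (s : ℝ) : starRingEnd ℂ (cis s) = cis (-s) := by
  unfold cis
  rw [← Complex.exp_conj, map_mul, Complex.conj_ofReal, Complex.conj_I]
  push_cast
  ring_nf

lemma cis_re (s : ℝ) : (cis s).re = Real.cos s := by
  unfold cis; exact Complex.exp_ofReal_mul_I_re s

lemma cis_im (s : ℝ) : (cis s).im = Real.sin s := by
  unfold cis; exact Complex.exp_ofReal_mul_I_im s

lemma norm_rot (ζ : ℂ) (s : ℝ) : ‖ζ * cis s‖ = ‖ζ‖ := by
  rw [norm_mul, norm_cis, mul_one]

lemma hh_neg (z : ℂ) : hh (-z) = -hh z := by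
  unfold hh
  rw [← mul_neg, ← tsum_neg]
  congr 1
  refine tsum_congr fun j => ?_
  rw [Odd.neg_pow ⟨j, rfl⟩, neg_div]

lemma hd_neg (z : ℂ) : hd (-z) = hd z := by
  unfold hd
  congr 1
  refine tsum_congr fun j => ?_
  rw [Even.neg_pow ⟨j, by ring⟩]

lemma gg_neg (z : ℂ) : gg (-z) = -gg z := by
  unfold gg
  rw [hd_neg, neg_mul]

lemma gg_conj (z : ℂ) : gg (starRingEnd ℂ z) = starRingEnd ℂ (gg z) := by
  unfold gg
  rw [H1.2.2.2.1 z, map_mul]

lemma hh_zero : hh 0 = 0 := by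
  have := hh_neg 0
  rw [neg_zero] at this
  linear_combination (1 / 2) * this

lemma cont_hh : ContinuousOn hh (Metric.ball 0 1) := fun z hz =>
  (H1.1 z (by simpa using hz)).continuousAt.continuousWithinAt

lemma cont_hd : ContinuousOn hd (Metric.ball 0 1) := H1.2.2.2.2.2.2.2.2.continuousOn

lemma cont_gg : ContinuousOn gg (Metric.ball 0 1) := H3.2.2.2.2.2

lemma cont_comp {f : ℂ → ℂ} (hf : ContinuousOn f (Metric.ball 0 1)) {ζ : ℂ} (hζ : ‖ζ‖ < 1) :
    Continuous fun s : ℝ => f (ζ * cis (-s)) := by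
  refine hf.comp_continuous (by have := cont_cis; fun_prop) fun s => ?_
  rw [mem_ball_zero_iff, norm_rot]
  exact hζ

/-- evenness -/
lemma int_neg (F : ℝ → ℂ) :
    ∫ s in (-(Real.pi / 2))..(Real.pi / 2), F (-s) = ∫ s in (-(Real.pi / 2))..(Real.pi / 2), F s := by
  rw [intervalIntegral.integral_comp_neg, neg_neg]

lemma int_conj (F : ℝ → ℂ) (a b : ℝ) :
    ∫ s in a..b, starRingEnd ℂ (F s) = starRingEnd ℂ (∫ s in a..b, F s) := by
  unfold intervalIntegral
  rw [integral_conj, integral_conj, map_sub]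

/-- folding an integral -/
lemma fold (F : ℝ → ℝ) (hF : Continuous F) :
    ∫ s in (-(Real.pi / 2))..(Real.pi / 2), F s = ∫ s in (0 : ℝ)..(Real.pi / 2), (F s + F (-s)) := by
  have hF' : Continuous fun s => F (-s) := hF.comp continuous_neg
  rw [intervalIntegral.integral_add (hF.intervalIntegrable _ _) (hF'.intervalIntegrable _ _),
    intervalIntegral.integral_comp_neg, neg_zero,
    ← intervalIntegral.integral_add_adjacent_intervals (hF.intervalIntegrable _ 0)
    (hF.intervalIntegrable 0 _), add_comm]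

lemma fold_pos (F : ℝ → ℝ) (hF : Continuous F)
    (hpos : ∀ s, 0 < s → s < Real.pi / 2 → 0 < F s + F (-s)) :
    0 < ∫ s in (-(Real.pi / 2))..(Real.pi / 2), F s := by
  rw [fold F hF]
  refine intervalIntegral.intervalIntegral_pos_of_pos_on ?_ (fun s hs => hpos s hs.1 hs.2)
    Real.pi_div_two_pos
  exact (hF.add (hF.comp continuous_neg)).intervalIntegrable _ _

lemma int_re (F : ℝ → ℂ) (hF : Continuous F) (a b : ℝ) :
    (∫ s in a..b, F s).re = ∫ s in a..b, (F s).re := by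
  have := Complex.reCLM.intervalIntegral_comp_comm (hF.intervalIntegrable (μ := volume) a b)
  simpa using this.symm

lemma int_im (F : ℝ → ℂ) (hF : Continuous F) (a b : ℝ) :
    (∫ s in a..b, F s).im = ∫ s in a..b, (F s).im := by
  have := Complex.imCLM.intervalIntegral_comp_comm (hF.intervalIntegrable (μ := volume) a b)
  simpa using this.symm

/-- imaginary part of `gg` -/
lemma gg_im' {z : ℂ} (hz : ‖z‖ < 1) :
    (gg z).im = 4 / Real.pi ^ 2 * Real.arctan (2 * z.im / (1 - ‖z‖ ^ 2)) := by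
  rw [gg_im hz]
  congr 1
  have h1 := abs_lt.1 (abs_arg_cay_lt hz)
  have h2 := Complex.tan_arg (cay z)
  rw [← Real.arctan_tan h1.1 h1.2, h2, cay_re, cay_im, Complex.normSq_eq_norm_sq z]
  congr 1
  have h3 := (normSq_pos_of hz).ne'
  have h4 : (1 : ℝ) - ‖z‖ ^ 2 ≠ 0 := by
    have := norm_nonneg z
    nlinarith
  field_simp

lemma gg_im_pos {z w : ℂ} (hz : ‖z‖ < 1) (hw : ‖w‖ = ‖z‖) (h : 0 < z.im + w.im) :
    0 < (gg z).im + (gg w).im := by
  rw [gg_im' hz, gg_im' (by rw [hw]; exact hz), hw, ← mul_add]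
  have h1 : 0 < 1 - ‖z‖ ^ 2 := by
    have := norm_nonneg z
    nlinarith
  have h2 : Real.arctan (-(2 * w.im / (1 - ‖z‖ ^ 2))) < Real.arctan (2 * z.im / (1 - ‖z‖ ^ 2)) := by
    refine Real.arctan_strictMono ?_
    rw [← neg_div]
    exact div_lt_div_of_pos_right (by linarith) h1
  rw [Real.arctan_neg] at h2
  exact mul_pos c_pos (by linarith)

/-- real part of `gg` -/
lemma gg_re' {z : ℂ} (hz : ‖z‖ < 1) :
    (gg z).re = 4 / Real.pi ^ 2 * Real.log ‖cay z‖ := by
  rw [gg_eq hz]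
  have : (4 / (Real.pi : ℂ) ^ 2) = ((4 / Real.pi ^ 2 : ℝ) : ℂ) := by push_cast; ring
  rw [this, Complex.re_ofReal_mul, Complex.log_re]

lemma cay_normSq {z : ℂ} : ‖cay z‖ ^ 2 = (1 + ‖z‖ ^ 2 + 2 * z.re) / (1 + ‖z‖ ^ 2 - 2 * z.re) := by
  unfold cay
  rw [norm_div, div_pow, ← Complex.normSq_eq_norm_sq, ← Complex.normSq_eq_norm_sq,
    ← Complex.normSq_eq_norm_sq]
  simp only [Complex.normSq_apply, Complex.add_re, Complex.one_re, Complex.sub_re, Complex.add_im,
    Complex.one_im, Complex.sub_im]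
  congr 1 <;> ring

lemma gg_re_pos {z w : ℂ} (hz : ‖z‖ < 1) (hw : ‖w‖ = ‖z‖) (h : 0 < z.re + w.re) :
    0 < (gg z).re + (gg w).re := by
  have hw' : ‖w‖ < 1 := by rw [hw]; exact hz
  rw [gg_re' hz, gg_re' hw', ← mul_add]
  refine mul_pos c_pos ?_
  have hz0 : 0 < ‖cay z‖ := by
    rw [norm_pos_iff]
    intro h0
    have := cay_re_pos hz
    rw [h0] at this
    simp at this
  have hw0 : 0 < ‖cay w‖ := by
    rw [norm_pos_iff]
    intro h0
    have := cay_re_pos hw'
    rw [h0] at this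
    simp at this
  rw [← Real.log_mul hz0.ne' hw0.ne']
  refine Real.log_pos ?_
  have hn := norm_nonneg z
  have a1 := abs_le.1 (Complex.abs_re_le_norm z)
  have a2 := abs_le.1 (Complex.abs_re_le_norm w)
  rw [hw] at a2
  have h5 : 0 < 1 + ‖z‖ ^ 2 - 2 * z.re := by nlinarith
  have h6 : 0 < 1 + ‖z‖ ^ 2 - 2 * w.re := by nlinarith
  have h7 : 1 < (‖cay z‖ * ‖cay w‖) ^ 2 := by
    rw [mul_pow, cay_normSq, cay_normSq, hw, div_mul_div_comm, one_lt_div (mul_pos h5 h6)]
    have : 0 < (1 + ‖z‖ ^ 2) * (z.re + w.re) := by positivity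
    nlinarith
  nlinarith [mul_pos hz0 hw0]

variable {k : ℝ → ℝ}

lemma cont_k (hk : Ker k) : Continuous fun s : ℝ => (k s : ℂ) :=
  Complex.continuous_ofReal.comp hk.cont

lemma cont_TK (hk : Ker k) {ζ : ℂ} (hζ : ‖ζ‖ < 1) :
    Continuous fun s : ℝ => (k s : ℂ) * gg (ζ * cis (-s)) :=
  (cont_k hk).mul (cont_comp cont_gg hζ)

lemma cont_HK (hk : Ker k) {ζ : ℂ} (hζ : ‖ζ‖ < 1) :
    Continuous fun s : ℝ => (k s : ℂ) * hh (ζ * cis (-s)) :=
  (cont_k hk).mul (cont_comp cont_hh hζ)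

lemma cont_HKd (hk : Ker k) {ζ : ℂ} (hζ : ‖ζ‖ < 1) :
    Continuous fun s : ℝ => (k s : ℂ) * (hd (ζ * cis (-s)) * cis (-s)) :=
  (cont_k hk).mul ((cont_comp cont_hd hζ).mul (cont_cis.comp continuous_neg))

/-- (1) the derivative -/
lemma deriv_HK (hk : Ker k) (ζ : ℂ) (hζ : ‖ζ‖ < 1) : HasDerivAt (HK k) (HKd k ζ) ζ := by
  obtain ⟨ρ, hρ0, hzρ, hρ1⟩ := H1aux.exists_between' ζ hζ
  obtain ⟨M, hM⟩ := (isCompact_closedBall (0 : ℂ) ρ).exists_bound_of_continuousOn
    (cont_hd.mono (Metric.closedBall_subset_ball hρ1))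
  have hs : Metric.ball (0 : ℂ) ρ ∈ 𝓝 ζ := Metric.isOpen_ball.mem_nhds (by simpa using hzρ)
  have hsub : ∀ x ∈ Metric.ball (0 : ℂ) ρ, ‖x‖ < 1 := fun x hx =>
    lt_trans (by simpa using hx) hρ1
  refine (intervalIntegral.hasDerivAt_integral_of_dominated_loc_of_deriv_le
    (μ := volume) (a := -(Real.pi / 2)) (b := Real.pi / 2)
    (F := fun (x : ℂ) (s : ℝ) => (k s : ℂ) * hh (x * cis (-s)))
    (F' := fun (x : ℂ) (s : ℝ) => (k s : ℂ) * (hd (x * cis (-s)) * cis (-s)))
    (bound := fun s => |k s| * M) hs ?_ ?_ ?_ ?_ ?_ ?_).2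
  · filter_upwards [hs] with x hx
    exact (cont_HK hk (hsub x hx)).aestronglyMeasurable
  · exact (cont_HK hk hζ).intervalIntegrable _ _
  · exact (cont_HKd hk hζ).aestronglyMeasurable
  · refine Filter.Eventually.of_forall fun s _ x hx => ?_
    rw [norm_mul, norm_mul, norm_cis, mul_one, Complex.norm_real, Real.norm_eq_abs]
    refine mul_le_mul_of_nonneg_left (hM _ ?_) (abs_nonneg _)
    rw [mem_closedBall_zero_iff, norm_rot]
    exact (mem_ball_zero_iff.1 hx).le
  · exact (hk.cont.abs.mul continuous_const).intervalIntegrable _ _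
  · refine Filter.Eventually.of_forall fun s _ x hx => ?_
    have h1 : HasDerivAt (fun x : ℂ => x * cis (-s)) (cis (-s)) x := by
      simpa using (hasDerivAt_id x).mul_const (cis (-s))
    have h2 := (H1.1 (x * cis (-s)) (by rw [norm_rot]; exact hsub x hx)).comp x h1
    exact h2.const_mul _

lemma TK_eq (ζ : ℂ) : ζ * HKd k ζ = TK k ζ := by
  unfold HKd TK
  rw [← intervalIntegral.integral_const_mul]
  refine intervalIntegral.integral_congr fun s _ => ?_
  simp only [gg]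
  ring

lemma HK_conj (hk : Ker k) (ζ : ℂ) : HK k (starRingEnd ℂ ζ) = starRingEnd ℂ (HK k ζ) := by
  unfold HK
  rw [← int_conj, ← int_neg]
  refine intervalIntegral.integral_congr fun s _ => ?_
  rw [hk.even, neg_neg, map_mul, Complex.conj_ofReal, ← H1.2.2.1, map_mul, conj_cis, neg_neg]

lemma TK_conj (hk : Ker k) (ζ : ℂ) : TK k (starRingEnd ℂ ζ) = starRingEnd ℂ (TK k ζ) := by
  unfold TK
  rw [← int_conj, ← int_neg]
  refine intervalIntegral.integral_congr fun s _ => ?_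
  rw [hk.even, neg_neg, map_mul, Complex.conj_ofReal, ← gg_conj, map_mul, conj_cis, neg_neg]

lemma HK_neg (ζ : ℂ) : HK k (-ζ) = -HK k ζ := by
  unfold HK
  rw [← intervalIntegral.integral_neg]
  refine intervalIntegral.integral_congr fun s _ => ?_
  rw [neg_mul, hh_neg, mul_neg]

lemma TK_neg (ζ : ℂ) : TK k (-ζ) = -TK k ζ := by
  unfold TK
  rw [← intervalIntegral.integral_neg]
  refine intervalIntegral.integral_congr fun s _ => ?_
  rw [neg_mul, gg_neg, mul_neg]

lemma HK_zero : HK k 0 = 0 := by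
  have := HK_neg (k := k) 0
  rw [neg_zero] at this
  linear_combination (1 / 2) * this

lemma TK_im_pos (hk : Ker k) {ζ : ℂ} (hζ : ‖ζ‖ < 1) (h : 0 < ζ.im) : 0 < (TK k ζ).im := by
  have hc := cont_TK hk hζ
  unfold TK
  rw [int_im _ hc]
  refine fold_pos _ (Complex.continuous_im.comp hc) ?_
  intro s hs hs'
  simp only [Complex.im_ofReal_mul, hk.even, neg_neg]
  rw [← mul_add]
  refine mul_pos (hk.pos s (by rw [abs_of_pos hs]; exact hs) (by rw [abs_of_pos hs]; exact hs')) ?_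
  refine gg_im_pos (by rw [norm_rot]; exact hζ) (by rw [norm_rot, norm_rot]) ?_
  rw [Complex.mul_im, Complex.mul_im, cis_re, cis_re, cis_im, cis_im, Real.cos_neg, Real.sin_neg]
  have := Real.cos_pos_of_mem_Ioo ⟨by linarith, hs'⟩
  have h2 := mul_pos h this
  linarith

lemma TK_re_pos (hk : Ker k) {ζ : ℂ} (hζ : ‖ζ‖ < 1) (h : 0 < ζ.re) : 0 < (TK k ζ).re := by
  have hc := cont_TK hk hζ
  unfold TK
  rw [int_re _ hc]
  refine fold_pos _ (Complex.continuous_re.comp hc) ?_
  intro s hs hs'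
  simp only [Complex.re_ofReal_mul, hk.even, neg_neg]
  rw [← mul_add]
  refine mul_pos (hk.pos s (by rw [abs_of_pos hs]; exact hs) (by rw [abs_of_pos hs]; exact hs')) ?_
  refine gg_re_pos (by rw [norm_rot]; exact hζ) (by rw [norm_rot, norm_rot]) ?_
  rw [Complex.mul_re, Complex.mul_re, cis_re, cis_re, cis_im, cis_im, Real.cos_neg, Real.sin_neg]
  have := Real.cos_pos_of_mem_Ioo ⟨by linarith, hs'⟩
  have h2 := mul_pos h this
  linarith

/-- (5) the derivative at `0` -/
lemma HKd_zero (hk : Ker k) : ∃ c : ℝ, 0 < c ∧ HKd k 0 = (c : ℂ) := by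
  have hcpos : (0 : ℝ) < 8 / Real.pi ^ 2 := by positivity
  have hc : Continuous fun s : ℝ => (k s : ℂ) * (hd (0 * cis (-s)) * cis (-s)) :=
    cont_HKd hk (by simp)
  have hcst : (8 / (Real.pi : ℂ) ^ 2) = ((8 / Real.pi ^ 2 : ℝ) : ℂ) := by push_cast; ring
  have e : ∀ s : ℝ, (k s : ℂ) * (hd (0 * cis (-s)) * cis (-s)) =
      ((k s * (8 / Real.pi ^ 2) : ℝ) : ℂ) * cis (-s) := by
    intro s
    rw [zero_mul, H1.2.2.2.2.2.1, hcst]
    push_cast
    ring
  have him : (HKd k 0).im = 0 := by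
    unfold HKd
    have hc' : Continuous fun s : ℝ => ((k s : ℂ) * (hd (0 * cis (-s)) * cis (-s))).im :=
      Complex.continuous_im.comp hc
    rw [int_im _ hc, fold _ hc']
    have : ∀ s : ℝ, (((k s : ℂ) * (hd (0 * cis (-s)) * cis (-s))).im +
        (((k (-s) : ℂ) * (hd (0 * cis (- -s)) * cis (- -s)))).im) = 0 := by
      intro s
      rw [e, e, Complex.im_ofReal_mul, Complex.im_ofReal_mul, hk.even, cis_im, cis_im, neg_neg,
        Real.sin_neg]
      ring
    simp only [this, intervalIntegral.integral_zero]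
  have hre : 0 < (HKd k 0).re := by
    unfold HKd
    rw [int_re _ hc]
    refine fold_pos _ (Complex.continuous_re.comp hc) ?_
    intro s hs hs'
    rw [e, e, Complex.re_ofReal_mul, Complex.re_ofReal_mul, hk.even, cis_re, cis_re, neg_neg,
      Real.cos_neg]
    have h1 := Real.cos_pos_of_mem_Ioo ⟨by linarith, hs'⟩
    have h2 := hk.pos s (by rw [abs_of_pos hs]; exact hs) (by rw [abs_of_pos hs]; exact hs')
    positivity
  exact ⟨(HKd k 0).re, hre, Complex.ext (by simp) (by simp [him])⟩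

lemma HKd_ne (hk : Ker k) {ζ : ℂ} (hζ : ‖ζ‖ < 1) : HKd k ζ ≠ 0 := by
  intro h0
  rcases eq_or_ne ζ 0 with rfl | hne
  · obtain ⟨c, hc, h⟩ := HKd_zero hk
    rw [h] at h0
    have : c = 0 := by exact_mod_cast h0
    linarith
  have hT : TK k ζ = 0 := by rw [← TK_eq, h0, mul_zero]
  rcases lt_trichotomy ζ.im 0 with hi | hi | hi
  · have := TK_im_pos hk (ζ := starRingEnd ℂ ζ) (by rwa [Complex.norm_conj]) (by simpa using hi)
    rw [TK_conj hk, hT] at this
    simp at this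
  · rcases lt_trichotomy ζ.re 0 with hr | hr | hr
    · have := TK_re_pos hk (ζ := -ζ) (by rwa [norm_neg]) (by simpa using hr)
      rw [TK_neg, hT] at this
      simp at this
    · exact hne (Complex.ext hr hi)
    · have := TK_re_pos hk hζ hr
      rw [hT] at this
      simp at this
  · have := TK_im_pos hk hζ hi
    rw [hT] at this
    simp at this

lemma norm_ray {ζ : ℂ} (hζ : ‖ζ‖ < 1) {t : ℝ} (ht : t ∈ Set.Icc (0 : ℝ) 1) : ‖(t : ℂ) * ζ‖ < 1 := by
  rw [norm_mul, Complex.norm_real, Real.norm_of_nonneg ht.1]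
  have := norm_nonneg ζ
  nlinarith [ht.1, ht.2]

lemma deriv_ray (hk : Ker k) {ζ : ℂ} (hζ : ‖ζ‖ < 1) {t : ℝ} (ht : t ∈ Set.Icc (0 : ℝ) 1) :
    HasDerivAt (fun t : ℝ => HK k ((t : ℂ) * ζ)) (HKd k ((t : ℂ) * ζ) * ζ) t := by
  have h1 : HasDerivAt (fun t : ℝ => (t : ℂ) * ζ) ζ t := by
    simpa using (hasDerivAt_id (t : ℂ)).comp_ofReal.mul_const ζ
  exact (deriv_HK hk ((t : ℂ) * ζ) (norm_ray hζ ht)).comp_of_eq t h1 rfl

lemma HK_im_pos (hk : Ker k) {ζ : ℂ} (hζ : ‖ζ‖ < 1) (h : 0 < ζ.im) : 0 < (HK k ζ).im := by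
  have hd : ∀ t ∈ Set.Icc (0 : ℝ) 1, HasDerivAt (fun t : ℝ => (HK k ((t : ℂ) * ζ)).im)
      ((HKd k ((t : ℂ) * ζ) * ζ).im) t := fun t ht =>
    Complex.imCLM.hasFDerivAt.comp_hasDerivAt t (deriv_ray hk hζ ht)
  obtain ⟨t, ht, hsl⟩ := exists_hasDerivAt_eq_slope (fun t : ℝ => (HK k ((t : ℂ) * ζ)).im)
    (fun t : ℝ => (HKd k ((t : ℂ) * ζ) * ζ).im) one_pos
    (fun t ht => (hd t ht).continuousAt.continuousWithinAt)
    (fun t ht => hd t (Set.Ioo_subset_Icc_self ht))
  simp only [Complex.ofReal_one, one_mul, Complex.ofReal_zero, zero_mul, HK_zero, Complex.zero_im,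
    sub_zero, div_one] at hsl
  rw [← hsl]
  have h2 := TK_im_pos hk (ζ := (t : ℂ) * ζ) (norm_ray hζ (Set.Ioo_subset_Icc_self ht))
    (by rw [Complex.im_ofReal_mul]; exact mul_pos ht.1 h)
  rw [← TK_eq, mul_assoc, Complex.im_ofReal_mul, mul_comm ζ] at h2
  exact (pos_iff_pos_of_mul_pos h2).1 ht.1

lemma HK_re_pos (hk : Ker k) {ζ : ℂ} (hζ : ‖ζ‖ < 1) (h : 0 < ζ.re) : 0 < (HK k ζ).re := by
  have hd : ∀ t ∈ Set.Icc (0 : ℝ) 1, HasDerivAt (fun t : ℝ => (HK k ((t : ℂ) * ζ)).re)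
      ((HKd k ((t : ℂ) * ζ) * ζ).re) t := fun t ht =>
    Complex.reCLM.hasFDerivAt.comp_hasDerivAt t (deriv_ray hk hζ ht)
  obtain ⟨t, ht, hsl⟩ := exists_hasDerivAt_eq_slope (fun t : ℝ => (HK k ((t : ℂ) * ζ)).re)
    (fun t : ℝ => (HKd k ((t : ℂ) * ζ) * ζ).re) one_pos
    (fun t ht => (hd t ht).continuousAt.continuousWithinAt)
    (fun t ht => hd t (Set.Ioo_subset_Icc_self ht))
  simp only [Complex.ofReal_one, one_mul, Complex.ofReal_zero, zero_mul, HK_zero, Complex.zero_re,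
    sub_zero, div_one] at hsl
  rw [← hsl]
  have h2 := TK_re_pos hk (ζ := (t : ℂ) * ζ) (norm_ray hζ (Set.Ioo_subset_Icc_self ht))
    (by rw [Complex.re_ofReal_mul]; exact mul_pos ht.1 h)
  rw [← TK_eq, mul_assoc, Complex.re_ofReal_mul, mul_comm ζ] at h2
  exact (pos_iff_pos_of_mul_pos h2).1 ht.1

/-- injectivity on the upper half of the disc -/
lemma inj_upper (hk : Ker k) {a b : ℂ} (ha : ‖a‖ < 1) (hb : ‖b‖ < 1) (ha' : 0 < a.im)
    (hb' : 0 < b.im) (h : HK k a = HK k b) : a = b := by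
  by_contra hne
  have ha0 : a ≠ 0 := by rintro rfl; simp at ha'
  have hb0 : b ≠ 0 := by rintro rfl; simp at hb'
  set u := Complex.log a with hu
  set v := Complex.log b with hv
  have hua : Complex.exp u = a := Complex.exp_log ha0
  have hvb : Complex.exp v = b := Complex.exp_log hb0
  have huv : u ≠ v := fun h => hne (by rw [← hua, ← hvb, h])
  have hur : u.re < 0 := by
    rw [hu, Complex.log_re]
    exact Real.log_neg (norm_pos_iff.2 ha0) ha
  have hvr : v.re < 0 := by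
    rw [hv, Complex.log_re]
    exact Real.log_neg (norm_pos_iff.2 hb0) hb
  have harg : ∀ c : ℂ, 0 < c.im → 0 < (Complex.log c).im ∧ (Complex.log c).im < Real.pi := by
    intro c hc
    rw [Complex.log_im]
    refine ⟨lt_of_le_of_ne (Complex.arg_nonneg_iff.2 hc.le) ?_,
      lt_of_le_of_ne (Complex.arg_le_pi c) ?_⟩
    · intro h0
      exact hc.ne' (Complex.arg_eq_zero_iff.1 h0.symm).2
    · intro h0
      exact hc.ne' (Complex.arg_eq_pi_iff.1 h0).2
  have hui := harg a ha'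
  have hvi := harg b hb'
  rw [← hu] at hui
  rw [← hv] at hvi
  set W : ℝ → ℂ := fun t => u + (t : ℂ) * (v - u) with hW
  have hWn : ∀ t ∈ Set.Icc (0 : ℝ) 1, ‖Complex.exp (W t)‖ < 1 ∧ 0 < (Complex.exp (W t)).im := by
    intro t ht
    have er : (W t).re = (1 - t) * u.re + t * v.re := by
      simp only [hW, Complex.add_re, Complex.re_ofReal_mul, Complex.sub_re]; ring
    have ei : (W t).im = (1 - t) * u.im + t * v.im := by
      simp only [hW, Complex.add_im, Complex.im_ofReal_mul, Complex.sub_im]; ring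
    have h0 := ht.1
    have h1 := ht.2
    have hre : (W t).re < 0 := by
      rw [er]
      rcases eq_or_lt_of_le h0 with h | h
      · rw [← h]; linarith
      · have := mul_neg_of_pos_of_neg h hvr
        have := mul_nonneg (by linarith : (0:ℝ) ≤ 1 - t) (by linarith : 0 ≤ -u.re)
        nlinarith
    have him0 : 0 < (W t).im := by
      rw [ei]
      rcases eq_or_lt_of_le h0 with h | h
      · rw [← h]; linarith
      · have := mul_pos h hvi.1
        have := mul_nonneg (by linarith : (0:ℝ) ≤ 1 - t) hui.1.le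
        linarith
    have him1 : (W t).im < Real.pi := by
      rw [ei]
      rcases eq_or_lt_of_le h0 with h | h
      · rw [← h]; linarith
      · have := mul_lt_mul_of_pos_left hvi.2 h
        have := mul_le_mul_of_nonneg_left hui.2.le (by linarith : (0:ℝ) ≤ 1 - t)
        nlinarith
    refine ⟨?_, ?_⟩
    · rw [Complex.norm_exp]
      rw [Real.exp_lt_one_iff]; exact hre
    · rw [Complex.exp_im]
      exact mul_pos (Real.exp_pos _) (Real.sin_pos_of_pos_of_lt_pi him0 him1)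
  have hder : ∀ t ∈ Set.Icc (0 : ℝ) 1, HasDerivAt
      (fun t : ℝ => ((starRingEnd ℂ) (v - u) * HK k (Complex.exp (W t))).im)
      (((starRingEnd ℂ) (v - u) * (HKd k (Complex.exp (W t)) *
        (Complex.exp (W t) * (v - u)))).im) t := by
    intro t ht
    have h1 : HasDerivAt W (v - u) t := by
      have := ((hasDerivAt_id (t : ℂ)).comp_ofReal.mul_const (v - u)).const_add u
      simpa [hW] using this
    have h2 : HasDerivAt (fun t => Complex.exp (W t)) (Complex.exp (W t) * (v - u)) t := h1.cexp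
    have h3 := (deriv_HK hk (Complex.exp (W t)) (hWn t ht).1).comp_of_eq t h2 rfl
    have h4 := h3.const_mul ((starRingEnd ℂ) (v - u))
    exact Complex.imCLM.hasFDerivAt.comp_hasDerivAt t h4
  obtain ⟨t, ht, hsl⟩ := exists_hasDerivAt_eq_slope _ _ (one_pos : (0 : ℝ) < 1)
    (fun t ht => (hder t ht).continuousAt.continuousWithinAt)
    (fun t ht => hder t (Set.Ioo_subset_Icc_self ht))
  have e0 : Complex.exp (W 0) = a := by rw [← hua]; simp [hW]
  have e1 : Complex.exp (W 1) = b := by rw [← hvb]; simp [hW]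
  have e2 : (starRingEnd ℂ) (v - u) * (HKd k (Complex.exp (W t)) *
        (Complex.exp (W t) * (v - u))) = ((‖v - u‖ ^ 2 : ℝ) : ℂ) * TK k (Complex.exp (W t)) := by
    have h : ((‖v - u‖ ^ 2 : ℝ) : ℂ) = (v - u) * (starRingEnd ℂ) (v - u) := by
      rw [Complex.mul_conj, Complex.normSq_eq_norm_sq]
    rw [h, ← TK_eq]
    ring
  simp only [e0, e1, e2, h, sub_self, zero_div, Complex.im_ofReal_mul] at hsl
  have h5 := TK_im_pos hk (hWn t (Set.Ioo_subset_Icc_self ht)).1
    (hWn t (Set.Ioo_subset_Icc_self ht)).2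
  have h6 : 0 < ‖v - u‖ ^ 2 := by
    have : 0 < ‖v - u‖ := norm_pos_iff.2 (sub_ne_zero.2 huv.symm)
    positivity
  have := mul_pos h6 h5
  linarith

lemma HK_im_zero (hk : Ker k) {ζ : ℂ} (h : ζ.im = 0) : (HK k ζ).im = 0 := by
  have e : starRingEnd ℂ ζ = ζ := Complex.conj_eq_iff_im.2 h
  have := HK_conj hk ζ
  rw [e] at this
  exact Complex.conj_eq_iff_im.1 this.symm

lemma HK_im_neg (hk : Ker k) {ζ : ℂ} (hζ : ‖ζ‖ < 1) (h : ζ.im < 0) : (HK k ζ).im < 0 := by
  have := HK_im_pos hk (ζ := starRingEnd ℂ ζ) (by rwa [Complex.norm_conj]) (by simpa using h)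
  rw [HK_conj hk] at this
  simpa using this

lemma HKd_re_pos (hk : Ker k) {x : ℝ} (hx : |x| < 1) : 0 < (HKd k (x : ℂ)).re := by
  have hn : ‖(x : ℂ)‖ < 1 := by rwa [Complex.norm_real, Real.norm_eq_abs]
  rcases lt_trichotomy x 0 with h | h | h
  · have h1 := TK_re_pos hk (ζ := -(x : ℂ)) (by rwa [norm_neg]) (by simpa using h)
    rw [TK_neg, ← TK_eq, Complex.neg_re, Complex.re_ofReal_mul] at h1
    by_contra hcon
    push Not at hcon
    nlinarith
  · subst h
    obtain ⟨c, hc, h⟩ := HKd_zero hk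
    rw [Complex.ofReal_zero, h]
    simpa using hc
  · have h1 := TK_re_pos hk (ζ := (x : ℂ)) hn (by simpa using h)
    rw [← TK_eq, Complex.re_ofReal_mul] at h1
    exact (pos_iff_pos_of_mul_pos h1).1 h

lemma inj_real (hk : Ker k) {x y : ℝ} (hx : |x| < 1) (hy : |y| < 1)
    (hxy : x < y) : (HK k (x : ℂ)).re < (HK k (y : ℂ)).re := by
  have hab : ∀ t ∈ Set.Icc x y, |t| < 1 := by
    intro t ht
    rw [abs_lt] at hx hy ⊢
    exact ⟨by linarith [ht.1], by linarith [ht.2]⟩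
  have hd : ∀ t ∈ Set.Icc x y, HasDerivAt (fun t : ℝ => (HK k (t : ℂ)).re)
      ((HKd k (t : ℂ)).re) t := by
    intro t ht
    have h1 := (deriv_HK hk (t : ℂ) (by
      rw [Complex.norm_real, Real.norm_eq_abs]; exact hab t ht)).comp_ofReal
    exact Complex.reCLM.hasFDerivAt.comp_hasDerivAt t h1
  obtain ⟨t, ht, hsl⟩ := exists_hasDerivAt_eq_slope (fun t : ℝ => (HK k (t : ℂ)).re)
    (fun t : ℝ => (HKd k (t : ℂ)).re) hxy
    (fun t ht => (hd t ht).continuousAt.continuousWithinAt)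
    (fun t ht => hd t (Set.Ioo_subset_Icc_self ht))
  have h2 := HKd_re_pos hk (hab t (Set.Ioo_subset_Icc_self ht))
  rw [hsl] at h2
  have h3 := (div_pos_iff_of_pos_right (by linarith : 0 < y - x)).1 h2
  linarith

lemma HK_inj (hk : Ker k) : Set.InjOn (HK k) (Metric.ball 0 1) := by
  intro a ha b hb h
  have ha1 : ‖a‖ < 1 := by simpa using ha
  have hb1 : ‖b‖ < 1 := by simpa using hb
  rcases lt_trichotomy a.im 0 with ha' | ha' | ha'
  · have h1 := HK_im_neg hk ha1 ha'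
    rcases lt_trichotomy b.im 0 with hb' | hb' | hb'
    · have e := inj_upper hk (a := starRingEnd ℂ a) (b := starRingEnd ℂ b)
        (by rwa [Complex.norm_conj]) (by rwa [Complex.norm_conj]) (by simpa using ha')
        (by simpa using hb') (by rw [HK_conj hk, HK_conj hk, h])
      exact (starRingEnd ℂ).injective e
    · have h2 := HK_im_zero hk hb'
      rw [h] at h1; linarith
    · have h2 := HK_im_pos hk hb1 hb'
      rw [h] at h1; linarith
  · have h1 := HK_im_zero hk ha'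
    rcases lt_trichotomy b.im 0 with hb' | hb' | hb'
    · have h2 := HK_im_neg hk hb1 hb'
      rw [h] at h1; linarith
    · have ea : a = (a.re : ℂ) := Complex.ext (by simp) (by simp [ha'])
      have eb : b = (b.re : ℂ) := Complex.ext (by simp) (by simp [hb'])
      have hna : |a.re| < 1 := lt_of_le_of_lt (Complex.abs_re_le_norm a) ha1
      have hnb : |b.re| < 1 := lt_of_le_of_lt (Complex.abs_re_le_norm b) hb1
      rw [ea, eb] at h
      rcases lt_trichotomy a.re b.re with hlt | heq | hlt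
      · have := inj_real hk hna hnb hlt
        rw [h] at this
        exact absurd this (lt_irrefl _)
      · rw [ea, eb, heq]
      · have := inj_real hk hnb hna hlt
        rw [h] at this
        exact absurd this (lt_irrefl _)
    · have h2 := HK_im_pos hk hb1 hb'
      rw [h] at h1; linarith
  · have h1 := HK_im_pos hk ha1 ha'
    rcases lt_trichotomy b.im 0 with hb' | hb' | hb'
    · have h2 := HK_im_neg hk hb1 hb'
      rw [h] at h1; linarith
    · have h2 := HK_im_zero hk hb'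
      rw [h] at h1; linarith
    · exact inj_upper hk ha1 hb1 ha' hb' h

lemma HK_bound (hk : Ker k) : ∃ C : ℝ, ∀ ζ : ℂ, ‖ζ‖ < 1 → ‖HK k ζ‖ ≤ C * ‖ζ‖ := by
  obtain ⟨M, hM⟩ := (isCompact_Icc (a := -(Real.pi / 2)) (b := Real.pi / 2)).exists_bound_of_continuousOn
    hk.cont.continuousOn
  refine ⟨M * |Real.pi / 2 - -(Real.pi / 2)|, fun ζ hζ => ?_⟩
  unfold HK
  have := intervalIntegral.norm_integral_le_of_norm_le_const (a := -(Real.pi / 2))
    (b := Real.pi / 2) (f := fun s : ℝ => (k s : ℂ) * hh (ζ * cis (-s))) (C := M * ‖ζ‖) ?_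
  · calc _ ≤ M * ‖ζ‖ * |Real.pi / 2 - -(Real.pi / 2)| := this
      _ = _ := by ring
  · intro s hs
    rw [Set.uIoc_of_le (by linarith [Real.pi_pos])] at hs
    rw [norm_mul, Complex.norm_real]
    have h1 := hM s ⟨hs.1.le, hs.2⟩
    have h2 := H1.2.2.2.2.1 (ζ * cis (-s)) (by rw [norm_rot]; exact hζ)
    rw [norm_rot] at h2
    exact mul_le_mul h1 h2 (norm_nonneg _) ((norm_nonneg _).trans h1)

end PBaux

open PBaux in
/-- PB: properties of `HK`, `TK` -/
theorem PB : S_PB := by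
  intro k hk
  exact ⟨fun ζ hζ => deriv_HK hk ζ hζ, fun ζ _ => TK_eq ζ, fun ζ hζ => HKd_ne hk hζ, HK_zero,
    HKd_zero hk, HK_conj hk, TK_conj hk, HK_neg, TK_neg, fun ζ hζ h => TK_im_pos hk hζ h,
    fun ζ hζ h => TK_re_pos hk hζ h, fun ζ hζ h => HK_im_pos hk hζ h,
    fun ζ hζ h => HK_re_pos hk hζ h, HK_inj hk, HK_bound hk⟩

end H845LP
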