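import Pool.Agent.H845R4.LP.Stm

/-! # Task PC (helper97): the lens `HK (r · disc)` and its gauge -/

set_option autoImplicit false

noncomputable section

open MeasureTheory Filter Topology
open scoped BigOperators Matrix ENNReal ComplexConjugate

namespace H845LP

open H712MA

namespace PC

/-- an injective holomorphic map of the disc, starlike with respect to `0` -/
structure Uni (H Hd : ℂ → ℂ) : Prop where
  der : ∀ ζ : ℂ, ‖ζ‖ < 1 → HasDerivAt H (Hd ζ) ζ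
  ne : ∀ ζ : ℂ, ‖ζ‖ < 1 → Hd ζ ≠ 0
  zero : H 0 = 0
  inj : Set.InjOn H (Metric.ball 0 1)
  star : ∀ ζ : ℂ, ‖ζ‖ < 1 → ζ ≠ 0 → 0 < (H ζ * conj (ζ * Hd ζ)).re

open Classical in
/-- the inverse, `1` off the image -/
def iv (H : ℂ → ℂ) (p : ℂ) : ℂ := if h : ∃ ζ : ℂ, ‖ζ‖ < 1 ∧ H ζ = p then h.choose else 1

theorem iv_spec {H : ℂ → ℂ} {p : ℂ} (hp : p ∈ H '' Metric.ball 0 1) :
    ‖iv H p‖ < 1 ∧ H (iv H p) = p := by
  have h : ∃ ζ : ℂ, ‖ζ‖ < 1 ∧ H ζ = p := by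
    obtain ⟨ζ, hζ, rfl⟩ := hp
    exact ⟨ζ, by simpa using hζ, rfl⟩
  unfold iv
  rw [dif_pos h]
  exact h.choose_spec

section
variable {H Hd : ℂ → ℂ} (U : Uni H Hd)
include U

theorem iv_H {ζ : ℂ} (hζ : ‖ζ‖ < 1) : iv H (H ζ) = ζ := by
  have hm : H ζ ∈ H '' Metric.ball 0 1 := ⟨ζ, by simpa using hζ, rfl⟩
  have h := iv_spec hm
  exact U.inj (by simpa using h.1) (by simpa using hζ) h.2

theorem diffOn : DifferentiableOn ℂ H (Metric.ball 0 1) := by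
  intro z hz
  exact (U.der z (by simpa using hz)).differentiableAt.differentiableWithinAt

theorem map_nhds {z : ℂ} (hz : ‖z‖ < 1) : map H (𝓝 z) = 𝓝 (H z) := by
  have hb : Metric.ball (0 : ℂ) 1 ∈ 𝓝 z := Metric.isOpen_ball.mem_nhds (by simpa using hz)
  have ha : AnalyticAt ℂ H z := (diffOn U).analyticAt hb
  have hs : HasStrictDerivAt H (deriv H z) z := ha.hasStrictDerivAt
  have hd' : deriv H z = Hd z := (U.der z hz).deriv
  rw [hd'] at hs
  exact hs.map_nhds_eq (U.ne z hz)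

theorem open_im {r : ℝ} (hr : r ≤ 1) : IsOpen (H '' Metric.ball 0 r) := by
  rw [isOpen_iff_mem_nhds]
  rintro p ⟨z, hz, rfl⟩
  have hz' : ‖z‖ < r := by simpa using hz
  rw [← map_nhds U (hz'.trans_le hr)]
  exact image_mem_map (Metric.isOpen_ball.mem_nhds hz)

theorem iv_cont {ζ : ℂ} (hζ : ‖ζ‖ < 1) : ContinuousAt (iv H) (H ζ) := by
  intro s hs
  rw [iv_H U hζ] at hs
  have hb : Metric.ball (0 : ℂ) 1 ∈ 𝓝 ζ := Metric.isOpen_ball.mem_nhds (by simpa using hζ)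
  have h1 : H '' (s ∩ Metric.ball 0 1) ∈ 𝓝 (H ζ) := by
    rw [← map_nhds U hζ]
    exact image_mem_map (inter_mem hs hb)
  rw [mem_map]
  filter_upwards [h1] with q hq
  obtain ⟨w, hw, rfl⟩ := hq
  show iv H (H w) ∈ s
  rw [iv_H U (by simpa using hw.2)]
  exact hw.1

theorem iv_der {ζ : ℂ} (hζ : ‖ζ‖ < 1) : HasDerivAt (iv H) (1 / Hd ζ) (H ζ) := by
  rw [one_div]
  have h1 : HasDerivAt H (Hd ζ) (iv H (H ζ)) := by
    rw [iv_H U hζ]; exact U.der ζ hζ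
  refine HasDerivAt.of_local_left_inverse (iv_cont U hζ) h1 (U.ne ζ hζ) ?_
  have h2 : H '' Metric.ball 0 1 ∈ 𝓝 (H ζ) :=
    (open_im U le_rfl).mem_nhds ⟨ζ, by simpa using hζ, rfl⟩
  filter_upwards [h2] with q hq
  exact (iv_spec hq).2

/-- the modulus of the inverse increases along rays -/
theorem rad {ζ : ℂ} (hζ : ‖ζ‖ < 1) (h0 : ζ ≠ 0) :
    ∀ᶠ s : ℝ in 𝓝[<] 1, (s : ℂ) * H ζ ∈ H '' Metric.ball 0 ‖ζ‖ := by
  have hlin : HasDerivAt (fun s : ℝ => (s : ℂ) * H ζ) (H ζ) 1 := by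
    have := (Complex.ofRealCLM.hasDerivAt (x := (1 : ℝ))).mul_const (H ζ)
    simpa using this
  have hone : ((1 : ℝ) : ℂ) * H ζ = H ζ := by simp
  have hd1 : HasDerivAt (iv H) (1 / Hd ζ) (((1 : ℝ) : ℂ) * H ζ) := by
    rw [hone]; exact iv_der U hζ
  have hcomp : HasDerivAt (fun s : ℝ => iv H ((s : ℂ) * H ζ)) (H ζ * (1 / Hd ζ)) 1 := by
    have := HasDerivAt.scomp (1 : ℝ) (h := fun s : ℝ => (s : ℂ) * H ζ) (g₁ := iv H)
      (h' := H ζ) (g₁' := 1 / Hd ζ) hd1 hlin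
    rw [smul_eq_mul] at this
    exact this
  have hsq := hcomp.norm_sq
  have hval : 0 < 2 * inner ℝ (iv H (((1 : ℝ) : ℂ) * H ζ)) (H ζ * (1 / Hd ζ)) := by
    rw [hone, iv_H U hζ, Complex.inner]
    have hs := U.star ζ hζ h0
    have hne := U.ne ζ hζ
    have e1 : H ζ * (1 / Hd ζ) * conj ζ =
        (H ζ * conj (ζ * Hd ζ)) * ((1 / Complex.normSq (Hd ζ) : ℝ) : ℂ) := by
      rw [map_mul, Complex.ofReal_div, Complex.ofReal_one, Complex.normSq_eq_conj_mul_self]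
      have hne2 : conj (Hd ζ) ≠ 0 := by
        intro h
        exact hne ((map_eq_zero _).1 h)
      field_simp
    rw [e1, Complex.re_mul_ofReal]
    have h3 : 0 < Complex.normSq (Hd ζ) := Complex.normSq_pos.2 hne
    positivity
  have hsl := hsq
  rw [hasDerivAt_iff_tendsto_slope] at hsl
  have hev : ∀ᶠ s : ℝ in 𝓝[<] 1, 0 < slope (fun s : ℝ => ‖iv H ((s : ℂ) * H ζ)‖ ^ 2) 1 s :=
    (hsl.eventually (lt_mem_nhds hval)).filter_mono (nhdsWithin_mono _ (fun u hu => ne_of_lt hu))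
  have hV : ∀ᶠ s : ℝ in 𝓝[<] 1, (s : ℂ) * H ζ ∈ H '' Metric.ball 0 1 := by
    have h2 : H '' Metric.ball 0 1 ∈ 𝓝 (((1 : ℝ) : ℂ) * H ζ) := by
      rw [hone]
      exact (open_im U le_rfl).mem_nhds ⟨ζ, by simpa using hζ, rfl⟩
    exact (hlin.continuousAt.preimage_mem_nhds h2 : _ ∈ 𝓝 (1 : ℝ)) |> fun h =>
      mem_nhdsWithin_of_mem_nhds h
  filter_upwards [hev, hV, self_mem_nhdsWithin] with s h1 h2 h3
  have h3' : s < 1 := h3
  obtain ⟨h4, h5⟩ := iv_spec h2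
  refine ⟨iv H ((s : ℂ) * H ζ), ?_, h5⟩
  rw [slope_def_field, hone, iv_H U hζ] at h1
  have h6 : ‖iv H ((s : ℂ) * H ζ)‖ ^ 2 < ‖ζ‖ ^ 2 := by
    by_contra hcon
    push Not at hcon
    have h7 : (‖iv H ((s : ℂ) * H ζ)‖ ^ 2 - ‖ζ‖ ^ 2) / (s - 1) ≤ 0 :=
      div_nonpos_of_nonneg_of_nonpos (by linarith) (by linarith)
    linarith
  have h8 : ‖iv H ((s : ℂ) * H ζ)‖ < ‖ζ‖ := lt_of_pow_lt_pow_left₀ 2 (norm_nonneg _) h6
  simpa using h8

theorem H_ne {ζ : ℂ} (hζ : ‖ζ‖ < 1) (h0 : ζ ≠ 0) : H ζ ≠ 0 := by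
  intro h
  apply h0
  apply U.inj (by simpa using hζ) (by simp)
  rw [h, U.zero]

theorem cpt {r : ℝ} (hr : r < 1) : IsCompact (H '' Metric.closedBall 0 r) :=
  (isCompact_closedBall (0 : ℂ) r).image_of_continuousOn
    ((diffOn U).continuousOn.mono (Metric.closedBall_subset_ball hr))

theorem star_closed {ζ : ℂ} (hζ : ‖ζ‖ < 1) {s : ℝ} (hs0 : 0 ≤ s) (hs1 : s ≤ 1) :
    (s : ℂ) * H ζ ∈ H '' Metric.closedBall 0 ‖ζ‖ := by
  by_cases h0 : ζ = 0
  · subst h0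
    rw [U.zero, mul_zero]
    exact ⟨0, by simp, U.zero⟩
  set A : Set ℝ := {τ : ℝ | ((1 - τ : ℝ) : ℂ) * H ζ ∈ H '' Metric.closedBall 0 ‖ζ‖} with hA
  have hAc : IsClosed A := by
    have hc : Continuous (fun τ : ℝ => ((1 - τ : ℝ) : ℂ) * H ζ) := by fun_prop
    exact (cpt U hζ).isClosed.preimage hc
  have hsub : Set.Icc (0 : ℝ) 1 ⊆ A := by
    apply IsClosed.Icc_subset_of_forall_exists_gt (hAc.inter isClosed_Icc)
    · show ((1 - 0 : ℝ) : ℂ) * H ζ ∈ H '' Metric.closedBall 0 ‖ζ‖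
      rw [sub_zero, Complex.ofReal_one, one_mul]
      exact ⟨ζ, by simp, rfl⟩
    · rintro x ⟨hxA, hx0, hx1⟩ y hy
      obtain ⟨w, hw, hwx⟩ := hxA
      have hw' : ‖w‖ ≤ ‖ζ‖ := by simpa using hw
      have hw1 : ‖w‖ < 1 := hw'.trans_lt hζ
      have hs : 0 < 1 - x := by linarith
      have hw0 : w ≠ 0 := by
        intro h
        rw [h, U.zero] at hwx
        have h2 : ((1 - x : ℝ) : ℂ) ≠ 0 := by exact_mod_cast hs.ne'
        exact (mul_ne_zero h2 (H_ne U hζ h0)) hwx.symm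
      have hev := rad U hw1 hw0
      have hev2 : ∀ᶠ σ : ℝ in 𝓝[<] 1, 1 - σ * (1 - x) ≤ y := by
        have hc : ContinuousAt (fun σ : ℝ => 1 - σ * (1 - x)) 1 := by fun_prop
        have hlt : (fun σ : ℝ => 1 - σ * (1 - x)) 1 < y := by
          show 1 - 1 * (1 - x) < y
          have : x < y := hy
          linarith
        exact mem_nhdsWithin_of_mem_nhds
          ((hc.eventually (gt_mem_nhds hlt)).mono fun _ h => le_of_lt h)
      obtain ⟨σ, ⟨h1, h2⟩, h3⟩ :=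
        ((hev.and hev2).and (self_mem_nhdsWithin : Set.Iio (1 : ℝ) ∈ 𝓝[<] 1)).exists
      have h3' : σ < 1 := h3
      refine ⟨1 - σ * (1 - x), ?_, ?_, h2⟩
      · show ((1 - (1 - σ * (1 - x)) : ℝ) : ℂ) * H ζ ∈ H '' Metric.closedBall 0 ‖ζ‖
        have e1 : ((1 - (1 - σ * (1 - x)) : ℝ) : ℂ) * H ζ = (σ : ℂ) * H w := by
          rw [hwx]; push_cast; ring
        rw [e1]
        obtain ⟨v, hv, hvp⟩ := h1
        refine ⟨v, ?_, hvp⟩
        have hv' : ‖v‖ < ‖w‖ := by simpa using hv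
        simpa using (hv'.le.trans hw')
      · nlinarith
  have h := hsub (⟨by linarith, by linarith⟩ : (1 - s) ∈ Set.Icc (0 : ℝ) 1)
  have h2 : ((1 - (1 - s) : ℝ) : ℂ) * H ζ ∈ H '' Metric.closedBall 0 ‖ζ‖ := h
  rwa [sub_sub_cancel] at h2

theorem star_open {ζ : ℂ} (hζ : ‖ζ‖ < 1) (h0 : ζ ≠ 0) {s : ℝ} (hs0 : 0 ≤ s) (hs1 : s < 1) :
    (s : ℂ) * H ζ ∈ H '' Metric.ball 0 ‖ζ‖ := by
  have hev := rad U hζ h0
  have hev2 : ∀ᶠ σ : ℝ in 𝓝[<] 1, s < σ := mem_nhdsWithin_of_mem_nhds (lt_mem_nhds hs1)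
  obtain ⟨σ, h1, h2⟩ := (hev.and hev2).exists
  obtain ⟨w, hw, hwp⟩ := h1
  have hw' : ‖w‖ < ‖ζ‖ := by simpa using hw
  have hσ : 0 < σ := by linarith
  have h3 := star_closed U (hw'.trans hζ) (s := s / σ) (by positivity)
    ((div_le_one hσ).2 h2.le)
  have e1 : ((s / σ : ℝ) : ℂ) * H w = (s : ℂ) * H ζ := by
    rw [hwp]
    have : (σ : ℂ) ≠ 0 := by exact_mod_cast hσ.ne'
    push_cast
    field_simp
  rw [e1] at h3
  obtain ⟨v, hv, hvp⟩ := h3
  refine ⟨v, ?_, hvp⟩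
  have hv' : ‖v‖ ≤ ‖w‖ := by simpa using hv
  simpa using (hv'.trans_lt hw')

theorem star_W {r : ℝ} (hr0 : 0 < r) (hr : r < 1) {p : ℂ} (hp : p ∈ H '' Metric.closedBall 0 r)
    {s : ℝ} (hs0 : 0 ≤ s) (hs1 : s < 1) : (s : ℂ) * p ∈ H '' Metric.ball 0 r := by
  obtain ⟨ζ, hζ, rfl⟩ := hp
  have hζ' : ‖ζ‖ ≤ r := by simpa using hζ
  by_cases h0 : ζ = 0
  · subst h0
    rw [U.zero, mul_zero]
    exact ⟨0, by simpa using hr0, U.zero⟩
  · obtain ⟨v, hv, hvp⟩ := star_open U (hζ'.trans_lt hr) h0 hs0 hs1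
    refine ⟨v, ?_, hvp⟩
    have hv' : ‖v‖ < ‖ζ‖ := by simpa using hv
    simpa using (hv'.trans_le hζ')

end

/-- the gauge -/
def gg' (W : Set ℂ) (ξ : ℂ) : ℝ := sInf {ρ : ℝ | 0 < ρ ∧ ξ / (ρ : ℂ) ∈ W}

section
variable {W K : Set ℂ} (hW : IsOpen W) (hK : IsCompact K) (h0 : (0 : ℂ) ∈ W) (hWK : W ⊆ K)
  (hst : ∀ p ∈ K, ∀ s : ℝ, 0 ≤ s → s < 1 → (s : ℂ) * p ∈ W)

theorem gg_bdd (ξ : ℂ) : BddBelow {ρ : ℝ | 0 < ρ ∧ ξ / (ρ : ℂ) ∈ W} :=
  ⟨0, fun _ h => h.1.le⟩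

theorem gg_nonneg (ξ : ℂ) : 0 ≤ gg' W ξ := Real.sInf_nonneg fun _ h => h.1.le

include hW h0 in
theorem gg_ne (ξ : ℂ) : {ρ : ℝ | 0 < ρ ∧ ξ / (ρ : ℂ) ∈ W}.Nonempty := by
  have h1 : Tendsto (fun ρ : ℝ => ξ / (ρ : ℂ)) atTop (𝓝 0) := by
    have h2 : Tendsto (fun ρ : ℝ => ((ρ⁻¹ : ℝ) : ℂ)) atTop (𝓝 ((0 : ℝ) : ℂ)) :=
      (Complex.continuous_ofReal.tendsto 0).comp tendsto_inv_atTop_zero
    have h3 := h2.const_mul ξ
    rw [Complex.ofReal_zero, mul_zero] at h3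
    refine h3.congr fun ρ => ?_
    rw [Complex.ofReal_inv, div_eq_mul_inv]
  have h2 := (h1.eventually (hW.mem_nhds h0)).and (eventually_gt_atTop 0)
  obtain ⟨ρ, h3, h4⟩ := h2.exists
  exact ⟨ρ, h4, h3⟩

theorem div_div_real (ξ : ℂ) {ρ ρ' : ℝ} (hρ : 0 < ρ) (hρ' : 0 < ρ') :
    ξ / (ρ' : ℂ) = ((ρ / ρ' : ℝ) : ℂ) * (ξ / (ρ : ℂ)) := by
  have h1 : (ρ : ℂ) ≠ 0 := by exact_mod_cast hρ.ne'
  have h2 : (ρ' : ℂ) ≠ 0 := by exact_mod_cast hρ'.ne'
  push_cast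
  field_simp

include hW h0 hWK hst in
theorem gg_lt (ξ : ℂ) {ρ : ℝ} (hρ : 0 < ρ) : ξ / (ρ : ℂ) ∈ W ↔ gg' W ξ < ρ := by
  constructor
  · intro h
    have hc : ContinuousAt (fun σ : ℝ => ξ / (σ : ℂ)) ρ := by
      have h1 : (ρ : ℂ) ≠ 0 := by exact_mod_cast hρ.ne'
      exact continuousAt_const.div Complex.continuous_ofReal.continuousAt h1
    have h1 : ∀ᶠ σ : ℝ in 𝓝 ρ, ξ / (σ : ℂ) ∈ W := hc.eventually (hW.mem_nhds h)
    have h2 : ∀ᶠ σ : ℝ in 𝓝[<] ρ, ξ / (σ : ℂ) ∈ W := h1.filter_mono nhdsWithin_le_nhds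
    have h3 : ∀ᶠ σ : ℝ in 𝓝[<] ρ, 0 < σ := mem_nhdsWithin_of_mem_nhds (lt_mem_nhds hρ)
    obtain ⟨σ, ⟨h4, h5⟩, h6⟩ :=
      ((h2.and h3).and (self_mem_nhdsWithin : Set.Iio ρ ∈ 𝓝[<] ρ)).exists
    exact lt_of_le_of_lt (csInf_le (gg_bdd ξ) ⟨h5, h4⟩) h6
  · intro h
    obtain ⟨σ, ⟨hσ, hσW⟩, hσρ⟩ := exists_lt_of_csInf_lt (gg_ne hW h0 ξ) h
    rw [div_div_real ξ hσ hρ]
    exact hst _ (hWK hσW) _ (by positivity) ((div_lt_one hρ).2 hσρ)

include hW hK h0 hWK hst in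
theorem gg_le (ξ : ℂ) {ρ : ℝ} (hρ : 0 < ρ) : ξ / (ρ : ℂ) ∈ K ↔ gg' W ξ ≤ ρ := by
  constructor
  · intro h
    refine le_of_forall_gt_imp_ge_of_dense fun ρ' hρ' => ?_
    have hρ'0 : 0 < ρ' := hρ.trans hρ'
    apply le_of_lt
    rw [← gg_lt hW h0 hWK hst ξ hρ'0, div_div_real ξ hρ hρ'0]
    exact hst _ h _ (by positivity) ((div_lt_one hρ'0).2 hρ')
  · intro h
    have hc : ContinuousAt (fun σ : ℝ => ξ / (σ : ℂ)) ρ := by
      have h1 : (ρ : ℂ) ≠ 0 := by exact_mod_cast hρ.ne'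
      exact continuousAt_const.div Complex.continuous_ofReal.continuousAt h1
    have hlim : Tendsto (fun σ : ℝ => ξ / (σ : ℂ)) (𝓝[>] ρ) (𝓝 (ξ / (ρ : ℂ))) :=
      hc.tendsto.mono_left nhdsWithin_le_nhds
    refine hK.isClosed.mem_of_tendsto hlim ?_
    filter_upwards [self_mem_nhdsWithin] with σ hσ
    have hσ' : ρ < σ := hσ
    exact hWK ((gg_lt hW h0 hWK hst ξ (hρ.trans hσ')).2 (h.trans_lt hσ'))

include hW hK h0 hWK hst in
theorem gg_cont : Continuous (gg' W) := by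
  rw [OrderTopology.continuous_iff]
  intro a
  constructor
  · -- {N > a} open
    rcases lt_or_ge a 0 with ha | ha
    · have : gg' W ⁻¹' Set.Ioi a = Set.univ := by
        ext ξ
        simp only [Set.mem_preimage, Set.mem_Ioi, Set.mem_univ, iff_true]
        exact ha.trans_le (gg_nonneg ξ)
      rw [this]
      exact isOpen_univ
    · have : gg' W ⁻¹' Set.Ioi a = ⋃ ρ ∈ Set.Ioi a, {ξ : ℂ | ξ / ((ρ : ℝ) : ℂ) ∈ K}ᶜ := by
        ext ξ
        simp only [Set.mem_preimage, Set.mem_Ioi, Set.mem_iUnion, Set.mem_compl_iff, exists_prop]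
        constructor
        · intro h
          obtain ⟨ρ, h1, h2⟩ := exists_between h
          refine ⟨ρ, h1, ?_⟩
          intro h3
          have h4 := (gg_le hW hK h0 hWK hst ξ (ha.trans_lt h1)).1 h3
          linarith
        · rintro ⟨ρ, h1, h2⟩
          by_contra h3
          push Not at h3
          apply h2
          exact (gg_le hW hK h0 hWK hst ξ (ha.trans_lt h1)).2 (h3.trans h1.le)
      rw [this]
      refine isOpen_biUnion fun ρ hρ => ?_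
      have hc : Continuous (fun ξ : ℂ => ξ / ((ρ : ℝ) : ℂ)) := continuous_id.div_const _
      exact (hK.isClosed.preimage hc).isOpen_compl
  · -- {N < a} open
    rcases le_or_gt a 0 with ha | ha
    · have : gg' W ⁻¹' Set.Iio a = ∅ := by
        ext ξ
        simp only [Set.mem_preimage, Set.mem_Iio, Set.mem_empty_iff_false, iff_false, not_lt]
        exact ha.trans (gg_nonneg ξ)
      rw [this]
      exact isOpen_empty
    · have : gg' W ⁻¹' Set.Iio a = {ξ : ℂ | ξ / ((a : ℝ) : ℂ) ∈ W} := by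
        ext ξ
        exact (gg_lt hW h0 hWK hst ξ ha).symm
      rw [this]
      have hc : Continuous (fun ξ : ℂ => ξ / ((a : ℝ) : ℂ)) := continuous_id.div_const _
      exact hW.preimage hc

end

/-! ### the maps `HK k` -/

theorem prod_pos {F : ℂ → ℂ} (hc : ∀ ζ : ℂ, F (conj ζ) = conj (F ζ)) (hn : ∀ ζ : ℂ, F (-ζ) = - F ζ)
    (hi : ∀ ζ : ℂ, ‖ζ‖ < 1 → 0 < ζ.im → 0 < (F ζ).im)
    (hr : ∀ ζ : ℂ, ‖ζ‖ < 1 → 0 < ζ.re → 0 < (F ζ).re) (ζ : ℂ) (hζ : ‖ζ‖ < 1) :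
    (ζ.re < 0 → (F ζ).re < 0) ∧ (ζ.re = 0 → (F ζ).re = 0) ∧
    (ζ.im < 0 → (F ζ).im < 0) ∧ (ζ.im = 0 → (F ζ).im = 0) := by
  refine ⟨fun h => ?_, fun h => ?_, fun h => ?_, fun h => ?_⟩
  · have h1 := hr (-ζ) (by simpa using hζ) (by simpa using h)
    rw [hn] at h1
    simpa using h1
  · have e1 : conj ζ = -ζ := by
      apply Complex.ext
      · simp [h]
      · simp
    have h1 := hc ζ
    rw [e1, hn] at h1
    have h2 := congrArg Complex.re h1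
    simp only [Complex.neg_re, Complex.conj_re] at h2
    linarith
  · have h1 := hi (conj ζ) (by simpa using hζ) (by simpa using h)
    rw [hc] at h1
    simpa using h1
  · have e1 : conj ζ = ζ := Complex.conj_eq_iff_im.2 h
    have h1 := hc ζ
    rw [e1] at h1
    exact Complex.conj_eq_iff_im.1 h1.symm

theorem star_HK {F G : ℂ → ℂ} (hc : ∀ ζ : ℂ, F (conj ζ) = conj (F ζ))
    (hn : ∀ ζ : ℂ, F (-ζ) = - F ζ) (hi : ∀ ζ : ℂ, ‖ζ‖ < 1 → 0 < ζ.im → 0 < (F ζ).im)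
    (hr : ∀ ζ : ℂ, ‖ζ‖ < 1 → 0 < ζ.re → 0 < (F ζ).re)
    (hc' : ∀ ζ : ℂ, G (conj ζ) = conj (G ζ))
    (hn' : ∀ ζ : ℂ, G (-ζ) = - G ζ) (hi' : ∀ ζ : ℂ, ‖ζ‖ < 1 → 0 < ζ.im → 0 < (G ζ).im)
    (hr' : ∀ ζ : ℂ, ‖ζ‖ < 1 → 0 < ζ.re → 0 < (G ζ).re) (ζ : ℂ) (hζ : ‖ζ‖ < 1) (h0 : ζ ≠ 0) :
    0 < (F ζ * conj (G ζ)).re := by
  have e1 : (F ζ * conj (G ζ)).re = (F ζ).re * (G ζ).re + (F ζ).im * (G ζ).im := by
    simp [Complex.mul_re]
  rw [e1]
  obtain ⟨a1, a2, a3, a4⟩ := prod_pos hc hn hi hr ζ hζ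
  obtain ⟨b1, b2, b3, b4⟩ := prod_pos hc' hn' hi' hr' ζ hζ
  have hre : 0 ≤ (F ζ).re * (G ζ).re ∧ (ζ.re ≠ 0 → 0 < (F ζ).re * (G ζ).re) := by
    rcases lt_trichotomy ζ.re 0 with h | h | h
    · have := mul_pos_of_neg_of_neg (a1 h) (b1 h)
      exact ⟨this.le, fun _ => this⟩
    · rw [a2 h, zero_mul]
      exact ⟨le_rfl, fun h' => absurd h h'⟩
    · have := mul_pos (hr ζ hζ h) (hr' ζ hζ h)
      exact ⟨this.le, fun _ => this⟩
  have him : 0 ≤ (F ζ).im * (G ζ).im ∧ (ζ.im ≠ 0 → 0 < (F ζ).im * (G ζ).im) := by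
    rcases lt_trichotomy ζ.im 0 with h | h | h
    · have := mul_pos_of_neg_of_neg (a3 h) (b3 h)
      exact ⟨this.le, fun _ => this⟩
    · rw [a4 h, zero_mul]
      exact ⟨le_rfl, fun h' => absurd h h'⟩
    · have := mul_pos (hi ζ hζ h) (hi' ζ hζ h)
      exact ⟨this.le, fun _ => this⟩
  by_cases h : ζ.re = 0
  · have h2 : ζ.im ≠ 0 := by
      intro h3
      exact h0 (Complex.ext h h3)
    have := him.2 h2
    linarith [hre.1]
  · have := hre.2 h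
    linarith [him.1]

open Classical in
/-- the inverse of `H (r ·)`, continued by `1` -/
def el (H : ℂ → ℂ) (r : ℝ) (z : ℂ) : ℂ := if z ∈ H '' Metric.ball 0 r then iv H z / (r : ℂ) else 1

section
variable {H Hd : ℂ → ℂ} (U : Uni H Hd) {r : ℝ} (hr0 : 0 < r) (hr1 : r < 1)
include U hr0 hr1

theorem el_H {ζ : ℂ} (hζ : ‖ζ‖ < r) : el H r (H ζ) = ζ / (r : ℂ) := by
  unfold el
  rw [if_pos ⟨ζ, by simpa using hζ, rfl⟩, iv_H U (hζ.trans hr1)]

theorem el_norm {ζ : ℂ} (hζ : ‖ζ‖ < r) : ‖el H r (H ζ)‖ = ‖ζ‖ / r := by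
  rw [el_H U hr0 hr1 hζ, norm_div, Complex.norm_real, Real.norm_of_nonneg hr0.le]

theorem el_der {ζ : ℂ} (hζ : ‖ζ‖ < r) : HasDerivAt (el H r) (1 / Hd ζ / (r : ℂ)) (H ζ) := by
  have h1 := (iv_der U (hζ.trans hr1)).div_const (r : ℂ)
  refine h1.congr_of_eventuallyEq ?_
  have h2 : H '' Metric.ball 0 r ∈ 𝓝 (H ζ) :=
    (open_im U hr1.le).mem_nhds ⟨ζ, by simpa using hζ, rfl⟩
  filter_upwards [h2] with q hq
  unfold el
  rw [if_pos hq]

theorem el_comp {c : ℝ} (hc : c < 1) : IsCompact {p : ℂ | ‖el H r p‖ ≤ c} := by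
  rcases lt_or_ge c 0 with h | h
  · have : {p : ℂ | ‖el H r p‖ ≤ c} = ∅ := by
      ext p
      simp only [Set.mem_ofPred_eq, Set.mem_empty_iff_false, iff_false, not_le]
      exact h.trans_le (norm_nonneg _)
    rw [this]
    exact isCompact_empty
  · have : {p : ℂ | ‖el H r p‖ ≤ c} = H '' Metric.closedBall 0 (c * r) := by
      ext p
      simp only [Set.mem_ofPred_eq]
      constructor
      · intro hp
        by_cases hpW : p ∈ H '' Metric.ball 0 r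
        · obtain ⟨ζ, hζ, rfl⟩ := hpW
          have hζ' : ‖ζ‖ < r := by simpa using hζ
          rw [el_norm U hr0 hr1 hζ', div_le_iff₀ hr0] at hp
          exact ⟨ζ, by simpa using hp, rfl⟩
        · unfold el at hp
          rw [if_neg hpW, norm_one] at hp
          linarith
      · rintro ⟨ζ, hζ, rfl⟩
        have hζ' : ‖ζ‖ ≤ c * r := by simpa using hζ
        have hζr : ‖ζ‖ < r := by nlinarith
        rw [el_norm U hr0 hr1 hζr, div_le_iff₀ hr0]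
        exact hζ'
    rw [this]
    exact cpt U (by nlinarith)

theorem lower : ∃ b : ℝ, 0 < b ∧ ∀ ζ : ℂ, ‖ζ‖ ≤ r → b ≤ ‖Hd ζ‖ := by
  have hd : ContinuousOn (deriv H) (Metric.ball 0 1) :=
    ((diffOn U).deriv Metric.isOpen_ball).continuousOn
  have hd2 : ContinuousOn (fun ζ => ‖deriv H ζ‖) (Metric.closedBall 0 r) :=
    (hd.mono (Metric.closedBall_subset_ball hr1)).norm
  obtain ⟨ζ₀, h1, h2⟩ := (isCompact_closedBall (0 : ℂ) r).exists_isMinOn
    ⟨0, by simpa using hr0.le⟩ hd2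
  have h3 : ‖ζ₀‖ ≤ r := by simpa using h1
  refine ⟨‖deriv H ζ₀‖, ?_, fun ζ hζ => ?_⟩
  · rw [(U.der ζ₀ (h3.trans_lt hr1)).deriv]
    exact norm_pos_iff.2 (U.ne ζ₀ (h3.trans_lt hr1))
  · rw [← (U.der ζ (hζ.trans_lt hr1)).deriv]
    exact h2 (by simpa using hζ)

end

end PC

open PC in
theorem PC (hPB : S_PB) : S_PC := by
  intro k hk r hr0 hr1
  obtain ⟨p1, p2, p3, p4, ⟨c, hc, hc0⟩, p6, p7, p8, p9, p10, p11, p12, p13, p14, C1, hC1⟩ := hPB k hk
  have U : Uni (HK k) (HKd k) := by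
    refine ⟨p1, p3, p4, p14, fun ζ hζ h0 => ?_⟩
    rw [p2 ζ hζ]
    exact star_HK p6 p8 p12 p13 p7 p9 p10 p11 ζ hζ h0
  obtain ⟨b, hb, hbd⟩ := lower U hr0 hr1
  have hrc : (r : ℂ) ≠ 0 := by exact_mod_cast hr0.ne'
  have hcc : (c : ℂ) ≠ 0 := by exact_mod_cast hc.ne'
  have h0W : (0 : ℂ) ∈ HK k '' Metric.ball 0 r := ⟨0, by simpa using hr0, p4⟩
  let L : Lens :=
    { W := HK k '' Metric.ball 0 r
      e := el (HK k) r
      c0 := 1 / (r * c)
      C := C1 * r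
      B := 1 / (r * b)
      isOpen := open_im U hr1.le
      zero_mem := h0W
      diff := by
        rintro p ⟨ζ, hζ, rfl⟩
        exact (el_der U hr0 hr1 (by simpa using hζ)).differentiableAt.differentiableWithinAt
      lt := by
        rintro p ⟨ζ, hζ, rfl⟩
        have hζ' : ‖ζ‖ < r := by simpa using hζ
        rw [el_norm U hr0 hr1 hζ', div_lt_one hr0]
        exact hζ'
      off := by
        intro p hp
        unfold el
        rw [if_neg hp]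
      comp := fun c hc => el_comp U hr0 hr1 hc
      e_zero := by
        have h := el_H U hr0 hr1 (ζ := 0) (by simpa using hr0)
        rw [p4, zero_div] at h
        exact h
      c0_pos := by positivity
      deriv_zero := by
        have h := (el_der U hr0 hr1 (ζ := 0) (by simpa using hr0)).deriv
        rw [p4, hc0] at h
        rw [h]
        push_cast
        field_simp
      hC := by
        rintro p ⟨ζ, hζ, rfl⟩
        have hζ' : ‖ζ‖ < r := by simpa using hζ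
        rw [el_norm U hr0 hr1 hζ']
        refine (hC1 ζ (hζ'.trans hr1)).trans (le_of_eq ?_)
        field_simp
      hB := by
        rintro p ⟨ζ, hζ, rfl⟩
        have hζ' : ‖ζ‖ < r := by simpa using hζ
        rw [(el_der U hr0 hr1 hζ').deriv, norm_div, norm_div, norm_one, Complex.norm_real,
          Real.norm_of_nonneg hr0.le, div_div]
        have h1 := hbd ζ hζ'.le
        apply one_div_le_one_div_of_le (by positivity)
        nlinarith }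
  have hWo : IsOpen (HK k '' Metric.ball 0 r) := open_im U hr1.le
  have hKc : IsCompact (HK k '' Metric.closedBall 0 r) := cpt U hr1
  have hWK : HK k '' Metric.ball 0 r ⊆ HK k '' Metric.closedBall 0 r :=
    Set.image_mono Metric.ball_subset_closedBall
  have hst : ∀ p ∈ HK k '' Metric.closedBall 0 r, ∀ s : ℝ, 0 ≤ s → s < 1 →
      (s : ℂ) * p ∈ HK k '' Metric.ball 0 r := fun p hp s h1 h2 => star_W U hr0 hr1 hp h1 h2
  have hlt := gg_lt hWo h0W hWK hst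
  have hle := gg_le hWo hKc h0W hWK hst
  have hcis : ∀ θ : ℝ, ‖(r : ℂ) * cis θ‖ = r := by
    intro θ
    rw [norm_mul, Complex.norm_real, Real.norm_of_nonneg hr0.le, cis, Complex.norm_exp_ofReal_mul_I,
      mul_one]
  have hzero : gg' (HK k '' Metric.ball 0 r) 0 = 0 := by
    apply le_antisymm _ (gg_nonneg _)
    refine le_of_forall_gt_imp_ge_of_dense fun ρ hρ => ?_
    apply le_of_lt
    rw [← hlt 0 hρ, zero_div]
    exact h0W
  have hpos : ∀ ξ : ℂ, ξ ≠ 0 → 0 < gg' (HK k '' Metric.ball 0 r) ξ := by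
    intro ξ hξ
    by_contra hcon
    push Not at hcon
    obtain ⟨R, hR⟩ := hKc.isBounded.exists_norm_le
    have hR0 : 0 ≤ R := (norm_nonneg _).trans (hR _ (hWK h0W))
    have hξn : 0 < ‖ξ‖ := norm_pos_iff.2 hξ
    have hρ : 0 < ‖ξ‖ / (R + 1) := by positivity
    have h1 := hR _ ((hle ξ hρ).2 (hcon.trans hρ.le))
    rw [norm_div, Complex.norm_real, Real.norm_of_nonneg hρ.le] at h1
    have h2 : ‖ξ‖ / (‖ξ‖ / (R + 1)) = R + 1 := by field_simp
    rw [h2] at h1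
    linarith
  refine ⟨L, gg' (HK k '' Metric.ball 0 r), ⟨?_, ?_, ?_, ?_, ?_, ?_, gg_nonneg, ?_⟩, ?_, ?_⟩
  · -- measurable
    classical
    have e1 : hr k r = (Metric.closedBall (0 : ℂ) 1).piecewise (fun ζ => HK k ((r : ℂ) * ζ))
        (fun _ => 0) := by
      funext ζ
      unfold hr Set.piecewise
      by_cases h : ‖ζ‖ ≤ 1
      · have h' : ζ ∈ Metric.closedBall (0 : ℂ) 1 := by simpa using h
        rw [if_pos h, if_pos h']
      · have h' : ζ ∉ Metric.closedBall (0 : ℂ) 1 := by simpa using h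
        rw [if_neg h, if_neg h']
    rw [e1]
    refine ContinuousOn.measurable_piecewise ?_ continuousOn_const
      Metric.isClosed_closedBall.measurableSet
    refine (diffOn U).continuousOn.comp (by fun_prop) fun ζ hζ => ?_
    have hζ' : ‖ζ‖ ≤ 1 := by simpa using hζ
    have : ‖(r : ℂ) * ζ‖ < 1 := by
      rw [norm_mul, Complex.norm_real, Real.norm_of_nonneg hr0.le]
      nlinarith [norm_nonneg ζ]
    simpa using this
  · -- continuous on the closed disc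
    have h1 : ContinuousOn (fun ζ => HK k ((r : ℂ) * ζ)) (Metric.closedBall (0 : ℂ) 1) := by
      refine (diffOn U).continuousOn.comp (by fun_prop) fun ζ hζ => ?_
      have hζ' : ‖ζ‖ ≤ 1 := by simpa using hζ
      have : ‖(r : ℂ) * ζ‖ < 1 := by
        rw [norm_mul, Complex.norm_real, Real.norm_of_nonneg hr0.le]
        nlinarith [norm_nonneg ζ]
      simpa using this
    refine h1.congr fun ζ hζ => ?_
    have hζ' : ‖ζ‖ ≤ 1 := by simpa using hζ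
    unfold hr
    rw [if_pos hζ']
  · -- holomorphic
    have h1 : DifferentiableOn ℂ (fun ζ => HK k ((r : ℂ) * ζ)) (Metric.ball (0 : ℂ) 1) := by
      refine (diffOn U).comp (by fun_prop) fun ζ hζ => ?_
      have hζ' : ‖ζ‖ < 1 := by simpa using hζ
      have : ‖(r : ℂ) * ζ‖ < 1 := by
        rw [norm_mul, Complex.norm_real, Real.norm_of_nonneg hr0.le]
        nlinarith [norm_nonneg ζ]
      simpa using this
    refine h1.congr fun ζ hζ => ?_
    have hζ' : ‖ζ‖ < 1 := by simpa using hζ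
    unfold hr
    rw [if_pos hζ'.le]
  · -- left
    intro ζ hζ
    have h1 : ‖(r : ℂ) * ζ‖ < r := by
      rw [norm_mul, Complex.norm_real, Real.norm_of_nonneg hr0.le]
      nlinarith [norm_nonneg ζ]
    have h2 : hr k r ζ = HK k ((r : ℂ) * ζ) := by unfold hr; rw [if_pos hζ.le]
    rw [h2]
    refine ⟨⟨(r : ℂ) * ζ, by simpa using h1, rfl⟩, ?_⟩
    show el (HK k) r (HK k ((r : ℂ) * ζ)) = ζ
    rw [el_H U hr0 hr1 h1]
    field_simp
  · -- right
    rintro z ⟨ζ, hζ, rfl⟩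
    have hζ' : ‖ζ‖ < r := by simpa using hζ
    show hr k r (el (HK k) r (HK k ζ)) = HK k ζ
    rw [el_H U hr0 hr1 hζ']
    have h1 : ‖ζ / (r : ℂ)‖ ≤ 1 := by
      rw [norm_div, Complex.norm_real, Real.norm_of_nonneg hr0.le, div_le_one hr0]
      exact hζ'.le
    unfold hr
    rw [if_pos h1]
    congr 1
    field_simp
  · exact gg_cont hWo hKc h0W hWK hst
  · intro ξ ρ hρ
    exact hlt ξ hρ
  · -- the value on the rays
    intro ρ θ hρ
    rcases eq_or_lt_of_le hρ with h | h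
    · rw [← h, Complex.ofReal_zero, zero_mul]
      exact hzero
    · have hρc : (ρ : ℂ) ≠ 0 := by exact_mod_cast h.ne'
      have e1 : (ρ : ℂ) * HK k ((r : ℂ) * cis θ) / (ρ : ℂ) = HK k ((r : ℂ) * cis θ) := by
        field_simp
      apply le_antisymm
      · rw [← hle _ h, e1]
        exact ⟨(r : ℂ) * cis θ, by simpa using (hcis θ).le, rfl⟩
      · by_contra hcon
        push Not at hcon
        rw [← hlt _ h, e1] at hcon
        obtain ⟨v, hv, hvp⟩ := hcon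
        have hv' : ‖v‖ < r := by simpa using hv
        have h2 : v = (r : ℂ) * cis θ := by
          apply U.inj _ _ hvp
          · simpa using hv'.trans hr1
          · have := hcis θ
            simpa using (this.le.trans_lt hr1)
        rw [h2, hcis θ] at hv'
        exact lt_irrefl _ hv'
  · -- every point is on a ray
    intro ξ hξ
    have hN := hpos ξ hξ
    refine ⟨hN, ?_⟩
    have h1 : ξ / ((gg' (HK k '' Metric.ball 0 r) ξ : ℝ) : ℂ) ∈ HK k '' Metric.closedBall 0 r :=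
      (hle ξ hN).2 le_rfl
    have h2 : ¬ ξ / ((gg' (HK k '' Metric.ball 0 r) ξ : ℝ) : ℂ) ∈ HK k '' Metric.ball 0 r := by
      rw [hlt ξ hN]
      exact lt_irrefl _
    obtain ⟨ζ, hζ, hζp⟩ := h1
    have hζ' : ‖ζ‖ ≤ r := by simpa using hζ
    have hζr : ‖ζ‖ = r := by
      apply le_antisymm hζ'
      by_contra hcon
      push Not at hcon
      exact h2 ⟨ζ, by simpa using hcon, hζp⟩
    refine ⟨Complex.arg ζ, ⟨Complex.neg_pi_lt_arg ζ, Complex.arg_le_pi ζ⟩, ?_⟩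
    have h3 : (r : ℂ) * cis (Complex.arg ζ) = ζ := by
      rw [← hζr, cis]
      exact Complex.norm_mul_exp_arg_mul_I ζ
    rw [h3, hζp]
    have hNc : ((gg' (HK k '' Metric.ball 0 r) ξ : ℝ) : ℂ) ≠ 0 := by exact_mod_cast hN.ne'
    field_simp

end H845LP
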