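import Pool.Agent.H845R4.LP.PD4

set_option autoImplicit false
set_option maxHeartbeats 2000000
set_option linter.unusedVariables false
set_option linter.unusedSectionVars false

noncomputable section

open MeasureTheory Filter Topology Set
open scoped BigOperators Matrix ENNReal

namespace H845LP
namespace PD

open H712MA

lemma Sp_pos {p : ℝ} (hp : 1 < p) : 0 < Sp p := by
  have key : ∀ q : ℝ, 0 < q → 0 < ∫ t : ℝ, Real.exp (-(|t| ^ q / q)) := by
    intro q hq
    have h0 : ∫ t : ℝ, Real.exp (-(|t| ^ q / q)) = 2 * ∫ t in Set.Ioi (0:ℝ), Real.exp (-(1 / q) * t ^ q) := by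
      rw [← integral_comp_abs (f := fun t : ℝ => Real.exp (-(1 / q) * t ^ q))]
      congr 1
      funext t
      congr 1
      ring
    rw [h0, integral_exp_neg_mul_rpow hq (by positivity)]
    have := Real.Gamma_pos_of_pos (s := 1 / q + 1) (by positivity)
    positivity
  unfold Sp
  refine mul_pos (key p (by linarith)) (key (p / (p - 1)) ?_)
  have : 0 < p - 1 := by linarith
  have : 0 < p := by linarith
  positivity

lemma xi_hr (k : ℝ → ℝ) (r : ℝ) (ω : ℝ × ℝ) :
    xi (hr k r) ω = (⟨ω.1 * X k r ω.2, ω.1 * U k r ω.2⟩ : ℂ) := by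
  unfold xi hr
  rw [if_pos (by rw [norm_cis])]
  apply Complex.ext
  · rw [Complex.re_ofReal_mul]; rfl
  · rw [Complex.im_ofReal_mul]; rfl

lemma Ioo_ae_TT : (Set.Ioo (-Real.pi) Real.pi : Set ℝ) =ᵐ[volume] TT := by
  have h1 : (Set.Ioo (-Real.pi) Real.pi : Set ℝ) \ TT ⊆ {-(Real.pi / 2), Real.pi / 2} := by
    rintro θ ⟨hθ, hn⟩
    have hc : Real.cos θ = 0 := by
      by_contra hc
      exact hn ⟨hθ, hc⟩
    have hpi := Real.pi_pos
    rcases le_total 0 θ with h | h
    · right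
      by_contra hne
      rcases lt_or_gt_of_ne hne with h2 | h2
      · have := Real.cos_pos_of_mem_Ioo (x := θ) ⟨by linarith, h2⟩
        linarith
      · have := Real.cos_neg_of_pi_div_two_lt_of_lt h2 (by linarith [hθ.2])
        linarith
    · left
      by_contra hne
      rcases lt_or_gt_of_ne hne with h2 | h2
      · have := Real.cos_neg_of_pi_div_two_lt_of_lt (x := -θ) (by linarith) (by linarith [hθ.1])
        rw [Real.cos_neg] at this
        linarith
      · have := Real.cos_pos_of_mem_Ioo (x := θ) ⟨h2, by linarith⟩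
        linarith
  have h2 : volume ((Set.Ioo (-Real.pi) Real.pi : Set ℝ) \ TT) = 0 :=
    measure_mono_null h1 ((Set.toFinite _).measure_zero _)
  have h3 : TT ⊆ Set.Ioo (-Real.pi) Real.pi := fun θ h => h.1
  refine Filter.EventuallyLE.antisymm (ae_le_set.2 h2) (LE.le.eventuallyLE h3)

lemma setL_aux {p : ℝ} (hwt : Measurable (wt p)) {K : ℝ × ℝ → ℝ≥0∞} (hK : Measurable K) :
    ∫⁻ ω in SS, ENNReal.ofReal (wt p ω.1) * (ENNReal.ofReal (1 / (2 * Real.pi)) * K ω) =
      ∫⁻ ρ in Set.Ioi (0:ℝ), ENNReal.ofReal (wt p ρ) * (ENNReal.ofReal (1 / (2 * Real.pi)) *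
        ∫⁻ θ in TT, K (ρ, θ)) := by
  have hF : Measurable (fun ω : ℝ × ℝ => ENNReal.ofReal (wt p ω.1) * (ENNReal.ofReal (1 / (2 * Real.pi)) * K ω)) :=
    (hwt.comp measurable_fst).ennreal_ofReal.mul (hK.const_mul _)
  have e2 : ∫⁻ ω in Set.Ioi (0:ℝ) ×ˢ TT, ENNReal.ofReal (wt p ω.1) * (ENNReal.ofReal (1 / (2 * Real.pi)) * K ω) =
      ∫⁻ ρ in Set.Ioi (0:ℝ), ∫⁻ θ in TT, ENNReal.ofReal (wt p ρ) * (ENNReal.ofReal (1 / (2 * Real.pi)) * K (ρ, θ)) := by
    rw [Measure.volume_eq_prod, ← Measure.prod_restrict, lintegral_prod _ hF.aemeasurable]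
  unfold SS
  rw [e2]
  refine lintegral_congr fun ρ => ?_
  have m1 : Measurable (fun θ : ℝ => K (ρ, θ)) := hK.comp measurable_prodMk_left
  rw [lintegral_const_mul _ (m1.const_mul _), lintegral_const_mul _ m1]

namespace Dat

variable {k : ℝ → ℝ} {r : ℝ} {N : ℂ → ℝ} (d : Dat k r N)

include d

lemma measurable_FR (p : ℝ) : Measurable (FR p k r) := by
  have h1 := (continuous_Q d.hk d.hPB d.h0 d.h1).measurable
  have h2 := (continuous_X d.hk d.hPB d.h0 d.h1).measurable
  have h3 : Measurable fun θ => 2 * Real.pi / Sp p * |Q k r θ| / ((1 / (p - 1)) * (1 - |X k r θ| ^ p)) ^ (1 / p) :=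
    (h1.abs.const_mul _).div (((measurable_const.sub (h2.abs.pow_const _)).const_mul _).pow_const _)
  exact h3

lemma FR_nonneg {p : ℝ} (hp : 1 < p) (θ : ℝ) : 0 ≤ FR p k r θ := by
  have e1 : FR p k r θ = 2 * Real.pi / Sp p * |Q k r θ| / ((1 / (p - 1)) * (1 - |X k r θ| ^ p)) ^ (1 / p) := rfl
  rw [e1]
  have hX1 := d.abs_X_lt θ
  have h2 : |X k r θ| ^ p < 1 := Real.rpow_lt_one (abs_nonneg _) hX1 (by linarith)
  have h3 : 0 < 1 / (p - 1) := by
    have : 0 < p - 1 := by linarith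
    positivity
  have hc : 0 < (1 / (p - 1)) * (1 - |X k r θ| ^ p) := mul_pos h3 (by linarith)
  have := Sp_pos hp
  have := Real.pi_pos
  positivity

theorem push {p : ℝ} (hp : 1 < p) (hmeas : Measurable (hr k r)) :
    volume.withDensity (fun ξ : ℂ => ENNReal.ofReal (Real.exp (-((N ξ) ^ p / p)) * YYb p k r ξ.re ξ.im)) =
    ((Pm p).withDensity (fun ω => ENNReal.ofReal (Sp p * FR p k r ω.2))).map (xi (hr k r)) := by
  have hYYb := d.measurable_YYb hp
  have hf : Measurable (fun ξ : ℂ => ENNReal.ofReal (Real.exp (-((N ξ) ^ p / p)) * YYb p k r ξ.re ξ.im)) := by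
    have h1 : Measurable (fun ξ : ℂ => YYb p k r ξ.re ξ.im) :=
      hYYb.comp (Complex.measurable_re.prodMk Complex.measurable_im)
    have h2 : Measurable (fun ξ : ℂ => Real.exp (-((N ξ) ^ p / p))) :=
      Real.measurable_exp.comp (((d.Ncont.measurable.pow_const _).div_const _).neg)
    exact (h2.mul h1).ennreal_ofReal
  have hFR := d.measurable_FR p
  have hcis : Measurable cis := (continuous_iff_continuousAt.2 fun θ => (hasDerivAt_cis θ).continuousAt).measurable
  have hxi : Measurable (xi (hr k r)) := by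
    unfold xi
    exact (Complex.measurable_ofReal.comp measurable_fst).mul (hmeas.comp (hcis.comp measurable_snd))
  have hSF : Measurable (fun ω : ℝ × ℝ => ENNReal.ofReal (Sp p * FR p k r ω.2)) :=
    ((hFR.comp measurable_snd).const_mul _).ennreal_ofReal
  have hwt : Measurable (wt p) := by
    unfold wt
    exact Measurable.ite measurableSet_Ioi ((measurable_id.pow_const _).mul
      (Real.measurable_exp.comp (((measurable_id.pow_const _).div_const _).neg))) measurable_const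
  refine Measure.ext_of_lintegral _ fun G hG => ?_
  -- left side
  have L1 : ∫⁻ ξ, G ξ ∂(volume.withDensity (fun ξ : ℂ => ENNReal.ofReal (Real.exp (-((N ξ) ^ p / p)) * YYb p k r ξ.re ξ.im))) =
      ∫⁻ ω in SS, ENNReal.ofReal |(Psi' k r ω).det| *
        (ENNReal.ofReal (Real.exp (-((N ⟨(Psi k r ω).1, (Psi k r ω).2⟩) ^ p / p)) *
          YYb p k r (Psi k r ω).1 (Psi k r ω).2) * G ⟨(Psi k r ω).1, (Psi k r ω).2⟩) := by
    rw [lintegral_withDensity_eq_lintegral_mul _ hf hG]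
    have h1 := (Complex.volume_preserving_equiv_real_prod.symm _).lintegral_comp (f := fun ξ : ℂ =>
      ((fun ξ : ℂ => ENNReal.ofReal (Real.exp (-((N ξ) ^ p / p)) * YYb p k r ξ.re ξ.im)) * G) ξ) (hf.mul hG)
    rw [← h1]
    have h2 := lintegral_image_eq_lintegral_abs_det_fderiv_mul volume measurableSet_SS
      (fun ω _ => (d.hasFDerivAt_Psi ω).hasFDerivWithinAt) d.injOn_Psi
      (fun x : ℝ × ℝ => ENNReal.ofReal (Real.exp (-((N ⟨x.1, x.2⟩) ^ p / p)) * YYb p k r x.1 x.2) * G ⟨x.1, x.2⟩)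
    rw [← h2, setLIntegral_congr d.image_ae, setLIntegral_univ]
    rfl
  have L2 : ∀ ω ∈ SS, ENNReal.ofReal |(Psi' k r ω).det| *
        (ENNReal.ofReal (Real.exp (-((N ⟨(Psi k r ω).1, (Psi k r ω).2⟩) ^ p / p)) *
          YYb p k r (Psi k r ω).1 (Psi k r ω).2) * G ⟨(Psi k r ω).1, (Psi k r ω).2⟩) =
      ENNReal.ofReal (wt p ω.1) * (ENNReal.ofReal (1 / (2 * Real.pi)) *
        (ENNReal.ofReal (Sp p * FR p k r ω.2) * G (xi (hr k r) ω))) := by
    rintro ⟨ρ, θ⟩ ⟨hρ, hθ⟩
    simp only [Set.mem_Ioi] at hρ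
    simp only at hθ
    rw [d.det_Psi', xi_hr]
    simp only [Psi]
    have hN : N ⟨ρ * X k r θ, ρ * U k r θ⟩ = ρ := by
      rw [← d.N1 ρ θ hρ.le]
      congr 1
      apply Complex.ext
      · rw [Complex.re_ofReal_mul, d.N1 ρ θ hρ.le]; rfl
      · rw [Complex.im_ofReal_mul, d.N1 ρ θ hρ.le]; rfl
    rw [hN, ← mul_assoc, ← ENNReal.ofReal_mul (abs_nonneg _), d.density_eq hp (Sp_pos hp) hρ hθ]
    have hw : 0 ≤ wt p ρ := by
      unfold wt; rw [if_pos hρ]
      positivity
    rw [ENNReal.ofReal_mul hw, ENNReal.ofReal_mul (by positivity)]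
    ring
  rw [L1, setLIntegral_congr_fun measurableSet_SS L2]
  -- right side
  rw [lintegral_map hG hxi, lintegral_withDensity_eq_lintegral_mul (Pm p) hSF (g := fun a => G (xi (hr k r) a)) (hG.comp hxi)]
  have hmH : Measurable (fun ω : ℝ × ℝ => ENNReal.ofReal (Sp p * FR p k r ω.2) * G (xi (hr k r) ω)) :=
    hSF.mul (hG.comp hxi)
  have R1 : ∫⁻ ω, ((fun ω : ℝ × ℝ => ENNReal.ofReal (Sp p * FR p k r ω.2)) * fun ω => G (xi (hr k r) ω)) ω ∂(Pm p) =
      ∫⁻ ρ, ENNReal.ofReal (wt p ρ) * (ENNReal.ofReal (1 / (2 * Real.pi)) *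
        ∫⁻ θ in TT, ENNReal.ofReal (Sp p * FR p k r θ) * G (xi (hr k r) (ρ, θ))) := by
    have e0 : ∫⁻ ω, ((fun ω : ℝ × ℝ => ENNReal.ofReal (Sp p * FR p k r ω.2)) * fun ω => G (xi (hr k r) ω)) ω ∂(Pm p) =
        ∫⁻ ω, (ENNReal.ofReal (Sp p * FR p k r ω.2) * G (xi (hr k r) ω)) ∂((Wm p).prod Am) := rfl
    have : SFinite Am := by unfold Am; infer_instance
    have : SFinite (Wm p) := by unfold Wm; infer_instance
    rw [e0, lintegral_prod _ hmH.aemeasurable]
    unfold Wm
    have hm2 : Measurable (fun ρ : ℝ => ∫⁻ θ, ENNReal.ofReal (Sp p * FR p k r θ) * G (xi (hr k r) (ρ, θ)) ∂Am) :=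
      Measurable.lintegral_prod_right' hmH
    have e1 := lintegral_withDensity_eq_lintegral_mul volume hwt.ennreal_ofReal hm2
    refine e1.trans ?_
    refine lintegral_congr fun ρ => ?_
    simp only [Pi.mul_apply]
    congr 1
    unfold Am
    rw [lintegral_smul_measure, smul_eq_mul, setLIntegral_congr Ioo_ae_TT]
  rw [R1]
  have L3 := setL_aux hwt hmH
  rw [L3, ← lintegral_indicator measurableSet_Ioi]
  refine lintegral_congr fun ρ => ?_
  by_cases hρ : 0 < ρ
  · rw [Set.indicator_of_mem (Set.mem_Ioi.2 hρ)]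
  · rw [Set.indicator_of_notMem (by simpa using hρ)]
    have : wt p ρ = 0 := by unfold wt; rw [if_neg hρ]
    rw [this]; simp

end Dat

end PD

open PD H712MA in
theorem PD (hPB : S_PB) (hPF : S_PF) : S_PD := by
  intro p k hp hp2 hk hx r h0 h1 L N hTD hN1 hN2
  have d : Dat k r N := ⟨hk, hPB, hPF, h0, h1, hx, hTD.Ncont, hTD.Nnonneg, hN1, hN2⟩
  refine ⟨YY p k r, YYb p k r, ?_⟩
  exact {
    Fmeas := d.measurable_FR p
    Fnn := d.FR_nonneg hp
    Ymeas := d.measurable_YY hp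
    Ybmeas := d.measurable_YYb hp
    der := fun a ha b => d.der hp ha b
    Ybnn := fun a ha b => by
      unfold YYb
      have := d.ypd_nonneg hp (b / |a|)
      positivity
    bound := fun a ha b => d.bound hp ha b
    push := d.push hp hTD.meas }

end H845LP
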