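import Pool.Agent.H845R4.LP.Stm

set_option autoImplicit false
set_option linter.unusedVariables false
set_option linter.unusedSectionVars false

noncomputable section

open MeasureTheory Filter Topology Set
open scoped BigOperators Matrix ENNReal

namespace H845LP
namespace PD

open H712MA

/-! ### `cis` -/

lemma cis_re (θ : ℝ) : (cis θ).re = Real.cos θ := by
  unfold cis; exact Complex.exp_ofReal_mul_I_re θ

lemma cis_im (θ : ℝ) : (cis θ).im = Real.sin θ := by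
  unfold cis; exact Complex.exp_ofReal_mul_I_im θ

lemma norm_cis (θ : ℝ) : ‖cis θ‖ = 1 := by
  unfold cis
  exact Complex.norm_exp_ofReal_mul_I θ

lemma cis_neg (θ : ℝ) : cis (-θ) = starRingEnd ℂ (cis θ) := by
  apply Complex.ext
  · rw [Complex.conj_re, cis_re, cis_re, Real.cos_neg]
  · rw [Complex.conj_im, cis_im, cis_im, Real.sin_neg]

lemma cis_pi_sub (θ : ℝ) : cis (Real.pi - θ) = - starRingEnd ℂ (cis θ) := by
  apply Complex.ext
  · rw [Complex.neg_re, Complex.conj_re, cis_re, cis_re, Real.cos_pi_sub]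
  · rw [Complex.neg_im, Complex.conj_im, cis_im, cis_im, Real.sin_pi_sub, neg_neg]

lemma cis_add_pi (θ : ℝ) : cis (θ + Real.pi) = - cis θ := by
  apply Complex.ext
  · rw [Complex.neg_re, cis_re, cis_re, Real.cos_add_pi]
  · rw [Complex.neg_im, cis_im, cis_im, Real.sin_add_pi]

lemma hasDerivAt_cis (θ : ℝ) : HasDerivAt cis (cis θ * Complex.I) θ := by
  unfold cis
  have h1 : HasDerivAt (fun t : ℝ => (t : ℂ) * Complex.I) Complex.I θ := by
    have := (Complex.ofRealCLM.hasDerivAt (x := θ)).mul_const Complex.I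
    simpa using this
  exact h1.cexp

/-! ### the curve -/

/-- `r e^{iθ}` -/
def zr (r θ : ℝ) : ℂ := (r : ℂ) * cis θ

/-- real part of the curve -/
def X (k : ℝ → ℝ) (r θ : ℝ) : ℝ := (HK k (zr r θ)).re
/-- imaginary part of the curve -/
def U (k : ℝ → ℝ) (r θ : ℝ) : ℝ := (HK k (zr r θ)).im
/-- real part of `TK` -/
def P (k : ℝ → ℝ) (r θ : ℝ) : ℝ := (TK k (zr r θ)).re
/-- imaginary part of `TK` -/
def Q (k : ℝ → ℝ) (r θ : ℝ) : ℝ := (TK k (zr r θ)).im
/-- the determinant -/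
def D (k : ℝ → ℝ) (r θ : ℝ) : ℝ := X k r θ * P k r θ + U k r θ * Q k r θ

lemma norm_zr {r : ℝ} (h0 : 0 < r) (θ : ℝ) : ‖zr r θ‖ = r := by
  unfold zr
  rw [norm_mul, norm_cis, mul_one, Complex.norm_real, Real.norm_of_nonneg h0.le]

lemma zr_re (r θ : ℝ) : (zr r θ).re = r * Real.cos θ := by
  unfold zr; rw [Complex.re_ofReal_mul, cis_re]

lemma zr_im (r θ : ℝ) : (zr r θ).im = r * Real.sin θ := by
  unfold zr; rw [Complex.im_ofReal_mul, cis_im]

lemma zr_neg (r θ : ℝ) : zr r (-θ) = starRingEnd ℂ (zr r θ) := by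
  unfold zr
  rw [cis_neg, map_mul, Complex.conj_ofReal]

lemma zr_pi_sub (r θ : ℝ) : zr r (Real.pi - θ) = - starRingEnd ℂ (zr r θ) := by
  unfold zr
  rw [cis_pi_sub, map_mul, Complex.conj_ofReal]; ring

lemma zr_add_pi (r θ : ℝ) : zr r (θ + Real.pi) = - zr r θ := by
  unfold zr
  rw [cis_add_pi]; ring

lemma hasDerivAt_zr (r θ : ℝ) : HasDerivAt (zr r) (zr r θ * Complex.I) θ := by
  unfold zr
  refine ((hasDerivAt_cis θ).const_mul (r : ℂ)).congr_deriv ?_
  ring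

section

variable {k : ℝ → ℝ} (hk : Ker k) (hPB : S_PB) {r : ℝ} (h0 : 0 < r) (h1 : r < 1)

include hk hPB

lemma X_neg (θ : ℝ) : X k r (-θ) = X k r θ := by
  unfold X; rw [zr_neg, (hPB k hk).2.2.2.2.2.1, Complex.conj_re]

lemma U_neg (θ : ℝ) : U k r (-θ) = - U k r θ := by
  unfold U; rw [zr_neg, (hPB k hk).2.2.2.2.2.1, Complex.conj_im]

lemma P_neg (θ : ℝ) : P k r (-θ) = P k r θ := by
  unfold P; rw [zr_neg, (hPB k hk).2.2.2.2.2.2.1, Complex.conj_re]

lemma Q_neg (θ : ℝ) : Q k r (-θ) = - Q k r θ := by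
  unfold Q; rw [zr_neg, (hPB k hk).2.2.2.2.2.2.1, Complex.conj_im]

lemma X_pi_sub (θ : ℝ) : X k r (Real.pi - θ) = - X k r θ := by
  unfold X; rw [zr_pi_sub, (hPB k hk).2.2.2.2.2.2.2.1, (hPB k hk).2.2.2.2.2.1, Complex.neg_re, Complex.conj_re]

lemma U_pi_sub (θ : ℝ) : U k r (Real.pi - θ) = U k r θ := by
  unfold U; rw [zr_pi_sub, (hPB k hk).2.2.2.2.2.2.2.1, (hPB k hk).2.2.2.2.2.1, Complex.neg_im, Complex.conj_im,
    neg_neg]

lemma P_pi_sub (θ : ℝ) : P k r (Real.pi - θ) = - P k r θ := by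
  unfold P; rw [zr_pi_sub, (hPB k hk).2.2.2.2.2.2.2.2.1, (hPB k hk).2.2.2.2.2.2.1, Complex.neg_re, Complex.conj_re]

lemma Q_pi_sub (θ : ℝ) : Q k r (Real.pi - θ) = Q k r θ := by
  unfold Q; rw [zr_pi_sub, (hPB k hk).2.2.2.2.2.2.2.2.1, (hPB k hk).2.2.2.2.2.2.1, Complex.neg_im, Complex.conj_im,
    neg_neg]

lemma D_neg (θ : ℝ) : D k r (-θ) = D k r θ := by
  unfold D; rw [X_neg hk hPB, U_neg hk hPB, P_neg hk hPB, Q_neg hk hPB]; ring

lemma D_pi_sub (θ : ℝ) : D k r (Real.pi - θ) = D k r θ := by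
  unfold D; rw [X_pi_sub hk hPB, U_pi_sub hk hPB, P_pi_sub hk hPB, Q_pi_sub hk hPB]; ring

include h0 h1

lemma X_pos {θ : ℝ} (h : 0 < Real.cos θ) : 0 < X k r θ := by
  obtain ⟨-, -, -, -, -, -, -, -, -, -, -, -, hre, -, -⟩ := hPB k hk
  refine hre _ (by rw [norm_zr h0]; exact h1) ?_
  rw [zr_re]; positivity

lemma U_pos {θ : ℝ} (h : 0 < Real.sin θ) : 0 < U k r θ := by
  obtain ⟨-, -, -, -, -, -, -, -, -, -, -, him, -, -, -⟩ := hPB k hk
  refine him _ (by rw [norm_zr h0]; exact h1) ?_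
  rw [zr_im]; positivity

lemma P_pos {θ : ℝ} (h : 0 < Real.cos θ) : 0 < P k r θ := by
  obtain ⟨-, -, -, -, -, -, -, -, -, -, hre, -, -, -, -⟩ := hPB k hk
  refine hre _ (by rw [norm_zr h0]; exact h1) ?_
  rw [zr_re]; positivity

lemma Q_pos {θ : ℝ} (h : 0 < Real.sin θ) : 0 < Q k r θ := by
  obtain ⟨-, -, -, -, -, -, -, -, -, him, -, -, -, -, -⟩ := hPB k hk
  refine him _ (by rw [norm_zr h0]; exact h1) ?_
  rw [zr_im]; positivity

lemma X_neg_of {θ : ℝ} (h : Real.cos θ < 0) : X k r θ < 0 := by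
  have := X_pos hk hPB h0 h1 (θ := Real.pi - θ) (by rw [Real.cos_pi_sub]; linarith)
  rw [X_pi_sub hk hPB] at this; linarith

lemma P_neg_of {θ : ℝ} (h : Real.cos θ < 0) : P k r θ < 0 := by
  have := P_pos hk hPB h0 h1 (θ := Real.pi - θ) (by rw [Real.cos_pi_sub]; linarith)
  rw [P_pi_sub hk hPB] at this; linarith

lemma U_neg_of {θ : ℝ} (h : Real.sin θ < 0) : U k r θ < 0 := by
  have := U_pos hk hPB h0 h1 (θ := -θ) (by rw [Real.sin_neg]; linarith)
  rw [U_neg hk hPB] at this; linarith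

lemma Q_neg_of {θ : ℝ} (h : Real.sin θ < 0) : Q k r θ < 0 := by
  have := Q_pos hk hPB h0 h1 (θ := -θ) (by rw [Real.sin_neg]; linarith)
  rw [Q_neg hk hPB] at this; linarith

omit h0 h1 in
lemma zr_im_zero {θ : ℝ} (h : Real.sin θ = 0) : starRingEnd ℂ (zr r θ) = zr r θ := by
  apply Complex.ext
  · rw [Complex.conj_re]
  · rw [Complex.conj_im, zr_im, h]; simp

omit h0 h1 in
lemma zr_re_zero {θ : ℝ} (h : Real.cos θ = 0) : - starRingEnd ℂ (zr r θ) = zr r θ := by
  apply Complex.ext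
  · rw [Complex.neg_re, Complex.conj_re, zr_re, h]; simp
  · rw [Complex.neg_im, Complex.conj_im, neg_neg]

omit h0 h1 in
lemma U_zero {θ : ℝ} (h : Real.sin θ = 0) : U k r θ = 0 := by
  have h2 := (hPB k hk).2.2.2.2.2.1 (zr r θ)
  rw [zr_im_zero hk hPB h] at h2
  have := congrArg Complex.im h2
  rw [Complex.conj_im] at this
  unfold U; linarith

omit h0 h1 in
lemma Q_zero {θ : ℝ} (h : Real.sin θ = 0) : Q k r θ = 0 := by
  have h2 := (hPB k hk).2.2.2.2.2.2.1 (zr r θ)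
  rw [zr_im_zero hk hPB h] at h2
  have := congrArg Complex.im h2
  rw [Complex.conj_im] at this
  unfold Q; linarith

omit h0 h1 in
lemma X_zero {θ : ℝ} (h : Real.cos θ = 0) : X k r θ = 0 := by
  have h2 := (hPB k hk).2.2.2.2.2.2.2.1 (starRingEnd ℂ (zr r θ))
  rw [zr_re_zero hk hPB h, (hPB k hk).2.2.2.2.2.1] at h2
  have := congrArg Complex.re h2
  rw [Complex.neg_re, Complex.conj_re] at this
  unfold X; linarith

lemma X_ne {θ : ℝ} (h : Real.cos θ ≠ 0) : X k r θ ≠ 0 := by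
  rcases lt_or_gt_of_ne h with h | h
  · exact (X_neg_of hk hPB h0 h1 h).ne
  · exact (X_pos hk hPB h0 h1 h).ne'

lemma XP_nonneg (θ : ℝ) : 0 ≤ X k r θ * P k r θ := by
  rcases lt_trichotomy (Real.cos θ) 0 with h | h | h
  · exact (mul_pos_of_neg_of_neg (X_neg_of hk hPB h0 h1 h) (P_neg_of hk hPB h0 h1 h)).le
  · rw [X_zero hk hPB h]; simp
  · exact (mul_pos (X_pos hk hPB h0 h1 h) (P_pos hk hPB h0 h1 h)).le

lemma UQ_nonneg (θ : ℝ) : 0 ≤ U k r θ * Q k r θ := by
  rcases lt_trichotomy (Real.sin θ) 0 with h | h | h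
  · exact (mul_pos_of_neg_of_neg (U_neg_of hk hPB h0 h1 h) (Q_neg_of hk hPB h0 h1 h)).le
  · rw [U_zero hk hPB h]; simp
  · exact (mul_pos (U_pos hk hPB h0 h1 h) (Q_pos hk hPB h0 h1 h)).le

lemma D_pos (θ : ℝ) : 0 < D k r θ := by
  unfold D
  have hXP := XP_nonneg hk hPB h0 h1 θ
  have hUQ := UQ_nonneg hk hPB h0 h1 θ
  rcases lt_trichotomy (Real.cos θ) 0 with h | h | h
  · have := mul_pos_of_neg_of_neg (X_neg_of hk hPB h0 h1 h) (P_neg_of hk hPB h0 h1 h)
    linarith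
  · have hs : Real.sin θ ≠ 0 := by
      intro hs
      have := Real.sin_sq_add_cos_sq θ
      rw [hs, h] at this; norm_num at this
    rcases lt_or_gt_of_ne hs with hs | hs
    · have := mul_pos_of_neg_of_neg (U_neg_of hk hPB h0 h1 hs) (Q_neg_of hk hPB h0 h1 hs)
      linarith
    · have := mul_pos (U_pos hk hPB h0 h1 hs) (Q_pos hk hPB h0 h1 hs)
      linarith
  · have := mul_pos (X_pos hk hPB h0 h1 h) (P_pos hk hPB h0 h1 h)
    linarith

lemma hasDerivAt_H (θ : ℝ) : HasDerivAt (fun θ => HK k (zr r θ)) (TK k (zr r θ) * Complex.I) θ := by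
  have h2 := (hPB k hk).1 (zr r θ) (by rw [norm_zr h0]; exact h1)
  have h3 := (hPB k hk).2.1 (zr r θ) (by rw [norm_zr h0]; exact h1)
  have h4 := h2.scomp θ (hasDerivAt_zr r θ)
  refine h4.congr_deriv ?_
  rw [← h3, smul_eq_mul]; ring

lemma hasDerivAt_X (θ : ℝ) : HasDerivAt (X k r) (- Q k r θ) θ := by
  have h2 := Complex.reCLM.hasFDerivAt.comp_hasDerivAt θ (hasDerivAt_H hk hPB h0 h1 θ)
  refine h2.congr_deriv ?_
  simp [Q]

lemma hasDerivAt_U (θ : ℝ) : HasDerivAt (U k r) (P k r θ) θ := by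
  have h2 := Complex.imCLM.hasFDerivAt.comp_hasDerivAt θ (hasDerivAt_H hk hPB h0 h1 θ)
  refine h2.congr_deriv ?_
  simp [P]

lemma differentiableOn_HKd : DifferentiableOn ℂ (HK k) (Metric.ball 0 1) := by
  intro ζ hζ
  rw [Metric.mem_ball, dist_zero_right] at hζ
  exact ((hPB k hk).1 ζ hζ).differentiableAt.differentiableWithinAt

lemma continuous_TKzr : Continuous (fun θ => TK k (zr r θ)) := by
  have h2 : DifferentiableOn ℂ (deriv (HK k)) (Metric.ball 0 1) :=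
    (differentiableOn_HKd hk hPB h0 h1).deriv Metric.isOpen_ball
  have h3 : ∀ θ, TK k (zr r θ) = zr r θ * deriv (HK k) (zr r θ) := by
    intro θ
    have hn : ‖zr r θ‖ < 1 := by rw [norm_zr h0]; exact h1
    rw [((hPB k hk).1 _ hn).deriv, (hPB k hk).2.1 _ hn]
  have hz : Continuous (zr r) := continuous_iff_continuousAt.2 fun θ => (hasDerivAt_zr r θ).continuousAt
  have h4 : Continuous (fun θ => deriv (HK k) (zr r θ)) := by
    refine h2.continuousOn.comp_continuous hz fun θ => ?_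
    rw [Metric.mem_ball, dist_zero_right, norm_zr h0]; exact h1
  have h5 : (fun θ => TK k (zr r θ)) = fun θ => zr r θ * deriv (HK k) (zr r θ) := funext h3
  rw [h5]
  exact hz.mul h4

lemma continuous_X : Continuous (X k r) :=
  continuous_iff_continuousAt.2 fun θ => (hasDerivAt_X hk hPB h0 h1 θ).continuousAt

lemma continuous_U : Continuous (U k r) :=
  continuous_iff_continuousAt.2 fun θ => (hasDerivAt_U hk hPB h0 h1 θ).continuousAt

lemma continuous_P : Continuous (P k r) := Complex.continuous_re.comp (continuous_TKzr hk hPB h0 h1)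

lemma continuous_Q : Continuous (Q k r) := Complex.continuous_im.comp (continuous_TKzr hk hPB h0 h1)

lemma continuous_D : Continuous (D k r) :=
  ((continuous_X hk hPB h0 h1).mul (continuous_P hk hPB h0 h1)).add
    ((continuous_U hk hPB h0 h1).mul (continuous_Q hk hPB h0 h1))

end

end PD
end H845LP
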