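import Pool.Agent.H845R4.LP.PD1

set_option autoImplicit false
set_option linter.unusedVariables false
set_option linter.unusedSectionVars false

noncomputable section

open MeasureTheory Filter Topology Set
open scoped BigOperators Matrix ENNReal

namespace H845LP
namespace PD

open H712MA

/-- all hypotheses of the task -/
structure Dat (k : ℝ → ℝ) (r : ℝ) (N : ℂ → ℝ) : Prop where
  hk : Ker k
  hPB : S_PB
  hPF : S_PF
  h0 : 0 < r
  h1 : r < 1
  x0 : xk k 0 = 1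
  Ncont : Continuous N
  Nnn : ∀ ξ, 0 ≤ N ξ
  N1 : ∀ (ρ θ : ℝ), 0 ≤ ρ → N ((ρ : ℂ) * HK k (zr r θ)) = ρ
  N2 : ∀ ξ : ℂ, ξ ≠ 0 → 0 < N ξ ∧ ∃ θ ∈ Set.Ioc (-Real.pi) Real.pi, ξ = (N ξ : ℂ) * HK k (zr r θ)

/-- the interval -/
abbrev IH : Set ℝ := Set.Ioo (-(Real.pi / 2)) (Real.pi / 2)

/-- slope -/
def sl (k : ℝ → ℝ) (r θ : ℝ) : ℝ := U k r θ / X k r θ

namespace Dat

variable {k : ℝ → ℝ} {r : ℝ} {N : ℂ → ℝ} (d : Dat k r N)

include d

lemma cos_pos {θ : ℝ} (h : θ ∈ IH) : 0 < Real.cos θ := Real.cos_pos_of_mem_Ioo ⟨by linarith [h.1], h.2⟩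

lemma Xpos {θ : ℝ} (h : θ ∈ IH) : 0 < X k r θ := X_pos d.hk d.hPB d.h0 d.h1 (d.cos_pos h)

lemma Dpos (θ : ℝ) : 0 < D k r θ := D_pos d.hk d.hPB d.h0 d.h1 θ

lemma abs_X_lt (θ : ℝ) : |X k r θ| < 1 := by
  obtain ⟨-, -, h3, h4⟩ := d.hPF k d.hk
  have h5 := h3 r θ d.h0.le d.h1
  have h6 := h4 r d.h0.le d.h1
  rw [d.x0] at h6
  unfold X zr
  linarith

lemma hasDerivAt_sl {θ : ℝ} (h : θ ∈ IH) :
    HasDerivAt (sl k r) (D k r θ / (X k r θ) ^ 2) θ := by
  have hX := (d.Xpos h).ne'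
  have h1 := (hasDerivAt_U d.hk d.hPB d.h0 d.h1 θ).div (hasDerivAt_X d.hk d.hPB d.h0 d.h1 θ) hX
  refine h1.congr_deriv ?_
  unfold D
  congr 1
  ring

lemma sl_strictMonoOn : StrictMonoOn (sl k r) IH := by
  refine strictMonoOn_of_deriv_pos (convex_Ioo _ _) ?_ ?_
  · intro θ hθ
    exact (d.hasDerivAt_sl hθ).continuousAt.continuousWithinAt
  · intro θ hθ
    rw [interior_Ioo] at hθ
    rw [(d.hasDerivAt_sl hθ).deriv]
    have := d.Dpos θ
    have := d.Xpos hθ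
    positivity

lemma mem_of_X_pos {θ : ℝ} (hθ : θ ∈ Set.Ioc (-Real.pi) Real.pi) (h : 0 < X k r θ) : θ ∈ IH := by
  have hc : 0 < Real.cos θ := by
    by_contra hc
    rw [not_lt] at hc
    rcases hc.lt_or_eq with hc | hc
    · have := X_neg_of d.hk d.hPB d.h0 d.h1 hc
      linarith
    · have := X_zero (r := r) d.hk d.hPB hc
      linarith
  constructor
  · by_contra hh
    rw [not_lt] at hh
    have : Real.cos θ ≤ 0 := by
      have h3 := Real.cos_nonpos_of_pi_div_two_le_of_le (x := -θ) (by linarith) (by linarith [hθ.1, Real.pi_pos])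
      rwa [Real.cos_neg] at h3
    linarith
  · by_contra hh
    rw [not_lt] at hh
    have := Real.cos_nonpos_of_pi_div_two_le_of_le (x := θ) hh (by linarith [hθ.2, Real.pi_pos])
    linarith

/-- description of the half plane `a > 0` -/
lemma exists_theta {a b : ℝ} (ha : 0 < a) : 0 < N ⟨a, b⟩ ∧
    ∃ θ ∈ IH, a = N ⟨a, b⟩ * X k r θ ∧ b = N ⟨a, b⟩ * U k r θ ∧ sl k r θ = b / a := by
  have hne : (⟨a, b⟩ : ℂ) ≠ 0 := by
    intro h
    have := congrArg Complex.re h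
    simp at this
    exact ha.ne' this
  obtain ⟨hN, θ, hθ, he⟩ := d.N2 _ hne
  refine ⟨hN, θ, ?_⟩
  have hre := congrArg Complex.re he
  have him := congrArg Complex.im he
  rw [Complex.re_ofReal_mul] at hre
  rw [Complex.im_ofReal_mul] at him
  simp only at hre him
  have hX : 0 < X k r θ := by
    unfold X
    by_contra hc
    rw [not_lt] at hc
    have := mul_nonpos_of_nonneg_of_nonpos hN.le hc
    linarith
  refine ⟨d.mem_of_X_pos hθ hX, hre, him, ?_⟩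
  unfold sl
  rw [div_eq_div_iff hX.ne' ha.ne']
  have h1 : U k r θ = (HK k (zr r θ)).im := rfl
  have h2 : X k r θ = (HK k (zr r θ)).re := rfl
  rw [← h2] at hre
  rw [← h1] at him
  generalize N ⟨a, b⟩ = M at hre him hN
  rw [hre, him]
  ring

lemma sl_surj (t : ℝ) : ∃ θ ∈ IH, sl k r θ = t := by
  obtain ⟨-, θ, hθ, -, -, h⟩ := d.exists_theta (a := 1) (b := t) one_pos
  exact ⟨θ, hθ, by rw [h]; simp⟩

omit d in
/-- inverse of the slope -/
def _root_.H845LP.PD.Th (k : ℝ → ℝ) (r t : ℝ) : ℝ := by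
  classical
  exact if h : ∃ θ ∈ IH, sl k r θ = t then Classical.choose h else 0

lemma Th_mem (t : ℝ) : Th k r t ∈ IH := by
  unfold Th
  rw [dif_pos (d.sl_surj t)]
  exact (Classical.choose_spec (d.sl_surj t)).1

lemma sl_Th (t : ℝ) : sl k r (Th k r t) = t := by
  unfold Th
  rw [dif_pos (d.sl_surj t)]
  exact (Classical.choose_spec (d.sl_surj t)).2

lemma Th_sl {θ : ℝ} (h : θ ∈ IH) : Th k r (sl k r θ) = θ :=
  d.sl_strictMonoOn.injOn (d.Th_mem _) h (d.sl_Th _)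

lemma Th_strictMono : StrictMono (Th k r) := by
  intro s t hst
  by_contra hc
  rw [not_lt] at hc
  have := d.sl_strictMonoOn.monotoneOn (d.Th_mem t) (d.Th_mem s) hc
  rw [d.sl_Th, d.sl_Th] at this
  linarith

lemma continuous_Th : Continuous (Th k r) := by
  have hr : Set.range (Th k r) = IH := by
    apply Set.Subset.antisymm
    · rintro _ ⟨t, rfl⟩
      exact d.Th_mem t
    · intro θ hθ
      exact ⟨sl k r θ, d.Th_sl hθ⟩
  rw [continuous_iff_continuousAt]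
  intro t
  have h1 : Th k r '' Set.univ ∈ 𝓝 (Th k r t) := by
    rw [Set.image_univ, hr]
    exact isOpen_Ioo.mem_nhds (d.Th_mem t)
  exact (d.Th_strictMono.strictMonoOn Set.univ).continuousAt_of_image_mem_nhds Filter.univ_mem h1

lemma hasDerivAt_Th (t : ℝ) : HasDerivAt (Th k r) ((X k r (Th k r t)) ^ 2 / D k r (Th k r t)) t := by
  have h1 := d.hasDerivAt_sl (d.Th_mem t)
  have hD := d.Dpos (Th k r t)
  have hX := d.Xpos (d.Th_mem t)
  have h2 : D k r (Th k r t) / (X k r (Th k r t)) ^ 2 ≠ 0 := by positivity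
  have h3 := HasDerivAt.of_local_left_inverse (d.continuous_Th.continuousAt) h1 h2
    (Filter.Eventually.of_forall fun s => d.sl_Th s)
  refine h3.congr_deriv ?_
  rw [inv_div]

/-- `ν(t) = N(1,t)` -/
def _root_.H845LP.PD.nu (k : ℝ → ℝ) (r t : ℝ) : ℝ := 1 / X k r (Th k r t)

lemma nu_gt (t : ℝ) : 1 < nu k r t := by
  unfold nu
  have hX := d.Xpos (d.Th_mem t)
  have h2 := d.abs_X_lt (Th k r t)
  rw [abs_of_pos hX] at h2
  rw [lt_div_iff₀ hX]; linarith

/-- derivative of `ν` -/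
def _root_.H845LP.PD.nud (k : ℝ → ℝ) (r t : ℝ) : ℝ := Q k r (Th k r t) / D k r (Th k r t)

lemma hasDerivAt_nu (t : ℝ) : HasDerivAt (nu k r) (nud k r t) t := by
  have hX := d.Xpos (d.Th_mem t)
  have hD := d.Dpos (Th k r t)
  have h1 := (hasDerivAt_X d.hk d.hPB d.h0 d.h1 (Th k r t)).comp t (d.hasDerivAt_Th t)
  have h2 := h1.fun_inv hX.ne'
  have h3 : nu k r = fun t => (X k r (Th k r t))⁻¹ := by
    funext s; unfold nu; rw [one_div]
  rw [h3]
  refine h2.congr_deriv ?_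
  unfold nud
  simp only [Function.comp_apply]
  field_simp

lemma continuous_nud : Continuous (nud k r) := by
  unfold nud
  refine ((continuous_Q d.hk d.hPB d.h0 d.h1).comp d.continuous_Th).div
    ((continuous_D d.hk d.hPB d.h0 d.h1).comp d.continuous_Th) fun t => (d.Dpos _).ne'

lemma continuous_nu : Continuous (nu k r) :=
  continuous_iff_continuousAt.2 fun t => (d.hasDerivAt_nu t).continuousAt

lemma sl_neg (θ : ℝ) : sl k r (-θ) = - sl k r θ := by
  unfold sl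
  rw [U_neg d.hk d.hPB, X_neg d.hk d.hPB, neg_div]

lemma Th_neg (t : ℝ) : Th k r (-t) = - Th k r t := by
  have h1 := d.Th_mem t
  have h2 : - Th k r t ∈ IH := ⟨by linarith [h1.2], by linarith [h1.1]⟩
  rw [← d.Th_sl h2, d.sl_neg, d.sl_Th]

lemma nu_neg (t : ℝ) : nu k r (-t) = nu k r t := by
  unfold nu
  rw [d.Th_neg, X_neg d.hk d.hPB]

lemma nud_neg (t : ℝ) : nud k r (-t) = - nud k r t := by
  unfold nud
  rw [d.Th_neg, Q_neg d.hk d.hPB, D_neg d.hk d.hPB, neg_div]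

lemma Th_zero : Th k r 0 = 0 := by
  have := d.Th_neg 0
  rw [neg_zero] at this
  linarith

lemma nud_zero : nud k r 0 = 0 := by
  have := d.nud_neg 0
  rw [neg_zero] at this
  linarith

lemma Th_pos {t : ℝ} (h : 0 < t) : 0 < Th k r t := by
  have := d.Th_strictMono h
  rwa [d.Th_zero] at this

lemma nud_pos {t : ℝ} (h : 0 < t) : 0 < nud k r t := by
  have h1 := d.Th_pos h
  have h2 := d.Th_mem t
  have hs : 0 < Real.sin (Th k r t) := Real.sin_pos_of_pos_of_lt_pi h1 (by linarith [h2.2, Real.pi_pos])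
  have := Q_pos d.hk d.hPB d.h0 d.h1 hs
  have := d.Dpos (Th k r t)
  unfold nud; positivity

/-! ### the gauge -/

lemma N_smul {c : ℝ} (hc : 0 ≤ c) (ξ : ℂ) : N ((c : ℂ) * ξ) = c * N ξ := by
  by_cases hξ : ξ = 0
  · have h0 : N 0 = 0 := by
      have := d.N1 0 0 le_rfl
      simpa using this
    rw [hξ, mul_zero, h0, mul_zero]
  · obtain ⟨hN, θ, -, he⟩ := d.N2 ξ hξ
    have h1 : (c : ℂ) * ξ = ((c * N ξ : ℝ) : ℂ) * HK k (zr r θ) := by
      conv_lhs => rw [he]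
      push_cast; ring
    rw [h1, d.N1 _ _ (by positivity)]

lemma N_conj (ξ : ℂ) : N (starRingEnd ℂ ξ) = N ξ := by
  by_cases hξ : ξ = 0
  · rw [hξ, map_zero]
  · obtain ⟨hN, θ, -, he⟩ := d.N2 ξ hξ
    have h1 : starRingEnd ℂ ξ = (N ξ : ℂ) * HK k (zr r (-θ)) := by
      rw [zr_neg, (d.hPB k d.hk).2.2.2.2.2.1]
      conv_lhs => rw [he]
      rw [map_mul, Complex.conj_ofReal]
    rw [h1, d.N1 _ _ hN.le]

lemma N_neg (ξ : ℂ) : N (-ξ) = N ξ := by
  by_cases hξ : ξ = 0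
  · rw [hξ, neg_zero]
  · obtain ⟨hN, θ, -, he⟩ := d.N2 ξ hξ
    have h1 : -ξ = (N ξ : ℂ) * HK k (zr r (θ + Real.pi)) := by
      rw [zr_add_pi, (d.hPB k d.hk).2.2.2.2.2.2.2.1]
      conv_lhs => rw [he]
      ring
    rw [h1, d.N1 _ _ hN.le]

lemma N_one (t : ℝ) : N ⟨1, t⟩ = nu k r t := by
  obtain ⟨hN, θ, hθ, h1, h2, h3⟩ := d.exists_theta (a := 1) (b := t) one_pos
  have h4 : Th k r t = θ := by
    rw [← d.Th_sl hθ, h3]; simp
  unfold nu
  rw [h4, eq_div_iff (d.Xpos hθ).ne']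
  linarith

lemma N_pos {a : ℝ} (ha : 0 < a) (b : ℝ) : N ⟨a, b⟩ = a * nu k r (b / a) := by
  rw [← d.N_one, ← d.N_smul ha.le]
  congr 1
  apply Complex.ext
  · simp
  · simp only [Complex.im_ofReal_mul]
    field_simp

/-- `N(a,b) = |a| ν(b/|a|)` -/
lemma N_eq {a : ℝ} (ha : a ≠ 0) (b : ℝ) : N ⟨a, b⟩ = |a| * nu k r (b / |a|) := by
  rcases lt_or_gt_of_ne ha with h | h
  · have h1 : (⟨a, b⟩ : ℂ) = -(starRingEnd ℂ (⟨-a, b⟩ : ℂ)) := by
      apply Complex.ext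
      · simp
      · simp
    rw [h1, d.N_neg, d.N_conj, d.N_pos (by linarith), abs_of_neg h]
  · rw [abs_of_pos h]
    exact d.N_pos h b

end Dat
end PD
end H845LP
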