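import Pool.Agent.H845R4.LP.PD2

set_option autoImplicit false
set_option linter.unusedVariables false
set_option linter.unusedSectionVars false

noncomputable section

open MeasureTheory Filter Topology Set
open scoped BigOperators Matrix ENNReal

namespace H845LP
namespace PD

open H712MA

/-- `(1/(p-1)) (ν^p - 1)` -/
def bb (p : ℝ) (k : ℝ → ℝ) (r t : ℝ) : ℝ := (1 / (p - 1)) * ((nu k r t) ^ p - 1)

/-- the profile -/
def gp (p : ℝ) (k : ℝ → ℝ) (r t : ℝ) : ℝ := (bb p k r t) ^ ((p - 1) / p)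

/-- its derivative -/
def gpd (p : ℝ) (k : ℝ → ℝ) (r t : ℝ) : ℝ := (bb p k r t) ^ (-(1 / p)) * ((nu k r t) ^ (p - 1) * nud k r t)

/-- the odd profile -/
def yp (p : ℝ) (k : ℝ → ℝ) (r t : ℝ) : ℝ := if 0 < t then gp p k r t - gp p k r 0 else gp p k r 0 - gp p k r t

/-- its derivative -/
def ypd (p : ℝ) (k : ℝ → ℝ) (r t : ℝ) : ℝ := (bb p k r t) ^ (-(1 / p)) * ((nu k r t) ^ (p - 1) * |nud k r t|)

/-- `Y(a,b)` -/
def YY (p : ℝ) (k : ℝ → ℝ) (r a b : ℝ) : ℝ := |a| ^ (p - 1) * yp p k r (b / |a|)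

/-- `∂_b Y(a,b)` -/
def YYb (p : ℝ) (k : ℝ → ℝ) (r a b : ℝ) : ℝ := |a| ^ (p - 2) * ypd p k r (b / |a|)

namespace Dat

variable {k : ℝ → ℝ} {r : ℝ} {N : ℂ → ℝ} (d : Dat k r N) {p : ℝ} (hp : 1 < p)

include d hp

lemma bb_pos (t : ℝ) : 0 < bb p k r t := by
  unfold bb
  have h1 := d.nu_gt t
  have h2 : 1 < (nu k r t) ^ p := Real.one_lt_rpow h1 (by linarith)
  have h3 : 0 < 1 / (p - 1) := by
    have : 0 < p - 1 := by linarith
    positivity
  exact mul_pos h3 (by linarith)

lemma hasDerivAt_bb (t : ℝ) : HasDerivAt (bb p k r) ((1 / (p - 1)) * (p * (nu k r t) ^ (p - 1) * nud k r t)) t := by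
  have h1 := d.nu_gt t
  have h2 := (d.hasDerivAt_nu t).rpow_const (p := p) (Or.inl (by linarith))
  have h3 := (h2.sub_const 1).const_mul (1 / (p - 1))
  refine h3.congr_deriv ?_
  ring

lemma hasDerivAt_gp (t : ℝ) : HasDerivAt (gp p k r) (gpd p k r t) t := by
  have h1 := d.bb_pos hp t
  have h2 := (d.hasDerivAt_bb hp t).rpow_const (p := (p - 1) / p) (Or.inl h1.ne')
  refine h2.congr_deriv ?_
  have h3 : (p - 1) / p - 1 = -(1 / p) := by
    field_simp; ring
  rw [h3]
  unfold gpd
  have h4 : p - 1 ≠ 0 := by linarith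
  have h5 : p ≠ 0 := by linarith
  field_simp

lemma gpd_zero : gpd p k r 0 = 0 := by
  unfold gpd
  rw [d.nud_zero]; simp

lemma hasDerivAt_yp (t : ℝ) : HasDerivAt (yp p k r) (ypd p k r t) t := by
  rcases lt_trichotomy t 0 with h | h | h
  · have h1 := (d.hasDerivAt_gp hp t).const_sub (gp p k r 0)
    have h2 : yp p k r =ᶠ[𝓝 t] fun t => gp p k r 0 - gp p k r t := by
      filter_upwards [Iio_mem_nhds h] with s hs
      unfold yp
      rw [if_neg (not_lt.2 (le_of_lt hs))]
    refine (h1.congr_of_eventuallyEq h2).congr_deriv ?_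
    unfold gpd ypd
    have h3 : nud k r t < 0 := by
      have := d.nud_pos (t := -t) (by linarith)
      rw [d.nud_neg] at this; linarith
    rw [abs_of_neg h3]; ring
  · subst h
    have h1 := d.hasDerivAt_gp hp 0
    rw [d.gpd_zero hp] at h1
    have h0 : ypd p k r 0 = 0 := by
      unfold ypd; rw [d.nud_zero]; simp
    rw [h0]
    rw [hasDerivAt_iff_isLittleO] at h1 ⊢
    refine Asymptotics.IsLittleO.of_norm_left ((Asymptotics.IsLittleO.norm_left h1).congr_left fun x => ?_)
    have h2 : yp p k r 0 = 0 := by unfold yp; simp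
    rw [h2]
    simp only [smul_zero, sub_zero]
    unfold yp
    split_ifs
    · rfl
    · rw [norm_sub_rev]
  · have h1 := (d.hasDerivAt_gp hp t).sub_const (gp p k r 0)
    have h2 : yp p k r =ᶠ[𝓝 t] fun t => gp p k r t - gp p k r 0 := by
      filter_upwards [Ioi_mem_nhds h] with s hs
      unfold yp
      rw [if_pos (show 0 < s from hs)]
    refine (h1.congr_of_eventuallyEq h2).congr_deriv ?_
    unfold gpd ypd
    rw [abs_of_pos (d.nud_pos h)]

lemma ypd_nonneg (t : ℝ) : 0 ≤ ypd p k r t := by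
  unfold ypd
  have h1 := d.bb_pos hp t
  have h2 := d.nu_gt t
  have : 0 < nu k r t := by linarith
  positivity

lemma der {a : ℝ} (ha : a ≠ 0) (b : ℝ) : HasDerivAt (YY p k r a) (YYb p k r a b) b := by
  have ha' : 0 < |a| := abs_pos.2 ha
  have h1 := d.hasDerivAt_yp hp (b / |a|)
  have h2 : HasDerivAt (fun b : ℝ => b / |a|) (1 / |a|) b := (hasDerivAt_id b).div_const _
  have h3 := (h1.comp b h2).const_mul (|a| ^ (p - 1))
  refine h3.congr_deriv ?_
  unfold YYb
  have h4 : |a| ^ (p - 2) = |a| ^ (p - 1) / |a| := by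
    rw [← Real.rpow_sub_one ha'.ne']; congr 1; ring
  rw [h4]; ring

lemma nu_mono {t : ℝ} (h : 0 ≤ t) : nu k r 0 ≤ nu k r t := by
  have h1 : MonotoneOn (nu k r) (Set.Ici 0) := by
    refine monotoneOn_of_deriv_nonneg (convex_Ici 0) d.continuous_nu.continuousOn ?_ ?_
    · intro s _
      exact (d.hasDerivAt_nu s).differentiableAt.differentiableWithinAt
    · intro s hs
      rw [interior_Ici] at hs
      rw [(d.hasDerivAt_nu s).deriv]
      exact (d.nud_pos hs).le
  exact h1 (Set.mem_Ici.2 le_rfl) h h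

lemma nu_ge (t : ℝ) : nu k r 0 ≤ nu k r t := by
  rcases le_total 0 t with h | h
  · exact d.nu_mono hp h
  · rw [← d.nu_neg t]
    exact d.nu_mono hp (by linarith)

lemma gp_nonneg (t : ℝ) : 0 ≤ gp p k r t := by
  unfold gp
  have := d.bb_pos hp t
  positivity

lemma gp_ge (t : ℝ) : gp p k r 0 ≤ gp p k r t := by
  unfold gp
  refine Real.rpow_le_rpow (d.bb_pos hp 0).le ?_ (by
    have : 0 < p - 1 := by linarith
    have : 0 < p := by linarith
    positivity)
  unfold bb
  have h1 := d.nu_ge hp t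
  have h2 := d.nu_gt 0
  have h3 : (nu k r 0) ^ p ≤ (nu k r t) ^ p := Real.rpow_le_rpow (by linarith) h1 (by linarith)
  have h4 : 0 < 1 / (p - 1) := by
    have : 0 < p - 1 := by linarith
    positivity
  exact mul_le_mul_of_nonneg_left (by linarith) h4.le

lemma abs_yp_le (t : ℝ) : |yp p k r t| ≤ gp p k r t := by
  have h1 := d.gp_ge hp t
  have h2 := d.gp_nonneg hp 0
  unfold yp
  split_ifs
  · rw [abs_of_nonneg (by linarith)]; linarith
  · rw [abs_of_nonpos (by linarith)]; linarith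

lemma bound {a : ℝ} (ha : a ≠ 0) (b : ℝ) :
    |a| ^ p / p + |YY p k r a b| ^ (p / (p - 1)) / (p / (p - 1)) ≤ (N ⟨a, b⟩) ^ p / p := by
  have ha' : 0 < |a| := abs_pos.2 ha
  have hp0 : 0 < p := by linarith
  have hp1 : 0 < p - 1 := by linarith
  have hq : 0 < p / (p - 1) := by positivity
  set t := b / |a| with ht
  have hg := d.gp_nonneg hp t
  have hb := d.bb_pos hp t
  have h1 : |YY p k r a b| ≤ |a| ^ (p - 1) * gp p k r t := by
    unfold YY
    rw [abs_mul, abs_of_pos (Real.rpow_pos_of_pos ha' _)]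
    exact mul_le_mul_of_nonneg_left (d.abs_yp_le hp t) (by positivity)
  have h2 : |YY p k r a b| ^ (p / (p - 1)) ≤ |a| ^ p * bb p k r t := by
    refine (Real.rpow_le_rpow (abs_nonneg _) h1 hq.le).trans (le_of_eq ?_)
    rw [Real.mul_rpow (by positivity) hg, ← Real.rpow_mul ha'.le]
    unfold gp
    rw [← Real.rpow_mul hb.le]
    have e1 : (p - 1) * (p / (p - 1)) = p := by field_simp
    have e2 : (p - 1) / p * (p / (p - 1)) = 1 := by field_simp
    rw [e1, e2, Real.rpow_one]
  have hnu : 0 < nu k r t := by linarith [d.nu_gt t]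
  rw [d.N_eq ha b, Real.mul_rpow ha'.le hnu.le]
  have h3 : |YY p k r a b| ^ (p / (p - 1)) / (p / (p - 1)) ≤ |a| ^ p * bb p k r t / (p / (p - 1)) :=
    div_le_div_of_nonneg_right h2 hq.le
  have h4 : |a| ^ p * bb p k r t / (p / (p - 1)) = |a| ^ p * ((nu k r t) ^ p - 1) / p := by
    unfold bb
    field_simp
  rw [h4] at h3
  calc |a| ^ p / p + |YY p k r a b| ^ (p / (p - 1)) / (p / (p - 1)) ≤ |a| ^ p / p + |a| ^ p * ((nu k r t) ^ p - 1) / p := by
        linarith
    _ = _ := by ring

lemma measurable_bb : Measurable (bb p k r) :=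
  (continuous_iff_continuousAt.2 fun t => (d.hasDerivAt_bb hp t).continuousAt).measurable

lemma measurable_gp : Measurable (gp p k r) :=
  (continuous_iff_continuousAt.2 fun t => (d.hasDerivAt_gp hp t).continuousAt).measurable

lemma measurable_yp : Measurable (yp p k r) :=
  (continuous_iff_continuousAt.2 fun t => (d.hasDerivAt_yp hp t).continuousAt).measurable

lemma measurable_ypd : Measurable (ypd p k r) := by
  have h1 := d.measurable_bb hp
  have h2 := d.continuous_nu.measurable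
  have h3 := d.continuous_nud.measurable
  unfold ypd
  exact (h1.pow_const _).mul ((h2.pow_const _).mul h3.abs)

lemma measurable_YY : Measurable (Function.uncurry (YY p k r)) := by
  have h1 := d.measurable_yp hp
  have h2 : Measurable (fun x : ℝ × ℝ => |x.1| ^ (p - 1) * yp p k r (x.2 / |x.1|)) :=
    ((measurable_fst.abs).pow_const _).mul (h1.comp (measurable_snd.div measurable_fst.abs))
  exact h2

lemma measurable_YYb : Measurable (Function.uncurry (YYb p k r)) := by
  have h1 := d.measurable_ypd hp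
  have h2 : Measurable (fun x : ℝ × ℝ => |x.1| ^ (p - 2) * ypd p k r (x.2 / |x.1|)) :=
    ((measurable_fst.abs).pow_const _).mul (h1.comp (measurable_snd.div measurable_fst.abs))
  exact h2

end Dat
end PD
end H845LP
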