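import Pool.Agent.H845R4.LP.PD3

set_option autoImplicit false
set_option linter.unusedVariables false
set_option linter.unusedSectionVars false

noncomputable section

open MeasureTheory Filter Topology Set
open scoped BigOperators Matrix ENNReal

namespace H845LP
namespace PD

open H712MA

/-- the polar-like map -/
def Psi (k : ℝ → ℝ) (r : ℝ) (ω : ℝ × ℝ) : ℝ × ℝ := (ω.1 * X k r ω.2, ω.1 * U k r ω.2)

/-- its derivative -/
def Psi' (k : ℝ → ℝ) (r : ℝ) (ω : ℝ × ℝ) : ℝ × ℝ →L[ℝ] ℝ × ℝ :=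
  (Matrix.toLin (Module.Basis.finTwoProd ℝ) (Module.Basis.finTwoProd ℝ)
    !![X k r ω.2, -(ω.1 * Q k r ω.2); U k r ω.2, ω.1 * P k r ω.2]).toContinuousLinearMap

/-- angles -/
def TT : Set ℝ := {θ | θ ∈ Set.Ioo (-Real.pi) Real.pi ∧ Real.cos θ ≠ 0}

/-- the domain -/
def SS : Set (ℝ × ℝ) := Set.Ioi 0 ×ˢ TT

lemma measurableSet_TT : MeasurableSet TT :=
  measurableSet_Ioo.inter (isOpen_ne_fun Real.continuous_cos continuous_const).measurableSet

lemma measurableSet_SS : MeasurableSet SS := measurableSet_Ioi.prod measurableSet_TT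

namespace Dat

variable {k : ℝ → ℝ} {r : ℝ} {N : ℂ → ℝ} (d : Dat k r N)

include d

lemma hasFDerivAt_Psi (ω : ℝ × ℝ) : HasFDerivAt (Psi k r) (Psi' k r ω) ω := by
  have h0 : HasFDerivAt (Prod.snd : ℝ × ℝ → ℝ) (ContinuousLinearMap.snd ℝ ℝ ℝ) ω := hasFDerivAt_snd
  have h1 := (hasDerivAt_X d.hk d.hPB d.h0 d.h1 ω.2).comp_hasFDerivAt ω h0
  have h2 := (hasDerivAt_U d.hk d.hPB d.h0 d.h1 ω.2).comp_hasFDerivAt ω h0
  have h3 := HasFDerivAt.prodMk (𝕜 := ℝ) (hasFDerivAt_fst.mul h1) (hasFDerivAt_fst.mul h2)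
  refine HasFDerivAt.congr_fderiv (f := Psi k r) h3 ?_
  unfold Psi'
  rw [Matrix.toLin_finTwoProd_toContinuousLinearMap]
  refine ContinuousLinearMap.ext fun v => ?_
  apply Prod.ext
  · simp
    ring
  · simp
    ring

lemma det_Psi' (ω : ℝ × ℝ) : (Psi' k r ω).det = ω.1 * D k r ω.2 := by
  unfold Psi'
  simp only [LinearMap.det_toContinuousLinearMap, LinearMap.det_toLin, Matrix.det_fin_two_of]
  unfold D
  ring

lemma injOn_Psi : Set.InjOn (Psi k r) SS := by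
  rintro ⟨ρ, θ⟩ ⟨hρ, hθ, -⟩ ⟨ρ', θ'⟩ ⟨hρ', hθ', -⟩ h
  simp only [Set.mem_Ioi] at hρ hρ'
  simp only at hθ hθ'
  unfold Psi at h
  simp only [Prod.mk.injEq] at h
  obtain ⟨hX, hU⟩ := h
  have h1 : (ρ : ℂ) * HK k (zr r θ) = (ρ' : ℂ) * HK k (zr r θ') := by
    apply Complex.ext
    · rw [Complex.re_ofReal_mul, Complex.re_ofReal_mul]; exact hX
    · rw [Complex.im_ofReal_mul, Complex.im_ofReal_mul]; exact hU
  have h2 : ρ = ρ' := by
    rw [← d.N1 ρ θ hρ.le, h1, d.N1 ρ' θ' hρ'.le]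
  subst h2
  have h3 : HK k (zr r θ) = HK k (zr r θ') :=
    mul_left_cancel₀ (by exact_mod_cast hρ.ne') h1
  obtain ⟨-, -, -, -, -, -, -, -, -, -, -, -, -, hinj, -⟩ := d.hPB k d.hk
  have hm : ∀ φ, zr r φ ∈ Metric.ball (0:ℂ) 1 := by
    intro φ
    rw [Metric.mem_ball, dist_zero_right, norm_zr d.h0]; exact d.h1
  have h4 := hinj (hm θ) (hm θ') h3
  unfold zr at h4
  have h5 : cis θ = cis θ' := mul_left_cancel₀ (by exact_mod_cast d.h0.ne') h4
  unfold cis at h5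
  have h6 := Complex.exp_inj_of_neg_pi_lt_of_le_pi (x := (θ : ℂ) * Complex.I) (y := (θ' : ℂ) * Complex.I)
    (by simpa using hθ.1) (by simpa using hθ.2.le) (by simpa using hθ'.1) (by simpa using hθ'.2.le) h5
  have h7 : (θ : ℂ) = θ' := mul_right_cancel₀ Complex.I_ne_zero h6
  have h8 : θ = θ' := by exact_mod_cast h7
  rw [h8]

lemma mem_image {a b : ℝ} (ha : a ≠ 0) (hab : b ≠ 0 ∨ 0 < a) : (a, b) ∈ Psi k r '' SS := by
  have hne : (⟨a, b⟩ : ℂ) ≠ 0 := by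
    intro h
    have := congrArg Complex.re h
    simp at this
    exact ha this
  obtain ⟨hN, θ, hθ, he⟩ := d.N2 _ hne
  have hre := congrArg Complex.re he
  have him := congrArg Complex.im he
  rw [Complex.re_ofReal_mul] at hre
  rw [Complex.im_ofReal_mul] at him
  simp only at hre him
  have hX : X k r θ = (HK k (zr r θ)).re := rfl
  have hU : U k r θ = (HK k (zr r θ)).im := rfl
  rw [← hX] at hre
  rw [← hU] at him
  refine ⟨(N ⟨a, b⟩, θ), ⟨hN, ⟨hθ.1, ?_⟩, ?_⟩, ?_⟩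
  · refine lt_of_le_of_ne hθ.2 fun h => ?_
    have h1 : U k r θ = 0 := U_zero d.hk d.hPB (by simp only at h; rw [h]; exact Real.sin_pi)
    have h2 : X k r θ < 0 := X_neg_of d.hk d.hPB d.h0 d.h1 (by simp only at h; rw [h, Real.cos_pi]; norm_num)
    rw [h1, mul_zero] at him
    rcases hab with hb | ha'
    · exact hb him
    · have := mul_neg_of_pos_of_neg hN h2
      linarith
  · intro h
    simp only at h
    have h1 : X k r θ = 0 := X_zero d.hk d.hPB h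
    rw [h1, mul_zero] at hre
    exact ha hre
  · unfold Psi
    simp only [Prod.mk.injEq]
    exact ⟨hre.symm, him.symm⟩

lemma image_ae : (Psi k r '' SS : Set (ℝ × ℝ)) =ᵐ[volume] Set.univ := by
  have h1 : volume {x : ℝ × ℝ | x.1 = 0} = 0 := by
    have : {x : ℝ × ℝ | x.1 = 0} = ({0} : Set ℝ) ×ˢ Set.univ := by
      ext x; simp
    rw [this, Measure.volume_eq_prod, Measure.prod_prod]; simp
  have h2 : volume {x : ℝ × ℝ | x.2 = 0} = 0 := by
    have : {x : ℝ × ℝ | x.2 = 0} = Set.univ ×ˢ ({0} : Set ℝ) := by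
      ext x; simp
    rw [this, Measure.volume_eq_prod, Measure.prod_prod]; simp
  rw [eventuallyEq_univ]
  rw [mem_ae_iff]
  refine measure_mono_null ?_ (measure_union_null h1 h2)
  rintro ⟨a, b⟩ hx
  by_contra hc
  rw [Set.mem_union, not_or] at hc
  simp only [Set.mem_ofPred_eq] at hc
  exact hx (d.mem_image hc.1 (Or.inl hc.2))

lemma nu_val {θ : ℝ} (hθ : θ ∈ TT) : nu k r (U k r θ / |X k r θ|) = 1 / |X k r θ| ∧
    |nud k r (U k r θ / |X k r θ|)| = |Q k r θ| / D k r θ := by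
  have key : ∀ φ ∈ IH, U k r φ = U k r θ → X k r φ = |X k r θ| → |Q k r φ| = |Q k r θ| → D k r φ = D k r θ →
      nu k r (U k r θ / |X k r θ|) = 1 / |X k r θ| ∧
      |nud k r (U k r θ / |X k r θ|)| = |Q k r θ| / D k r θ := by
    intro φ hφ h1 h2 h3 h4
    have h5 : U k r θ / |X k r θ| = sl k r φ := by
      unfold sl; rw [h1, h2]
    rw [h5]
    unfold nu nud
    rw [d.Th_sl hφ, h2, abs_div, h3, h4, abs_of_pos (d.Dpos θ)]
    exact ⟨rfl, rfl⟩
  obtain ⟨hθ1, hθ2⟩ := hθ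
  rcases lt_or_gt_of_ne hθ2 with h | h
  · have hX := X_neg_of d.hk d.hPB d.h0 d.h1 h
    rcases le_total 0 θ with h3 | h3
    · have h4 : Real.pi / 2 < θ := by
        by_contra hc
        rw [not_lt] at hc
        have := Real.cos_nonneg_of_mem_Icc (x := θ) ⟨by linarith [Real.pi_pos], hc⟩
        linarith
      refine key (Real.pi - θ) ⟨by linarith [hθ1.2, Real.pi_pos], by linarith⟩ (U_pi_sub d.hk d.hPB θ) ?_ ?_
        (D_pi_sub d.hk d.hPB θ)
      · rw [X_pi_sub d.hk d.hPB, abs_of_neg hX]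
      · rw [Q_pi_sub d.hk d.hPB]
    · have h4 : θ < -(Real.pi / 2) := by
        by_contra hc
        rw [not_lt] at hc
        have := Real.cos_nonneg_of_mem_Icc (x := θ) ⟨hc, by linarith [Real.pi_pos]⟩
        linarith
      have e : -(Real.pi - -θ) = -Real.pi - θ := by ring
      refine key (-Real.pi - θ) ⟨by linarith, by linarith [hθ1.1, Real.pi_pos]⟩ ?_ ?_ ?_ ?_
      · rw [← e, U_neg d.hk d.hPB, U_pi_sub d.hk d.hPB, U_neg d.hk d.hPB, neg_neg]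
      · rw [← e, X_neg d.hk d.hPB, X_pi_sub d.hk d.hPB, X_neg d.hk d.hPB, abs_of_neg hX]
      · rw [← e, Q_neg d.hk d.hPB, Q_pi_sub d.hk d.hPB, Q_neg d.hk d.hPB, neg_neg]
      · rw [← e, D_neg d.hk d.hPB, D_pi_sub d.hk d.hPB, D_neg d.hk d.hPB]
  · have hX := X_pos d.hk d.hPB d.h0 d.h1 h
    refine key θ (d.mem_of_X_pos ⟨hθ1.1, hθ1.2.le⟩ hX) rfl (abs_of_pos hX).symm rfl rfl

lemma density_eq {p : ℝ} (hp : 1 < p) (hS : 0 < Sp p) {ρ θ : ℝ} (hρ : 0 < ρ) (hθ : θ ∈ TT) :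
    |ρ * D k r θ| * (Real.exp (-(ρ ^ p / p)) * YYb p k r (ρ * X k r θ) (ρ * U k r θ)) =
      wt p ρ * (1 / (2 * Real.pi) * (Sp p * FR p k r θ)) := by
  obtain ⟨h1, h2⟩ := d.nu_val hθ
  have hX : X k r θ ≠ 0 := X_ne d.hk d.hPB d.h0 d.h1 hθ.2
  have hX0 : 0 < |X k r θ| := abs_pos.2 hX
  have hX1 := d.abs_X_lt θ
  have hD := d.Dpos θ
  have hp0 : 0 < p := by linarith
  have hp1 : 0 < p - 1 := by linarith
  have hYYb : YYb p k r (ρ * X k r θ) (ρ * U k r θ) =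
      (ρ * |X k r θ|) ^ (p - 2) * ((bb p k r (U k r θ / |X k r θ|)) ^ (-(1 / p)) *
        ((1 / |X k r θ|) ^ (p - 1) * (|Q k r θ| / D k r θ))) := by
    unfold YYb
    rw [abs_mul, abs_of_pos hρ, mul_div_mul_left _ _ hρ.ne']
    unfold ypd
    rw [h1, h2]
  have hc : 0 < (1 / (p - 1)) * (1 - |X k r θ| ^ p) := by
    have : |X k r θ| ^ p < 1 := Real.rpow_lt_one hX0.le hX1 hp0
    have h3 : 0 < 1 / (p - 1) := by positivity
    exact mul_pos h3 (by linarith)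
  have hbb : bb p k r (U k r θ / |X k r θ|) = (1 / (p - 1)) * (1 - |X k r θ| ^ p) / |X k r θ| ^ p := by
    unfold bb
    rw [h1, Real.div_rpow zero_le_one hX0.le, Real.one_rpow]
    have : |X k r θ| ^ p ≠ 0 := (Real.rpow_pos_of_pos hX0 _).ne'
    field_simp
  have hbb2 : (bb p k r (U k r θ / |X k r θ|)) ^ (-(1 / p)) =
      ((1 / (p - 1)) * (1 - |X k r θ| ^ p)) ^ (-(1 / p)) * |X k r θ| := by
    rw [hbb, Real.div_rpow hc.le (Real.rpow_nonneg hX0.le _), ← Real.rpow_mul hX0.le]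
    have : p * (-(1 / p)) = -1 := by field_simp
    rw [this, Real.rpow_neg_one, div_inv_eq_mul]
  have hFR : FR p k r θ = 2 * Real.pi / Sp p * |Q k r θ| * ((1 / (p - 1)) * (1 - |X k r θ| ^ p)) ^ (-(1 / p)) := by
    have e1 : FR p k r θ = 2 * Real.pi / Sp p * |Q k r θ| / ((1 / (p - 1)) * (1 - |X k r θ| ^ p)) ^ (1 / p) := rfl
    rw [e1, Real.rpow_neg hc.le]
    rw [div_eq_mul_inv]
  rw [hYYb, hbb2, hFR, abs_of_pos (mul_pos hρ hD)]
  have hwt : wt p ρ = ρ ^ (p - 1) * Real.exp (-(ρ ^ p / p)) := by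
    unfold wt; rw [if_pos hρ]
  rw [hwt]
  have e2 : (ρ * |X k r θ|) ^ (p - 2) = ρ ^ (p - 1) / ρ * (|X k r θ| ^ (p - 1) / |X k r θ|) := by
    rw [Real.mul_rpow hρ.le hX0.le, ← Real.rpow_sub_one hρ.ne', ← Real.rpow_sub_one hX0.ne']
    congr 2 <;> ring
  have e3 : (1 / |X k r θ|) ^ (p - 1) = 1 / |X k r θ| ^ (p - 1) := by
    rw [Real.div_rpow zero_le_one hX0.le, Real.one_rpow]
  rw [e2, e3]
  have e4 : |X k r θ| ^ (p - 1) ≠ 0 := (Real.rpow_pos_of_pos hX0 _).ne'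
  have e5 : Sp p ≠ 0 := hS.ne'
  have e6 : Real.pi ≠ 0 := Real.pi_ne_zero
  generalize ((1 / (p - 1)) * (1 - |X k r θ| ^ p)) ^ (-(1 / p)) = C
  generalize ρ ^ (p - 1) = A
  generalize |X k r θ| ^ (p - 1) = B at e4 ⊢
  generalize Real.exp (-(ρ ^ p / p)) = E
  have hX0' := hX0.ne'
  generalize |X k r θ| = x at hX0' ⊢
  field_simp

end Dat
end PD
end H845LP
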