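import Pool.Agent.H845R4.LP.Stm
import Pool.Agent.H712R2.MA.H1
import Pool.Agent.H712R2.MA.H3

/-!
# Task PF: boundary values of `HK`, `TK` (helper8)
-/

set_option autoImplicit false

noncomputable section

open MeasureTheory Filter Topology
open scoped BigOperators Matrix ENNReal

namespace H845LP

open H712MA

namespace PFaux

/-! ### the Fourier series of the triangle wave -/

/-- `Σ cos(2πnx)/n² = π²(x²-x+1/6)` -/
lemma cos_sum {x : ℝ} (hx : x ∈ Set.Icc (0:ℝ) 1) :
    HasSum (fun n : ℕ => 1 / (n : ℝ) ^ 2 * Real.cos (2 * Real.pi * n * x))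
      (Real.pi ^ 2 * (x ^ 2 - x + 1 / 6)) := by
  have h := hasSum_one_div_nat_pow_mul_cos one_ne_zero hx
  have e : (Polynomial.map (algebraMap ℚ ℝ) (Polynomial.bernoulli (2 * 1))).eval x =
      x ^ 2 - x + 1 / 6 := by
    have hb : Polynomial.bernoulli (2 * 1) =
        Polynomial.X ^ 2 - Polynomial.X + Polynomial.C (1 / 6 : ℚ) := by
      rw [Polynomial.bernoulli]
      simp only [Nat.mul_one, Finset.sum_range_succ, Finset.sum_range_zero]
      norm_num [bernoulli_zero, bernoulli_one, bernoulli_two, Nat.choose]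
      rw [← Polynomial.X_pow_eq_monomial, Polynomial.monomial_one_one_eq_X, sub_eq_add_neg]
    rw [hb]
    simp
  rw [e] at h
  convert h using 1
  simp
  ring

/-- the odd part of the series -/
lemma odd_cos_sum {φ : ℝ} (h0 : 0 ≤ φ) (h1 : φ ≤ Real.pi) :
    HasSum (fun j : ℕ => 1 / ((2 * j + 1 : ℕ) : ℝ) ^ 2 * Real.cos (((2 * j + 1 : ℕ) : ℝ) * φ))
      (Real.pi ^ 2 / 8 * (1 - 2 * φ / Real.pi)) := by
  have hpi := Real.pi_pos
  set x : ℝ := φ / (2 * Real.pi) with hx
  have hφ : φ = 2 * Real.pi * x := by rw [hx]; field_simp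
  have hx0 : 0 ≤ x := by rw [hx]; positivity
  have hx1 : x ≤ 1 / 2 := by
    rw [hx, div_le_div_iff₀ (by positivity) (by norm_num)]
    linarith
  have h := cos_sum (x := x) ⟨hx0, by linarith⟩
  have h2 := cos_sum (x := 2 * x) ⟨by linarith, by linarith⟩
  have he : HasSum (fun j : ℕ => 1 / ((2 * j : ℕ) : ℝ) ^ 2 *
      Real.cos (2 * Real.pi * ((2 * j : ℕ) : ℝ) * x))
      (1 / 4 * (Real.pi ^ 2 * ((2 * x) ^ 2 - 2 * x + 1 / 6))) := by
    have h3 := h2.mul_left (1 / 4)
    have e1 : (fun j : ℕ => 1 / ((2 * j : ℕ) : ℝ) ^ 2 *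
        Real.cos (2 * Real.pi * ((2 * j : ℕ) : ℝ) * x)) = fun j : ℕ =>
        1 / 4 * (1 / (j : ℝ) ^ 2 * Real.cos (2 * Real.pi * j * (2 * x))) := by
      funext j
      push_cast
      rw [mul_pow, show 2 * Real.pi * (2 * (j : ℝ)) * x = 2 * Real.pi * (j : ℝ) * (2 * x) by ring]
      ring
    rw [e1]
    exact h3
  have ho : Summable fun j : ℕ => 1 / ((2 * j + 1 : ℕ) : ℝ) ^ 2 *
      Real.cos (2 * Real.pi * ((2 * j + 1 : ℕ) : ℝ) * x) := by
    refine h.summable.comp_injective (i := fun j : ℕ => 2 * j + 1) ?_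
    intro a b hab
    simp only at hab
    omega
  have h3 := HasSum.even_add_odd (f := fun n : ℕ => 1 / (n : ℝ) ^ 2 *
    Real.cos (2 * Real.pi * n * x)) he ho.hasSum
  have h4 := h.unique h3
  have h5 : ∑' j : ℕ, 1 / ((2 * j + 1 : ℕ) : ℝ) ^ 2 *
      Real.cos (2 * Real.pi * ((2 * j + 1 : ℕ) : ℝ) * x) =
      Real.pi ^ 2 / 8 * (1 - 2 * φ / Real.pi) := by
    have h6 : Real.pi ^ 2 / 8 * (1 - 2 * φ / Real.pi) = Real.pi ^ 2 / 8 * (1 - 4 * x) := by
      rw [hφ]; field_simp; ring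
    rw [h6]
    nlinarith [h4]
  rw [← h5]
  convert ho.hasSum using 3
  rw [hφ]
  ring_nf

/-! ### `cis` -/

lemma cis_add (a b : ℝ) : cis (a + b) = cis a * cis b := by
  unfold cis
  rw [← Complex.exp_add]
  push_cast
  ring_nf

lemma norm_cis (a : ℝ) : ‖cis a‖ = 1 := Complex.norm_exp_ofReal_mul_I a

lemma cis_re (a : ℝ) : (cis a).re = Real.cos a := Complex.exp_ofReal_mul_I_re a

lemma cis_im (a : ℝ) : (cis a).im = Real.sin a := Complex.exp_ofReal_mul_I_im a

lemma cis_zero : cis 0 = 1 := by simp [cis]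

lemma cis_pi : cis Real.pi = -1 := Complex.exp_pi_mul_I

lemma continuous_cis : Continuous cis := by
  unfold cis
  fun_prop

lemma cis_pow (a : ℝ) (n : ℕ) : cis a ^ n = cis ((n : ℝ) * a) := by
  unfold cis
  rw [← Complex.exp_nat_mul]
  push_cast
  ring_nf

lemma mul_cis (r θ s : ℝ) : (r : ℂ) * cis θ * cis (-s) = (r : ℂ) * cis (θ - s) := by
  rw [mul_assoc, ← cis_add, sub_eq_add_neg]

lemma norm_rcis (r θ : ℝ) (hr : 0 ≤ r) : ‖(r : ℂ) * cis θ‖ = r := by
  rw [norm_mul, norm_cis, mul_one, Complex.norm_real, Real.norm_of_nonneg hr]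

lemma rcis_im (r θ : ℝ) : ((r : ℂ) * cis θ).im = r * Real.sin θ := by
  rw [Complex.im_ofReal_mul, cis_im]

/-- representation with an angle in `[0,π]` -/
lemma cis_arccos (θ : ℝ) :
    cis θ = cis (Real.arccos (Real.cos θ)) ∨
      cis θ = starRingEnd ℂ (cis (Real.arccos (Real.cos θ))) := by
  have hc : Real.cos (Real.arccos (Real.cos θ)) = Real.cos θ :=
    Real.cos_arccos (Real.neg_one_le_cos θ) (Real.cos_le_one θ)
  have hs : Real.sin (Real.arccos (Real.cos θ)) = |Real.sin θ| := by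
    rw [Real.sin_arccos, ← Real.abs_sin_eq_sqrt_one_sub_cos_sq]
  rcases abs_choice (Real.sin θ) with h | h
  · left
    apply Complex.ext
    · rw [cis_re, cis_re, hc]
    · rw [cis_im, cis_im, hs, h]
  · right
    apply Complex.ext
    · rw [Complex.conj_re, cis_re, cis_re, hc]
    · rw [Complex.conj_im, cis_im, cis_im, hs, h, neg_neg]

/-! ### boundary values of `hh` and `gg` -/

lemma hh_summable (r φ : ℝ) (h0 : 0 ≤ r) (h1 : r ≤ 1) (j : ℕ) :
    ‖((r : ℂ) * cis φ) ^ (2 * j + 1) / ((2 * j + 1 : ℕ) : ℂ) ^ 2‖ ≤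
      1 / ((2 * j + 1 : ℕ) : ℝ) ^ 2 := by
  rw [norm_div, norm_pow, norm_rcis r φ h0, norm_pow, Complex.norm_natCast]
  apply div_le_div_of_nonneg_right _ (by positivity)
  exact pow_le_one₀ h0 h1

lemma hh_cis_re_Icc {φ : ℝ} (h0 : 0 ≤ φ) (h1 : φ ≤ Real.pi) :
    (hh (cis φ)).re = 1 - 2 * φ / Real.pi := by
  have hs : Summable fun j : ℕ => (cis φ) ^ (2 * j + 1) / ((2 * j + 1 : ℕ) : ℂ) ^ 2 := by
    refine Summable.of_norm_bounded H1aux.odd_sq.summable fun j => ?_
    have h := hh_summable 1 φ zero_le_one le_rfl j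
    rwa [Complex.ofReal_one, one_mul] at h
  have h2 := (Complex.hasSum_re hs.hasSum)
  have h3 : (fun j : ℕ => ((cis φ) ^ (2 * j + 1) / ((2 * j + 1 : ℕ) : ℂ) ^ 2).re) =
      fun j : ℕ => 1 / ((2 * j + 1 : ℕ) : ℝ) ^ 2 * Real.cos (((2 * j + 1 : ℕ) : ℝ) * φ) := by
    funext j
    rw [cis_pow]
    have e : (((2 * j + 1 : ℕ) : ℂ) ^ 2) = ((((2 * j + 1 : ℕ) : ℝ) ^ 2 : ℝ) : ℂ) := by
      push_cast; ring
    rw [e, Complex.div_ofReal_re, cis_re]
    ring
  rw [h3] at h2
  have h4 := h2.unique (odd_cos_sum h0 h1)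
  have hpi : Real.pi ≠ 0 := Real.pi_ne_zero
  rw [hh, H1aux.cst_eq, Complex.re_ofReal_mul, h4]
  field_simp

lemma hh_cis_re (φ : ℝ) : (hh (cis φ)).re = 2 / Real.pi * Real.arcsin (Real.cos φ) := by
  have h0 := Real.arccos_nonneg (Real.cos φ)
  have h1 := Real.arccos_le_pi (Real.cos φ)
  have hpi : Real.pi ≠ 0 := Real.pi_ne_zero
  have h2 : (hh (cis φ)).re = (hh (cis (Real.arccos (Real.cos φ)))).re := by
    rcases cis_arccos φ with h | h
    · rw [h]
    · rw [h, H1.2.2.1, Complex.conj_re]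
  rw [h2, hh_cis_re_Icc h0 h1, Real.arcsin_eq_pi_div_two_sub_arccos]
  field_simp

lemma tendsto_hh (φ : ℝ) :
    Tendsto (fun r : ℝ => (hh ((r : ℂ) * cis φ)).re) (𝓝[<] 1)
      (𝓝 (2 / Real.pi * Real.arcsin (Real.cos φ))) := by
  rw [← hh_cis_re]
  refine (Complex.continuous_re.tendsto _).comp ?_
  unfold hh
  refine Tendsto.const_mul _ ?_
  refine tendsto_tsum_of_dominated_convergence
    (bound := fun j : ℕ => 1 / ((2 * j + 1 : ℕ) : ℝ) ^ 2) H1aux.odd_sq.summable ?_ ?_
  · intro j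
    have hc : Continuous fun r : ℝ => ((r : ℂ) * cis φ) ^ (2 * j + 1) / ((2 * j + 1 : ℕ) : ℂ) ^ 2 := by
      fun_prop
    have h := (hc.tendsto 1).mono_left (nhdsWithin_le_nhds (s := Set.Iio (1:ℝ)))
    rwa [Complex.ofReal_one, one_mul] at h
  · have h0 : ∀ᶠ r : ℝ in 𝓝[<] 1, 0 < r :=
      nhdsWithin_le_nhds (eventually_gt_nhds zero_lt_one)
    filter_upwards [h0, self_mem_nhdsWithin] with r hr0 hr1 j
    exact hh_summable r φ hr0.le (le_of_lt hr1) j

lemma tendsto_gg (φ : ℝ) :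
    Tendsto (fun r : ℝ => (gg ((r : ℂ) * cis φ)).im) (𝓝[<] 1)
      (𝓝 (2 / Real.pi * (SignType.sign (Real.sin φ) : ℝ))) := by
  have hpi := Real.pi_pos
  obtain ⟨g1, g2, g3, g4, g5, g6⟩ := H3
  have h0 : ∀ᶠ r : ℝ in 𝓝[<] 1, 0 < r :=
    nhdsWithin_le_nhds (eventually_gt_nhds zero_lt_one)
  rcases lt_trichotomy (Real.sin φ) 0 with h | h | h
  · have h5 := (g5 φ h.ne).const_mul (-(2 / Real.pi))
    rw [sign_neg h]
    have e : 2 / Real.pi * (((-1 : SignType) : ℝ)) = -(2 / Real.pi) * 1 := by simp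
    rw [e]
    refine h5.congr' ?_
    filter_upwards [h0, self_mem_nhdsWithin] with r hr0 hr1
    have hn : ‖(r : ℂ) * cis φ‖ < 1 := by rw [norm_rcis r φ hr0.le]; exact hr1
    have hi : ((r : ℂ) * cis φ).im < 0 := by
      rw [rcis_im]; exact mul_neg_of_pos_of_neg hr0 h
    have := g2 _ hn hi
    change -(2 / Real.pi) * (Real.pi / 2 * |(gg ((r : ℂ) * cis φ)).im|) = _
    rw [abs_of_neg this]
    field_simp
  · rw [h, sign_zero]
    have e : 2 / Real.pi * (((0 : SignType) : ℝ)) = 0 := by simp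
    rw [e]
    refine tendsto_const_nhds.congr' ?_
    filter_upwards [h0, self_mem_nhdsWithin] with r hr0 hr1
    have hn : ‖(r : ℂ) * cis φ‖ < 1 := by rw [norm_rcis r φ hr0.le]; exact hr1
    have hi : ((r : ℂ) * cis φ).im = 0 := by rw [rcis_im, h, mul_zero]
    exact (g3 _ hn hi).symm
  · have h5 := (g5 φ h.ne').const_mul (2 / Real.pi)
    rw [sign_pos h]
    have e : 2 / Real.pi * (((1 : SignType) : ℝ)) = 2 / Real.pi * 1 := by simp
    rw [e]
    refine h5.congr' ?_
    filter_upwards [h0, self_mem_nhdsWithin] with r hr0 hr1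
    have hn : ‖(r : ℂ) * cis φ‖ < 1 := by rw [norm_rcis r φ hr0.le]; exact hr1
    have hi : 0 < ((r : ℂ) * cis φ).im := by
      rw [rcis_im]; exact mul_pos hr0 h
    have := g1 _ hn hi
    change 2 / Real.pi * (Real.pi / 2 * |(gg ((r : ℂ) * cis φ)).im|) = _
    rw [abs_of_pos this]
    field_simp

lemma mem_unit {r θ : ℝ} (h0 : 0 ≤ r) (h1 : r < 1) : ‖(r : ℂ) * cis θ‖ < 1 := by
  rw [norm_rcis r θ h0]; exact h1

lemma cont_hh {r : ℝ} (θ : ℝ) (h0 : 0 ≤ r) (h1 : r < 1) :
    Continuous fun s : ℝ => hh ((r : ℂ) * cis (θ - s)) := by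
  rw [continuous_iff_continuousAt]
  intro s
  have h2 : ContinuousAt hh ((r : ℂ) * cis (θ - s)) := (H1.1 _ (mem_unit h0 h1)).continuousAt
  have h3 : Continuous fun s : ℝ => (r : ℂ) * cis (θ - s) :=
    continuous_const.mul (continuous_cis.comp (continuous_const.sub continuous_id))
  exact ContinuousAt.comp (f := fun s : ℝ => (r : ℂ) * cis (θ - s)) h2 h3.continuousAt

lemma cont_gg {r : ℝ} (θ : ℝ) (h0 : 0 ≤ r) (h1 : r < 1) :
    Continuous fun s : ℝ => gg ((r : ℂ) * cis (θ - s)) := by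
  rw [continuous_iff_continuousAt]
  intro s
  have h2 : ContinuousAt gg ((r : ℂ) * cis (θ - s)) := by
    refine H3.2.2.2.2.2.continuousAt (Metric.isOpen_ball.mem_nhds ?_)
    rw [mem_ball_zero_iff]
    exact mem_unit h0 h1
  have h3 : Continuous fun s : ℝ => (r : ℂ) * cis (θ - s) :=
    continuous_const.mul (continuous_cis.comp (continuous_const.sub continuous_id))
  exact ContinuousAt.comp (f := fun s : ℝ => (r : ℂ) * cis (θ - s)) h2 h3.continuousAt

lemma HK_re {k : ℝ → ℝ} (hk : Ker k) {r : ℝ} (θ : ℝ) (h0 : 0 ≤ r) (h1 : r < 1) :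
    (HK k ((r : ℂ) * cis θ)).re =
      ∫ s in (-(Real.pi / 2))..(Real.pi / 2), k s * (hh ((r : ℂ) * cis (θ - s))).re := by
  have hc : Continuous fun s : ℝ => (k s : ℂ) * hh ((r : ℂ) * cis (θ - s)) :=
    (Complex.continuous_ofReal.comp hk.cont).mul (cont_hh θ h0 h1)
  have h := Complex.reCLM.intervalIntegral_comp_comm (μ := volume)
    (hc.intervalIntegrable (-(Real.pi / 2)) (Real.pi / 2))
  simp only [Complex.reCLM_apply, Complex.re_ofReal_mul] at h
  simp only [HK, mul_cis]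
  exact h.symm

lemma TK_im {k : ℝ → ℝ} (hk : Ker k) {r : ℝ} (θ : ℝ) (h0 : 0 ≤ r) (h1 : r < 1) :
    (TK k ((r : ℂ) * cis θ)).im =
      ∫ s in (-(Real.pi / 2))..(Real.pi / 2), k s * (gg ((r : ℂ) * cis (θ - s))).im := by
  have hc : Continuous fun s : ℝ => (k s : ℂ) * gg ((r : ℂ) * cis (θ - s)) :=
    (Complex.continuous_ofReal.comp hk.cont).mul (cont_gg θ h0 h1)
  have h := Complex.imCLM.intervalIntegral_comp_comm (μ := volume)
    (hc.intervalIntegrable (-(Real.pi / 2)) (Real.pi / 2))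
  simp only [Complex.imCLM_apply, Complex.im_ofReal_mul] at h
  simp only [TK, mul_cis]
  exact h.symm

/-- part 1 -/
lemma part1 {k : ℝ → ℝ} (hk : Ker k) (θ : ℝ) :
    Tendsto (fun r : ℝ => (HK k ((r : ℂ) * cis θ)).re) (𝓝[<] 1) (𝓝 (xk k θ)) := by
  have h0 : ∀ᶠ r : ℝ in 𝓝[<] 1, 0 < r :=
    nhdsWithin_le_nhds (eventually_gt_nhds zero_lt_one)
  have key : Tendsto (fun r : ℝ => ∫ s in (-(Real.pi / 2))..(Real.pi / 2),
      k s * (hh ((r : ℂ) * cis (θ - s))).re) (𝓝[<] 1) (𝓝 (xk k θ)) := by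
    unfold xk
    refine intervalIntegral.tendsto_integral_filter_of_dominated_convergence
      (fun s => k s) ?_ ?_ (hk.cont.intervalIntegrable _ _) ?_
    · filter_upwards [h0, self_mem_nhdsWithin] with r hr0 hr1
      exact (hk.cont.mul (Complex.continuous_re.comp (cont_hh θ hr0.le hr1))).aestronglyMeasurable
    · filter_upwards [h0, self_mem_nhdsWithin] with r hr0 hr1
      refine Eventually.of_forall fun s _ => ?_
      rw [norm_mul, Real.norm_of_nonneg (hk.nonneg s)]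
      have h2 : ‖(hh ((r : ℂ) * cis (θ - s))).re‖ ≤ 1 := by
        have h3 := H1.2.2.2.2.1 _ (mem_unit (θ := θ - s) hr0.le hr1)
        have h4 := Complex.abs_re_le_norm (hh ((r : ℂ) * cis (θ - s)))
        rw [norm_rcis r _ hr0.le] at h3
        rw [Real.norm_eq_abs]
        exact h4.trans (h3.trans (le_of_lt hr1))
      nlinarith [hk.nonneg s, norm_nonneg (hh ((r : ℂ) * cis (θ - s))).re]
    · refine Eventually.of_forall fun s _ => ?_
      exact (tendsto_hh (θ - s)).const_mul (k s)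
  refine key.congr' ?_
  filter_upwards [h0, self_mem_nhdsWithin] with r hr0 hr1
  exact (HK_re hk θ hr0.le hr1).symm

/-- part 2 -/
lemma part2 {k : ℝ → ℝ} (hk : Ker k) (θ : ℝ) :
    Tendsto (fun r : ℝ => (TK k ((r : ℂ) * cis θ)).im) (𝓝[<] 1) (𝓝 (vk k θ)) := by
  have hpi := Real.pi_pos
  have h0 : ∀ᶠ r : ℝ in 𝓝[<] 1, 0 < r :=
    nhdsWithin_le_nhds (eventually_gt_nhds zero_lt_one)
  have key : Tendsto (fun r : ℝ => ∫ s in (-(Real.pi / 2))..(Real.pi / 2),
      k s * (gg ((r : ℂ) * cis (θ - s))).im) (𝓝[<] 1) (𝓝 (vk k θ)) := by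
    unfold vk
    refine intervalIntegral.tendsto_integral_filter_of_dominated_convergence
      (fun s => k s) ?_ ?_ (hk.cont.intervalIntegrable _ _) ?_
    · filter_upwards [h0, self_mem_nhdsWithin] with r hr0 hr1
      exact (hk.cont.mul (Complex.continuous_im.comp (cont_gg θ hr0.le hr1))).aestronglyMeasurable
    · filter_upwards [h0, self_mem_nhdsWithin] with r hr0 hr1
      refine Eventually.of_forall fun s _ => ?_
      rw [norm_mul, Real.norm_of_nonneg (hk.nonneg s)]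
      have h2 : ‖(gg ((r : ℂ) * cis (θ - s))).im‖ ≤ 1 := by
        have h3 := H3.2.2.2.1 _ (mem_unit (θ := θ - s) hr0.le hr1)
        rw [Real.norm_eq_abs]
        have h4 : (1:ℝ) < Real.pi / 2 := by
          have := Real.pi_gt_three
          linarith
        nlinarith [abs_nonneg (gg ((r : ℂ) * cis (θ - s))).im]
      nlinarith [hk.nonneg s, norm_nonneg (gg ((r : ℂ) * cis (θ - s))).im]
    · refine Eventually.of_forall fun s _ => ?_
      exact (tendsto_gg (θ - s)).const_mul (k s)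
  refine key.congr' ?_
  filter_upwards [h0, self_mem_nhdsWithin] with r hr0 hr1
  exact (TK_im hk θ hr0.le hr1).symm

lemma hasDerivAt_cis (θ : ℝ) : HasDerivAt cis (cis θ * Complex.I) θ := by
  have h1 : HasDerivAt (fun t : ℝ => (t : ℂ) * Complex.I) Complex.I θ := by
    simpa using (Complex.ofRealCLM.hasDerivAt (x := θ)).mul_const Complex.I
  exact h1.cexp

end PFaux

open PFaux in
theorem PF (hB : S_PB) : S_PF := by
  intro k hk
  obtain ⟨b1, b2, -, b4, -, b6, -, b8, -, b10, b11, -⟩ := hB k hk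
  have hpi := Real.pi_pos
  refine ⟨part1 hk, part2 hk, ?_, ?_⟩
  · intro r θ hr0 hr1
    -- antitone on `[0,π]`
    have hder : ∀ t : ℝ, HasDerivAt (fun t : ℝ => (HK k ((r : ℂ) * cis t)).re)
        (-(TK k ((r : ℂ) * cis t)).im) t := by
      intro t
      have h1 : HasDerivAt (fun t : ℝ => (r : ℂ) * cis t) ((r : ℂ) * (cis t * Complex.I)) t :=
        (hasDerivAt_cis t).const_mul _
      have h2 := (b1 _ (mem_unit (θ := t) hr0 hr1)).comp t h1
      have h3 : HKd k ((r : ℂ) * cis t) * ((r : ℂ) * (cis t * Complex.I)) =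
          TK k ((r : ℂ) * cis t) * Complex.I := by
        rw [← b2 _ (mem_unit (θ := t) hr0 hr1)]
        ring
      rw [h3] at h2
      have h4 := (Complex.reCLM.hasFDerivAt.comp_hasDerivAt t h2)
      have h5 : Complex.reCLM (TK k ((r : ℂ) * cis t) * Complex.I) =
          -(TK k ((r : ℂ) * cis t)).im := by
        rw [Complex.reCLM_apply, Complex.mul_I_re]
      rw [h5] at h4
      exact h4
    have hanti : AntitoneOn (fun t : ℝ => (HK k ((r : ℂ) * cis t)).re) (Set.Icc 0 Real.pi) := by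
      refine antitoneOn_of_deriv_nonpos (convex_Icc 0 Real.pi)
        (fun t _ => (hder t).continuousAt.continuousWithinAt)
        (fun t _ => (hder t).differentiableAt.differentiableWithinAt) ?_
      intro t ht
      rw [interior_Icc] at ht
      rw [(hder t).deriv]
      have hs : 0 < Real.sin t := Real.sin_pos_of_pos_of_lt_pi ht.1 ht.2
      rcases hr0.eq_or_lt with h | h
      · rw [← h]
        have h6 : TK k (((0:ℝ) : ℂ) * cis t) = 0 := by
          rw [← b2 _ (by simp)]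
          simp
        rw [h6]
        simp
      · have := b10 _ (mem_unit (θ := t) hr0 hr1) (by rw [rcis_im]; exact mul_pos h hs)
        linarith
    have hpi' : (HK k ((r : ℂ) * cis Real.pi)).re = -(HK k (r : ℂ)).re := by
      rw [cis_pi, mul_neg, mul_one, b8, Complex.neg_re]
    have hzero : (HK k ((r : ℂ) * cis 0)).re = (HK k (r : ℂ)).re := by
      rw [cis_zero, mul_one]
    have hmain : ∀ t ∈ Set.Icc 0 Real.pi, |(HK k ((r : ℂ) * cis t)).re| ≤ (HK k (r : ℂ)).re := by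
      intro t ht
      rw [abs_le]
      constructor
      · have := hanti ht (Set.right_mem_Icc.2 hpi.le) ht.2
        simp only at this
        rw [hpi'] at this
        exact this
      · have := hanti (Set.left_mem_Icc.2 hpi.le) ht ht.1
        simp only at this
        rw [hzero] at this
        exact this
    have h7 := hmain _ ⟨Real.arccos_nonneg (Real.cos θ), Real.arccos_le_pi (Real.cos θ)⟩
    rcases cis_arccos θ with h | h
    · rw [h]; exact h7
    · rw [h]
      have h8 : (r : ℂ) * starRingEnd ℂ (cis (Real.arccos (Real.cos θ))) =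
          starRingEnd ℂ ((r : ℂ) * cis (Real.arccos (Real.cos θ))) := by
        rw [map_mul, Complex.conj_ofReal]
      rw [h8, b6, Complex.conj_re]
      exact h7
  · intro r hr0 hr1
    have hder : ∀ t : ℝ, 0 ≤ t → t < 1 → HasDerivAt (fun t : ℝ => (HK k (t : ℂ)).re)
        (HKd k (t : ℂ)).re t := by
      intro t h0 h1
      have hn : ‖(t : ℂ)‖ < 1 := by
        rw [Complex.norm_real, Real.norm_of_nonneg h0]; exact h1
      have h2 := (b1 _ hn).comp t (Complex.ofRealCLM.hasDerivAt (x := t))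
      have h4 := (Complex.reCLM.hasFDerivAt.comp_hasDerivAt t h2)
      have h5 : Complex.reCLM (HKd k (t : ℂ) * Complex.ofRealCLM 1) =
          (HKd k (t : ℂ)).re := by simp
      rw [h5] at h4
      exact h4
    have hmono : StrictMonoOn (fun t : ℝ => (HK k (t : ℂ)).re) (Set.Ico 0 1) := by
      refine strictMonoOn_of_deriv_pos (convex_Ico 0 1)
        (fun t ht => (hder t ht.1 ht.2).continuousAt.continuousWithinAt) ?_
      intro t ht
      rw [interior_Ico] at ht
      rw [(hder t ht.1.le ht.2).deriv]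
      have hn : ‖(t : ℂ)‖ < 1 := by
        rw [Complex.norm_real, Real.norm_of_nonneg ht.1.le]; exact ht.2
      have h5 := b11 _ hn (by rw [Complex.ofReal_re]; exact ht.1)
      rw [← b2 _ hn, Complex.re_ofReal_mul] at h5
      exact (pos_iff_pos_of_mul_pos h5).1 ht.1
    have hlim := part1 hk 0
    have e : (fun r : ℝ => (HK k ((r : ℂ) * cis 0)).re) = fun r : ℝ => (HK k (r : ℂ)).re := by
      funext t
      rw [cis_zero, mul_one]
    rw [e] at hlim
    set r' : ℝ := (r + 1) / 2 with hr'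
    have h1 : r < r' := by rw [hr']; linarith
    have h2 : r' < 1 := by rw [hr']; linarith
    have h3 : (HK k (r : ℂ)).re < (HK k (r' : ℂ)).re :=
      hmono ⟨hr0, hr1⟩ ⟨by linarith, h2⟩ h1
    refine lt_of_lt_of_le h3 ?_
    refine ge_of_tendsto hlim ?_
    have h4 : ∀ᶠ t : ℝ in 𝓝[<] 1, r' < t :=
      nhdsWithin_le_nhds (eventually_gt_nhds h2)
    filter_upwards [h4, self_mem_nhdsWithin] with t ht0 ht1
    exact (hmono ⟨by linarith, h2⟩ ⟨by linarith, ht1⟩ ht0).le

end H845LP
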