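import Pool.Agent.H845R4.LP.Stm

/-! Task PG (helper287): the constant `Sp p`. -/

set_option autoImplicit false

open MeasureTheory Set

namespace H845LP

namespace PGaux

theorem gauss (p : ℝ) (hp : 1 < p) : ∫ t : ℝ, Real.exp (-(|t| ^ p / p)) =
    2 * (p ^ (1 / p) * Real.Gamma (1 / p + 1)) := by
  have hp0 : 0 < p := by linarith
  have h1 := integral_comp_abs (f := fun t => Real.exp (-(t ^ p / p)))
  rw [h1]
  congr 1
  have h2 := integral_exp_neg_mul_rpow (p := p) (b := 1 / p) hp0 (by positivity)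
  have h3 : ∀ x : ℝ, -(x ^ p / p) = -(1 / p) * x ^ p := by intro x; ring
  simp_rw [h3]
  rw [h2]
  congr 1
  rw [one_div, Real.inv_rpow hp0.le, ← Real.rpow_neg hp0.le]
  congr 1
  ring

theorem beta_real {a b : ℝ} (ha : 0 < a) (hb : 0 < b) :
    ∫ x in (0:ℝ)..1, x ^ (a - 1) * (1 - x) ^ (b - 1) =
      Real.Gamma a * Real.Gamma b / Real.Gamma (a + b) := by
  have h1 : ∫ x : ℝ in (0:ℝ)..1, ((x ^ (a - 1) * (1 - x) ^ (b - 1) : ℝ) : ℂ) =
      Complex.betaIntegral a b := by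
    unfold Complex.betaIntegral
    apply intervalIntegral.integral_congr
    intro x hx
    rw [uIcc_of_le zero_le_one] at hx
    have hx0 : 0 ≤ x := hx.1
    have hx1 : 0 ≤ 1 - x := by linarith [hx.2]
    simp only
    rw [Complex.ofReal_mul, Complex.ofReal_cpow hx0, Complex.ofReal_cpow hx1]
    push_cast
    rfl
  have h2 := intervalIntegral.integral_ofReal (a := 0) (b := 1) (μ := volume)
    (f := fun x : ℝ => x ^ (a - 1) * (1 - x) ^ (b - 1))
  have h3 := ProbabilityTheory.beta_eq_betaIntegralReal a b ha hb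
  have h4 : ((∫ x in (0:ℝ)..1, x ^ (a - 1) * (1 - x) ^ (b - 1) : ℝ) : ℂ) =
      Complex.betaIntegral a b := by
    rw [← h1]
    exact h2.symm
  rw [← h4, Complex.ofReal_re] at h3
  rw [← h3]
  rfl

theorem subst (p : ℝ) (hp : 1 < p) :
    ∫ y in (0:ℝ)..1, y ^ (1 / p - 1) * (1 - y) ^ (-(1 / p)) =
      p * ∫ t in (0:ℝ)..1, (1 - t ^ p) ^ (-(1 / p)) := by
  have hp0 : 0 < p := by linarith
  set g : ℝ → ℝ := (Iic (1:ℝ)).indicator (fun y => y ^ (1 / p - 1) * (1 - y) ^ (-(1 / p))) with hg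
  set f : ℝ → ℝ := (Iic (1:ℝ)).indicator (fun t => (1 - t ^ p) ^ (-(1 / p))) with hf
  have hI : Ioi (0:ℝ) ∩ Iic 1 = Ioc 0 1 := by
    ext x; simp [Ioc]
  have h1 : ∫ y in (0:ℝ)..1, y ^ (1 / p - 1) * (1 - y) ^ (-(1 / p)) = ∫ y in Ioi 0, g y := by
    rw [hg, setIntegral_indicator measurableSet_Iic, hI, intervalIntegral.integral_of_le zero_le_one]
  have h2 : ∫ t in (0:ℝ)..1, (1 - t ^ p) ^ (-(1 / p)) = ∫ t in Ioi 0, f t := by
    rw [hf, setIntegral_indicator measurableSet_Iic, hI, intervalIntegral.integral_of_le zero_le_one]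
  rw [h1, h2, ← integral_comp_rpow_Ioi_of_pos (g := g) hp0, ← integral_const_mul]
  apply setIntegral_congr_fun measurableSet_Ioi
  intro x hx
  have hx0 : (0:ℝ) < x := hx
  have hiff : x ^ p ∈ Iic (1:ℝ) ↔ x ∈ Iic (1:ℝ) := by
    simp only [mem_Iic]
    constructor
    · intro h
      by_contra hcon
      push Not at hcon
      have := Real.one_lt_rpow hcon hp0
      linarith
    · intro h
      exact Real.rpow_le_one hx0.le h hp0.le
  simp only [smul_eq_mul]
  by_cases hx1 : x ∈ Iic (1:ℝ)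
  · rw [hg, hf, indicator_of_mem (hiff.2 hx1), indicator_of_mem hx1, ← Real.rpow_mul hx0.le]
    have e1 : x ^ (p - 1) * x ^ (p * (1 / p - 1)) = 1 := by
      rw [← Real.rpow_add hx0]
      have : p - 1 + p * (1 / p - 1) = 0 := by field_simp; ring
      rw [this, Real.rpow_zero]
    calc p * x ^ (p - 1) * (x ^ (p * (1 / p - 1)) * (1 - x ^ p) ^ (-(1 / p)))
        = p * ((x ^ (p - 1) * x ^ (p * (1 / p - 1))) * (1 - x ^ p) ^ (-(1 / p))) := by ring
      _ = p * (1 - x ^ p) ^ (-(1 / p)) := by rw [e1, one_mul]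
  · rw [hg, hf, indicator_of_notMem (fun h => hx1 (hiff.1 h)), indicator_of_notMem hx1]
    ring

end PGaux

open PGaux in
theorem PG : S_PG := by
  intro p hp hp2
  have hp0 : 0 < p := by linarith
  have hp1 : 0 < p - 1 := by linarith
  set q := p / (p - 1) with hq
  have hq1 : 1 < q := by
    rw [hq, lt_div_iff₀ hp1]; linarith
  have hq0 : 0 < q := by linarith
  have hqi : 1 / q = 1 - 1 / p := by
    rw [hq]; field_simp
  have hb0 : 0 < 1 - 1 / p := by rw [← hqi]; positivity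
  have h1 := beta_real (a := 1 / p) (b := 1 - 1 / p) (by positivity) hb0
  have e1 : (1 - 1 / p - 1 : ℝ) = -(1 / p) := by ring
  have e2 : (1 / p + (1 - 1 / p) : ℝ) = 1 := by ring
  rw [e1, e2, Real.Gamma_one, div_one, subst p hp] at h1
  unfold Sp
  rw [gauss p hp, ← hq, gauss q hq1, Real.Gamma_add_one (by positivity),
    Real.Gamma_add_one (by positivity), hqi]
  have hint : ∫ t in (0:ℝ)..1, (1 - t ^ p) ^ (-(1 / p)) =
      (1 / p) * (Real.Gamma (1 / p) * Real.Gamma (1 - 1 / p)) := by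
    rw [← h1]; field_simp
  rw [hint]
  have key : p ^ (1 / p) * (q ^ (1 - 1 / p) * (1 - 1 / p)) = (p - 1) ^ (1 / p) := by
    have k1 : q ^ (1 - 1 / p) = q * q ^ (-(1 / p)) := by
      rw [sub_eq_add_neg, Real.rpow_add hq0, Real.rpow_one]
    have k2 : q ^ (-(1 / p)) = p ^ (-(1 / p)) * (p - 1) ^ (1 / p) := by
      rw [hq, Real.div_rpow hp0.le hp1.le, Real.rpow_neg hp1.le, div_inv_eq_mul]
    have k3 : q * (1 - 1 / p) = 1 := by
      rw [← hqi]; field_simp
    have k4 : p ^ (1 / p) * p ^ (-(1 / p)) = 1 := by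
      rw [← Real.rpow_add hp0]; simp
    calc p ^ (1 / p) * (q ^ (1 - 1 / p) * (1 - 1 / p))
        = (p ^ (1 / p) * p ^ (-(1 / p))) * (q * (1 - 1 / p)) * (p - 1) ^ (1 / p) := by
          rw [k1, k2]; ring
      _ = (p - 1) ^ (1 / p) := by rw [k3, k4]; ring
  rw [← key]
  ring

end H845LP
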