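import Pool.Agent.H845R4.LP.Stm

/-!
Planar assembly.
-/

set_option autoImplicit false

noncomputable section

open MeasureTheory Filter Topology
open scoped BigOperators Matrix ENNReal

namespace H845LP

open H712MA

theorem pl_vk_pos (k : ℝ → ℝ) (hk : Ker k) : 0 < vk k (Real.pi / 2) := by
  have hpi := Real.pi_pos
  have h1 : vk k (Real.pi / 2) =
      ∫ s in (-(Real.pi / 2))..(Real.pi / 2), k s * (2 / Real.pi) := by
    unfold vk
    apply intervalIntegral.integral_congr_ae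
    have h2 : ∀ᵐ s : ℝ, s ∉ ({Real.pi / 2} : Set ℝ) :=
      (Set.countable_singleton (Real.pi / 2)).ae_notMem volume
    filter_upwards [h2] with s hs hs2
    rw [Set.uIoc_of_le (by linarith)] at hs2
    have hne : s ≠ Real.pi / 2 := fun h => hs (by rw [h]; exact Set.mem_singleton _)
    have hlt : s < Real.pi / 2 := lt_of_le_of_ne hs2.2 hne
    have h3 : 0 < Real.sin (Real.pi / 2 - s) :=
      Real.sin_pos_of_pos_of_lt_pi (by linarith) (by linarith [hs2.1])
    rw [sign_pos h3]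
    simp
  rw [h1]
  apply intervalIntegral.integral_pos (by linarith)
  · exact (hk.cont.mul continuous_const).continuousOn
  · intro s _
    exact mul_nonneg (hk.nonneg s) (by positivity)
  · refine ⟨Real.pi / 4, ⟨by linarith, by linarith⟩, ?_⟩
    have h4 : 0 < k (Real.pi / 4) := by
      apply hk.pos
      · rw [abs_of_pos (by linarith)]
        linarith
      · rw [abs_of_pos (by linarith)]
        linarith
    positivity

theorem pl_even (p : ℝ) (k : ℝ → ℝ) (hB1 : ∀ ζ : ℂ, HK k (starRingEnd ℂ ζ) = starRingEnd ℂ (HK k ζ))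
    (hB2 : ∀ ζ : ℂ, TK k (starRingEnd ℂ ζ) = starRingEnd ℂ (TK k ζ)) (r θ : ℝ) :
    FR p k r (-θ) = FR p k r θ := by
  have h1 : (r : ℂ) * cis (-θ) = starRingEnd ℂ ((r : ℂ) * cis θ) := by
    unfold cis
    rw [map_mul, Complex.conj_ofReal, ← Complex.exp_conj, map_mul, Complex.conj_ofReal,
      Complex.conj_I]
    push_cast
    congr 2
    ring
  unfold FR
  rw [h1, hB1, hB2, Complex.conj_re, Complex.conj_im, abs_neg]

theorem PL (hPA : S_PA) (hPB : S_PB) (hPC : S_PC) (hPD : S_PD) (hPF : S_PF) (hPG : S_PG) :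
    S_PL := by
  intro p hp1 hp2 ε hε
  have hpi := Real.pi_pos
  obtain ⟨k, hk, hx0, hk2⟩ := hPA p hp1 hp2
  obtain ⟨_, _, _, _, _, hB1, hB2, _⟩ := hPB k hk
  obtain ⟨hF1, hF2, _, _⟩ := hPF k hk
  have hG := hPG p hp1 hp2
  set A : ℝ := ∫ t in (0:ℝ)..1, (1 - t ^ p) ^ (-(1 / p)) with hA
  -- `A` is positive
  have hA0 : 0 < A := by
    have h1 := pl_vk_pos k hk
    obtain ⟨h2, h3⟩ := hk2 (Real.pi / 2) (by linarith) (by linarith)
    rw [h3] at h1
    have h4 : 0 ≤ (1 - |xk k (Real.pi / 2)| ^ p) ^ (1 / p) := by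
      apply Real.rpow_nonneg
      have := Real.rpow_le_one (abs_nonneg (xk k (Real.pi / 2))) h2.le (by linarith : (0:ℝ) ≤ p)
      linarith
    by_contra hc
    have h5 : 2 / Real.pi * A ≤ 0 := mul_nonpos_of_nonneg_of_nonpos (by positivity) (not_lt.1 hc)
    exact absurd h1 (not_lt.2 (mul_nonpos_of_nonpos_of_nonneg h5 h4))
  have hp10 : 0 < p - 1 := by linarith
  -- the limit of the ratio function
  have hlim : ∀ θ : ℝ, 0 < θ → θ < Real.pi →
      Tendsto (fun r => FR p k r θ) (𝓝[<] 1) (𝓝 1) := by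
    intro θ h0 hθ
    obtain ⟨h2, h3⟩ := hk2 θ h0 hθ
    have hB : 0 < 1 - |xk k θ| ^ p := by
      have := Real.rpow_lt_one (abs_nonneg (xk k θ)) h2 (by linarith : (0:ℝ) < p)
      linarith
    have t1 := ((hF1 θ).abs).rpow_const (p := p) (Or.inr (by linarith))
    have t2 := ((tendsto_const_nhds (x := (1:ℝ)) (f := 𝓝[<] (1:ℝ))).sub t1).const_mul (1 / (p - 1))
    have t3 := t2.rpow_const (p := 1 / p) (Or.inr (by positivity))
    have t4 := ((hF2 θ).abs.const_mul (2 * Real.pi / Sp p)).div t3 (by positivity)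
    have e1 : 2 * Real.pi / Sp p * |vk k θ| /
        ((1 / (p - 1)) * (1 - |xk k θ| ^ p)) ^ (1 / p) = 1 := by
      rw [h3, hG, Real.mul_rpow (by positivity) hB.le, Real.div_rpow (by norm_num) hp10.le,
        Real.one_rpow]
      have hB' : 0 < (1 - |xk k θ| ^ p) ^ (1 / p) := Real.rpow_pos_of_pos hB _
      have hq' : 0 < (p - 1) ^ (1 / p) := Real.rpow_pos_of_pos hp10 _
      rw [abs_of_pos (by positivity)]
      field_simp
      ring
    rw [e1] at t4
    exact t4
  -- data for every radius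
  have hdata : ∀ r : ℝ, 0 < r → r < 1 → ∃ (L : Lens) (N : ℂ → ℝ) (Y Yb : ℝ → ℝ → ℝ),
      TD L (hr k r) N ∧ RD p (p / (p - 1)) (Sp p) (hr k r) N (FR p k r) Y Yb := by
    intro r h0 h1
    obtain ⟨L, N, hTD, hN1, hN2⟩ := hPC k hk r h0 h1
    obtain ⟨Y, Yb, hRD⟩ := hPD p k hp1 hp2 hk hx0 r h0 h1 L N hTD hN1 hN2
    exact ⟨L, N, Y, Yb, hTD, hRD⟩
  have hev : ∀ᶠ r in 𝓝[<] (1:ℝ), 0 < r ∧ r < 1 := by
    have h1 : ∀ᶠ r in 𝓝[<] (1:ℝ), r < 1 := eventually_mem_nhdsWithin
    have h2 : ∀ᶠ r in 𝓝[<] (1:ℝ), (0:ℝ) < r :=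
      (eventually_gt_nhds (by norm_num : (0:ℝ) < 1)).filter_mono nhdsWithin_le_nhds
    exact h2.and h1
  have hmeas : ∀ r : ℝ, 0 < r → r < 1 → Measurable (FR p k r) := by
    intro r h0 h1
    obtain ⟨_, _, _, _, _, h⟩ := hdata r h0 h1
    exact h.Fmeas
  have hnn : ∀ r : ℝ, 0 < r → r < 1 → ∀ θ, 0 ≤ FR p k r θ := by
    intro r h0 h1
    obtain ⟨_, _, _, _, _, h⟩ := hdata r h0 h1
    exact h.Fnn
  have hT : Tendsto (fun r => ∫⁻ θ, ENNReal.ofReal (1 - min 1 (FR p k r θ)) ∂Am) (𝓝[<] 1)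
      (𝓝 (∫⁻ _θ, (0 : ℝ≥0∞) ∂Am)) := by
    apply tendsto_lintegral_filter_of_dominated_convergence (fun _ => (1 : ℝ≥0∞))
    · filter_upwards [hev] with r hr
      exact (measurable_const.sub (measurable_const.min (hmeas r hr.1 hr.2))).ennreal_ofReal
    · filter_upwards [hev] with r hr
      refine Eventually.of_forall fun θ => ?_
      rw [ENNReal.ofReal_le_one]
      have h1 : 0 ≤ min 1 (FR p k r θ) := le_min (by norm_num) (hnn r hr.1 hr.2 θ)
      linarith
    · rw [lintegral_one]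
      unfold Am
      rw [Measure.smul_apply, Measure.restrict_apply MeasurableSet.univ, Set.univ_inter,
        Real.volume_Ioo, smul_eq_mul]
      exact ENNReal.mul_ne_top ENNReal.ofReal_ne_top ENNReal.ofReal_ne_top
    · unfold Am
      apply Measure.ae_smul_measure
      rw [ae_restrict_iff' measurableSet_Ioo]
      have h2 : ∀ᵐ s : ℝ, s ∉ ({0} : Set ℝ) := (Set.countable_singleton (0:ℝ)).ae_notMem volume
      filter_upwards [h2] with θ hθ0 hθ
      have hne : θ ≠ 0 := fun h => hθ0 (by rw [h]; exact Set.mem_singleton _)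
      have hl : Tendsto (fun r => FR p k r θ) (𝓝[<] 1) (𝓝 1) := by
        rcases lt_or_gt_of_ne hne with h | h
        · have h3 := hlim (-θ) (by linarith) (by linarith [hθ.1])
          refine h3.congr fun r => ?_
          exact pl_even p k hB1 hB2 r θ
        · exact hlim θ h hθ.2
      have h4 : Tendsto (fun r => 1 - min 1 (FR p k r θ)) (𝓝[<] 1) (𝓝 (1 - min 1 1)) :=
        tendsto_const_nhds.sub (tendsto_const_nhds.min hl)
      have h5 := ENNReal.tendsto_ofReal h4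
      rw [min_self, sub_self, ENNReal.ofReal_zero] at h5
      exact h5
  rw [lintegral_zero] at hT
  have hsmall := hT.eventually_le_const (show (0 : ℝ≥0∞) < ENNReal.ofReal ε by
    rwa [ENNReal.ofReal_pos])
  obtain ⟨r, hr, hr2⟩ := (hev.and hsmall).exists
  obtain ⟨L, N, Y, Yb, hTD, hRD⟩ := hdata r hr.1 hr.2
  exact ⟨L, _, N, _, Y, Yb, hTD, hRD, hr2⟩

end H845LP
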