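import Pool.Agent.H845R4.LP.Stm

/-!
# The real side assembled
-/

set_option autoImplicit false

noncomputable section

open MeasureTheory Filter Topology
open scoped BigOperators Matrix ENNReal

namespace H845LP

open H712MA

namespace RR

/-- product of lower integrals -/
lemma lint_prod {α : Type} [MeasurableSpace α] (μ : Measure α) [SigmaFinite μ] : ∀ (n : ℕ)
    (b : Fin n → α → ℝ≥0∞), (∀ i, Measurable (b i)) →
    ∫⁻ z : Fin n → α, ∏ i, b i (z i) ∂(Measure.pi fun _ => μ) = ∏ i, ∫⁻ p, b i p ∂μ := by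
  intro n
  induction n with
  | zero =>
    intro b hb
    simp [Measure.pi_empty_univ]
  | succ n ih =>
    intro b hb
    have h := measurePreserving_piFinSuccAbove (fun _ : Fin (n + 1) => μ) 0
    have hF : Measurable (fun z : Fin (n + 1) → α => ∏ i, b i (z i)) :=
      Finset.measurable_fun_prod _ fun i _ => (hb i).comp (measurable_pi_apply i)
    rw [← h.symm.lintegral_comp hF]
    have e : ∀ ty : α × (Fin n → α),
        ∏ i, b i ((MeasurableEquiv.piFinSuccAbove (fun _ : Fin (n + 1) => α) 0).symm ty i) =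
          b 0 ty.1 * ∏ i : Fin n, b i.succ (ty.2 i) := by
      intro ty
      rw [Fin.prod_univ_succ]
      congr 1
    rw [lintegral_congr e]
    have hG : Measurable (fun y : Fin n → α => ∏ i : Fin n, b i.succ (y i)) :=
      Finset.measurable_fun_prod _ fun i _ => (hb i.succ).comp (measurable_pi_apply i)
    have h2 := lintegral_prod_mul (μ := μ)
      (ν := (Measure.pi fun _ : Fin n => μ)) (hb 0).aemeasurable hG.aemeasurable
    rw [Fin.prod_univ_succ, ← ih (fun i => b i.succ) (fun i => hb i.succ), ← h2]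

lemma pi_wd {α : Type} [MeasurableSpace α] (μ : Measure α) [SigmaFinite μ] (n : ℕ)
    (c : α → ℝ≥0∞) (hc : Measurable c) [SigmaFinite (μ.withDensity c)] :
    Measure.pi (fun _ : Fin n => μ.withDensity c) =
      (Measure.pi fun _ : Fin n => μ).withDensity (fun z => ∏ i, c (z i)) := by
  refine Measure.pi_eq fun s hs => ?_
  rw [withDensity_apply _ (MeasurableSet.univ_pi hs), ← lintegral_indicator (MeasurableSet.univ_pi hs)]
  have e : ∀ z : Fin n → α, (Set.univ.pi s).indicator (fun z => ∏ i, c (z i)) z =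
      ∏ i, (s i).indicator c (z i) := by
    intro z
    by_cases hz : z ∈ Set.univ.pi s
    · rw [Set.indicator_of_mem hz]
      exact Finset.prod_congr rfl fun i _ => (Set.indicator_of_mem (hz i trivial) _).symm
    · rw [Set.indicator_of_notMem hz]
      have : ∃ i, z i ∉ s i := by
        by_contra hno
        push Not at hno
        exact hz fun i _ => hno i
      obtain ⟨i, hi⟩ := this
      exact (Finset.prod_eq_zero (Finset.mem_univ i) (Set.indicator_of_notMem hi _)).symm
  rw [lintegral_congr e, lint_prod μ n (fun i => (s i).indicator c) (fun i => hc.indicator (hs i))]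
  refine Finset.prod_congr rfl fun i _ => ?_
  rw [lintegral_indicator (hs i), withDensity_apply _ (hs i)]

instance sf_Wm (p : ℝ) : SigmaFinite (Wm p) := by
  unfold Wm
  infer_instance

instance sf_Am : IsFiniteMeasure Am := by
  refine ⟨?_⟩
  unfold Am
  rw [Measure.smul_apply, Measure.restrict_apply_univ, smul_eq_mul, Real.volume_Ioo]
  exact ENNReal.mul_lt_top ENNReal.ofReal_lt_top ENNReal.ofReal_lt_top

instance sf_Pm (p : ℝ) : SigmaFinite (Pm p) := by
  unfold Pm
  infer_instance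

lemma meas_xi {h : ℂ → ℂ} (hh : Measurable h) : Measurable (xi h) := by
  unfold xi cis
  refine (Complex.measurable_ofReal.comp measurable_fst).mul (hh.comp ?_)
  exact Complex.measurable_exp.comp
    ((Complex.measurable_ofReal.comp measurable_snd).mul_const _)

lemma meas_b {p q S : ℝ} {h : ℂ → ℂ} {N : ℂ → ℝ} {F : ℝ → ℝ} {Y Yb : ℝ → ℝ → ℝ}
    (hN : Measurable N) (H : RD p q S h N F Y Yb) :
    Measurable fun ξ : ℂ => ENNReal.ofReal (Real.exp (-((N ξ) ^ p / p)) * Yb ξ.re ξ.im) := by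
  refine ENNReal.measurable_ofReal.comp (Measurable.mul ?_ ?_)
  · exact Real.measurable_exp.comp ((hN.pow_const p).div_const p).neg
  · exact H.Ybmeas.comp (Complex.measurable_re.prodMk Complex.measurable_im)

/-- transfer of the integrals -/
lemma transfer {n : ℕ} {p q S : ℝ} {h : ℂ → ℂ} {N : ℂ → ℝ} {F : ℝ → ℝ} {Y Yb : ℝ → ℝ → ℝ}
    (hS : 0 < S) (hh : Measurable h) (hN : Measurable N) (H : RD p q S h N F Y Yb)
    (G : (Fin n → ℂ) → ℝ) (hG : Measurable G) :
    ENNReal.ofReal (S ^ n) * ∫⁻ ω : Fin n → ℝ × ℝ,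
      ENNReal.ofReal ((∏ i, F (ω i).2) * G (fun i => xi h (ω i))) ∂(Measure.pi fun _ => Pm p) =
    ∫⁻ ξ : Fin n → ℂ, (∏ i, ENNReal.ofReal (Real.exp (-((N (ξ i)) ^ p / p)) *
      Yb (ξ i).re (ξ i).im)) * ENNReal.ofReal (G ξ) := by
  set b : ℂ → ℝ≥0∞ := fun ξ : ℂ => ENNReal.ofReal (Real.exp (-((N ξ) ^ p / p)) *
    Yb ξ.re ξ.im) with hbd
  set c : ℝ × ℝ → ℝ≥0∞ := fun ω => ENNReal.ofReal (S * F ω.2) with hcd
  have hb : Measurable b := meas_b hN H
  have hc : Measurable c := ENNReal.measurable_ofReal.comp ((H.Fmeas.comp measurable_snd).const_mul S)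
  have hx : Measurable (xi h) := meas_xi hh
  have hGm : Measurable fun ξ : Fin n → ℂ => ENNReal.ofReal (G ξ) :=
    ENNReal.measurable_ofReal.comp hG
  have hbp : Measurable fun ξ : Fin n → ℂ => ∏ i, b (ξ i) :=
    Finset.measurable_fun_prod _ fun i _ => hb.comp (measurable_pi_apply i)
  have hcp : Measurable fun ω : Fin n → ℝ × ℝ => ∏ i, c (ω i) :=
    Finset.measurable_fun_prod _ fun i _ => hc.comp (measurable_pi_apply i)
  have hsf1 : SigmaFinite ((volume : Measure ℂ).withDensity b) := SigmaFinite.withDensity_ofReal _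
  have hsf2 : SigmaFinite ((Pm p).withDensity c) := SigmaFinite.withDensity_ofReal _
  have hpush : (volume : Measure ℂ).withDensity b = ((Pm p).withDensity c).map (xi h) := H.push
  have hsf3 : SigmaFinite (((Pm p).withDensity c).map (xi h)) := hpush ▸ hsf1
  have hxp : Measurable fun (ω : Fin n → ℝ × ℝ) (i : Fin n) => xi h (ω i) :=
    measurable_pi_lambda _ fun i => hx.comp (measurable_pi_apply i)
  symm
  calc ∫⁻ ξ : Fin n → ℂ, (∏ i, b (ξ i)) * ENNReal.ofReal (G ξ)
      = ∫⁻ ξ : Fin n → ℂ, ENNReal.ofReal (G ξ)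
          ∂((volume : Measure (Fin n → ℂ)).withDensity fun ξ => ∏ i, b (ξ i)) := by
        rw [lintegral_withDensity_eq_lintegral_mul _ hbp hGm]
        rfl
    _ = ∫⁻ ξ : Fin n → ℂ, ENNReal.ofReal (G ξ)
          ∂(Measure.pi fun _ : Fin n => (volume : Measure ℂ).withDensity b) := by
        rw [pi_wd (volume : Measure ℂ) n b hb]
        rfl
    _ = ∫⁻ ξ : Fin n → ℂ, ENNReal.ofReal (G ξ)
          ∂((Measure.pi fun _ : Fin n => (Pm p).withDensity c).map fun ω i => xi h (ω i)) := by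
        rw [Measure.pi_map_pi (fun _ => hx.aemeasurable)]
        simp only [hpush]
    _ = ∫⁻ ω : Fin n → ℝ × ℝ, ENNReal.ofReal (G fun i => xi h (ω i))
          ∂(Measure.pi fun _ : Fin n => (Pm p).withDensity c) := by
        rw [lintegral_map hGm hxp]
    _ = ∫⁻ ω : Fin n → ℝ × ℝ, (∏ i, c (ω i)) * ENNReal.ofReal (G fun i => xi h (ω i))
          ∂(Measure.pi fun _ : Fin n => Pm p) := by
        have hGx : Measurable fun ω : Fin n → ℝ × ℝ => ENNReal.ofReal (G fun i => xi h (ω i)) :=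
          hGm.comp hxp
        rw [pi_wd (Pm p) n c hc, lintegral_withDensity_eq_lintegral_mul _ hcp hGx]
        rfl
    _ = ∫⁻ ω : Fin n → ℝ × ℝ, ENNReal.ofReal (S ^ n) *
          ENNReal.ofReal ((∏ i, F (ω i).2) * G (fun i => xi h (ω i)))
          ∂(Measure.pi fun _ : Fin n => Pm p) := by
        refine lintegral_congr fun ω => ?_
        have h1 : ∏ i, c (ω i) = ENNReal.ofReal (S ^ n) * ENNReal.ofReal (∏ i, F (ω i).2) := by
          rw [← ENNReal.ofReal_mul (by positivity), hcd,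
            ← ENNReal.ofReal_prod_of_nonneg (fun i _ => mul_nonneg hS.le (H.Fnn _)),
            Finset.prod_mul_distrib, Finset.prod_const, Finset.card_univ, Fintype.card_fin]
        rw [h1, mul_assoc, ENNReal.ofReal_mul (Finset.prod_nonneg fun i _ => H.Fnn _)]
    _ = _ := by
        rw [lintegral_const_mul' _ _ ENNReal.ofReal_ne_top]

lemma hyper_null {n : ℕ} (v : Fin n → ℝ) (hv : v ≠ 0) :
    ∀ᵐ x : Fin n → ℝ, v ⬝ᵥ x ≠ 0 := by
  let φ : (Fin n → ℝ) →ₗ[ℝ] ℝ :=
    { toFun := fun x => v ⬝ᵥ x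
      map_add' := fun x y => dotProduct_add v x y
      map_smul' := fun c x => by simp [dotProduct_smul] }
  have hne : LinearMap.ker φ ≠ ⊤ := by
    intro h
    have h1 : v ∈ LinearMap.ker φ := by rw [h]; trivial
    have h2 : v ⬝ᵥ v = 0 := h1
    exact hv (dotProduct_self_eq_zero.1 h2)
  have h0 := Measure.addHaar_submodule (volume : Measure (Fin n → ℝ)) (LinearMap.ker φ) hne
  rw [ae_iff]
  have : {a : Fin n → ℝ | ¬ v ⬝ᵥ a ≠ 0} = (LinearMap.ker φ : Set (Fin n → ℝ)) := by
    ext x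
    exact not_not
  rw [this]
  exact h0

lemma inj_of_dt {κ : Type} {n : ℕ} {l : κ → Fin n → ℝ} {f : Fin n → κ} (hf : dt l f ≠ 0) :
    Function.Injective f := by
  intro i j hij
  by_contra hne
  apply hf
  unfold dt
  refine Matrix.det_zero_of_row_eq hne ?_
  funext t
  simp only [Matrix.of_apply, hij]

open Classical in
lemma prod_split {κ : Type} [Fintype κ] {n : ℕ} {f : Fin n → κ} (hf : Function.Injective f)
    (X : κ → ℝ) :
    (∏ i, X (f i)) * ∏ k ∈ Finset.univ.filter (fun k => k ∉ Set.range f), X k = ∏ k, X k := by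
  rw [← Finset.prod_filter_mul_prod_filter_not Finset.univ (fun k => k ∈ Set.range f) X]
  congr 1
  have h1 : Finset.univ.filter (fun k => k ∈ Set.range f) = Finset.univ.image f := by
    ext k
    simp
  rw [h1, Finset.prod_image (fun a _ b _ h => hf h)]

lemma meas_pk {n : ℕ} (v : Fin n → ℝ) : Measurable (fun z : E2 n => pk v z) := by
  have h1 : Measurable (fun z : E2 n => ((v ⬝ᵥ z.1 : ℝ) : ℂ) + ((v ⬝ᵥ z.2 : ℝ) : ℂ) * Complex.I) := by
    have a : Continuous (fun z : E2 n => v ⬝ᵥ z.1) := by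
      unfold dotProduct; fun_prop
    have b : Continuous (fun z : E2 n => v ⬝ᵥ z.2) := by
      unfold dotProduct; fun_prop
    exact ((Complex.continuous_ofReal.comp a).add
      ((Complex.continuous_ofReal.comp b).mul continuous_const)).measurable
  have h2 : (fun z : E2 n => pk v z) =
      fun z : E2 n => ((v ⬝ᵥ z.1 : ℝ) : ℂ) + ((v ⬝ᵥ z.2 : ℝ) : ℂ) * Complex.I := by
    funext z
    exact Complex.mk_eq_add_mul_I _ _
  rw [h2]; exact h1

end RR

open RR in
theorem R (h1 : S_R1) (h2 : S_FE) (h3 : H712MA.S_A3) : S_R := by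
  classical
  intro κ _ n p q S h N F Y Yb hp hq hS hh hN H l hl hl0
  set X : κ → E2 n → ℝ := fun k z => Real.exp (-((N (pk (l k) z)) ^ p / p)) with hX
  set yb : κ → E2 n → ℝ := fun k z => Yb (l k ⬝ᵥ z.1) (l k ⬝ᵥ z.2) with hyb
  have hXpos : ∀ k z, 0 < X k z := fun k z => Real.exp_pos _
  have hXm : ∀ k, Measurable (X k) := fun k =>
    Real.measurable_exp.comp (((hN.comp (meas_pk (l k))).pow_const p).div_const p).neg
  -- almost everywhere
  have haex : ∀ᵐ x : Fin n → ℝ, ∀ k, l k ⬝ᵥ x ≠ 0 := by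
    rw [ae_all_iff]
    exact fun k => hyper_null (l k) (hl0 k)
  have haez : ∀ᵐ z : E2 n, ∀ k, l k ⬝ᵥ z.1 ≠ 0 := by
    rw [Measure.volume_eq_prod]
    exact Measure.quasiMeasurePreserving_fst.ae haex
  -- the terms
  set g : (Fin n → κ) → E2 n → ℝ≥0∞ := fun f z => if dt l f = 0 then 0 else
    ENNReal.ofReal ((dt l f) ^ 2) * ((∏ i, ENNReal.ofReal (Real.exp (-((N (pk (l (f i)) z)) ^ p / p)) *
      Yb (pk (l (f i)) z).re (pk (l (f i)) z).im)) *
      ENNReal.ofReal (XP p N l f (fun i => pk (l (f i)) z))) with hg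
  have hXPm : ∀ f : Fin n → κ, dt l f ≠ 0 → Measurable fun ξ : Fin n → ℂ => XP p N l f ξ := by
    intro f hf
    obtain ⟨-, -, hc, -⟩ := h2 κ n l f hf
    unfold XP
    refine Finset.measurable_fun_prod _ fun k _ => ?_
    exact Real.measurable_exp.comp
      (((hN.comp ((meas_pk (l k)).comp hc.measurable)).pow_const p).div_const p).neg
  have hbm := meas_b hN H
  have hterm : ∀ f : Fin n → κ,
      ENNReal.ofReal (S ^ n) * (if dt l f = 0 then 0 else
        ∫⁻ ω : Fin n → ℝ × ℝ, ENNReal.ofReal ((∏ i, F (ω i).2) * XP p N l f (fun i => xi h (ω i)))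
          ∂(Measure.pi fun _ => Pm p)) = ∫⁻ z : E2 n, g f z := by
    intro f
    by_cases hf : dt l f = 0
    · simp [hg, hf]
    · rw [if_neg hf, transfer hS hh hN H (fun ξ => XP p N l f ξ) (hXPm f hf)]
      obtain ⟨-, -, -, hfe⟩ := h2 κ n l f hf
      rw [← hfe (fun ξ : Fin n → ℂ => (∏ i, ENNReal.ofReal (Real.exp (-((N (ξ i)) ^ p / p)) *
        Yb (ξ i).re (ξ i).im)) * ENNReal.ofReal (XP p N l f ξ))
        ((Finset.measurable_fun_prod _ fun i _ => hbm.comp (measurable_pi_apply i)).mul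
          (ENNReal.measurable_ofReal.comp (hXPm f hf)))]
      refine lintegral_congr fun z => ?_
      simp only [hg, if_neg hf]
  have hgm : ∀ f, Measurable (g f) := by
    intro f
    by_cases hf : dt l f = 0
    · simp only [hg, if_pos hf]
      exact measurable_const
    · simp only [hg, if_neg hf]
      have hpkm : Measurable fun (z : E2 n) (i : Fin n) => pk (l (f i)) z :=
        measurable_pi_lambda _ fun i => meas_pk (l (f i))
      refine Measurable.const_mul (Measurable.mul ?_ ?_) _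
      · exact Finset.measurable_fun_prod _ fun i _ => hbm.comp (meas_pk (l (f i)))
      · exact ENNReal.measurable_ofReal.comp ((hXPm f hf).comp hpkm)
  -- the pointwise identity
  have hpt : ∀ z : E2 n, (∀ k, l k ⬝ᵥ z.1 ≠ 0) → ∀ f : Fin n → κ,
      g f z = ENNReal.ofReal (((∏ i, yb (f i) z) * (dt l f) ^ 2) * ∏ k, X k z) := by
    intro z hz f
    by_cases hf : dt l f = 0
    · simp [hg, hf]
    · obtain ⟨-, hzf, -, -⟩ := h2 κ n l f hf
      have hnn : ∀ i, 0 ≤ yb (f i) z := fun i => H.Ybnn _ (hz (f i)) _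
      have e1 : XP p N l f (fun i => pk (l (f i)) z) =
          ∏ k ∈ Finset.univ.filter (fun k => k ∉ Set.range f), X k z := by
        unfold XP
        rw [hzf z]
      have e2 : ∏ i, ENNReal.ofReal (Real.exp (-((N (pk (l (f i)) z)) ^ p / p)) *
          Yb (pk (l (f i)) z).re (pk (l (f i)) z).im) =
          ENNReal.ofReal ((∏ i, X (f i) z) * ∏ i, yb (f i) z) := by
        rw [← Finset.prod_mul_distrib, ENNReal.ofReal_prod_of_nonneg
          (fun i _ => mul_nonneg (hXpos _ _).le (hnn i))]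
        rfl
      simp only [hg, if_neg hf]
      rw [e1, e2, ← ENNReal.ofReal_mul (mul_nonneg (Finset.prod_nonneg fun i _ => (hXpos _ _).le)
        (Finset.prod_nonneg fun i _ => hnn i)), ← ENNReal.ofReal_mul (sq_nonneg _)]
      congr 1
      have e3 := prod_split (inj_of_dt hf) (fun k => X k z)
      rw [← e3]
      ring
  -- the sum
  have hsum : ∑ f : Fin n → κ, ∫⁻ z : E2 n, g f z ≤
      ENNReal.ofReal (n.factorial : ℝ) * ∫⁻ z : E2 n, ENNReal.ofReal
        ((∏ k, Real.exp (-(|l k ⬝ᵥ z.1| ^ p / p + |Y (l k ⬝ᵥ z.1) (l k ⬝ᵥ z.2)| ^ q / q))) *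
          Matrix.det (∑ k, Yb (l k ⬝ᵥ z.1) (l k ⬝ᵥ z.2) • Matrix.vecMulVec (l k) (l k))) := by
    rw [← lintegral_finsetSum _ (fun f _ => hgm f),
      ← lintegral_const_mul' _ _ ENNReal.ofReal_ne_top]
    refine lintegral_mono_ae ?_
    filter_upwards [haez] with z hz
    have hnn : ∀ k, 0 ≤ yb k z := fun k => H.Ybnn _ (hz k) _
    have e1 : ∑ f : Fin n → κ, g f z = ENNReal.ofReal (DS l (fun k => yb k z) * ∏ k, X k z) := by
      rw [Finset.sum_congr rfl fun f _ => hpt z hz f, ← ENNReal.ofReal_sum_of_nonneg]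
      · unfold DS
        rw [Finset.sum_mul]
      · intro f _
        exact mul_nonneg (mul_nonneg (Finset.prod_nonneg fun i _ => hnn _) (sq_nonneg _))
          (Finset.prod_nonneg fun k _ => (hXpos _ _).le)
    have e2 : (n.factorial : ℝ) * Matrix.det (∑ k, yb k z • Matrix.vecMulVec (l k) (l k)) =
        DS l (fun k => yb k z) := h3 κ n l (fun k => yb k z)
    have hDS : 0 ≤ DS l (fun k => yb k z) := by
      unfold DS
      exact Finset.sum_nonneg fun f _ => mul_nonneg (Finset.prod_nonneg fun i _ => hnn _)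
        (sq_nonneg _)
    rw [e1, ← ENNReal.ofReal_mul (by positivity)]
    refine ENNReal.ofReal_le_ofReal ?_
    have e3 : (n.factorial : ℝ) *
        ((∏ k, Real.exp (-(|l k ⬝ᵥ z.1| ^ p / p + |Y (l k ⬝ᵥ z.1) (l k ⬝ᵥ z.2)| ^ q / q))) *
          Matrix.det (∑ k, Yb (l k ⬝ᵥ z.1) (l k ⬝ᵥ z.2) • Matrix.vecMulVec (l k) (l k))) =
        DS l (fun k => yb k z) *
          ∏ k, Real.exp (-(|l k ⬝ᵥ z.1| ^ p / p + |Y (l k ⬝ᵥ z.1) (l k ⬝ᵥ z.2)| ^ q / q)) := by
      rw [← e2]
      ring
    rw [e3]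
    refine mul_le_mul_of_nonneg_left ?_ hDS
    refine Finset.prod_le_prod (fun k _ => (hXpos _ _).le) fun k _ => ?_
    refine Real.exp_le_exp.2 (neg_le_neg ?_)
    exact H.bound _ (hz k) _
  -- integrate over x
  have hint : ∫⁻ z : E2 n, ENNReal.ofReal
        ((∏ k, Real.exp (-(|l k ⬝ᵥ z.1| ^ p / p + |Y (l k ⬝ᵥ z.1) (l k ⬝ᵥ z.2)| ^ q / q))) *
          Matrix.det (∑ k, Yb (l k ⬝ᵥ z.1) (l k ⬝ᵥ z.2) • Matrix.vecMulVec (l k) (l k))) ≤
      (∫⁻ x : Fin n → ℝ, ENNReal.ofReal (Real.exp (-((∑ k, |l k ⬝ᵥ x| ^ p) / p)))) *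
        ∫⁻ y : Fin n → ℝ, ENNReal.ofReal (Real.exp (-((dn p l y) ^ q / q))) := by
    rw [Measure.volume_eq_prod]
    refine (lintegral_prod_le _).trans ?_
    rw [← lintegral_mul_const]
    · refine lintegral_mono_ae ?_
      filter_upwards [haex] with x hx
      exact h1 κ n p q S h N F Y Yb hp hq H l hl x hx
    · refine ENNReal.measurable_ofReal.comp (Real.measurable_exp.comp (Measurable.neg
        (Measurable.div_const ?_ _)))
      refine Finset.measurable_sum _ fun k _ => ?_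
      have hc : Continuous fun x : Fin n → ℝ => |l k ⬝ᵥ x| := by
        unfold dotProduct
        fun_prop
      exact hc.measurable.pow_const p
  have hfac : (0 : ℝ) < n.factorial := by exact_mod_cast n.factorial_pos
  have hsplit : ENNReal.ofReal (S ^ n / n.factorial) =
      ENNReal.ofReal ((n.factorial : ℝ)⁻¹) * ENNReal.ofReal (S ^ n) := by
    rw [← ENNReal.ofReal_mul (by positivity)]
    congr 1
    ring
  rw [hsplit, mul_assoc, Finset.mul_sum, Finset.sum_congr rfl fun f _ => hterm f]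
  calc ENNReal.ofReal ((n.factorial : ℝ)⁻¹) * ∑ f : Fin n → κ, ∫⁻ z : E2 n, g f z
      ≤ ENNReal.ofReal ((n.factorial : ℝ)⁻¹) * (ENNReal.ofReal (n.factorial : ℝ) *
        ((∫⁻ x : Fin n → ℝ, ENNReal.ofReal (Real.exp (-((∑ k, |l k ⬝ᵥ x| ^ p) / p)))) *
        ∫⁻ y : Fin n → ℝ, ENNReal.ofReal (Real.exp (-((dn p l y) ^ q / q))))) :=
        mul_le_mul_right (hsum.trans (mul_le_mul_right hint _)) _
    _ = _ := by
        rw [← mul_assoc, ← ENNReal.ofReal_mul (by positivity), inv_mul_cancel₀ hfac.ne',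
          ENNReal.ofReal_one, one_mul]

end H845LP
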