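import Pool.Agent.H845R4.LP.Stm

set_option autoImplicit false

noncomputable section

open MeasureTheory Filter Topology
open scoped BigOperators Matrix ENNReal

namespace H845LP

open H712MA

namespace R1aux

variable {κ : Type} [Fintype κ] {n : ℕ}

/-- the linear functional `u ↦ v ⬝ᵥ u` -/
def lf (v : Fin n → ℝ) : (Fin n → ℝ) →L[ℝ] ℝ :=
  LinearMap.toContinuousLinearMap (dotProductBilin ℝ ℝ v)

theorem lf_apply (v u : Fin n → ℝ) : lf v u = v ⬝ᵥ u := rfl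

/-- the map -/
def TT (Y : ℝ → ℝ → ℝ) (l : κ → Fin n → ℝ) (x u : Fin n → ℝ) : Fin n → ℝ :=
  ∑ k, Y (l k ⬝ᵥ x) (l k ⬝ᵥ u) • l k

/-- its matrix -/
def MM (Yb : ℝ → ℝ → ℝ) (l : κ → Fin n → ℝ) (x u : Fin n → ℝ) : Matrix (Fin n) (Fin n) ℝ :=
  ∑ k, Yb (l k ⬝ᵥ x) (l k ⬝ᵥ u) • Matrix.vecMulVec (l k) (l k)

/-- the derivative -/
def DD (Yb : ℝ → ℝ → ℝ) (l : κ → Fin n → ℝ) (x u : Fin n → ℝ) :
    (Fin n → ℝ) →L[ℝ] (Fin n → ℝ) :=
  LinearMap.toContinuousLinearMap (Matrix.toLin' (MM Yb l x u))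

theorem DD_det (Yb : ℝ → ℝ → ℝ) (l : κ → Fin n → ℝ) (x u : Fin n → ℝ) :
    (DD Yb l x u).det = (MM Yb l x u).det := by
  unfold DD
  rw [LinearMap.det_toContinuousLinearMap, LinearMap.det_toLin']

theorem MM_mulVec (Yb : ℝ → ℝ → ℝ) (l : κ → Fin n → ℝ) (x u v : Fin n → ℝ) :
    (MM Yb l x u) *ᵥ v = ∑ k, (Yb (l k ⬝ᵥ x) (l k ⬝ᵥ u) * (l k ⬝ᵥ v)) • l k := by
  unfold MM
  rw [Matrix.sum_mulVec]
  refine Finset.sum_congr rfl fun k _ => ?_
  rw [Matrix.smul_mulVec, Matrix.vecMulVec_mulVec, mul_smul]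
  congr 1
  ext i
  simp [mul_comm]

theorem TT_deriv {Y Yb : ℝ → ℝ → ℝ} (hder : ∀ a, a ≠ 0 → ∀ b, HasDerivAt (Y a) (Yb a b) b)
    (l : κ → Fin n → ℝ) {x : Fin n → ℝ} (hx : ∀ k, l k ⬝ᵥ x ≠ 0) (u : Fin n → ℝ) :
    HasFDerivAt (TT Y l x) (DD Yb l x u) u := by
  have h1 : ∀ k ∈ (Finset.univ : Finset κ),
      HasFDerivAt (fun v : Fin n → ℝ => Y (l k ⬝ᵥ x) (l k ⬝ᵥ v) • l k)
      (Yb (l k ⬝ᵥ x) (l k ⬝ᵥ u) • (lf (l k)).smulRight (l k)) u := by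
    intro k _
    have hlin : HasFDerivAt (fun v : Fin n → ℝ => l k ⬝ᵥ v) (lf (l k)) u := (lf (l k)).hasFDerivAt
    have hc := ((hder _ (hx k) (l k ⬝ᵥ u)).comp_hasFDerivAt u hlin).smul_const (l k)
    have hfin : Yb (l k ⬝ᵥ x) (l k ⬝ᵥ u) • (lf (l k)).smulRight (l k) =
        (Yb (l k ⬝ᵥ x) (l k ⬝ᵥ u) • lf (l k)).smulRight (l k) := by
      ext v i
      simp only [ContinuousLinearMap.smulRight_apply, smul_apply, Pi.smul_apply, smul_eq_mul]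
      ring
    rw [hfin]
    exact hc
  have h := HasFDerivAt.fun_sum h1
  have e : DD Yb l x u = ∑ k, Yb (l k ⬝ᵥ x) (l k ⬝ᵥ u) • (lf (l k)).smulRight (l k) := by
    ext v i
    have h2 : DD Yb l x u v = (MM Yb l x u) *ᵥ v := rfl
    rw [h2, MM_mulVec]
    simp only [Finset.sum_apply, Pi.smul_apply, smul_eq_mul, sum_apply, smul_apply,
      ContinuousLinearMap.smulRight_apply, lf_apply]
    exact Finset.sum_congr rfl fun k _ => by ring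
  rw [e]
  exact h

theorem TT_inj {Y Yb : ℝ → ℝ → ℝ} (hder : ∀ a, a ≠ 0 → ∀ b, HasDerivAt (Y a) (Yb a b) b)
    (hnn : ∀ a, a ≠ 0 → ∀ b, 0 ≤ Yb a b)
    (l : κ → Fin n → ℝ) {x : Fin n → ℝ} (hx : ∀ k, l k ⬝ᵥ x ≠ 0) :
    Set.InjOn (TT Y l x) {u | (MM Yb l x u).det ≠ 0} := by
  intro u hu u' _ h
  set d := u' - u with hd
  set g : ℝ → ℝ := fun t => ∑ k, Y (l k ⬝ᵥ x) (l k ⬝ᵥ u + t * (l k ⬝ᵥ d)) * (l k ⬝ᵥ d) with hg
  have hgd : ∀ t, HasDerivAt g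
      (∑ k, Yb (l k ⬝ᵥ x) (l k ⬝ᵥ u + t * (l k ⬝ᵥ d)) * (l k ⬝ᵥ d) * (l k ⬝ᵥ d)) t := by
    intro t
    refine HasDerivAt.fun_sum fun k _ => ?_
    have h1 : HasDerivAt (fun t : ℝ => l k ⬝ᵥ u + t * (l k ⬝ᵥ d)) (l k ⬝ᵥ d) t := by
      simpa using ((hasDerivAt_id t).mul_const (l k ⬝ᵥ d)).const_add (l k ⬝ᵥ u)
    exact ((hder _ (hx k) (l k ⬝ᵥ u + t * (l k ⬝ᵥ d))).comp t h1).mul_const _
  have hmono : Monotone g := by
    apply monotone_of_deriv_nonneg (fun t => (hgd t).differentiableAt)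
    intro t
    rw [(hgd t).deriv]
    refine Finset.sum_nonneg fun k _ => ?_
    rw [mul_assoc]
    exact mul_nonneg (hnn _ (hx k) _) (mul_self_nonneg _)
  have hg0 : g 0 = TT Y l x u ⬝ᵥ d := by
    simp only [hg, zero_mul, add_zero, TT, sum_dotProduct, smul_dotProduct, smul_eq_mul]
  have hg1 : g 1 = TT Y l x u' ⬝ᵥ d := by
    simp only [hg, one_mul, TT, sum_dotProduct, smul_dotProduct, smul_eq_mul]
    refine Finset.sum_congr rfl fun k _ => ?_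
    congr 2
    rw [hd, dotProduct_sub]
    ring
  have h01 : g 0 = g 1 := by rw [hg0, hg1, h]
  have hconst : ∀ t ∈ Set.Icc (0 : ℝ) 1, g t = g 0 := by
    intro t ht
    exact le_antisymm ((hmono ht.2).trans h01.ge) (hmono ht.1)
  have hder0 : (∑ k, Yb (l k ⬝ᵥ x) (l k ⬝ᵥ u + 0 * (l k ⬝ᵥ d)) * (l k ⬝ᵥ d) * (l k ⬝ᵥ d)) = 0 := by
    have h1 : HasDerivWithinAt g
        (∑ k, Yb (l k ⬝ᵥ x) (l k ⬝ᵥ u + 0 * (l k ⬝ᵥ d)) * (l k ⬝ᵥ d) * (l k ⬝ᵥ d))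
        (Set.Icc 0 1) 0 := (hgd 0).hasDerivWithinAt
    have h2 : HasDerivWithinAt g 0 (Set.Icc 0 1) 0 :=
      (hasDerivWithinAt_const (0 : ℝ) (Set.Icc (0 : ℝ) 1) (g 0)).congr (fun t ht => hconst t ht) rfl
    exact (uniqueDiffOn_Icc (zero_lt_one' ℝ) 0 ⟨le_rfl, zero_le_one⟩).eq_deriv _ h1 h2
  have hterm : ∀ k, Yb (l k ⬝ᵥ x) (l k ⬝ᵥ u) * (l k ⬝ᵥ d) = 0 := by
    intro k
    have h1 := (Finset.sum_eq_zero_iff_of_nonneg (fun k _ => by
      rw [mul_assoc]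
      exact mul_nonneg (hnn _ (hx k) _) (mul_self_nonneg _))).1 hder0 k (Finset.mem_univ k)
    rw [zero_mul, add_zero] at h1
    rcases mul_eq_zero.1 h1 with h2 | h2
    · exact h2
    · rw [h2, mul_zero]
  have hMd : (MM Yb l x u) *ᵥ d = 0 := by
    rw [MM_mulVec]
    exact Finset.sum_eq_zero fun k _ => by rw [hterm k, zero_smul]
  have := Matrix.eq_zero_of_mulVec_eq_zero hu hMd
  rw [hd] at this
  exact (sub_eq_zero.1 this).symm

theorem dn_pow_le {p q : ℝ} (hp : 1 < p) (hq : q = p / (p - 1)) (l : κ → Fin n → ℝ)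
    (c : κ → ℝ) : (dn p l (∑ k, c k • l k)) ^ q ≤ ∑ k, |c k| ^ q := by
  have hpq : p.HolderConjugate q := by
    rw [hq]
    exact Real.HolderConjugate.conjExponent hp
  have hq0 : 0 < q := hpq.symm.pos
  set B := (∑ k, |c k| ^ q) ^ (1 / q) with hB
  have hS0 : 0 ≤ ∑ k, |c k| ^ q := Finset.sum_nonneg fun k _ => Real.rpow_nonneg (abs_nonneg _) _
  have hup : ∀ t ∈ {t | ∃ x : Fin n → ℝ, (∑ k, |l k ⬝ᵥ x| ^ p ≤ 1) ∧
      t = x ⬝ᵥ ∑ k, c k • l k}, t ≤ B := by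
    rintro t ⟨x, hx, rfl⟩
    have h1 : x ⬝ᵥ ∑ k, c k • l k = ∑ k, (l k ⬝ᵥ x) * c k := by
      rw [dotProduct_sum]
      refine Finset.sum_congr rfl fun k _ => ?_
      rw [dotProduct_smul, smul_eq_mul, dotProduct_comm x (l k), mul_comm]
    rw [h1]
    refine (Real.inner_le_Lp_mul_Lq Finset.univ (fun k => l k ⬝ᵥ x) c hpq).trans ?_
    have h2 : (∑ k, |l k ⬝ᵥ x| ^ p) ^ (1 / p) ≤ 1 := by
      apply Real.rpow_le_one (Finset.sum_nonneg fun k _ => Real.rpow_nonneg (abs_nonneg _) _) hx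
      exact (one_div_pos.2 hpq.pos).le
    calc (∑ k, |l k ⬝ᵥ x| ^ p) ^ (1 / p) * (∑ k, |c k| ^ q) ^ (1 / q) ≤ 1 * B :=
          mul_le_mul_of_nonneg_right h2 (Real.rpow_nonneg hS0 _)
      _ = B := one_mul _
  have hne : ({t | ∃ x : Fin n → ℝ, (∑ k, |l k ⬝ᵥ x| ^ p ≤ 1) ∧
      t = x ⬝ᵥ ∑ k, c k • l k}).Nonempty := by
    refine ⟨0, 0, ?_, ?_⟩
    · simp [Real.zero_rpow hpq.pos.ne']
    · simp
  have h1 : dn p l (∑ k, c k • l k) ≤ B := csSup_le hne hup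
  have h0 : 0 ≤ dn p l (∑ k, c k • l k) := by
    refine le_csSup ⟨B, fun t ht => hup t ht⟩ ⟨0, ?_, ?_⟩
    · simp [Real.zero_rpow hpq.pos.ne']
    · simp
  calc (dn p l (∑ k, c k • l k)) ^ q ≤ B ^ q := Real.rpow_le_rpow h0 h1 hq0.le
    _ = ∑ k, |c k| ^ q := by
        rw [hB, ← Real.rpow_mul hS0, one_div_mul_cancel hq0.ne', Real.rpow_one]

end R1aux

open R1aux

/-- R1: fixed `x` -/
theorem R1 : S_R1 := by
  intro κ _ n p q S h N F Y Yb hp hq hRD l hl x hx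
  set s : Set (Fin n → ℝ) := {u | (MM Yb l x u).det ≠ 0} with hs
  have hmeas1 : ∀ k, Measurable fun u : Fin n → ℝ => Yb (l k ⬝ᵥ x) (l k ⬝ᵥ u) := by
    intro k
    have h1 : Measurable fun u : Fin n → ℝ => ((l k ⬝ᵥ x, l k ⬝ᵥ u) : ℝ × ℝ) :=
      measurable_const.prodMk (lf (l k)).continuous.measurable
    exact hRD.Ybmeas.comp h1
  have hdetm : Measurable fun u : Fin n → ℝ => (MM Yb l x u).det := by
    have h1 : ∀ i j, Measurable fun u : Fin n → ℝ => MM Yb l x u i j := by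
      intro i j
      have : (fun u : Fin n → ℝ => MM Yb l x u i j) =
          fun u => ∑ k, Yb (l k ⬝ᵥ x) (l k ⬝ᵥ u) * (l k i * l k j) := by
        funext u
        simp [MM, Matrix.sum_apply, Matrix.vecMulVec_apply]
      rw [this]
      exact Finset.measurable_fun_sum _ fun k _ => (hmeas1 k).mul_const _
    simp only [Matrix.det_apply]
    refine Finset.measurable_fun_sum _ fun σ _ => ?_
    exact (Finset.measurable_fun_prod _ fun i _ => h1 _ _).const_smul _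
  have hsm : MeasurableSet s := by
    have : s = (fun u : Fin n → ℝ => (MM Yb l x u).det) ⁻¹' {0}ᶜ := rfl
    rw [this]
    exact hdetm (measurableSet_singleton (0 : ℝ)).compl
  have hpt : ∀ u : Fin n → ℝ, ENNReal.ofReal ((∏ k, Real.exp (-(|l k ⬝ᵥ x| ^ p / p +
        |Y (l k ⬝ᵥ x) (l k ⬝ᵥ u)| ^ q / q))) *
        Matrix.det (∑ k, Yb (l k ⬝ᵥ x) (l k ⬝ᵥ u) • Matrix.vecMulVec (l k) (l k))) ≤
      s.indicator (fun u => ENNReal.ofReal (Real.exp (-((∑ k, |l k ⬝ᵥ x| ^ p) / p))) *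
        (ENNReal.ofReal |(DD Yb l x u).det| *
          ENNReal.ofReal (Real.exp (-((dn p l (TT Y l x u)) ^ q / q))))) u := by
    intro u
    have hq0 : 0 < q := by
      rw [hq]
      exact div_pos (by linarith) (by linarith)
    by_cases hu : u ∈ s
    · rw [Set.indicator_of_mem hu, DD_det, ← ENNReal.ofReal_mul (abs_nonneg _),
        ← ENNReal.ofReal_mul (Real.exp_pos _).le]
      apply ENNReal.ofReal_le_ofReal
      have h1 : (∏ k, Real.exp (-(|l k ⬝ᵥ x| ^ p / p + |Y (l k ⬝ᵥ x) (l k ⬝ᵥ u)| ^ q / q))) =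
          Real.exp (-((∑ k, |l k ⬝ᵥ x| ^ p) / p)) *
            Real.exp (-((∑ k, |Y (l k ⬝ᵥ x) (l k ⬝ᵥ u)| ^ q) / q)) := by
        rw [← Real.exp_sum, ← Real.exp_add]
        congr 1
        rw [Finset.sum_neg_distrib, Finset.sum_add_distrib, Finset.sum_div, Finset.sum_div]
        ring
      rw [h1, mul_assoc]
      refine mul_le_mul_of_nonneg_left ?_ (Real.exp_pos _).le
      rw [mul_comm]
      have h2 : (∑ k, Yb (l k ⬝ᵥ x) (l k ⬝ᵥ u) • Matrix.vecMulVec (l k) (l k)).det =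
          (MM Yb l x u).det := rfl
      rw [h2]
      have h3 : Real.exp (-((∑ k, |Y (l k ⬝ᵥ x) (l k ⬝ᵥ u)| ^ q) / q)) ≤
          Real.exp (-((dn p l (TT Y l x u)) ^ q / q)) := by
        apply Real.exp_le_exp.2
        have := dn_pow_le hp hq l (fun k => Y (l k ⬝ᵥ x) (l k ⬝ᵥ u))
        have h4 : (dn p l (TT Y l x u)) ^ q / q ≤ (∑ k, |Y (l k ⬝ᵥ x) (l k ⬝ᵥ u)| ^ q) / q :=
          div_le_div_of_nonneg_right this hq0.le
        linarith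
      exact mul_le_mul (le_abs_self _) h3 (Real.exp_pos _).le (abs_nonneg _)
    · rw [Set.indicator_of_notMem hu]
      have h2 : (∑ k, Yb (l k ⬝ᵥ x) (l k ⬝ᵥ u) • Matrix.vecMulVec (l k) (l k)).det = 0 := by
        by_contra h3
        exact hu h3
      rw [h2, mul_zero, ENNReal.ofReal_zero]
  calc _ ≤ ∫⁻ u : Fin n → ℝ, s.indicator (fun u =>
          ENNReal.ofReal (Real.exp (-((∑ k, |l k ⬝ᵥ x| ^ p) / p))) *
          (ENNReal.ofReal |(DD Yb l x u).det| *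
          ENNReal.ofReal (Real.exp (-((dn p l (TT Y l x u)) ^ q / q))))) u := lintegral_mono hpt
    _ = ∫⁻ u in s, ENNReal.ofReal (Real.exp (-((∑ k, |l k ⬝ᵥ x| ^ p) / p))) *
          (ENNReal.ofReal |(DD Yb l x u).det| *
          ENNReal.ofReal (Real.exp (-((dn p l (TT Y l x u)) ^ q / q)))) := lintegral_indicator hsm _
    _ = ENNReal.ofReal (Real.exp (-((∑ k, |l k ⬝ᵥ x| ^ p) / p))) *
          ∫⁻ u in s, ENNReal.ofReal |(DD Yb l x u).det| *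
          ENNReal.ofReal (Real.exp (-((dn p l (TT Y l x u)) ^ q / q))) :=
        lintegral_const_mul' _ _ ENNReal.ofReal_ne_top
    _ = ENNReal.ofReal (Real.exp (-((∑ k, |l k ⬝ᵥ x| ^ p) / p))) *
          ∫⁻ y in TT Y l x '' s, ENNReal.ofReal (Real.exp (-((dn p l y) ^ q / q))) := by
        rw [lintegral_image_eq_lintegral_abs_det_fderiv_mul volume hsm
          (fun u _ => (TT_deriv hRD.der l hx u).hasFDerivWithinAt) (TT_inj hRD.der hRD.Ybnn l hx)]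
    _ ≤ _ := mul_le_mul_right (setLIntegral_le_lintegral _ _) _

end H845LP
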