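import Pool.Agent.H712R2.MA.Stm

/-!
# Volume product of unit balls of subspaces of `L_p`, `1 < p < 2`

Statements (as `Prop`s) of the tasks. Task `X` proves `theorem X : S_X` (or `theorem X (hY : S_Y) : S_X`)
in `Pool/Agent/H845R4/LP/X.lean`, importing this file only (and landed modules it needs).
-/

set_option autoImplicit false

noncomputable section

open MeasureTheory Filter Topology
open scoped BigOperators Matrix ENNReal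

namespace H845LP

open H712MA

/-- density of the level `ρ` (so that `P(ρ > t) = exp (-t^p/p)`) -/
def wt (p ρ : ℝ) : ℝ := if 0 < ρ then ρ ^ (p - 1) * Real.exp (-(ρ ^ p / p)) else 0

/-- law of the level -/
def Wm (p : ℝ) : Measure ℝ := volume.withDensity fun ρ => ENNReal.ofReal (wt p ρ)

/-- uniform law of the angle on `(-π, π)` -/
def Am : Measure ℝ := ENNReal.ofReal (1 / (2 * Real.pi)) • volume.restrict (Set.Ioo (-Real.pi) Real.pi)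

/-- law of (level, angle) -/
def Pm (p : ℝ) : Measure (ℝ × ℝ) := (Wm p).prod Am

/-- law of (uniform on `(0,1)`, angle) -/
def Um : Measure (ℝ × ℝ) := (volume.restrict (Set.Ioo (0:ℝ) 1)).prod Am

/-- `e^{iθ}` -/
def cis (θ : ℝ) : ℂ := Complex.exp (θ * Complex.I)

/-- the point `ρ h(e^{iθ})` -/
def xi (h : ℂ → ℂ) (ω : ℝ × ℝ) : ℂ := (ω.1 : ℂ) * h (cis ω.2)

/-- the point `h(s^{1/2m} e^{iθ})` -/
def um (h : ℂ → ℂ) (m : ℕ) (ω : ℝ × ℝ) : ℂ := h (((ω.1 ^ (1 / (2 * (m:ℝ))) : ℝ) : ℂ) * cis ω.2)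

variable {κ : Type} [Fintype κ]

/-- inverse of `z ↦ (l_{f i}(z))_i` -/
def zf {n : ℕ} (l : κ → Fin n → ℝ) (f : Fin n → κ) (ξ : Fin n → ℂ) : E2 n :=
  ((Matrix.of fun i j => l (f i) j)⁻¹ *ᵥ (fun i => (ξ i).re),
   (Matrix.of fun i j => l (f i) j)⁻¹ *ᵥ (fun i => (ξ i).im))

open Classical in
/-- `∏_{k not in range f} exp(-N(l_k(z_f(ξ)))^p/p)` -/
def XP {n : ℕ} (p : ℝ) (N : ℂ → ℝ) (l : κ → Fin n → ℝ) (f : Fin n → κ) (ξ : Fin n → ℂ) : ℝ :=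
  ∏ k ∈ Finset.univ.filter (fun k => k ∉ Set.range f), Real.exp (-((N (pk (l k) (zf l f ξ))) ^ p / p))

/-- a lens together with its parametrisation `h` (continuous up to the circle) and its gauge `N`
(`ξ/ρ` is in the lens iff `N ξ < ρ`) -/
structure TD (L : Lens) (h : ℂ → ℂ) (N : ℂ → ℝ) : Prop where
  meas : Measurable h
  cont : ContinuousOn h (Metric.closedBall 0 1)
  diff : DifferentiableOn ℂ h (Metric.ball 0 1)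
  left : ∀ ζ : ℂ, ‖ζ‖ < 1 → h ζ ∈ L.W ∧ L.e (h ζ) = ζ
  right : ∀ z ∈ L.W, h (L.e z) = z
  Ncont : Continuous N
  Nnonneg : ∀ ξ, 0 ≤ N ξ
  gauge : ∀ (ξ : ℂ) (ρ : ℝ), 0 < ρ → (ξ / (ρ : ℂ) ∈ L.W ↔ N ξ < ρ)

/-- planar data for the real side: `Y a b` is nondecreasing in `b` with derivative `Yb`,
`|a|^p/p + |Y|^q/q ≤ N^p/p`, and `exp(-N^p/p) Yb da db` is the image of `S F(θ) dPm(ρ,θ)` under `ρ h(e^{iθ})` -/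
structure RD (p q S : ℝ) (h : ℂ → ℂ) (N : ℂ → ℝ) (F : ℝ → ℝ) (Y Yb : ℝ → ℝ → ℝ) : Prop where
  Fmeas : Measurable F
  Fnn : ∀ θ, 0 ≤ F θ
  Ymeas : Measurable (Function.uncurry Y)
  Ybmeas : Measurable (Function.uncurry Yb)
  der : ∀ a, a ≠ 0 → ∀ b, HasDerivAt (Y a) (Yb a b) b
  Ybnn : ∀ a, a ≠ 0 → ∀ b, 0 ≤ Yb a b
  bound : ∀ a, a ≠ 0 → ∀ b, |a| ^ p / p + |Y a b| ^ q / q ≤ (N ⟨a, b⟩) ^ p / p
  push : volume.withDensity (fun ξ : ℂ => ENNReal.ofReal (Real.exp (-((N ξ) ^ p / p)) * Yb ξ.re ξ.im)) =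
    ((Pm p).withDensity (fun ω => ENNReal.ofReal (S * F ω.2))).map (xi h)

/-- the dual norm of `(Σ |l_k(x)|^p)^(1/p)` -/
def dn {n : ℕ} (p : ℝ) (l : κ → Fin n → ℝ) (y : Fin n → ℝ) : ℝ :=
  sSup {t | ∃ x : Fin n → ℝ, (∑ k, |l k ⬝ᵥ x| ^ p ≤ 1) ∧ t = x ⬝ᵥ y}

/-- the one-dimensional constant -/
def Sp (p : ℝ) : ℝ := (∫ t : ℝ, Real.exp (-(|t| ^ p / p))) * ∫ t : ℝ, Real.exp (-(|t| ^ (p / (p - 1)) / (p / (p - 1))))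

/-! ### the complex side -/

/-- FE: change of variables `z ↦ (l_{f i}(z))_i` -/
def S_FE : Prop :=
  ∀ (κ : Type) [Fintype κ] (n : ℕ) (l : κ → Fin n → ℝ) (f : Fin n → κ), dt l f ≠ 0 →
    (∀ (ξ : Fin n → ℂ) (i : Fin n), pk (l (f i)) (zf l f ξ) = ξ i) ∧
    (∀ z : E2 n, zf l f (fun i => pk (l (f i)) z) = z) ∧
    Continuous (zf l f) ∧
    ∀ G : (Fin n → ℂ) → ℝ≥0∞, Measurable G →
      ∫⁻ z : E2 n, ENNReal.ofReal ((dt l f) ^ 2) * G (fun i => pk (l (f i)) z) = ∫⁻ ξ : Fin n → ℂ, G ξ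

/-- T1a: the measure `a dp` is `mπ` times the law of `h(s^{1/2m} e^{iθ})` -/
def S_T1a : Prop :=
  ∀ (L : Lens) (h : ℂ → ℂ) (N : ℂ → ℝ), TD L h N → ∀ m : ℕ, 1 ≤ m →
    volume.withDensity (fun z => ENNReal.ofReal (af L m z)) = ENNReal.ofReal (m * Real.pi) • Um.map (um h m)

open Classical in
/-- T1: fixed levels `ρ_k`, fixed `m` -/
def S_T1 : Prop :=
  ∀ (κ : Type) [Fintype κ] (r : ℕ) (L : Lens) (h : ℂ → ℂ) (N : ℂ → ℝ), TD L h N → ∀ m : ℕ, 1 ≤ m →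
    ∀ (l : κ → Fin (r + 1) → ℝ), Spans l → ∀ (ψ : ℝ → ℝ) (v1 : ℝ), Cut ψ v1 →
    ∀ ρ : κ → ℝ, (∀ k, 0 < ρ k) →
    ((r + 1).factorial : ℝ≥0∞) * (∫⁻ s in {s : Fin (r + 1) → ℝ | ∀ i, 0 < s i}, ENNReal.ofReal (ψ (∑ i, s i))) ≤
      ∑ f : Fin (r + 1) → κ, if dt l f = 0 then 0 else
        ∫⁻ ω : Fin (r + 1) → ℝ × ℝ, ENNReal.ofReal (ψ (∑ i, (ω i).1)) *
          (if ∀ k, k ∉ Set.range f →
              N (pk (l k) (zf l f (fun i => (ρ (f i) : ℂ) * um h m (ω i)))) < ρ k then 1 else 0)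
          ∂(Measure.pi fun _ => Um)

/-- T2: averaged over the levels -/
def S_T2 : Prop :=
  ∀ (κ : Type) [Fintype κ] (r : ℕ) (L : Lens) (h : ℂ → ℂ) (N : ℂ → ℝ), TD L h N → ∀ m : ℕ, 1 ≤ m →
    ∀ (l : κ → Fin (r + 1) → ℝ), Spans l → ∀ (ψ : ℝ → ℝ) (v1 : ℝ), Cut ψ v1 → ∀ p : ℝ, 1 < p →
    ((r + 1).factorial : ℝ≥0∞) * (∫⁻ s in {s : Fin (r + 1) → ℝ | ∀ i, 0 < s i}, ENNReal.ofReal (ψ (∑ i, s i))) ≤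
      ∑ f : Fin (r + 1) → κ, open Classical in if dt l f = 0 then 0 else
        ∫⁻ τ : Fin (r + 1) → ℝ, ∫⁻ ω : Fin (r + 1) → ℝ × ℝ, ENNReal.ofReal (ψ (∑ i, (ω i).1)) *
          ENNReal.ofReal (XP p N l f (fun i => (τ i : ℂ) * um h m (ω i)))
          ∂(Measure.pi fun _ => Um) ∂(Measure.pi fun _ => Wm p)

/-- T: the boundary mass inequality -/
def S_T : Prop :=
  ∀ (κ : Type) [Fintype κ] (r : ℕ) (L : Lens) (h : ℂ → ℂ) (N : ℂ → ℝ), TD L h N →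
    ∀ (l : κ → Fin (r + 1) → ℝ), Spans l → ∀ p : ℝ, 1 < p →
    ((r + 1).factorial : ℝ≥0∞) ≤
      ∑ f : Fin (r + 1) → κ, open Classical in if dt l f = 0 then 0 else
        ∫⁻ ω : Fin (r + 1) → ℝ × ℝ, ENNReal.ofReal (XP p N l f (fun i => xi h (ω i)))
          ∂(Measure.pi fun _ => Pm p)

/-! ### the real side -/

/-- R1: fixed `x` -/
def S_R1 : Prop :=
  ∀ (κ : Type) [Fintype κ] (n : ℕ) (p q S : ℝ) (h : ℂ → ℂ) (N : ℂ → ℝ) (F : ℝ → ℝ) (Y Yb : ℝ → ℝ → ℝ),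
    1 < p → q = p / (p - 1) → RD p q S h N F Y Yb → ∀ l : κ → Fin n → ℝ, Spans l →
    ∀ x : Fin n → ℝ, (∀ k, l k ⬝ᵥ x ≠ 0) →
    ∫⁻ u : Fin n → ℝ, ENNReal.ofReal ((∏ k, Real.exp (-(|l k ⬝ᵥ x| ^ p / p + |Y (l k ⬝ᵥ x) (l k ⬝ᵥ u)| ^ q / q))) *
        Matrix.det (∑ k, Yb (l k ⬝ᵥ x) (l k ⬝ᵥ u) • Matrix.vecMulVec (l k) (l k))) ≤
      ENNReal.ofReal (Real.exp (-((∑ k, |l k ⬝ᵥ x| ^ p) / p))) *
        ∫⁻ y : Fin n → ℝ, ENNReal.ofReal (Real.exp (-((dn p l y) ^ q / q)))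

/-- R: the real side -/
def S_R : Prop :=
  ∀ (κ : Type) [Fintype κ] (n : ℕ) (p q S : ℝ) (h : ℂ → ℂ) (N : ℂ → ℝ) (F : ℝ → ℝ) (Y Yb : ℝ → ℝ → ℝ),
    1 < p → q = p / (p - 1) → 0 < S → Measurable h → Measurable N → RD p q S h N F Y Yb →
    ∀ l : κ → Fin n → ℝ, Spans l → (∀ k, l k ≠ 0) →
    ENNReal.ofReal (S ^ n / n.factorial) *
      (∑ f : Fin n → κ, open Classical in if dt l f = 0 then 0 else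
        ∫⁻ ω : Fin n → ℝ × ℝ, ENNReal.ofReal ((∏ i, F (ω i).2) * XP p N l f (fun i => xi h (ω i)))
          ∂(Measure.pi fun _ => Pm p)) ≤
      (∫⁻ x : Fin n → ℝ, ENNReal.ofReal (Real.exp (-((∑ k, |l k ⬝ᵥ x| ^ p) / p)))) *
        ∫⁻ y : Fin n → ℝ, ENNReal.ofReal (Real.exp (-((dn p l y) ^ q / q)))

/-! ### planar part -/

/-- triangle wave integral: `x(θ) = ∫ k(s) tri(θ - s) ds` is encoded by the maps below -/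
def HK (k : ℝ → ℝ) (ζ : ℂ) : ℂ := ∫ s in (-(Real.pi / 2))..(Real.pi / 2), (k s : ℂ) * hh (ζ * cis (-s))

/-- `ζ HK'(ζ)` -/
def TK (k : ℝ → ℝ) (ζ : ℂ) : ℂ := ∫ s in (-(Real.pi / 2))..(Real.pi / 2), (k s : ℂ) * gg (ζ * cis (-s))

/-- derivative of `HK` -/
def HKd (k : ℝ → ℝ) (ζ : ℂ) : ℂ := ∫ s in (-(Real.pi / 2))..(Real.pi / 2), (k s : ℂ) * (hd (ζ * cis (-s)) * cis (-s))

/-- admissible kernels -/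
structure Ker (k : ℝ → ℝ) : Prop where
  cont : Continuous k
  even : ∀ s, k (-s) = k s
  nonneg : ∀ s, 0 ≤ k s
  pos : ∀ s, 0 < |s| → |s| < Real.pi / 2 → 0 < k s

/-- PB: properties of `HK`, `TK` -/
def S_PB : Prop :=
  ∀ k : ℝ → ℝ, Ker k →
    (∀ ζ : ℂ, ‖ζ‖ < 1 → HasDerivAt (HK k) (HKd k ζ) ζ) ∧
    (∀ ζ : ℂ, ‖ζ‖ < 1 → ζ * HKd k ζ = TK k ζ) ∧
    (∀ ζ : ℂ, ‖ζ‖ < 1 → HKd k ζ ≠ 0) ∧
    HK k 0 = 0 ∧ (∃ c : ℝ, 0 < c ∧ HKd k 0 = (c : ℂ)) ∧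
    (∀ ζ : ℂ, HK k (starRingEnd ℂ ζ) = starRingEnd ℂ (HK k ζ)) ∧
    (∀ ζ : ℂ, TK k (starRingEnd ℂ ζ) = starRingEnd ℂ (TK k ζ)) ∧
    (∀ ζ : ℂ, HK k (-ζ) = - HK k ζ) ∧ (∀ ζ : ℂ, TK k (-ζ) = - TK k ζ) ∧
    (∀ ζ : ℂ, ‖ζ‖ < 1 → 0 < ζ.im → 0 < (TK k ζ).im) ∧
    (∀ ζ : ℂ, ‖ζ‖ < 1 → 0 < ζ.re → 0 < (TK k ζ).re) ∧
    (∀ ζ : ℂ, ‖ζ‖ < 1 → 0 < ζ.im → 0 < (HK k ζ).im) ∧
    (∀ ζ : ℂ, ‖ζ‖ < 1 → 0 < ζ.re → 0 < (HK k ζ).re) ∧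
    Set.InjOn (HK k) (Metric.ball 0 1) ∧
    (∃ C : ℝ, ∀ ζ : ℂ, ‖ζ‖ < 1 → ‖HK k ζ‖ ≤ C * ‖ζ‖)

/-- the parametrisation `ζ ↦ HK k (rζ)` of the closed disc -/
def hr (k : ℝ → ℝ) (r : ℝ) (ζ : ℂ) : ℂ := open Classical in if ‖ζ‖ ≤ 1 then HK k ((r : ℂ) * ζ) else 0

/-- PC: the lens `HK (r·disc)` and its gauge -/
def S_PC : Prop :=
  ∀ k : ℝ → ℝ, Ker k → ∀ r : ℝ, 0 < r → r < 1 →
    ∃ (L : Lens) (N : ℂ → ℝ), TD L (hr k r) N ∧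
      (∀ (ρ θ : ℝ), 0 ≤ ρ → N ((ρ : ℂ) * HK k ((r : ℂ) * cis θ)) = ρ) ∧
      (∀ ξ : ℂ, ξ ≠ 0 → 0 < N ξ ∧ ∃ θ ∈ Set.Ioc (-Real.pi) Real.pi, ξ = (N ξ : ℂ) * HK k ((r : ℂ) * cis θ))

/-- the triangle wave `1 - 2|θ|/π` continued: `x(θ) = ∫ k(s) tri(θ-s) ds` on `[0,π]` for `|s| ≤ π/2`:
we use its derivative `x'(θ) = -(2/π) ∫ k(s) sgn(sin(θ-s)) ds` and its value at `0` -/
def xk (k : ℝ → ℝ) (θ : ℝ) : ℝ := ∫ s in (-(Real.pi / 2))..(Real.pi / 2), k s * (2 / Real.pi * Real.arcsin (Real.cos (θ - s)))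

/-- the derivative of `-xk` -/
def vk (k : ℝ → ℝ) (θ : ℝ) : ℝ := ∫ s in (-(Real.pi / 2))..(Real.pi / 2), k s * (2 / Real.pi * (SignType.sign (Real.sin (θ - s)) : ℝ))

/-- PF: boundary values -/
def S_PF : Prop :=
  ∀ k : ℝ → ℝ, Ker k →
    (∀ θ : ℝ, Tendsto (fun r : ℝ => (HK k ((r : ℂ) * cis θ)).re) (𝓝[<] 1) (𝓝 (xk k θ))) ∧
    (∀ θ : ℝ, Tendsto (fun r : ℝ => (TK k ((r : ℂ) * cis θ)).im) (𝓝[<] 1) (𝓝 (vk k θ))) ∧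
    (∀ (r θ : ℝ), 0 ≤ r → r < 1 → |(HK k ((r : ℂ) * cis θ)).re| ≤ (HK k (r : ℂ)).re) ∧
    (∀ r : ℝ, 0 ≤ r → r < 1 → (HK k (r : ℂ)).re < xk k 0)

/-- PA: the `p`-cosine: there is a kernel for which `x(0) = 1` and `|x'| = A (1-|x|^p)^{1/p}` -/
def S_PA : Prop :=
  ∀ p : ℝ, 1 < p → p < 2 → ∃ k : ℝ → ℝ, Ker k ∧ xk k 0 = 1 ∧
    ∀ θ : ℝ, 0 < θ → θ < Real.pi → |xk k θ| < 1 ∧
      vk k θ = 2 / Real.pi * (∫ t in (0:ℝ)..1, (1 - t ^ p) ^ (-(1 / p))) * (1 - |xk k θ| ^ p) ^ (1 / p)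

/-- PG: the constant -/
def S_PG : Prop :=
  ∀ p : ℝ, 1 < p → p < 2 →
    Sp p = 4 * (p - 1) ^ (1 / p) * ∫ t in (0:ℝ)..1, (1 - t ^ p) ^ (-(1 / p))

/-- the ratio function -/
def FR (p : ℝ) (k : ℝ → ℝ) (r θ : ℝ) : ℝ :=
  2 * Real.pi / Sp p * |(TK k ((r : ℂ) * cis θ)).im| /
    ((1 / (p - 1)) * (1 - |(HK k ((r : ℂ) * cis θ)).re| ^ p)) ^ (1 / p)

/-- PD: the planar real side: `Y`, its derivative and the push-forward -/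
def S_PD : Prop :=
  ∀ (p : ℝ) (k : ℝ → ℝ), 1 < p → p < 2 → Ker k → xk k 0 = 1 → ∀ r : ℝ, 0 < r → r < 1 →
    ∀ (L : Lens) (N : ℂ → ℝ), TD L (hr k r) N →
      (∀ (ρ θ : ℝ), 0 ≤ ρ → N ((ρ : ℂ) * HK k ((r : ℂ) * cis θ)) = ρ) →
      (∀ ξ : ℂ, ξ ≠ 0 → 0 < N ξ ∧ ∃ θ ∈ Set.Ioc (-Real.pi) Real.pi, ξ = (N ξ : ℂ) * HK k ((r : ℂ) * cis θ)) →
    ∃ Y Yb : ℝ → ℝ → ℝ, RD p (p / (p - 1)) (Sp p) (hr k r) N (FR p k r) Y Yb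

/-- PL: planar assembly -/
def S_PL : Prop :=
  ∀ p : ℝ, 1 < p → p < 2 → ∀ ε : ℝ, 0 < ε →
    ∃ (L : Lens) (h : ℂ → ℂ) (N : ℂ → ℝ) (F : ℝ → ℝ) (Y Yb : ℝ → ℝ → ℝ),
      TD L h N ∧ RD p (p / (p - 1)) (Sp p) h N F Y Yb ∧
      ∫⁻ θ, ENNReal.ofReal (1 - min 1 (F θ)) ∂Am ≤ ENNReal.ofReal ε

/-! ### assembly -/

/-- M: finite families -/
def S_M : Prop :=
  ∀ (κ : Type) [Fintype κ] (r : ℕ) (p : ℝ), 1 < p → p < 2 → ∀ l : κ → Fin (r + 1) → ℝ, Spans l →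
    ENNReal.ofReal ((Sp p) ^ (r + 1)) ≤
      (∫⁻ x : Fin (r + 1) → ℝ, ENNReal.ofReal (Real.exp (-((∑ k, |l k ⬝ᵥ x| ^ p) / p)))) *
        ∫⁻ y : Fin (r + 1) → ℝ, ENNReal.ofReal (Real.exp (-((dn p l y) ^ (p / (p - 1)) / (p / (p - 1)))))

/-- V: finite families, volumes -/
def S_V : Prop :=
  ∀ (κ : Type) [Fintype κ] (n : ℕ) (p : ℝ), 1 < p → p < 2 → ∀ l : κ → Fin n → ℝ, Spans l →
    volume {x : Fin n → ℝ | ∑ i, |x i| ^ p ≤ 1} *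
      volume {y : Fin n → ℝ | ∀ x : Fin n → ℝ, ∑ i, |x i| ^ p ≤ 1 → ∑ i, x i * y i ≤ 1} ≤
    volume {x : Fin n → ℝ | ∑ k, |l k ⬝ᵥ x| ^ p ≤ 1} *
      volume {y : Fin n → ℝ | ∀ x : Fin n → ℝ, ∑ k, |l k ⬝ᵥ x| ^ p ≤ 1 → ∑ i, x i * y i ≤ 1}

/-- Z: the frozen statement S09223 -/
def S_Z : Prop :=
  ∀ (n : ℕ) (p : ℝ), 1 < p → p < 2 →
  ∀ f : Fin n → MeasureTheory.Lp ℝ (ENNReal.ofReal p)
      ((MeasureTheory.volume : MeasureTheory.Measure ℝ).restrict (Set.Icc (0:ℝ) 1)),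
  LinearIndependent ℝ f →
  MeasureTheory.volume {x : Fin n → ℝ | ∑ i, |x i| ^ p ≤ 1} *
    MeasureTheory.volume {y : Fin n → ℝ | ∀ x : Fin n → ℝ,
      ∑ i, |x i| ^ p ≤ 1 → ∑ i, x i * y i ≤ 1}
  ≤ MeasureTheory.volume {x : Fin n → ℝ | ‖∑ i, x i • f i‖ ≤ 1} *
    MeasureTheory.volume {y : Fin n → ℝ | ∀ x : Fin n → ℝ,
      ‖∑ i, x i • f i‖ ≤ 1 → ∑ i, x i * y i ≤ 1}

end H845LP
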