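import Pool.Agent.H845R4.LP.Stm

set_option autoImplicit false

noncomputable section

open MeasureTheory Filter Topology
open scoped BigOperators Matrix ENNReal

namespace H845LP

open H712MA

namespace Taux

theorem isProb_Wm {p : ℝ} (hp : 1 < p) : IsProbabilityMeasure (Wm p) := by
  have hp0 : 0 < p := by linarith
  have hint := integrableOn_rpow_mul_exp_neg_mul_rpow (p := p) (s := p - 1) (b := 1 / p)
    (by linarith) hp0 (by positivity)
  have hval := integral_rpow_mul_exp_neg_mul_rpow (p := p) (q := p - 1) (b := 1 / p) hp0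
    (by linarith) (by positivity)
  have h1 : ∫ x in Set.Ioi (0 : ℝ), x ^ (p - 1) * Real.exp (-(1 / p) * x ^ p) = 1 := by
    rw [hval, sub_add_cancel, div_self hp0.ne', Real.Gamma_one, mul_one, neg_div,
      div_self hp0.ne', Real.rpow_neg_one]
    field_simp
  constructor
  unfold Wm
  rw [withDensity_apply _ MeasurableSet.univ, Measure.restrict_univ]
  have h2 : (fun ρ : ℝ => ENNReal.ofReal (wt p ρ)) =
      (Set.Ioi (0 : ℝ)).indicator
        (fun ρ => ENNReal.ofReal (ρ ^ (p - 1) * Real.exp (-(1 / p) * ρ ^ p))) := by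
    funext ρ
    unfold wt
    by_cases h : 0 < ρ
    · rw [if_pos h, Set.indicator_of_mem (Set.mem_Ioi.2 h)]
      congr 3
      ring
    · rw [if_neg h, Set.indicator_of_notMem (fun h' => h (Set.mem_Ioi.1 h')), ENNReal.ofReal_zero]
  rw [h2, lintegral_indicator measurableSet_Ioi, ← ofReal_integral_eq_lintegral_ofReal hint, h1,
    ENNReal.ofReal_one]
  refine (ae_restrict_mem measurableSet_Ioi).mono fun x hx => ?_
  have hx : (0 : ℝ) < x := hx
  positivity

theorem isProb_Am : IsProbabilityMeasure Am := by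
  constructor
  unfold Am
  rw [Measure.smul_apply, Measure.restrict_apply_univ, Real.volume_Ioo, smul_eq_mul,
    ← ENNReal.ofReal_mul (by positivity)]
  have : 1 / (2 * Real.pi) * (Real.pi - -Real.pi) = 1 := by
    field_simp
    ring
  rw [this, ENNReal.ofReal_one]

theorem isProb_unif : IsProbabilityMeasure (volume.restrict (Set.Ioo (0 : ℝ) 1)) := by
  constructor
  rw [Measure.restrict_apply_univ, Real.volume_Ioo]
  simp

theorem norm_cis (θ : ℝ) : ‖cis θ‖ = 1 := by
  unfold cis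
  exact Complex.norm_exp_ofReal_mul_I θ

theorem measurable_cis : Measurable cis := by
  unfold cis
  fun_prop

theorem measurable_um {h : ℂ → ℂ} (hh : Measurable h) (m : ℕ) : Measurable (um h m) := by
  unfold um
  refine hh.comp ?_
  refine Measurable.mul ?_ (measurable_cis.comp measurable_snd)
  exact Complex.measurable_ofReal.comp (measurable_fst.pow_const _)

theorem measurable_xi {h : ℂ → ℂ} (hh : Measurable h) : Measurable (xi h) := by
  unfold xi
  exact (Complex.measurable_ofReal.comp measurable_fst).mul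
    (hh.comp (measurable_cis.comp measurable_snd))

theorem tendsto_um {h : ℂ → ℂ} (hh : ContinuousOn h (Metric.closedBall 0 1)) {ω : ℝ × ℝ}
    (h0 : 0 < ω.1) (h1 : ω.1 < 1) :
    Tendsto (fun m : ℕ => um h m ω) atTop (𝓝 (h (cis ω.2))) := by
  have hmem : cis ω.2 ∈ Metric.closedBall (0 : ℂ) 1 := by
    rw [mem_closedBall_zero_iff, norm_cis]
  have h2 := hh (cis ω.2) hmem
  have h3 : Tendsto (fun m : ℕ => (((ω.1 ^ (1 / (2 * (m : ℝ))) : ℝ) : ℂ) * cis ω.2)) atTop
      (𝓝 (cis ω.2)) := by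
    have h4 : Tendsto (fun m : ℕ => 1 / (2 * (m : ℝ))) atTop (𝓝 0) := by
      have := tendsto_one_div_atTop_nhds_zero_nat (𝕜 := ℝ)
      have h5 := this.const_mul (1 / 2 : ℝ)
      rw [mul_zero] at h5
      refine h5.congr fun m => ?_
      rw [one_div_mul_one_div]
    have h5 : Tendsto (fun m : ℕ => ω.1 ^ (1 / (2 * (m : ℝ)))) atTop (𝓝 (ω.1 ^ (0 : ℝ))) :=
      (Real.continuousAt_const_rpow h0.ne').tendsto.comp h4
    rw [Real.rpow_zero] at h5
    have h6 : Tendsto (fun m : ℕ => ((ω.1 ^ (1 / (2 * (m : ℝ))) : ℝ) : ℂ)) atTop (𝓝 ((1 : ℝ) : ℂ)) :=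
      (Complex.continuous_ofReal.tendsto _).comp h5
    have h7 := h6.mul_const (cis ω.2)
    rw [Complex.ofReal_one, one_mul] at h7
    exact h7
  have h4 : Tendsto (fun m : ℕ => (((ω.1 ^ (1 / (2 * (m : ℝ))) : ℝ) : ℂ) * cis ω.2)) atTop
      (𝓝[Metric.closedBall 0 1] (cis ω.2)) := by
    rw [tendsto_nhdsWithin_iff]
    refine ⟨h3, Eventually.of_forall fun m => ?_⟩
    rw [mem_closedBall_zero_iff, norm_mul, norm_cis, mul_one, Complex.norm_real,
      Real.norm_eq_abs, abs_of_nonneg (Real.rpow_nonneg h0.le _)]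
    exact Real.rpow_le_one h0.le h1.le (by positivity)
  exact h2.tendsto.comp h4

theorem continuous_XP (hFE : S_FE) {κ : Type} [Fintype κ] {n : ℕ} {p : ℝ} (hp : 1 < p)
    {N : ℂ → ℝ} (hN : Continuous N) (l : κ → Fin n → ℝ) (f : Fin n → κ)
    (hf : dt l f ≠ 0) : Continuous (XP p N l f) := by
  obtain ⟨-, -, hz, -⟩ := hFE κ n l f hf
  unfold XP
  refine continuous_finsetProd _ fun k _ => ?_
  refine Real.continuous_exp.comp (Continuous.neg (Continuous.div_const ?_ _))
  refine Continuous.rpow_const ?_ fun _ => Or.inr (by linarith)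
  refine hN.comp ?_
  have h1 : (fun ξ : Fin n → ℂ => pk (l k) (zf l f ξ)) = fun ξ =>
      ((l k ⬝ᵥ (zf l f ξ).1 : ℝ) : ℂ) + ((l k ⬝ᵥ (zf l f ξ).2 : ℝ) : ℂ) * Complex.I := by
    funext ξ
    apply Complex.ext <;> simp [pk]
  rw [h1]
  have h2 : Continuous fun u : Fin n → ℝ => l k ⬝ᵥ u := by
    unfold dotProduct
    fun_prop
  exact (Complex.continuous_ofReal.comp (h2.comp (continuous_fst.comp hz))).add
    ((Complex.continuous_ofReal.comp (h2.comp (continuous_snd.comp hz))).mul continuous_const)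

theorem XP_le {κ : Type} [Fintype κ] {n : ℕ} {p : ℝ} (hp : 1 < p)
    {N : ℂ → ℝ} (hN : ∀ ξ, 0 ≤ N ξ) (l : κ → Fin n → ℝ) (f : Fin n → κ) (ξ : Fin n → ℂ) :
    XP p N l f ξ ≤ 1 := by
  unfold XP
  refine Finset.prod_le_one (fun k _ => (Real.exp_pos _).le) fun k _ => Real.exp_le_one_iff.2 ?_
  have := Real.rpow_nonneg (hN (pk (l k) (zf l f ξ))) p
  have hp0 : 0 < p := by linarith
  have : 0 ≤ N (pk (l k) (zf l f ξ)) ^ p / p := by positivity
  linarith

theorem split {n : ℕ} {p : ℝ} (hp : 1 < p) (A : (Fin n → ℝ) → ℝ≥0∞) (hA : Measurable A)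
    (B : (Fin n → ℝ) → (Fin n → ℝ) → ℝ≥0∞) (hB : Measurable (Function.uncurry B)) :
    ∫⁻ τ : Fin n → ℝ, ∫⁻ ω : Fin n → ℝ × ℝ, A (fun i => (ω i).1) * B τ (fun i => (ω i).2)
      ∂(Measure.pi fun _ => Um) ∂(Measure.pi fun _ => Wm p) =
    (∫⁻ s, A s ∂(Measure.pi fun _ : Fin n => volume.restrict (Set.Ioo (0 : ℝ) 1))) *
      ∫⁻ ω : Fin n → ℝ × ℝ, B (fun i => (ω i).1) (fun i => (ω i).2) ∂(Measure.pi fun _ => Pm p) := by
  have hWm := isProb_Wm hp
  have hAm := isProb_Am
  have hun := isProb_unif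
  have h1 : ∀ τ : Fin n → ℝ, ∫⁻ ω : Fin n → ℝ × ℝ, A (fun i => (ω i).1) * B τ (fun i => (ω i).2)
      ∂(Measure.pi fun _ => Um) =
      (∫⁻ s, A s ∂(Measure.pi fun _ : Fin n => volume.restrict (Set.Ioo (0 : ℝ) 1))) *
        ∫⁻ θ, B τ θ ∂(Measure.pi fun _ => Am) := by
    intro τ
    have hBτ : Measurable (B τ) := hB.comp measurable_prodMk_left
    have e1 := (measurePreserving_arrowProdEquivProdArrow ℝ ℝ (Fin n)
      (fun _ => volume.restrict (Set.Ioo (0 : ℝ) 1)) (fun _ => Am)).lintegral_comp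
      (f := fun z : (Fin n → ℝ) × (Fin n → ℝ) => A z.1 * B τ z.2)
      ((hA.comp measurable_fst).mul (hBτ.comp measurable_snd))
    rw [lintegral_prod_mul hA.aemeasurable hBτ.aemeasurable] at e1
    exact e1
  have hBm : Measurable fun τ : Fin n → ℝ => ∫⁻ θ, B τ θ ∂(Measure.pi fun _ => Am) :=
    hB.lintegral_prod_right'
  rw [lintegral_congr h1, lintegral_const_mul _ hBm]
  congr 1
  have e2 := (measurePreserving_arrowProdEquivProdArrow ℝ ℝ (Fin n)
      (fun _ => Wm p) (fun _ => Am)).lintegral_comp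
      (f := fun z : (Fin n → ℝ) × (Fin n → ℝ) => B z.1 z.2) hB
  rw [lintegral_lintegral hB.aemeasurable]
  exact e2.symm

theorem limit (hFE : S_FE) {κ : Type} [Fintype κ] {n : ℕ} {p : ℝ} (hp : 1 < p)
    {L : Lens} {h : ℂ → ℂ} {N : ℂ → ℝ} (hTD : TD L h N) (l : κ → Fin n → ℝ) (f : Fin n → κ)
    (hf : dt l f ≠ 0) {ψ : ℝ → ℝ} {v1 : ℝ} (hψ : Cut ψ v1) (hψ1 : ∀ v, ψ v ≤ 1) :
    Tendsto (fun m : ℕ => ∫⁻ τ : Fin n → ℝ, ∫⁻ ω : Fin n → ℝ × ℝ,
        ENNReal.ofReal (ψ (∑ i, (ω i).1)) *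
          ENNReal.ofReal (XP p N l f (fun i => (τ i : ℂ) * um h m (ω i)))
          ∂(Measure.pi fun _ => Um) ∂(Measure.pi fun _ => Wm p)) atTop
      (𝓝 (∫⁻ τ : Fin n → ℝ, ∫⁻ ω : Fin n → ℝ × ℝ,
        ENNReal.ofReal (ψ (∑ i, (ω i).1)) *
          ENNReal.ofReal (XP p N l f (fun i => (τ i : ℂ) * h (cis (ω i).2)))
          ∂(Measure.pi fun _ => Um) ∂(Measure.pi fun _ => Wm p))) := by
  have hWm := isProb_Wm hp
  have hAm := isProb_Am
  have hun := isProb_unif
  have hUm : IsProbabilityMeasure Um := by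
    unfold Um
    infer_instance
  have hXPc := continuous_XP hFE hp hTD.Ncont l f hf
  have hψm : Measurable fun ω : Fin n → ℝ × ℝ => ENNReal.ofReal (ψ (∑ i, (ω i).1)) := by
    refine (hψ.smooth.continuous.measurable.comp ?_).ennreal_ofReal
    exact Finset.measurable_fun_sum _ fun i _ => measurable_fst.comp (measurable_pi_apply i)
  have hG : ∀ g : ℝ × ℝ → ℂ, Measurable g → Measurable fun z : (Fin n → ℝ) × (Fin n → ℝ × ℝ) =>
      ENNReal.ofReal (ψ (∑ i, (z.2 i).1)) *
        ENNReal.ofReal (XP p N l f (fun i => (z.1 i : ℂ) * g (z.2 i))) := by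
    intro g hg
    refine (hψm.comp measurable_snd).mul (hXPc.measurable.comp ?_).ennreal_ofReal
    refine measurable_pi_lambda _ fun i => ?_
    exact (Complex.measurable_ofReal.comp ((measurable_pi_apply i).comp measurable_fst)).mul
      (hg.comp ((measurable_pi_apply i).comp measurable_snd))
  have hgm : ∀ m : ℕ, Measurable (um h m) := measurable_um hTD.meas
  have hg0 : Measurable fun ω : ℝ × ℝ => h (cis ω.2) :=
    hTD.meas.comp (measurable_cis.comp measurable_snd)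
  have e1 : ∀ m : ℕ, ∫⁻ τ : Fin n → ℝ, ∫⁻ ω : Fin n → ℝ × ℝ,
        ENNReal.ofReal (ψ (∑ i, (ω i).1)) *
          ENNReal.ofReal (XP p N l f (fun i => (τ i : ℂ) * um h m (ω i)))
          ∂(Measure.pi fun _ => Um) ∂(Measure.pi fun _ => Wm p) =
      ∫⁻ z : (Fin n → ℝ) × (Fin n → ℝ × ℝ), ENNReal.ofReal (ψ (∑ i, (z.2 i).1)) *
        ENNReal.ofReal (XP p N l f (fun i => (z.1 i : ℂ) * um h m (z.2 i)))
        ∂((Measure.pi fun _ => Wm p).prod (Measure.pi fun _ => Um)) := fun m =>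
    lintegral_lintegral (hG _ (hgm m)).aemeasurable
  have e2 : ∫⁻ τ : Fin n → ℝ, ∫⁻ ω : Fin n → ℝ × ℝ,
        ENNReal.ofReal (ψ (∑ i, (ω i).1)) *
          ENNReal.ofReal (XP p N l f (fun i => (τ i : ℂ) * h (cis (ω i).2)))
          ∂(Measure.pi fun _ => Um) ∂(Measure.pi fun _ => Wm p) =
      ∫⁻ z : (Fin n → ℝ) × (Fin n → ℝ × ℝ), ENNReal.ofReal (ψ (∑ i, (z.2 i).1)) *
        ENNReal.ofReal (XP p N l f (fun i => (z.1 i : ℂ) * h (cis (z.2 i).2)))
        ∂((Measure.pi fun _ => Wm p).prod (Measure.pi fun _ => Um)) :=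
    lintegral_lintegral (hG _ hg0).aemeasurable
  rw [e2]
  simp only [e1]
  refine tendsto_lintegral_of_dominated_convergence (fun _ => 1) (fun m => hG _ (hgm m)) ?_ ?_ ?_
  · intro m
    refine Eventually.of_forall fun z => ?_
    refine mul_le_one' ?_ ?_
    · exact ENNReal.ofReal_le_one.2 (hψ1 _)
    · exact ENNReal.ofReal_le_one.2 (XP_le hp hTD.Nnonneg l f _)
  · simp
  · have h1 : ∀ᵐ ω : Fin n → ℝ × ℝ ∂(Measure.pi fun _ => Um), ∀ i, 0 < (ω i).1 ∧ (ω i).1 < 1 := by
      rw [ae_all_iff]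
      intro i
      have h2 : ∀ᵐ x : ℝ × ℝ ∂Um, 0 < x.1 ∧ x.1 < 1 := by
        have h3 : ∀ᵐ x : ℝ ∂(volume.restrict (Set.Ioo (0 : ℝ) 1)), 0 < x ∧ x < 1 :=
          ae_restrict_mem measurableSet_Ioo
        exact (measurePreserving_fst (μ := volume.restrict (Set.Ioo (0 : ℝ) 1))
          (ν := Am)).quasiMeasurePreserving.ae h3
      exact (measurePreserving_eval (fun _ : Fin n => Um) i).quasiMeasurePreserving.ae h2
    have h2 : ∀ᵐ z : (Fin n → ℝ) × (Fin n → ℝ × ℝ)
        ∂((Measure.pi fun _ => Wm p).prod (Measure.pi fun _ => Um)),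
        ∀ i, 0 < (z.2 i).1 ∧ (z.2 i).1 < 1 :=
      (measurePreserving_snd (μ := Measure.pi fun _ : Fin n => Wm p)
        (ν := Measure.pi fun _ : Fin n => Um)).quasiMeasurePreserving.ae h1
    filter_upwards [h2] with z hz
    refine ENNReal.Tendsto.const_mul ?_ (Or.inr ENNReal.ofReal_ne_top)
    refine (ENNReal.continuous_ofReal.tendsto _).comp ((hXPc.tendsto _).comp ?_)
    rw [tendsto_pi_nhds]
    intro i
    exact (tendsto_um hTD.cont (hz i).1 (hz i).2).const_mul _

theorem int_box {n : ℕ} {ψ : ℝ → ℝ} {v1 : ℝ} (hψ : Cut ψ v1) :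
    ∫⁻ s in {s : Fin n → ℝ | ∀ i, 0 < s i}, ENNReal.ofReal (ψ (∑ i, s i)) =
    ∫⁻ s, ENNReal.ofReal (ψ (∑ i, s i))
      ∂(Measure.pi fun _ : Fin n => volume.restrict (Set.Ioo (0 : ℝ) 1)) := by
  have hm : MeasurableSet {s : Fin n → ℝ | ∀ i, 0 < s i} := by
    have : {s : Fin n → ℝ | ∀ i, 0 < s i} = ⋂ i, {s | 0 < s i} := by
      ext s
      simp
    rw [this]
    exact MeasurableSet.iInter fun i => measurableSet_lt measurable_const (measurable_pi_apply i)
  have hb : MeasurableSet (Set.univ.pi fun _ : Fin n => Set.Ioo (0 : ℝ) 1) :=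
    MeasurableSet.univ_pi fun _ => measurableSet_Ioo
  rw [← Measure.restrict_pi_pi, ← volume_pi, ← lintegral_indicator hm, ← lintegral_indicator hb]
  congr 1
  funext s
  by_cases h1 : s ∈ Set.univ.pi fun _ : Fin n => Set.Ioo (0 : ℝ) 1
  · rw [Set.indicator_of_mem h1, Set.indicator_of_mem]
    intro i
    exact (h1 i (Set.mem_univ i)).1
  · rw [Set.indicator_of_notMem h1]
    by_cases h2 : s ∈ {s : Fin n → ℝ | ∀ i, 0 < s i}
    · rw [Set.indicator_of_mem h2]
      have h3 : ∃ i, 1 ≤ s i := by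
        by_contra h4
        push Not at h4
        exact h1 fun i _ => ⟨h2 i, h4 i⟩
      obtain ⟨i, hi⟩ := h3
      have h4 : s i ≤ ∑ j, s j := Finset.single_le_sum (fun j _ => (h2 j).le) (Finset.mem_univ i)
      rw [hψ.zero _ (by linarith [hψ.lt1]), ENNReal.ofReal_zero]
    · rw [Set.indicator_of_notMem h2]

end Taux

open Taux

/-- T: the boundary mass inequality -/
theorem T (hT2 : S_T2) (hFE : S_FE) (hS : S_S) : S_T := by
  classical
  intro κ _ r L h N hTD l hl p hp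
  have hWm := isProb_Wm hp
  have hAm := isProb_Am
  have hun := isProb_unif
  have hUm : IsProbabilityMeasure Um := by
    unfold Um
    infer_instance
  have hPm : IsProbabilityMeasure (Pm p) := by
    unfold Pm
    infer_instance
  obtain ⟨ψ, v1, hψ, hψ1, hψI⟩ := hS (1 / 2) (by norm_num) (by norm_num)
  have hI := hψI (r + 1)
  set I := ∫⁻ s in {s : Fin (r + 1) → ℝ | ∀ i, 0 < s i}, ENNReal.ofReal (ψ (∑ i, s i)) with hIdef
  have hIreal : ∫ s in {s : Fin (r + 1) → ℝ | ∀ i, 0 < s i}, ψ (∑ i, s i) = I.toReal := by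
    rw [hIdef]
    apply integral_eq_lintegral_of_nonneg_ae
    · exact Eventually.of_forall fun s => hψ.nonneg _
    · refine Continuous.aestronglyMeasurable ?_
      exact hψ.smooth.continuous.comp (continuous_finsetSum _ fun i _ => continuous_apply i)
  rw [hIreal] at hI
  have hpos : 0 < I.toReal := lt_of_lt_of_le (by positivity) hI
  obtain ⟨hI0, hItop⟩ := ENNReal.toReal_pos_iff.1 hpos
  have hlim : Tendsto (fun m : ℕ => ∑ f : Fin (r + 1) → κ, if dt l f = 0 then (0 : ℝ≥0∞) else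
        ∫⁻ τ : Fin (r + 1) → ℝ, ∫⁻ ω : Fin (r + 1) → ℝ × ℝ, ENNReal.ofReal (ψ (∑ i, (ω i).1)) *
          ENNReal.ofReal (XP p N l f (fun i => (τ i : ℂ) * um h m (ω i)))
          ∂(Measure.pi fun _ => Um) ∂(Measure.pi fun _ => Wm p)) atTop
      (𝓝 (∑ f : Fin (r + 1) → κ, I * if dt l f = 0 then (0 : ℝ≥0∞) else
        ∫⁻ ω : Fin (r + 1) → ℝ × ℝ, ENNReal.ofReal (XP p N l f (fun i => xi h (ω i)))
          ∂(Measure.pi fun _ => Pm p))) := by
    refine tendsto_finsetSum _ fun f _ => ?_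
    by_cases hf : dt l f = 0
    · simp only [if_pos hf, mul_zero]
      exact tendsto_const_nhds
    · simp only [if_neg hf]
      have h1 := limit hFE hp hTD l f hf hψ hψ1
      have h2 := split hp (fun s : Fin (r + 1) → ℝ => ENNReal.ofReal (ψ (∑ i, s i)))
        ((hψ.smooth.continuous.comp (continuous_finsetSum _ fun i _ =>
          continuous_apply i)).measurable.ennreal_ofReal)
        (fun τ θ => ENNReal.ofReal (XP p N l f (fun i => (τ i : ℂ) * h (cis (θ i))))) (by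
          refine ((continuous_XP hFE hp hTD.Ncont l f hf).measurable.comp ?_).ennreal_ofReal
          refine measurable_pi_lambda _ fun i => ?_
          exact (Complex.measurable_ofReal.comp ((measurable_pi_apply i).comp measurable_fst)).mul
            (hTD.meas.comp (measurable_cis.comp ((measurable_pi_apply i).comp measurable_snd))))
      rw [← int_box hψ] at h2
      rw [h2] at h1
      exact h1
  have hge : ((r + 1).factorial : ℝ≥0∞) * I ≤ ∑ f : Fin (r + 1) → κ, I *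
      if dt l f = 0 then (0 : ℝ≥0∞) else
        ∫⁻ ω : Fin (r + 1) → ℝ × ℝ, ENNReal.ofReal (XP p N l f (fun i => xi h (ω i)))
          ∂(Measure.pi fun _ => Pm p) := by
    refine ge_of_tendsto hlim ?_
    filter_upwards [eventually_ge_atTop 1] with m hm
    exact hT2 κ r L h N hTD m hm l hl ψ v1 hψ p hp
  rw [← Finset.mul_sum, mul_comm] at hge
  exact (ENNReal.mul_le_mul_iff_right hI0.ne' hItop.ne).1 hge

end H845LP
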