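import Pool.Agent.H845R4.LP.Stm
import Pool.Agent.H712R2.MA.P
import Pool.Agent.H712R2.MA.F

/-!
Task T1: complex side, fixed levels (helper847).
-/

set_option autoImplicit false

noncomputable section

open MeasureTheory Filter Topology
open scoped BigOperators Matrix ENNReal

namespace H845LP

open H712MA

namespace T1aux

lemma gd_meas (L : Lens) (m : ℕ) : Measurable (gd L m) := by
  classical
  have h1 : ContinuousOn (gd L m) L.W := (H712MA.TaskP.gd_contDiffOn L m).continuousOn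
  have h2 := h1.measurable_piecewise (g := fun _ => (0 : ℂ)) continuousOn_const
    L.isOpen.measurableSet
  have h3 : L.W.piecewise (gd L m) (fun _ => 0) = gd L m := by
    funext p
    by_cases hp : p ∈ L.W
    · rw [Set.piecewise_eq_of_mem _ _ _ hp]
    · rw [Set.piecewise_eq_of_notMem _ _ _ hp]
      unfold gd
      rw [if_neg hp]
  rwa [h3] at h2

lemma af_meas (L : Lens) (m : ℕ) : Measurable (af L m) := (gd_meas L m).norm.pow_const 2

lemma pi_wd {n : ℕ} (a : ℂ → ℝ≥0∞) (ha : Measurable a) (ν : Measure ℂ) [SigmaFinite ν]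
    (hν : volume.withDensity a = ν) :
    (volume : Measure (Fin n → ℂ)).withDensity (fun ζ => ∏ i, a (ζ i)) =
      Measure.pi (fun _ => ν) := by
  symm
  refine Measure.pi_eq fun s hs => ?_
  rw [withDensity_apply _ (MeasurableSet.univ_pi hs)]
  have e : ∀ ζ : Fin n → ℂ, (Set.univ.pi s).indicator (fun ζ : Fin n → ℂ => ∏ i, a (ζ i)) ζ =
      ∏ i, (s i).indicator a (ζ i) := by
    intro ζ
    by_cases h : ζ ∈ Set.univ.pi s
    · rw [Set.indicator_of_mem h]
      refine Finset.prod_congr rfl fun i _ => ?_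
      rw [Set.indicator_of_mem (h i (Set.mem_univ i))]
    · rw [Set.indicator_of_notMem h]
      rw [Set.mem_univ_pi] at h
      push Not at h
      obtain ⟨i, hi⟩ := h
      symm
      exact Finset.prod_eq_zero (Finset.mem_univ i) (Set.indicator_of_notMem hi _)
  rw [← lintegral_indicator (MeasurableSet.univ_pi hs), lintegral_congr e,
    H712MA.FF.lintegral_prod_fin n (fun i => (s i).indicator a) fun i => ha.indicator (hs i)]
  refine Finset.prod_congr rfl fun i _ => ?_
  rw [lintegral_indicator (hs i), ← withDensity_apply _ (hs i), hν]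

lemma pi_smul' {n : ℕ} (c : ℝ≥0∞) (hc : c ≠ ∞) (μ : Measure ℂ) [IsFiniteMeasure μ] :
    Measure.pi (fun _ : Fin n => c • μ) = c ^ n • Measure.pi (fun _ : Fin n => μ) := by
  have : IsFiniteMeasure (c • μ) := Measure.smul_finite μ hc
  refine Measure.pi_eq fun s _ => ?_
  rw [Measure.smul_apply, Measure.pi_pi, smul_eq_mul]
  simp only [Measure.smul_apply, smul_eq_mul]
  rw [Finset.prod_mul_distrib, Finset.prod_const, Finset.card_univ, Fintype.card_fin]

instance fin_Am : IsFiniteMeasure Am := by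
  unfold Am
  exact Measure.smul_finite _ ENNReal.ofReal_ne_top

instance fin_Um : IsFiniteMeasure Um := by
  unfold Um
  infer_instance

lemma um_meas (h : ℂ → ℂ) (hh : Measurable h) (m : ℕ) : Measurable (um h m) := by
  unfold um cis
  refine hh.comp ?_
  have h1 : Measurable fun ω : ℝ × ℝ => ω.1 ^ (1 / (2 * (m : ℝ))) := measurable_fst.pow_const _
  have h2 : Measurable fun ω : ℝ × ℝ => Complex.exp (ω.2 * Complex.I) :=
    Complex.measurable_exp.comp ((Complex.measurable_ofReal.comp measurable_snd).mul_const _)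
  exact (Complex.measurable_ofReal.comp h1).mul h2

/-- integration against `∏ a(ζ_i) dζ` -/
lemma key1 (hT1a : S_T1a) (L : Lens) (h : ℂ → ℂ) (N : ℂ → ℝ) (hTD : TD L h N) (m : ℕ)
    (hm : 1 ≤ m) (n : ℕ) (G : (Fin n → ℂ) → ℝ≥0∞) (hG : Measurable G) :
    ∫⁻ ζ : Fin n → ℂ, (∏ i, ENNReal.ofReal (af L m (ζ i))) * G ζ =
      ENNReal.ofReal (m * Real.pi) ^ n *
        ∫⁻ ω : Fin n → ℝ × ℝ, G (fun i => um h m (ω i)) ∂(Measure.pi fun _ => Um) := by
  have hum := um_meas h hTD.meas m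
  have hfm : IsFiniteMeasure (Um.map (um h m)) := Measure.isFiniteMeasure_map _ _
  have hfc : IsFiniteMeasure (ENNReal.ofReal (m * Real.pi) • Um.map (um h m)) :=
    Measure.smul_finite _ ENNReal.ofReal_ne_top
  have ha : Measurable fun z => ENNReal.ofReal (af L m z) :=
    ENNReal.measurable_ofReal.comp (af_meas L m)
  have h1 := pi_wd (n := n) (fun z => ENNReal.ofReal (af L m z)) ha _ (hT1a L h N hTD m hm)
  have hpm : Measurable fun ζ : Fin n → ℂ => ∏ i, ENNReal.ofReal (af L m (ζ i)) :=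
    Finset.measurable_fun_prod _ fun i _ => ha.comp (measurable_pi_apply i)
  have h2 := lintegral_withDensity_eq_lintegral_mul (volume : Measure (Fin n → ℂ)) hpm hG
  rw [h1, pi_smul' _ ENNReal.ofReal_ne_top, lintegral_smul_measure, smul_eq_mul] at h2
  have h3 : Measure.pi (fun _ : Fin n => Um.map (um h m)) =
      (Measure.pi (fun _ : Fin n => Um)).map (fun ω i => um h m (ω i)) :=
    (Measure.pi_map_pi (fun _ => hum.aemeasurable)).symm
  have h4 : Measurable fun (ω : Fin n → ℝ × ℝ) (i : Fin n) => um h m (ω i) :=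
    measurable_pi_lambda _ fun i => hum.comp (measurable_pi_apply i)
  rw [h3, lintegral_map hG h4] at h2
  exact h2.symm

lemma psi_int (ψ : ℝ → ℝ) (v1 : ℝ) (hcut : Cut ψ v1) (n : ℕ) :
    IntegrableOn (fun s : Fin n → ℝ => ψ (∑ i, s i)) {s | ∀ i, 0 < s i} := by
  have hc : Continuous fun s : Fin n → ℝ => ψ (∑ i, s i) :=
    hcut.smooth.continuous.comp (continuous_finsetSum _ fun i _ => continuous_apply i)
  have hB : IntegrableOn (fun s : Fin n → ℝ => ψ (∑ i, s i))
      (Set.Icc (0 : Fin n → ℝ) (fun _ => v1)) :=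
    hc.continuousOn.integrableOn_compact isCompact_Icc
  have hopen : IsOpen {s : Fin n → ℝ | ∀ i, 0 < s i} := by
    rw [Set.ofPred_forall]
    exact isOpen_iInter_of_finite fun i => isOpen_lt continuous_const (continuous_apply i)
  refine hB.of_forall_sdiff_eq_zero hopen.measurableSet fun s hs => ?_
  have hs1 : ∀ i, 0 < s i := hs.1
  have hs2 : ¬ ∀ i, s i ≤ v1 := by
    intro h
    exact hs.2 ⟨fun i => (hs1 i).le, fun i => h i⟩
  push Not at hs2
  obtain ⟨i, hi⟩ := hs2
  refine hcut.zero _ (hi.le.trans ?_)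
  exact Finset.single_le_sum (f := s) (fun j _ => (hs1 j).le) (Finset.mem_univ i)

lemma ae_Um : ∀ᵐ p ∂Um, p.1 ∈ Set.Ioo (0 : ℝ) 1 := by
  unfold Um
  exact Measure.quasiMeasurePreserving_fst.ae (ae_restrict_mem measurableSet_Ioo)

lemma ae_pi (n : ℕ) : ∀ᵐ ω ∂(Measure.pi fun _ : Fin n => Um), ∀ i, (ω i).1 ∈ Set.Ioo (0 : ℝ) 1 := by
  rw [ae_all_iff]
  intro i
  exact (Measure.quasiMeasurePreserving_eval (fun _ : Fin n => Um) i).ae ae_Um

lemma inj_of_dt {κ : Type} {n : ℕ} (l : κ → Fin n → ℝ) (f : Fin n → κ) (h : dt l f ≠ 0) :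
    Function.Injective f := by
  intro i j hij
  by_contra hne
  apply h
  unfold dt
  refine Matrix.det_zero_of_row_eq hne ?_
  funext k
  simp only [Matrix.of_apply, hij]

lemma norm_um (L : Lens) (h : ℂ → ℂ) (N : ℂ → ℝ) (hTD : TD L h N) (m : ℕ) (hm : 1 ≤ m)
    (ω : ℝ × ℝ) (hω : ω.1 ∈ Set.Ioo (0 : ℝ) 1) : ‖gf L m (um h m ω)‖ ^ 2 = ω.1 := by
  have hm0 : (0 : ℝ) < m := by exact_mod_cast hm
  have hx : ‖(((ω.1 ^ (1 / (2 * (m : ℝ))) : ℝ) : ℂ) * cis ω.2)‖ = ω.1 ^ (1 / (2 * (m : ℝ))) := by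
    rw [norm_mul, cis, Complex.norm_exp_ofReal_mul_I, mul_one, Complex.norm_real,
      Real.norm_eq_abs, abs_of_nonneg (Real.rpow_nonneg hω.1.le _)]
  have hlt : ω.1 ^ (1 / (2 * (m : ℝ))) < 1 :=
    Real.rpow_lt_one hω.1.le hω.2 (by positivity)
  have he := (hTD.left (((ω.1 ^ (1 / (2 * (m : ℝ))) : ℝ) : ℂ) * cis ω.2) (by rw [hx]; exact hlt)).2
  unfold gf um
  rw [he, norm_pow, hx, ← pow_mul, ← Real.rpow_natCast, ← Real.rpow_mul hω.1.le]
  have : 1 / (2 * (m : ℝ)) * ((m * 2 : ℕ) : ℝ) = 1 := by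
    push_cast
    field_simp
  rw [this, Real.rpow_one]

/-- the pointwise bound -/
lemma pt_bound {κ : Type} [Fintype κ] {n : ℕ} (L : Lens) (h : ℂ → ℂ) (N : ℂ → ℝ) (hTD : TD L h N)
    (m : ℕ) (hm : 1 ≤ m) (l l' : κ → Fin n → ℝ) (ψ : ℝ → ℝ) (v1 : ℝ) (hcut : Cut ψ v1)
    (ρ : κ → ℝ) (hρ : ∀ k, 0 < ρ k) (hpk : ∀ k z, pk (l' k) z = pk (l k) z / (ρ k : ℂ))
    (f : Fin n → κ) (hf : Function.Injective f) (ω : Fin n → ℝ × ℝ)
    (hω : ∀ i, (ω i).1 ∈ Set.Ioo (0 : ℝ) 1) (z : E2 n)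
    (hz : ∀ i, pk (l' (f i)) z = um h m (ω i)) :
    ψ (VV L m l' z) ≤ ψ (∑ i, (ω i).1) ∧
      ((∃ k, k ∉ Set.range f ∧ ¬ N (pk (l k) z) < ρ k) → ψ (VV L m l' z) = 0) := by
  classical
  constructor
  · refine hcut.anti ?_
    have h1 : ∑ i, (ω i).1 = ∑ i, ‖gf L m (pk (l' (f i)) z)‖ ^ 2 :=
      Finset.sum_congr rfl fun i _ => by rw [hz i, norm_um L h N hTD m hm _ (hω i)]
    have h2 : ∑ i, ‖gf L m (pk (l' (f i)) z)‖ ^ 2 =
        ∑ k ∈ Finset.univ.image f, ‖gf L m (pk (l' k) z)‖ ^ 2 := by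
      rw [Finset.sum_image fun i _ j _ hij => hf hij]
    rw [h1, h2]
    exact Finset.sum_le_sum_of_subset_of_nonneg (Finset.subset_univ _)
      fun k _ _ => by positivity
  · rintro ⟨k, _, hk⟩
    refine hcut.zero _ ?_
    have hk' : pk (l' k) z ∉ L.W := by
      rw [hpk k z, hTD.gauge _ _ (hρ k)]
      exact hk
    have h1 := H712MA.TaskP.term_le L m l' z k
    rw [L.off _ hk'] at h1
    have h2 : (1 : ℝ) ≤ VV L m l' z := by simpa using h1
    exact hcut.lt1.le.trans h2

end T1aux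

open T1aux in
theorem T1 (hFE : S_FE) (hT1a : S_T1a) (hC6 : H712MA.S_C6) : S_T1 := by
  classical
  intro κ _ r L h N hTD m hm l hl ψ v1 hcut ρ hρ
  have hm0 : (0 : ℝ) < m := by exact_mod_cast hm
  have hpi := Real.pi_pos
  set l' : κ → Fin (r + 1) → ℝ := fun k i => (ρ k)⁻¹ * l k i with hl'
  have hdt : ∀ f : Fin (r + 1) → κ, dt l' f = (∏ i, (ρ (f i))⁻¹) * dt l f := by
    intro f
    unfold dt
    exact Matrix.det_mul_column (fun i => (ρ (f i))⁻¹) (Matrix.of fun i j => l (f i) j)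
  have hdt0 : ∀ f, dt l' f = 0 ↔ dt l f = 0 := by
    intro f
    rw [hdt, mul_eq_zero]
    refine or_iff_right ?_
    exact Finset.prod_ne_zero_iff.mpr fun i _ => (inv_pos.mpr (hρ _)).ne'
  have hpk : ∀ k z, pk (l' k) z = pk (l k) z / (ρ k : ℂ) := by
    intro k z
    have e : ∀ x : Fin (r + 1) → ℝ, l' k ⬝ᵥ x = (ρ k)⁻¹ * (l k ⬝ᵥ x) := by
      intro x
      simp only [dotProduct, hl', Finset.mul_sum]
      exact Finset.sum_congr rfl fun i _ => by ring
    have e2 : pk (l k) z / (ρ k : ℂ) = (((ρ k)⁻¹ : ℝ) : ℂ) * pk (l k) z := by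
      push_cast
      ring
    rw [e2]
    apply Complex.ext
    · rw [Complex.re_ofReal_mul]
      exact e z.1
    · rw [Complex.im_ofReal_mul]
      exact e z.2
  have hspan : Spans l' := by
    obtain ⟨f, hf⟩ := hl
    exact ⟨f, fun h0 => hf ((hdt0 f).mp h0)⟩
  have h6 := hC6 κ r L m hm l' hspan ψ v1 hcut
  set c : ℝ≥0∞ := ENNReal.ofReal (m * Real.pi) with hc
  have hc0 : c ≠ 0 := by
    rw [hc]
    exact (ENNReal.ofReal_pos.mpr (by positivity)).ne'
  have hct : c ≠ ∞ := ENNReal.ofReal_ne_top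
  -- the left side
  have hleft : c ^ (r + 1) * (((r + 1).factorial : ℝ≥0∞) *
      (∫⁻ s in {s : Fin (r + 1) → ℝ | ∀ i, 0 < s i}, ENNReal.ofReal (ψ (∑ i, s i)))) =
      ENNReal.ofReal (((r + 1).factorial : ℝ) * (m * Real.pi) ^ (r + 1) *
        ∫ s in {s : Fin (r + 1) → ℝ | ∀ i, 0 < s i}, ψ (∑ i, s i)) := by
    rw [← ofReal_integral_eq_lintegral_ofReal (psi_int ψ v1 hcut (r + 1))
      (ae_of_all _ fun s => hcut.nonneg _)]
    rw [hc, ← ENNReal.ofReal_pow (by positivity), ← ENNReal.ofReal_natCast,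
      ← ENNReal.ofReal_mul (by positivity), ← ENNReal.ofReal_mul (by positivity)]
    congr 1
    ring
  -- the right side
  have hafm : Measurable fun p => ENNReal.ofReal (af L m p) :=
    ENNReal.measurable_ofReal.comp (af_meas L m)
  have hpkm : ∀ k, Measurable fun z : E2 (r + 1) => pk (l' k) z :=
    fun k => (H712MA.TaskP.pk_cont (l' k)).measurable
  have hψm : Measurable fun z : E2 (r + 1) => ENNReal.ofReal (ψ (VV L m l' z)) :=
    ENNReal.measurable_ofReal.comp
      ((hcut.smooth.continuous.comp (H712MA.TaskP.VV_cont L m l')).measurable)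
  have hright : ENNReal.ofReal (∫ z : E2 (r + 1), ψ (VV L m l' z) *
      DS l' (fun k => af L m (pk (l' k) z))) ≤
      ∑ f : Fin (r + 1) → κ, ∫⁻ z : E2 (r + 1), ENNReal.ofReal ((dt l' f) ^ 2) *
        ((∏ i, ENNReal.ofReal (af L m (pk (l' (f i)) z))) *
          ENNReal.ofReal (ψ (VV L m l' z))) := by
    have hterm : ∀ f : Fin (r + 1) → κ, Measurable fun z : E2 (r + 1) =>
        ENNReal.ofReal ((dt l' f) ^ 2) * ((∏ i, ENNReal.ofReal (af L m (pk (l' (f i)) z))) *
          ENNReal.ofReal (ψ (VV L m l' z))) := by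
      intro f
      refine measurable_const.mul (Measurable.mul ?_ hψm)
      exact Finset.measurable_fun_prod _ fun i _ => hafm.comp (hpkm (f i))
    rw [← lintegral_finsetSum _ fun f _ => hterm f]
    calc ENNReal.ofReal (∫ z : E2 (r + 1), ψ (VV L m l' z) *
          DS l' (fun k => af L m (pk (l' k) z)))
        ≤ ‖∫ z : E2 (r + 1), ψ (VV L m l' z) * DS l' (fun k => af L m (pk (l' k) z))‖ₑ := by
          rw [← ofReal_norm]
          exact ENNReal.ofReal_le_ofReal (le_abs_self _)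
      _ ≤ ∫⁻ z : E2 (r + 1), ‖ψ (VV L m l' z) * DS l' (fun k => af L m (pk (l' k) z))‖ₑ :=
          enorm_integral_le_lintegral_enorm _
      _ ≤ _ := by
          refine lintegral_mono fun z => ?_
          have haf : ∀ k, 0 ≤ af L m (pk (l' k) z) := fun k => sq_nonneg _
          have hterm0 : ∀ f : Fin (r + 1) → κ,
              0 ≤ (∏ i, af L m (pk (l' (f i)) z)) * (dt l' f) ^ 2 := fun f =>
            mul_nonneg (Finset.prod_nonneg fun i _ => haf _) (sq_nonneg _)
          have hDS : 0 ≤ DS l' (fun k => af L m (pk (l' k) z)) :=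
            Finset.sum_nonneg fun f _ => hterm0 f
          rw [← ofReal_norm, Real.norm_eq_abs, abs_mul, abs_of_nonneg (hcut.nonneg _),
            abs_of_nonneg hDS, ENNReal.ofReal_mul (hcut.nonneg _)]
          unfold DS
          rw [ENNReal.ofReal_sum_of_nonneg fun f _ => hterm0 f, Finset.mul_sum]
          refine Finset.sum_le_sum fun f _ => le_of_eq ?_
          rw [ENNReal.ofReal_mul (Finset.prod_nonneg fun i _ => haf _),
            ENNReal.ofReal_prod_of_nonneg fun i _ => haf _]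
          ring
  -- one term
  have hone : ∀ f : Fin (r + 1) → κ, ∫⁻ z : E2 (r + 1), ENNReal.ofReal ((dt l' f) ^ 2) *
        ((∏ i, ENNReal.ofReal (af L m (pk (l' (f i)) z))) *
          ENNReal.ofReal (ψ (VV L m l' z))) ≤
      c ^ (r + 1) * (if dt l f = 0 then 0 else
        ∫⁻ ω : Fin (r + 1) → ℝ × ℝ, ENNReal.ofReal (ψ (∑ i, (ω i).1)) *
          (if ∀ k, k ∉ Set.range f →
              N (pk (l k) (zf l f (fun i => (ρ (f i) : ℂ) * um h m (ω i)))) < ρ k then 1 else 0)
          ∂(Measure.pi fun _ => Um)) := by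
    intro f
    by_cases hf : dt l f = 0
    · have h0 : dt l' f = 0 := (hdt0 f).mpr hf
      rw [h0]
      simp
    · have hf' : dt l' f ≠ 0 := fun h0 => hf ((hdt0 f).mp h0)
      rw [if_neg hf]
      obtain ⟨F1, F2, F3, F4⟩ := hFE κ (r + 1) l' f hf'
      obtain ⟨E1, E2', E3, E4⟩ := hFE κ (r + 1) l f hf
      set G : (Fin (r + 1) → ℂ) → ℝ≥0∞ := fun ζ => (∏ i, ENNReal.ofReal (af L m (ζ i))) *
        ENNReal.ofReal (ψ (VV L m l' (zf l' f ζ))) with hG
      have hG2m : Measurable fun ζ : Fin (r + 1) → ℂ =>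
          ENNReal.ofReal (ψ (VV L m l' (zf l' f ζ))) := hψm.comp F3.measurable
      have hGm : Measurable G := by
        refine Measurable.mul ?_ hG2m
        exact Finset.measurable_fun_prod _ fun i _ => hafm.comp (measurable_pi_apply i)
      have s1 : ∫⁻ z : E2 (r + 1), ENNReal.ofReal ((dt l' f) ^ 2) *
          ((∏ i, ENNReal.ofReal (af L m (pk (l' (f i)) z))) *
            ENNReal.ofReal (ψ (VV L m l' z))) = ∫⁻ ζ : Fin (r + 1) → ℂ, G ζ := by
        rw [← F4 G hGm]
        refine lintegral_congr fun z => ?_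
        rw [hG]
        simp only
        rw [F2 z]
      rw [s1, hG, key1 hT1a L h N hTD m hm (r + 1) _ hG2m]
      refine mul_le_mul' le_rfl ?_
      refine lintegral_mono_ae ?_
      filter_upwards [ae_pi (r + 1)] with ω hω
      have hzz : zf l' f (fun i => um h m (ω i)) =
          zf l f (fun i => (ρ (f i) : ℂ) * um h m (ω i)) := by
        rw [← E2' (zf l' f (fun i => um h m (ω i)))]
        congr 1
        funext i
        have h1 := F1 (fun i => um h m (ω i)) i
        rw [hpk] at h1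
        have h2 : (ρ (f i) : ℂ) ≠ 0 := by exact_mod_cast (hρ (f i)).ne'
        rw [div_eq_iff h2] at h1
        rw [h1, mul_comm]
      have hpt := pt_bound L h N hTD m hm l l' ψ v1 hcut ρ hρ hpk f (inj_of_dt l f hf) ω hω
        (zf l' f (fun i => um h m (ω i))) (F1 _)
      by_cases hcond : ∀ k, k ∉ Set.range f →
          N (pk (l k) (zf l f (fun i => (ρ (f i) : ℂ) * um h m (ω i)))) < ρ k
      · rw [if_pos hcond, mul_one]
        exact ENNReal.ofReal_le_ofReal hpt.1
      · rw [if_neg hcond, mul_zero]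
        push Not at hcond
        obtain ⟨k, hk1, hk2⟩ := hcond
        have h0 := hpt.2 ⟨k, hk1, by
          rw [hzz, not_lt]
          exact hk2⟩
        rw [h0]
        simp
  -- assembly
  have hcp0 : c ^ (r + 1) ≠ 0 := pow_ne_zero _ hc0
  have hcpt : c ^ (r + 1) ≠ ∞ := ENNReal.pow_ne_top hct
  rw [← ENNReal.mul_le_mul_iff_right hcp0 hcpt, hleft]
  refine (ENNReal.ofReal_le_ofReal h6).trans (hright.trans ?_)
  rw [Finset.mul_sum]
  refine Finset.sum_le_sum fun f _ => ?_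
  refine (hone f).trans (le_of_eq ?_)
  congr 1

end H845LP
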