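import Pool.Agent.H845R4.LP.Stm
import Pool.Agent.H712R2.MA.H5

/-!
# T1a: push-forward of `a dp` (helper51)
-/

set_option autoImplicit false

noncomputable section

open MeasureTheory Filter Topology Set
open scoped BigOperators ENNReal

namespace H845LP

open H712MA

namespace T1aAux

/-- polar coordinates on the disc -/
theorem polar (F : ℂ → ℝ≥0∞) (hF : Measurable F) :
    ∫⁻ z in Metric.ball (0 : ℂ) 1, F z =
      ∫⁻ θ in Ioo (-Real.pi) Real.pi, ∫⁻ r in Ioo (0 : ℝ) 1,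
        ENNReal.ofReal r * F ((r : ℂ) * Complex.exp (θ * Complex.I)) := by
  classical
  set f : ℂ → ℝ≥0∞ := (Metric.ball (0 : ℂ) 1).indicator F with hf
  have hfm : Measurable f := hF.indicator measurableSet_ball
  rw [← lintegral_indicator measurableSet_ball]
  change ∫⁻ z, f z = _
  rw [← Complex.lintegral_comp_polarCoord_symm]
  have hsymm : Measurable fun p : ℝ × ℝ => Complex.polarCoord.symm p := by
    have : (fun p : ℝ × ℝ => Complex.polarCoord.symm p) =
        fun p : ℝ × ℝ => (p.1 : ℂ) * (Real.cos p.2 + Real.sin p.2 * Complex.I) := by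
      funext p; exact Complex.polarCoord_symm_apply p
    rw [this]
    fun_prop
  rw [show (polarCoord.target : Set (ℝ × ℝ)) = Ioi (0 : ℝ) ×ˢ Ioo (-Real.pi) Real.pi from rfl,
    Measure.volume_eq_prod, ← Measure.prod_restrict]
  rw [lintegral_prod_symm _ (by
    exact ((ENNReal.measurable_ofReal.comp measurable_fst).smul (hfm.comp hsymm)).aemeasurable)]
  refine lintegral_congr fun θ => ?_
  have e1 : ∀ r : ℝ, Complex.polarCoord.symm (r, θ) = (r : ℂ) * Complex.exp (θ * Complex.I) := by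
    intro r
    rw [Complex.polarCoord_symm_apply, Complex.exp_mul_I, Complex.ofReal_cos, Complex.ofReal_sin]
  rw [← lintegral_indicator measurableSet_Ioi, ← lintegral_indicator measurableSet_Ioo]
  refine lintegral_congr fun r => ?_
  by_cases h0 : 0 < r
  · rw [indicator_of_mem (show r ∈ Ioi (0 : ℝ) from h0)]
    dsimp only
    rw [e1, hf]
    have hn : ‖(r : ℂ) * Complex.exp (θ * Complex.I)‖ = r := H5_normexp r θ h0.le
    by_cases h1 : r < 1
    · rw [indicator_of_mem (show r ∈ Ioo (0 : ℝ) 1 from ⟨h0, h1⟩), indicator_of_mem (by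
        rw [Metric.mem_ball, dist_zero_right, hn]; exact h1), smul_eq_mul]
    · rw [indicator_of_notMem (show r ∉ Ioo (0 : ℝ) 1 from fun h => h1 h.2), indicator_of_notMem (by
        rw [Metric.mem_ball, dist_zero_right, hn]; exact h1), smul_zero]
  · rw [indicator_of_notMem (show r ∉ Ioi (0 : ℝ) from h0),
      indicator_of_notMem (show r ∉ Ioo (0 : ℝ) 1 from fun h => h0 h.1)]

/-- substitution `s = r^(2m)` -/
theorem subst (m : ℕ) (hm : 1 ≤ m) (K : ℝ → ℝ≥0∞) :
    ∫⁻ r in Ioo (0 : ℝ) 1, ENNReal.ofReal ((m : ℝ) ^ 2 * r ^ (2 * m - 1)) * K r =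
      ENNReal.ofReal ((m : ℝ) / 2) * ∫⁻ s in Ioo (0 : ℝ) 1, K (s ^ (1 / (2 * (m : ℝ)))) := by
  have hm0 : (0 : ℝ) < m := by exact_mod_cast hm
  have h2m : 2 * m ≠ 0 := by omega
  have hroot : ∀ r : ℝ, 0 ≤ r → (r ^ (2 * m)) ^ (1 / (2 * (m : ℝ))) = r := by
    intro r hr
    have e : (1 / (2 * (m : ℝ))) = ((2 * m : ℕ) : ℝ)⁻¹ := by push_cast; rw [one_div]
    rw [e]
    exact Real.pow_rpow_inv_natCast hr h2m
  have hroot2 : ∀ s : ℝ, 0 ≤ s → (s ^ (1 / (2 * (m : ℝ)))) ^ (2 * m) = s := by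
    intro s hs
    have e : (1 / (2 * (m : ℝ))) = ((2 * m : ℕ) : ℝ)⁻¹ := by push_cast; rw [one_div]
    rw [e]
    exact Real.rpow_inv_natCast_pow hs h2m
  have himg : (fun r : ℝ => r ^ (2 * m)) '' Ioo 0 1 = Ioo 0 1 := by
    ext s
    constructor
    · rintro ⟨r, hr, rfl⟩
      exact ⟨pow_pos hr.1 _, pow_lt_one₀ hr.1.le hr.2 h2m⟩
    · intro hs
      refine ⟨s ^ (1 / (2 * (m : ℝ))), ⟨Real.rpow_pos_of_pos hs.1 _,
        Real.rpow_lt_one hs.1.le hs.2 (by positivity)⟩, hroot2 s hs.1.le⟩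
  have hinj : InjOn (fun r : ℝ => r ^ (2 * m)) (Ioo 0 1) := by
    intro a ha b hb hab
    have h1 := hroot a ha.1.le
    have h2 := hroot b hb.1.le
    have hab' : a ^ (2 * m) = b ^ (2 * m) := hab
    rw [← h1, ← h2, hab']
  have h := lintegral_image_eq_lintegral_abs_deriv_mul (s := Ioo (0 : ℝ) 1)
    (f := fun r : ℝ => r ^ (2 * m)) (f' := fun r : ℝ => ((2 * m : ℕ) : ℝ) * r ^ (2 * m - 1))
    measurableSet_Ioo (fun r _ => (hasDerivAt_pow (2 * m) r).hasDerivWithinAt) hinj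
    (fun s => K (s ^ (1 / (2 * (m : ℝ)))))
  rw [himg] at h
  rw [h, ← lintegral_const_mul' _ _ ENNReal.ofReal_ne_top]
  refine setLIntegral_congr_fun measurableSet_Ioo fun r hr => ?_
  rw [hroot r hr.1.le, ← mul_assoc, ← ENNReal.ofReal_mul (by positivity)]
  congr 2
  have hp : 0 ≤ ((2 * m : ℕ) : ℝ) * r ^ (2 * m - 1) := by
    have := hr.1
    positivity
  rw [abs_of_nonneg hp]
  push_cast
  ring

end T1aAux

open T1aAux in
/-- **Task T1a** -/
theorem T1a : S_T1a := by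
  intro L h N hTD m hm
  have hm0 : (0 : ℝ) < m := by exact_mod_cast hm
  have hball : ∀ ζ : ℂ, ζ ∈ Metric.ball (0 : ℂ) 1 ↔ ‖ζ‖ < 1 := fun ζ => by
    rw [Metric.mem_ball, dist_zero_right]
  have hW : L.W = h '' Metric.ball (0 : ℂ) 1 := by
    ext z
    constructor
    · intro hz
      exact ⟨L.e z, (hball _).2 (L.lt z hz), hTD.right z hz⟩
    · rintro ⟨ζ, hζ, rfl⟩
      exact (hTD.left ζ ((hball _).1 hζ)).1
  have hinj : InjOn h (Metric.ball (0 : ℂ) 1) := by
    intro a ha b hb hab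
    have h1 := (hTD.left a ((hball _).1 ha)).2
    have h2 := (hTD.left b ((hball _).1 hb)).2
    rw [← h1, ← h2, hab]
  have hder : ∀ ζ ∈ Metric.ball (0 : ℂ) 1, HasDerivAt h (deriv h ζ) ζ := fun ζ hζ =>
    (hTD.diff.differentiableAt (Metric.isOpen_ball.mem_nhds hζ)).hasDerivAt
  have hcov : ∀ g : ℂ → ℝ≥0∞, ∫⁻ p in L.W, g p =
      ∫⁻ z in Metric.ball (0 : ℂ) 1, ENNReal.ofReal (‖deriv h z‖ ^ 2) * g (h z) := by
    intro g
    have hh := lintegral_image_eq_lintegral_abs_det_fderiv_mul (volume : Measure ℂ)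
      (s := Metric.ball (0 : ℂ) 1) (f := h)
      (f' := fun z => (ContinuousLinearMap.toSpanSingleton ℂ (deriv h z)).restrictScalars ℝ)
      measurableSet_ball (fun z hz =>
        ((hder z hz).hasFDerivAt.restrictScalars ℝ).hasFDerivWithinAt) hinj g
    simp only [H5_det] at hh
    rw [hW, hh]
    refine lintegral_congr fun z => ?_
    rw [abs_of_nonneg (by positivity)]
  have haf : ∀ ζ : ℂ, ‖ζ‖ < 1 → ‖deriv h ζ‖ ^ 2 * af L m (h ζ) =
      (m : ℝ) ^ 2 * ‖ζ‖ ^ (2 * (m - 1)) := by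
    intro ζ hζ
    have hmem := (hTD.left ζ hζ).1
    have hed : HasDerivAt L.e (deriv L.e (h ζ)) (h ζ) :=
      (L.diff.differentiableAt (L.isOpen.mem_nhds hmem)).hasDerivAt
    have hcomp := hed.comp ζ (hder ζ ((hball _).2 hζ))
    have hid : HasDerivAt (L.e ∘ h) 1 ζ := by
      refine (hasDerivAt_id ζ).congr_of_eventuallyEq ?_
      filter_upwards [Metric.isOpen_ball.mem_nhds ((hball ζ).2 hζ)] with w hw
      exact (hTD.left w ((hball _).1 hw)).2
    have hprod := hcomp.unique hid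
    have hn : ‖deriv L.e (h ζ)‖ * ‖deriv h ζ‖ = 1 := by
      rw [← norm_mul, hprod, norm_one]
    unfold af gd
    rw [if_pos hmem, (hTD.left ζ hζ).2, norm_mul, norm_mul, norm_pow, Complex.norm_natCast]
    have e1 : ‖deriv h ζ‖ ^ 2 * ((m : ℝ) * ‖ζ‖ ^ (m - 1) * ‖deriv L.e (h ζ)‖) ^ 2 =
        (m : ℝ) ^ 2 * (‖ζ‖ ^ (m - 1)) ^ 2 * (‖deriv L.e (h ζ)‖ * ‖deriv h ζ‖) ^ 2 := by ring
    rw [e1, hn, ← pow_mul, mul_comm (m - 1) 2]
    ring
  have hum : Measurable (um h m) := by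
    unfold um cis
    refine hTD.meas.comp ?_
    fun_prop
  ext s hs
  rw [withDensity_apply _ hs, Measure.smul_apply, Measure.map_apply hum hs, smul_eq_mul]
  set G : ℂ → ℝ≥0∞ := s.indicator (fun _ => 1) with hG
  have hGm : Measurable G := measurable_const.indicator hs
  -- left-hand side
  have e1 : ∫⁻ z in s, ENNReal.ofReal (af L m z) =
      ∫⁻ z in L.W, ENNReal.ofReal (af L m z) * G z := by
    rw [← lintegral_indicator hs, ← lintegral_indicator L.isOpen.measurableSet]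
    refine lintegral_congr fun z => ?_
    by_cases hz : z ∈ L.W
    · rw [indicator_of_mem hz, hG]
      by_cases hzs : z ∈ s
      · rw [indicator_of_mem hzs, indicator_of_mem hzs, mul_one]
      · rw [indicator_of_notMem hzs, indicator_of_notMem hzs, mul_zero]
    · rw [indicator_of_notMem hz]
      have h0 : af L m z = 0 := by
        unfold af gd
        rw [if_neg hz]
        simp
      by_cases hzs : z ∈ s
      · rw [indicator_of_mem hzs, h0, ENNReal.ofReal_zero]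
      · rw [indicator_of_notMem hzs]
  have e2 : ∫⁻ z in L.W, ENNReal.ofReal (af L m z) * G z =
      ∫⁻ z in Metric.ball (0 : ℂ) 1,
        ENNReal.ofReal ((m : ℝ) ^ 2 * ‖z‖ ^ (2 * (m - 1))) * G (h z) := by
    rw [hcov]
    refine setLIntegral_congr_fun measurableSet_ball fun z hz => ?_
    rw [← mul_assoc, ← ENNReal.ofReal_mul (by positivity), haf z ((hball z).1 hz)]
  have e3 : ∫⁻ z in Metric.ball (0 : ℂ) 1,
        ENNReal.ofReal ((m : ℝ) ^ 2 * ‖z‖ ^ (2 * (m - 1))) * G (h z) =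
      ∫⁻ θ in Ioo (-Real.pi) Real.pi, ENNReal.ofReal ((m : ℝ) / 2) *
        ∫⁻ t in Ioo (0 : ℝ) 1, G (um h m (t, θ)) := by
    have hFm : Measurable fun z : ℂ =>
        ENNReal.ofReal ((m : ℝ) ^ 2 * ‖z‖ ^ (2 * (m - 1))) * G (h z) :=
      (by fun_prop : Measurable fun z : ℂ =>
        ENNReal.ofReal ((m : ℝ) ^ 2 * ‖z‖ ^ (2 * (m - 1)))).mul (hGm.comp hTD.meas)
    rw [polar _ hFm]
    refine lintegral_congr fun θ => ?_
    have e4 := subst m hm (fun r => G (h ((r : ℂ) * Complex.exp (θ * Complex.I))))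
    have e5 : (∫⁻ t in Ioo (0 : ℝ) 1, G (um h m (t, θ))) = ∫⁻ s in Ioo (0 : ℝ) 1,
        (fun r : ℝ => G (h ((r : ℂ) * Complex.exp (θ * Complex.I)))) (s ^ (1 / (2 * (m : ℝ)))) :=
      rfl
    rw [e5, ← e4]
    refine setLIntegral_congr_fun measurableSet_Ioo fun r hr => ?_
    rw [H5_normexp r θ hr.1.le, ← mul_assoc, ← ENNReal.ofReal_mul hr.1.le]
    congr 2
    have e6 : 2 * m - 1 = 2 * (m - 1) + 1 := by omega
    rw [e6, pow_succ]
    ring
  rw [e1, e2, e3, lintegral_const_mul' _ _ ENNReal.ofReal_ne_top]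
  -- right-hand side
  have e7 : Um (um h m ⁻¹' s) = ENNReal.ofReal (1 / (2 * Real.pi)) *
      ∫⁻ θ in Ioo (-Real.pi) Real.pi, ∫⁻ t in Ioo (0 : ℝ) 1, G (um h m (t, θ)) := by
    have e8 : Um (um h m ⁻¹' s) = ∫⁻ ω, G (um h m ω) ∂Um := by
      rw [← lintegral_indicator_one (hum hs)]
      refine lintegral_congr fun ω => ?_
      rw [hG]
      by_cases hω : um h m ω ∈ s
      · rw [indicator_of_mem hω, indicator_of_mem (show ω ∈ um h m ⁻¹' s from hω)]
        rfl
      · rw [indicator_of_notMem hω, indicator_of_notMem (show ω ∉ um h m ⁻¹' s from hω)]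
    rw [e8]
    unfold Um
    have : SFinite Am := by
      unfold Am
      infer_instance
    have hGu : Measurable fun ω : ℝ × ℝ => G (um h m ω) := hGm.comp hum
    rw [lintegral_prod_symm _ hGu.aemeasurable]
    unfold Am
    rw [lintegral_smul_measure]
    rfl
  rw [e7, ← mul_assoc, ← ENNReal.ofReal_mul (by positivity)]
  congr 2
  have := Real.pi_ne_zero
  field_simp

end H845LP
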