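import Pool.Agent.H845R4.LP.Stm

/-!
# Task T2: average of the complex inequality over the levels (helper662)
-/

set_option autoImplicit false

noncomputable section

open MeasureTheory Filter Topology
open scoped BigOperators Matrix ENNReal

namespace H845LP

open H712MA

namespace T2L

/-! ### the law of the levels -/

theorem hasDerivAt_exp (p : ℝ) (hp : 1 < p) (x : ℝ) (hx : 0 < x) :
    HasDerivAt (fun x : ℝ => -Real.exp (-(x ^ p / p))) (x ^ (p - 1) * Real.exp (-(x ^ p / p))) x := by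
  have h1 : HasDerivAt (fun x : ℝ => x ^ p) (p * x ^ (p - 1)) x :=
    Real.hasDerivAt_rpow_const (Or.inl hx.ne')
  have h2 := ((h1.div_const p).neg.exp).neg
  have h3 : HasDerivAt (fun x : ℝ => -Real.exp (-(x ^ p / p)))
      (-(Real.exp (-(x ^ p / p)) * -(p * x ^ (p - 1) / p))) x := h2
  refine h3.congr_deriv ?_
  have : p ≠ 0 := by linarith
  field_simp

theorem tendsto_exp (p : ℝ) (hp : 1 < p) :
    Tendsto (fun x : ℝ => -Real.exp (-(x ^ p / p))) atTop (𝓝 0) := by
  have h1 : Tendsto (fun x : ℝ => x ^ p / p) atTop atTop :=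
    (tendsto_rpow_atTop (by linarith)).atTop_div_const (by linarith)
  have h2 := (Real.tendsto_exp_neg_atTop_nhds_zero.comp h1).neg
  rw [neg_zero] at h2
  exact h2

theorem wt_nonneg (p ρ : ℝ) : 0 ≤ wt p ρ := by
  unfold wt
  split_ifs with h
  · exact mul_nonneg (Real.rpow_nonneg h.le _) (Real.exp_nonneg _)
  · exact le_rfl

theorem measurable_wt (p : ℝ) : Measurable (wt p) := by
  unfold wt
  refine Measurable.ite (measurableSet_lt measurable_const measurable_id) ?_ measurable_const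
  exact (measurable_id.pow_const _).mul
    (Real.measurable_exp.comp ((measurable_id.pow_const _).div_const _).neg)

theorem Wm_Ioi (p : ℝ) (hp : 1 < p) (t : ℝ) (ht : 0 ≤ t) :
    Wm p (Set.Ioi t) = ENNReal.ofReal (Real.exp (-(t ^ p / p))) := by
  unfold Wm
  rw [withDensity_apply _ measurableSet_Ioi]
  have hd : ∀ x ∈ Set.Ioi t, HasDerivAt (fun x : ℝ => -Real.exp (-(x ^ p / p)))
      (x ^ (p - 1) * Real.exp (-(x ^ p / p))) x := fun x hx =>
    hasDerivAt_exp p hp x (lt_of_le_of_lt ht hx)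
  have hnn : ∀ x ∈ Set.Ioi t, 0 ≤ x ^ (p - 1) * Real.exp (-(x ^ p / p)) := fun x hx =>
    mul_nonneg (Real.rpow_nonneg (ht.trans (le_of_lt hx)) _) (Real.exp_nonneg _)
  have hc : ContinuousWithinAt (fun x : ℝ => -Real.exp (-(x ^ p / p))) (Set.Ici t) t := by
    apply Continuous.continuousWithinAt
    have h1 : Continuous fun x : ℝ => x ^ p := Real.continuous_rpow_const (by linarith)
    fun_prop
  have hi := integrableOn_Ioi_deriv_of_nonneg hc hd hnn (tendsto_exp p hp)
  have hI := integral_Ioi_of_hasDerivAt_of_nonneg hc hd hnn (tendsto_exp p hp)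
  have h1 : ∫⁻ x in Set.Ioi t, ENNReal.ofReal (wt p x) =
      ∫⁻ x in Set.Ioi t, ENNReal.ofReal (x ^ (p - 1) * Real.exp (-(x ^ p / p))) := by
    refine setLIntegral_congr_fun measurableSet_Ioi fun x hx => ?_
    unfold wt
    rw [if_pos (lt_of_le_of_lt ht hx)]
  rw [h1, ← ofReal_integral_eq_lintegral_ofReal hi
    ((ae_restrict_iff' measurableSet_Ioi).2 (Eventually.of_forall hnn)), hI]
  congr 1
  ring

theorem Wm_Iic (p : ℝ) : Wm p (Set.Iic 0) = 0 := by
  unfold Wm
  rw [withDensity_apply _ measurableSet_Iic]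
  have h1 : ∫⁻ x in Set.Iic (0 : ℝ), ENNReal.ofReal (wt p x) = ∫⁻ x in Set.Iic (0 : ℝ), 0 := by
    refine setLIntegral_congr_fun measurableSet_Iic fun x hx => ?_
    unfold wt
    rw [if_neg (not_lt.2 hx), ENNReal.ofReal_zero]
  rw [h1, lintegral_zero]

theorem Wm_prob (p : ℝ) (hp : 1 < p) : IsProbabilityMeasure (Wm p) := by
  constructor
  rw [← Set.Iic_union_Ioi (a := (0 : ℝ)), measure_union (Set.Iic_disjoint_Ioi le_rfl)
    measurableSet_Ioi, Wm_Iic, Wm_Ioi p hp 0 le_rfl, zero_add, Real.zero_rpow (by linarith)]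
  simp

theorem Wm_pos (p : ℝ) : ∀ᵐ ρ ∂(Wm p), 0 < ρ := by
  rw [ae_iff]
  have : {a : ℝ | ¬ 0 < a} = Set.Iic 0 := by
    ext a
    simp
  rw [this, Wm_Iic]

instance Am_fin : IsFiniteMeasure Am := by
  unfold Am
  constructor
  rw [Measure.smul_apply, smul_eq_mul]
  exact ENNReal.mul_lt_top ENNReal.ofReal_lt_top (measure_lt_top _ _)

instance Um_fin : IsFiniteMeasure Um := by
  unfold Um
  infer_instance

/-! ### measurability -/

theorem measurable_um {h : ℂ → ℂ} (hh : Measurable h) (m : ℕ) : Measurable (um h m) := by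
  unfold um
  refine hh.comp ?_
  refine Measurable.mul (Complex.measurable_ofReal.comp (measurable_fst.pow_const _)) ?_
  unfold cis
  exact Complex.measurable_exp.comp
    ((Complex.measurable_ofReal.comp measurable_snd).mul measurable_const)

variable {κ : Type} [Fintype κ]

theorem continuous_zf {n : ℕ} (l : κ → Fin n → ℝ) (f : Fin n → κ) : Continuous (zf l f) := by
  unfold zf
  refine Continuous.prodMk ?_ ?_
  · refine Continuous.matrix_mulVec continuous_const ?_
    exact continuous_pi fun i => Complex.continuous_re.comp (continuous_apply i)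
  · refine Continuous.matrix_mulVec continuous_const ?_
    exact continuous_pi fun i => Complex.continuous_im.comp (continuous_apply i)

theorem continuous_pk {n : ℕ} (v : Fin n → ℝ) : Continuous (pk v) := by
  have h1 : Continuous fun z : (Fin n → ℝ) × (Fin n → ℝ) =>
      (((v ⬝ᵥ z.1 : ℝ) : ℂ) + ((v ⬝ᵥ z.2 : ℝ) : ℂ) * Complex.I) := by
    have e1 : Continuous fun z : (Fin n → ℝ) × (Fin n → ℝ) => v ⬝ᵥ z.1 :=
      Continuous.dotProduct continuous_const continuous_fst
    have e2 : Continuous fun z : (Fin n → ℝ) × (Fin n → ℝ) => v ⬝ᵥ z.2 :=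
      Continuous.dotProduct continuous_const continuous_snd
    exact (Complex.continuous_ofReal.comp e1).add
      ((Complex.continuous_ofReal.comp e2).mul continuous_const)
  refine h1.congr fun z => ?_
  unfold pk
  apply Complex.ext <;> simp

/-- the function `N(l_k(z_f(τ u(ω))))` -/
def gk {n : ℕ} (h : ℂ → ℂ) (N : ℂ → ℝ) (m : ℕ) (l : κ → Fin n → ℝ) (f : Fin n → κ) (k : κ)
    (τ : Fin n → ℝ) (ω : Fin n → ℝ × ℝ) : ℝ :=
  N (pk (l k) (zf l f (fun i => (τ i : ℂ) * um h m (ω i))))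

theorem measurable_gk {n : ℕ} {h : ℂ → ℂ} {N : ℂ → ℝ} (hh : Measurable h) (hN : Continuous N)
    (m : ℕ) (l : κ → Fin n → ℝ) (f : Fin n → κ) (k : κ) :
    Measurable fun x : (Fin n → ℝ) × (Fin n → ℝ × ℝ) => gk h N m l f k x.1 x.2 := by
  unfold gk
  refine (hN.comp ((continuous_pk (l k)).comp (continuous_zf l f))).measurable.comp ?_
  refine measurable_pi_lambda _ fun i => ?_
  refine Measurable.mul ?_ ?_
  · exact Complex.measurable_ofReal.comp ((measurable_pi_apply i).comp measurable_fst)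
  · exact (measurable_um hh m).comp ((measurable_pi_apply i).comp measurable_snd)

open Classical in
/-- the indicator -/
def ind {n : ℕ} (h : ℂ → ℂ) (N : ℂ → ℝ) (m : ℕ) (l : κ → Fin n → ℝ) (f : Fin n → κ)
    (ρ : κ → ℝ) (ω : Fin n → ℝ × ℝ) : ℝ≥0∞ :=
  if ∀ k, k ∉ Set.range f → gk h N m l f k (fun i => ρ (f i)) ω < ρ k then 1 else 0

theorem measurable_ind {n : ℕ} {h : ℂ → ℂ} {N : ℂ → ℝ} (hh : Measurable h) (hN : Continuous N)
    (m : ℕ) (l : κ → Fin n → ℝ) (f : Fin n → κ) :
    Measurable fun x : (κ → ℝ) × (Fin n → ℝ × ℝ) => ind h N m l f x.1 x.2 := by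
  unfold ind
  refine Measurable.ite ?_ measurable_const measurable_const
  have : {x : (κ → ℝ) × (Fin n → ℝ × ℝ) | ∀ k, k ∉ Set.range f →
      gk h N m l f k (fun i => x.1 (f i)) x.2 < x.1 k} =
      ⋂ k, {x : (κ → ℝ) × (Fin n → ℝ × ℝ) | k ∉ Set.range f →
        gk h N m l f k (fun i => x.1 (f i)) x.2 < x.1 k} := by
    ext x
    simp only [Set.mem_ofPred_eq, Set.mem_iInter]
  rw [this]
  refine MeasurableSet.iInter fun k => ?_
  by_cases hk : k ∈ Set.range f
  · have : {x : (κ → ℝ) × (Fin n → ℝ × ℝ) | k ∉ Set.range f →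
        gk h N m l f k (fun i => x.1 (f i)) x.2 < x.1 k} = Set.univ := by
      ext x
      simp [hk]
    rw [this]
    exact MeasurableSet.univ
  · have : {x : (κ → ℝ) × (Fin n → ℝ × ℝ) | k ∉ Set.range f →
        gk h N m l f k (fun i => x.1 (f i)) x.2 < x.1 k} =
        {x : (κ → ℝ) × (Fin n → ℝ × ℝ) |
          gk h N m l f k (fun i => x.1 (f i)) x.2 < x.1 k} := by
      ext x
      simp only [Set.mem_ofPred_eq]
      exact ⟨fun h => h hk, fun h _ => h⟩
    rw [this]
    refine measurableSet_lt ?_ ((measurable_pi_apply k).comp measurable_fst)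
    have hq : Measurable fun x : (κ → ℝ) × (Fin n → ℝ × ℝ) => ((fun i => x.1 (f i)), x.2) :=
      Measurable.prodMk (measurable_pi_lambda _ fun i =>
        (measurable_pi_apply (f i)).comp measurable_fst) measurable_snd
    have hz := (measurable_gk hh hN m l f k).comp hq
    exact hz

theorem injective_of_dt {n : ℕ} (l : κ → Fin n → ℝ) (f : Fin n → κ) (h : dt l f ≠ 0) :
    Function.Injective f := by
  intro i j hij
  by_contra hne
  apply h
  unfold dt
  apply Matrix.det_zero_of_row_eq hne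
  ext x
  simp [hij]

open Classical in
/-- splitting the coordinates -/
theorem split (p : ℝ) (hp : 1 < p) {n : ℕ} (f : Fin n → κ) (hf : Function.Injective f)
    (G : (κ → ℝ) → ℝ≥0∞) (hG : Measurable G) :
    ∃ Φ : (Fin n → ℝ) × ({k // ¬ k ∈ Set.range f} → ℝ) → (κ → ℝ), Measurable Φ ∧
      (∀ x i, Φ x (f i) = x.1 i) ∧ (∀ x k, Φ x k.1 = x.2 k) ∧
      ∫⁻ ρ, G ρ ∂(Measure.pi fun _ : κ => Wm p) =
        ∫⁻ τ, ∫⁻ σ, G (Φ (τ, σ)) ∂(Measure.pi fun _ : {k // ¬ k ∈ Set.range f} => Wm p)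
          ∂(Measure.pi fun _ : Fin n => Wm p) := by
  have := Wm_prob p hp
  obtain ⟨e, he⟩ : ∃ e : Fin n ⊕ {k // ¬ k ∈ Set.range f} ≃ κ,
      e = ((Equiv.ofInjective f hf).sumCongr (Equiv.refl {k // ¬ k ∈ Set.range f})).trans
        (Equiv.sumCompl (fun k => k ∈ Set.range f)) := ⟨_, rfl⟩
  have e1 : ∀ i, e (Sum.inl i) = f i := fun i => by rw [he]; rfl
  have e2 : ∀ k, e (Sum.inr k) = k.1 := fun k => by rw [he]; rfl
  have m1 := measurePreserving_piCongrLeft (fun _ : κ => Wm p) e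
  have m2 := measurePreserving_sumPiEquivProdPi_symm
    (fun _ : Fin n ⊕ {k // ¬ k ∈ Set.range f} => Wm p)
  have m3 := m1.comp m2
  refine ⟨_, m3.measurable, ?_, ?_, ?_⟩
  · intro x i
    rw [← e1 i]
    simp only [Function.comp_apply]
    have := Equiv.piCongrLeft_apply_apply (fun _ : κ => ℝ) e
      ((MeasurableEquiv.sumPiEquivProdPi
        (fun _ : Fin n ⊕ {k // ¬ k ∈ Set.range f} => ℝ)).symm x) (Sum.inl i)
    exact this
  · intro x k
    rw [← e2 k]
    simp only [Function.comp_apply]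
    have := Equiv.piCongrLeft_apply_apply (fun _ : κ => ℝ) e
      ((MeasurableEquiv.sumPiEquivProdPi
        (fun _ : Fin n ⊕ {k // ¬ k ∈ Set.range f} => ℝ)).symm x) (Sum.inr k)
    exact this
  · rw [← m3.lintegral_comp hG]
    exact lintegral_prod _ (hG.comp m3.measurable).aemeasurable

open Classical in
/-- the inner integral -/
theorem inner {n : ℕ} (p : ℝ) (hp : 1 < p) {h : ℂ → ℂ} {N : ℂ → ℝ} (hN0 : ∀ ξ, 0 ≤ N ξ) (m : ℕ)
    (l : κ → Fin n → ℝ) (f : Fin n → κ)
    (Φ : (Fin n → ℝ) × ({k // ¬ k ∈ Set.range f} → ℝ) → (κ → ℝ))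
    (h1 : ∀ x i, Φ x (f i) = x.1 i) (h2 : ∀ x k, Φ x (Subtype.val k) = x.2 k)
    (τ : Fin n → ℝ) (ω : Fin n → ℝ × ℝ) :
    ∫⁻ σ, ind h N m l f (Φ (τ, σ)) ω ∂(Measure.pi fun _ : {k // ¬ k ∈ Set.range f} => Wm p) =
      ENNReal.ofReal (XP p N l f (fun i => (τ i : ℂ) * um h m (ω i))) := by
  have := Wm_prob p hp
  have e1 : ∀ σ, ind h N m l f (Φ (τ, σ)) ω =
      (Set.pi Set.univ fun k : {k // ¬ k ∈ Set.range f} =>
        Set.Ioi (gk h N m l f k.1 τ ω)).indicator 1 σ := by
    intro σ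
    unfold ind
    have e2 : (fun i => Φ (τ, σ) (f i)) = τ := funext fun i => h1 _ i
    rw [e2]
    by_cases hc : ∀ k, k ∉ Set.range f → gk h N m l f k τ ω < Φ (τ, σ) k
    · rw [if_pos hc, Set.indicator_of_mem]
      · rfl
      · intro k _
        have := hc k.1 k.2
        rw [h2] at this
        exact this
    · rw [if_neg hc, Set.indicator_of_notMem]
      intro hmem
      apply hc
      intro k hk
      have := hmem ⟨k, hk⟩ (Set.mem_univ _)
      have e3 := h2 (τ, σ) ⟨k, hk⟩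
      dsimp only at e3
      rw [e3]
      exact this
  rw [lintegral_congr e1, lintegral_indicator_one
    (MeasurableSet.univ_pi fun k => measurableSet_Ioi), Measure.pi_pi]
  have e4 : ∀ k : {k // ¬ k ∈ Set.range f}, Wm p (Set.Ioi (gk h N m l f k.1 τ ω)) =
      ENNReal.ofReal (Real.exp (-((gk h N m l f k.1 τ ω) ^ p / p))) :=
    fun k => Wm_Ioi p hp _ (hN0 _)
  rw [Finset.prod_congr rfl fun k _ => e4 k]
  unfold XP
  rw [← ENNReal.ofReal_prod_of_nonneg fun _ _ => Real.exp_nonneg _]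
  congr 1
  symm
  refine Finset.prod_subtype (Finset.univ.filter (fun k => k ∉ Set.range f)) ?_
    (fun k => Real.exp (-((gk h N m l f k τ ω) ^ p / p)))
  intro k
  simp

end T2L

open T2L

open Classical in
theorem T2 (hT1 : S_T1) : S_T2 := by
  intro κ _ r L h N hTD m hm l hl ψ v1 hψ p hp
  have hprob := Wm_prob p hp
  have key := hT1 κ r L h N hTD m hm l hl ψ v1 hψ
  have hψm : Measurable fun ω : Fin (r + 1) → ℝ × ℝ =>
      ENNReal.ofReal (ψ (∑ i, (ω i).1)) := by
    have hs : Measurable fun ω : Fin (r + 1) → ℝ × ℝ => ∑ i, (ω i).1 :=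
      Finset.measurable_sum _ fun i _ => measurable_fst.comp (measurable_pi_apply i)
    exact ENNReal.measurable_ofReal.comp (hψ.smooth.continuous.measurable.comp hs)
  have hpos : ∀ᵐ ρ ∂(Measure.pi fun _ : κ => Wm p), ∀ k, 0 < ρ k := by
    rw [ae_all_iff]
    intro k
    exact (Measure.tendsto_eval_ae_ae (i := k)).eventually (Wm_pos p)
  have hmeas : ∀ f : Fin (r + 1) → κ, Measurable fun x : (κ → ℝ) × (Fin (r + 1) → ℝ × ℝ) =>
      ENNReal.ofReal (ψ (∑ i, (x.2 i).1)) * ind h N m l f x.1 x.2 := fun f =>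
    have hz := hψm.comp (measurable_snd (α := κ → ℝ))
    have hz2 := measurable_ind hTD.meas hTD.Ncont m l f
    hz.mul hz2
  calc ((r + 1).factorial : ℝ≥0∞) *
        (∫⁻ s in {s : Fin (r + 1) → ℝ | ∀ i, 0 < s i}, ENNReal.ofReal (ψ (∑ i, s i)))
      = ∫⁻ _ : κ → ℝ, ((r + 1).factorial : ℝ≥0∞) *
        (∫⁻ s in {s : Fin (r + 1) → ℝ | ∀ i, 0 < s i}, ENNReal.ofReal (ψ (∑ i, s i)))
          ∂(Measure.pi fun _ : κ => Wm p) := by
        rw [lintegral_const, measure_univ, mul_one]
    _ ≤ ∫⁻ ρ : κ → ℝ, ∑ f : Fin (r + 1) → κ, (if dt l f = 0 then 0 else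
        ∫⁻ ω : Fin (r + 1) → ℝ × ℝ, ENNReal.ofReal (ψ (∑ i, (ω i).1)) * ind h N m l f ρ ω
          ∂(Measure.pi fun _ => Um)) ∂(Measure.pi fun _ : κ => Wm p) := by
        refine lintegral_mono_ae ?_
        filter_upwards [hpos] with ρ hρ
        exact key ρ hρ
    _ = ∑ f : Fin (r + 1) → κ, ∫⁻ ρ : κ → ℝ, (if dt l f = 0 then 0 else
        ∫⁻ ω : Fin (r + 1) → ℝ × ℝ, ENNReal.ofReal (ψ (∑ i, (ω i).1)) * ind h N m l f ρ ω
          ∂(Measure.pi fun _ => Um)) ∂(Measure.pi fun _ : κ => Wm p) := by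
        refine lintegral_finsetSum _ fun f _ => ?_
        by_cases hf : dt l f = 0
        · simp only [if_pos hf]
          exact measurable_const
        · simp only [if_neg hf]
          exact (hmeas f).lintegral_prod_right'
    _ = _ := by
        refine Finset.sum_congr rfl fun f _ => ?_
        by_cases hf : dt l f = 0
        · simp only [if_pos hf, lintegral_zero]
        · simp only [if_neg hf]
          obtain ⟨Φ, hΦm, hΦ1, hΦ2, hΦ⟩ := split p hp f (injective_of_dt l f hf)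
            (fun ρ => ∫⁻ ω : Fin (r + 1) → ℝ × ℝ, ENNReal.ofReal (ψ (∑ i, (ω i).1)) *
              ind h N m l f ρ ω ∂(Measure.pi fun _ => Um)) (hmeas f).lintegral_prod_right'
          rw [hΦ]
          refine lintegral_congr fun τ => ?_
          rw [lintegral_lintegral_swap]
          · refine lintegral_congr fun ω => ?_
            have hq : Measurable fun σ : {k // ¬ k ∈ Set.range f} → ℝ => (Φ (τ, σ), ω) :=
              (hΦm.comp (measurable_const.prodMk measurable_id)).prodMk measurable_const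
            have hz := (measurable_ind hTD.meas hTD.Ncont m l f).comp hq
            have hm2 : Measurable fun σ => ind h N m l f (Φ (τ, σ)) ω := hz
            rw [lintegral_const_mul _ hm2, inner p hp hTD.Nnonneg m l f Φ hΦ1 hΦ2 τ ω]
          · have hq : Measurable fun x : ({k // ¬ k ∈ Set.range f} → ℝ) ×
                (Fin (r + 1) → ℝ × ℝ) => (Φ (τ, x.1), x.2) :=
              (hΦm.comp (measurable_const.prodMk measurable_fst)).prodMk measurable_snd
            have hz := (hmeas f).comp hq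
            exact hz.aemeasurable

end H845LP
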