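import Pool.Agent.H845R4.LP.Stm

/-!
Task V: from the integral inequality (M) to the volumes.
-/

set_option autoImplicit false

noncomputable section

open MeasureTheory Filter Topology
open scoped BigOperators Matrix ENNReal Pointwise

namespace H845LP

open H712MA

namespace VAux

/-- the density of the level -/
def ww (p s : ℝ) : ℝ≥0∞ := ENNReal.ofReal (s ^ (p - 1) * Real.exp (-(s ^ p / p)))

theorem ww_meas (p : ℝ) : Measurable (ww p) := by
  unfold ww
  fun_prop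

theorem tail {p a : ℝ} (hp : 0 < p) (ha : 0 ≤ a) :
    ∫⁻ s in Set.Ioi a, ww p s = ENNReal.ofReal (Real.exp (-(a ^ p / p))) := by
  have hcont : ContinuousWithinAt (fun s : ℝ => - Real.exp (-(s ^ p / p))) (Set.Ici a) a := by
    apply Continuous.continuousWithinAt
    have : Continuous fun s : ℝ => s ^ p := Real.continuous_rpow_const hp.le
    fun_prop
  have hder : ∀ s ∈ Set.Ioi a, HasDerivAt (fun s : ℝ => - Real.exp (-(s ^ p / p)))
      (s ^ (p - 1) * Real.exp (-(s ^ p / p))) s := by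
    intro s hs
    have hs0 : 0 < s := lt_of_le_of_lt ha hs
    have h1 : HasDerivAt (fun s : ℝ => s ^ p) (p * s ^ (p - 1)) s :=
      Real.hasDerivAt_rpow_const (Or.inl hs0.ne')
    have h2 := ((h1.div_const p).neg.exp).neg
    refine h2.congr_deriv ?_
    simp only [Pi.neg_apply]
    rw [mul_div_cancel_left₀ _ hp.ne']
    ring
  have hpos : ∀ s ∈ Set.Ioi a, 0 ≤ s ^ (p - 1) * Real.exp (-(s ^ p / p)) := by
    intro s hs
    have hs0 : 0 < s := lt_of_le_of_lt ha hs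
    positivity
  have hlim : Tendsto (fun s : ℝ => - Real.exp (-(s ^ p / p))) atTop (𝓝 (-0)) := by
    apply Tendsto.neg
    apply Real.tendsto_exp_atBot.comp
    apply tendsto_neg_atTop_atBot.comp
    exact (tendsto_rpow_atTop hp).atTop_div_const hp
  have h1 := integral_Ioi_of_hasDerivAt_of_nonneg hcont hder hpos hlim
  have h2 := integrableOn_Ioi_deriv_of_nonneg hcont hder hpos hlim
  unfold ww
  rw [← ofReal_integral_eq_lintegral_ofReal h2, h1]
  · congr 1; ring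
  · rw [EventuallyLE, ae_restrict_iff' measurableSet_Ioi]
    exact Eventually.of_forall fun s hs => hpos s hs

theorem tail' {p a : ℝ} (hp : 0 < p) (ha : 0 ≤ a) :
    ∫⁻ s in Set.Ioi (0 : ℝ), (Set.Ici a).indicator (ww p) s =
      ENNReal.ofReal (Real.exp (-(a ^ p / p))) := by
  rw [lintegral_indicator measurableSet_Ici, Measure.restrict_restrict measurableSet_Ici,
    ← tail hp ha]
  apply setLIntegral_congr
  apply Filter.EventuallyLE.antisymm
  · have h1 : (Set.Ici a ∩ Set.Ioi (0:ℝ) : Set ℝ) ≤ᵐ[volume] (Set.Ici a : Set ℝ) :=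
      Eventually.of_forall fun s hs => hs.1
    exact h1.trans (Ioi_ae_eq_Ici (μ := volume) (a := a)).symm.le
  · exact Eventually.of_forall fun s hs => ⟨le_of_lt hs, lt_of_le_of_lt ha hs⟩

/-- the radial constant -/
def Cc (p : ℝ) (n : ℕ) : ℝ≥0∞ := ∫⁻ s in Set.Ioi (0 : ℝ), ww p s * ENNReal.ofReal (s ^ n)

/-- layer cake -/
theorem layer {n : ℕ} {p : ℝ} (hp : 0 < p) (g : (Fin n → ℝ) → ℝ) (hm : Measurable g)
    (h0 : ∀ x, 0 ≤ g x) (hh : ∀ r : ℝ, 0 < r → ∀ x, g (r • x) = r * g x) :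
    ∫⁻ x : Fin n → ℝ, ENNReal.ofReal (Real.exp (-((g x) ^ p / p))) =
      Cc p n * volume {x | g x ≤ 1} := by
  have h1 : ∀ x, ENNReal.ofReal (Real.exp (-((g x) ^ p / p))) =
      ∫⁻ s in Set.Ioi (0 : ℝ), (Set.Ici (g x)).indicator (ww p) s := fun x => (tail' hp (h0 x)).symm
  simp_rw [h1]
  have hmeas : Measurable (Function.uncurry fun (x : Fin n → ℝ) (s : ℝ) =>
      (Set.Ici (g x)).indicator (ww p) s) := by
    have : (Function.uncurry fun (x : Fin n → ℝ) (s : ℝ) => (Set.Ici (g x)).indicator (ww p) s) =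
        {z : (Fin n → ℝ) × ℝ | g z.1 ≤ z.2}.indicator (fun z => ww p z.2) := by
      funext z
      simp only [Function.uncurry, Set.indicator_apply, Set.mem_Ici, Set.mem_setOf_eq]
    rw [this]
    exact ((ww_meas p).comp measurable_snd).indicator
      (measurableSet_le (hm.comp measurable_fst) measurable_snd)
  rw [lintegral_lintegral_swap hmeas.aemeasurable]
  unfold Cc
  rw [← lintegral_mul_const _ (show Measurable fun s : ℝ => ww p s * ENNReal.ofReal (s ^ n) from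
    (ww_meas p).mul (by fun_prop))]
  apply setLIntegral_congr_fun measurableSet_Ioi
  intro s hs
  have hs0 : (0:ℝ) < s := hs
  have h2 : (fun x : Fin n → ℝ => (Set.Ici (g x)).indicator (ww p) s) =
      {x | g x ≤ s}.indicator (fun _ => ww p s) := by
    funext x
    simp only [Set.indicator_apply, Set.mem_Ici, Set.mem_setOf_eq]
  have h3 : {x : Fin n → ℝ | g x ≤ s} = s • {x : Fin n → ℝ | g x ≤ 1} := by
    ext x
    rw [Set.mem_smul_set_iff_inv_smul_mem₀ hs0.ne']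
    simp only [Set.mem_setOf_eq]
    rw [hh s⁻¹ (inv_pos.2 hs0), inv_mul_le_iff₀ hs0, mul_one]
  simp only
  rw [h2, lintegral_indicator (measurableSet_le hm measurable_const), setLIntegral_const, h3,
    Measure.addHaar_smul, Module.finrank_fintype_fun_eq_card, Fintype.card_fin,
    abs_of_nonneg (by positivity), mul_assoc]

/-- the one-dimensional integral -/
def II (p : ℝ) : ℝ := ∫ t : ℝ, Real.exp (-(|t| ^ p / p))

theorem II_int {p : ℝ} (hp : 0 < p) : Integrable (fun t : ℝ => Real.exp (-(|t| ^ p / p))) := by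
  have h1 : IntegrableOn (fun t : ℝ => Real.exp (-(|t| ^ p / p))) (Set.Ioi 0) := by
    have h2 := integrableOn_rpow_mul_exp_neg_mul_rpow (p := p) (s := 0) (b := 1 / p) (by norm_num)
      hp (by positivity)
    refine h2.congr_fun (fun t ht => ?_) measurableSet_Ioi
    have ht0 : (0:ℝ) < t := ht
    simp only [Real.rpow_zero, one_mul]
    rw [abs_of_pos ht0]
    congr 1
    ring
  have h3 : IntegrableOn (fun t : ℝ => Real.exp (-(|t| ^ p / p))) (Set.Iic 0) := by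
    rw [← Measure.map_neg_eq_self (volume : Measure ℝ)]
    let m : MeasurableEmbedding fun x : ℝ => -x := (Homeomorph.neg ℝ).measurableEmbedding
    rw [m.integrableOn_map_iff]
    simp_rw [Function.comp_def, abs_neg, Set.neg_preimage, Set.neg_Iic, neg_zero]
    exact Iff.mpr integrableOn_Ici_iff_integrableOn_Ioi h1
  have h4 := h3.union h1
  rwa [Set.Iic_union_Ioi, integrableOn_univ] at h4

theorem II_pos {p : ℝ} (hp : 0 < p) : 0 < II p := by
  unfold II
  exact integral_exp_pos (II_int hp)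

theorem std_int {n : ℕ} {p : ℝ} (hp : 0 < p) :
    ∫⁻ x : Fin n → ℝ, ENNReal.ofReal (Real.exp (-((∑ i, |x i| ^ p) / p))) =
      ENNReal.ofReal (II p ^ n) := by
  have h1 : ∀ x : Fin n → ℝ, Real.exp (-((∑ i, |x i| ^ p) / p)) =
      ∏ i, Real.exp (-(|x i| ^ p / p)) := by
    intro x
    rw [← Real.exp_sum]
    congr 1
    rw [Finset.sum_neg_distrib, Finset.sum_div]
  simp_rw [h1]
  have h2 : Integrable (fun x : Fin n → ℝ => ∏ i, Real.exp (-(|x i| ^ p / p))) :=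
    Integrable.fintype_prod (fun _ => II_int hp)
  rw [← ofReal_integral_eq_lintegral_ofReal h2 (Eventually.of_forall fun x =>
    Finset.prod_nonneg fun i _ => (Real.exp_pos _).le)]
  congr 1
  have h3 := integral_fintype_prod_volume_eq_pow (ι := Fin n) (𝕜 := ℝ)
    (fun t : ℝ => Real.exp (-(|t| ^ p / p)))
  rw [Fintype.card_fin] at h3
  exact h3

variable {κ : Type} [Fintype κ]

/-- the norm of the family -/
def gn {n : ℕ} (p : ℝ) (l : κ → Fin n → ℝ) (x : Fin n → ℝ) : ℝ := (∑ k, |l k ⬝ᵥ x| ^ p) ^ (1 / p)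

theorem sum_nn {n : ℕ} (p : ℝ) (l : κ → Fin n → ℝ) (x : Fin n → ℝ) :
    0 ≤ ∑ k, |l k ⬝ᵥ x| ^ p :=
  Finset.sum_nonneg fun _ _ => Real.rpow_nonneg (abs_nonneg _) _

theorem sum_cont {n : ℕ} {p : ℝ} (hp : 0 < p) (l : κ → Fin n → ℝ) :
    Continuous fun x : Fin n → ℝ => ∑ k, |l k ⬝ᵥ x| ^ p := by
  apply continuous_finsetSum
  intro k _
  have h1 : Continuous fun t : ℝ => t ^ p := Real.continuous_rpow_const hp.le
  have h2 : Continuous fun x : Fin n → ℝ => |l k ⬝ᵥ x| := by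
    unfold dotProduct
    fun_prop
  exact h1.comp h2

theorem gn_meas {n : ℕ} {p : ℝ} (hp : 0 < p) (l : κ → Fin n → ℝ) : Measurable (gn p l) := by
  have h1 : Continuous fun t : ℝ => t ^ (1 / p) := Real.continuous_rpow_const (by positivity)
  exact (h1.comp (sum_cont hp l)).measurable

theorem gn_nn {n : ℕ} (p : ℝ) (l : κ → Fin n → ℝ) (x : Fin n → ℝ) : 0 ≤ gn p l x :=
  Real.rpow_nonneg (sum_nn p l x) _

theorem sum_smul {n : ℕ} (p : ℝ) (l : κ → Fin n → ℝ) {r : ℝ} (hr : 0 ≤ r) (x : Fin n → ℝ) :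
    ∑ k, |l k ⬝ᵥ (r • x)| ^ p = r ^ p * ∑ k, |l k ⬝ᵥ x| ^ p := by
  rw [Finset.mul_sum]
  refine Finset.sum_congr rfl fun k _ => ?_
  rw [dotProduct_smul, smul_eq_mul, abs_mul, abs_of_nonneg hr, Real.mul_rpow hr (abs_nonneg _)]

theorem gn_smul {n : ℕ} {p : ℝ} (hp : 0 < p) (l : κ → Fin n → ℝ) (r : ℝ) (hr : 0 < r)
    (x : Fin n → ℝ) : gn p l (r • x) = r * gn p l x := by
  unfold gn
  rw [sum_smul p l hr.le, Real.mul_rpow (by positivity) (sum_nn p l x), ← Real.rpow_mul hr.le,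
    mul_one_div_cancel hp.ne', Real.rpow_one]

theorem gn_pow {n : ℕ} {p : ℝ} (hp : 0 < p) (l : κ → Fin n → ℝ) (x : Fin n → ℝ) :
    gn p l x ^ p = ∑ k, |l k ⬝ᵥ x| ^ p := by
  unfold gn
  rw [← Real.rpow_mul (sum_nn p l x), one_div_mul_cancel hp.ne', Real.rpow_one]

theorem gn_le {n : ℕ} {p : ℝ} (hp : 0 < p) (l : κ → Fin n → ℝ) (x : Fin n → ℝ) :
    gn p l x ≤ 1 ↔ ∑ k, |l k ⬝ᵥ x| ^ p ≤ 1 := by
  rw [← gn_pow hp]
  constructor
  · intro h
    exact Real.rpow_le_one (gn_nn p l x) h hp.le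
  · intro h
    by_contra hcon
    rw [not_le] at hcon
    exact absurd h (not_le.2 (Real.one_lt_rpow hcon hp))

/-- integral of the primal norm -/
theorem primal {n : ℕ} {p : ℝ} (hp : 0 < p) (l : κ → Fin n → ℝ) :
    ∫⁻ x : Fin n → ℝ, ENNReal.ofReal (Real.exp (-((∑ k, |l k ⬝ᵥ x| ^ p) / p))) =
      Cc p n * volume {x : Fin n → ℝ | ∑ k, |l k ⬝ᵥ x| ^ p ≤ 1} := by
  have h := layer hp (gn p l) (gn_meas hp l) (gn_nn p l) (gn_smul hp l)
  simp_rw [gn_pow hp, gn_le hp] at h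
  exact h

/-- the unit ball is bounded -/
theorem bdd {n : ℕ} {p : ℝ} (hp : 0 < p) (l : κ → Fin n → ℝ) (hl : Spans l) (y : Fin n → ℝ) :
    BddAbove {t | ∃ x : Fin n → ℝ, (∑ k, |l k ⬝ᵥ x| ^ p ≤ 1) ∧ t = x ⬝ᵥ y} := by
  obtain ⟨f, hf⟩ := hl
  set M : Matrix (Fin n) (Fin n) ℝ := Matrix.of fun i j => l (f i) j with hM
  have hdet : IsUnit M.det := isUnit_iff_ne_zero.2 hf
  refine ⟨∑ j, (∑ i, |M⁻¹ j i|) * |y j|, ?_⟩
  rintro t ⟨x, hx, rfl⟩
  have h1 : ∀ k, |l k ⬝ᵥ x| ≤ 1 := by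
    intro k
    by_contra hcon
    rw [not_le] at hcon
    have h2 : 1 < |l k ⬝ᵥ x| ^ p := Real.one_lt_rpow hcon hp
    have h3 : |l k ⬝ᵥ x| ^ p ≤ ∑ k, |l k ⬝ᵥ x| ^ p :=
      Finset.single_le_sum (f := fun k => |l k ⬝ᵥ x| ^ p)
        (fun _ _ => Real.rpow_nonneg (abs_nonneg _) _) (Finset.mem_univ k)
    linarith
  have h4 : x = M⁻¹ *ᵥ (M *ᵥ x) := by
    rw [Matrix.mulVec_mulVec, Matrix.nonsing_inv_mul _ hdet, Matrix.one_mulVec]
  have h5 : ∀ j, |x j| ≤ ∑ i, |M⁻¹ j i| := by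
    intro j
    have h6 : x j = ∑ i, M⁻¹ j i * (l (f i) ⬝ᵥ x) := by
      conv_lhs => rw [h4]
      rfl
    rw [h6]
    refine (Finset.abs_sum_le_sum_abs _ _).trans (Finset.sum_le_sum fun i _ => ?_)
    rw [abs_mul]
    exact mul_le_of_le_one_right (abs_nonneg _) (h1 _)
  unfold dotProduct
  refine Finset.sum_le_sum fun j _ => ?_
  calc x j * y j ≤ |x j * y j| := le_abs_self _
    _ = |x j| * |y j| := abs_mul _ _
    _ ≤ _ := mul_le_mul_of_nonneg_right (h5 j) (abs_nonneg _)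

theorem dn_le {n : ℕ} {p : ℝ} (hp : 0 < p) (l : κ → Fin n → ℝ) (hl : Spans l) (y : Fin n → ℝ)
    (s : ℝ) : dn p l y ≤ s ↔ ∀ x : Fin n → ℝ, ∑ k, |l k ⬝ᵥ x| ^ p ≤ 1 → x ⬝ᵥ y ≤ s := by
  unfold dn
  have hne : {t | ∃ x : Fin n → ℝ, (∑ k, |l k ⬝ᵥ x| ^ p ≤ 1) ∧ t = x ⬝ᵥ y}.Nonempty := by
    refine ⟨0, 0, ?_, by simp⟩
    simp only [dotProduct_zero, abs_zero, Real.zero_rpow hp.ne', Finset.sum_const_zero]
    exact zero_le_one
  rw [csSup_le_iff (bdd hp l hl y) hne]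
  constructor
  · intro h x hx
    exact h _ ⟨x, hx, rfl⟩
  · rintro h t ⟨x, hx, rfl⟩
    exact h x hx

theorem dn_nn {n : ℕ} {p : ℝ} (hp : 0 < p) (l : κ → Fin n → ℝ) (hl : Spans l) (y : Fin n → ℝ) :
    0 ≤ dn p l y := by
  have h := (dn_le hp l hl y (dn p l y)).1 le_rfl 0 (by
    simp only [dotProduct_zero, abs_zero, Real.zero_rpow hp.ne', Finset.sum_const_zero]
    exact zero_le_one)
  simpa using h

theorem dn_meas {n : ℕ} {p : ℝ} (hp : 0 < p) (l : κ → Fin n → ℝ) (hl : Spans l) :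
    Measurable (dn p l) := by
  apply measurable_of_Iic
  intro s
  have h1 : dn p l ⁻¹' Set.Iic s =
      ⋂ x : Fin n → ℝ, ⋂ _ : ∑ k, |l k ⬝ᵥ x| ^ p ≤ 1, {y : Fin n → ℝ | x ⬝ᵥ y ≤ s} := by
    ext y
    simp only [Set.mem_preimage, Set.mem_Iic, Set.mem_iInter, Set.mem_setOf_eq]
    exact dn_le hp l hl y s
  rw [h1]
  apply IsClosed.measurableSet
  apply isClosed_iInter
  intro x
  apply isClosed_iInter
  intro _
  apply isClosed_le _ continuous_const
  unfold dotProduct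
  fun_prop

theorem dn_smul {n : ℕ} {p : ℝ} (hp : 0 < p) (l : κ → Fin n → ℝ) (hl : Spans l) (r : ℝ)
    (hr : 0 < r) (y : Fin n → ℝ) : dn p l (r • y) = r * dn p l y := by
  apply le_antisymm
  · rw [dn_le hp l hl]
    intro x hx
    have h := (dn_le hp l hl y (dn p l y)).1 le_rfl x hx
    rw [dotProduct_smul, smul_eq_mul]
    exact mul_le_mul_of_nonneg_left h hr.le
  · rw [← le_div_iff₀' hr, dn_le hp l hl]
    intro x hx
    have h := (dn_le hp l hl (r • y) (dn p l (r • y))).1 le_rfl x hx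
    rw [dotProduct_smul, smul_eq_mul] at h
    rw [le_div_iff₀' hr]
    exact h

/-- integral of the dual norm -/
theorem dual {n : ℕ} {p q : ℝ} (hp : 0 < p) (hq : 0 < q) (l : κ → Fin n → ℝ) (hl : Spans l) :
    ∫⁻ y : Fin n → ℝ, ENNReal.ofReal (Real.exp (-((dn p l y) ^ q / q))) =
      Cc q n * volume {y : Fin n → ℝ | ∀ x : Fin n → ℝ, ∑ k, |l k ⬝ᵥ x| ^ p ≤ 1 →
        ∑ i, x i * y i ≤ 1} := by
  have h := layer hq (dn p l) (dn_meas hp l hl) (dn_nn hp l hl) (dn_smul hp l hl)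
  rw [h]
  congr 2
  ext y
  simp only [Set.mem_setOf_eq]
  exact dn_le hp l hl y 1

/-- the standard family -/
theorem std_dot {n : ℕ} (x : Fin n → ℝ) (i : Fin n) : (Pi.single i (1 : ℝ)) ⬝ᵥ x = x i := by
  simp

theorem std_ball {n : ℕ} {p : ℝ} (hp : 0 < p) :
    Cc p n * volume {x : Fin n → ℝ | ∑ i, |x i| ^ p ≤ 1} = ENNReal.ofReal (II p ^ n) := by
  have h := primal (n := n) hp (fun i : Fin n => (Pi.single i (1 : ℝ) : Fin n → ℝ))
  simp only [std_dot] at h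
  rw [← h, std_int hp]

theorem ball_ne {n : ℕ} {p : ℝ} (hp : 0 < p) :
    volume {x : Fin n → ℝ | ∑ i, |x i| ^ p ≤ 1} ≠ 0 := by
  have hc : Continuous fun x : Fin n → ℝ => ∑ i, |x i| ^ p := by
    have := sum_cont (n := n) hp (fun i : Fin n => (Pi.single i (1 : ℝ) : Fin n → ℝ))
    simpa only [std_dot] using this
  have ho : IsOpen {x : Fin n → ℝ | ∑ i, |x i| ^ p < 1} := isOpen_lt hc continuous_const
  have hn : {x : Fin n → ℝ | ∑ i, |x i| ^ p < 1}.Nonempty := by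
    refine ⟨0, ?_⟩
    simp [Real.zero_rpow hp.ne']
  have h1 := ho.measure_pos (μ := volume) hn
  have h2 : volume {x : Fin n → ℝ | ∑ i, |x i| ^ p < 1} ≤
      volume {x : Fin n → ℝ | ∑ i, |x i| ^ p ≤ 1} :=
    measure_mono fun x hx => (show ∑ i, |x i| ^ p ≤ 1 from le_of_lt hx)
  exact (lt_of_lt_of_le h1 h2).ne'

theorem Cc_ne_zero {n : ℕ} {p : ℝ} (hp : 0 < p) : Cc p n ≠ 0 := by
  intro h
  have h1 := std_ball (n := n) hp
  rw [h, zero_mul] at h1
  have h2 : 0 < II p ^ n := pow_pos (II_pos hp) n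
  have h3 := ENNReal.ofReal_pos.2 h2
  exact h3.ne h1

theorem Cc_ne_top {n : ℕ} {p : ℝ} (hp : 0 < p) : Cc p n ≠ ⊤ := by
  intro h
  have h1 := std_ball (n := n) hp
  rw [h, ENNReal.top_mul (ball_ne hp)] at h1
  exact ENNReal.ofReal_ne_top h1.symm

/-- the polar of the standard ball is contained in the ball of the conjugate exponent -/
theorem std_polar {n : ℕ} {p q : ℝ} (hp : 1 < p) (hq : q = p / (p - 1)) (y : Fin n → ℝ)
    (h : ∀ x : Fin n → ℝ, ∑ i, |x i| ^ p ≤ 1 → ∑ i, x i * y i ≤ 1) : ∑ i, |y i| ^ q ≤ 1 := by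
  have hp0 : 0 < p := by linarith
  have hp1 : 0 < p - 1 := by linarith
  have hq0 : 0 < q := by rw [hq]; positivity
  have hq1 : q - 1 = 1 / (p - 1) := by
    rw [hq]; field_simp; ring
  set Q := ∑ i, |y i| ^ q with hQ
  have hQ0 : 0 ≤ Q := Finset.sum_nonneg fun _ _ => Real.rpow_nonneg (abs_nonneg _) _
  by_contra hcon
  rw [not_le] at hcon
  have hQp : 0 < Q := by linarith
  have h1 := h (fun i => Q ^ (-(1 / p)) * (SignType.sign (y i) * |y i| ^ (q - 1))) (by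
    have h2 : ∀ i, |Q ^ (-(1 / p)) * ((SignType.sign (y i) : ℝ) * |y i| ^ (q - 1))| ^ p ≤
        Q⁻¹ * |y i| ^ q := by
      intro i
      rw [abs_mul, abs_mul, abs_of_nonneg (Real.rpow_nonneg hQ0 _),
        abs_of_nonneg (Real.rpow_nonneg (abs_nonneg (y i)) _)]
      have h3 : |(SignType.sign (y i) : ℝ)| ≤ 1 := by
        rcases lt_trichotomy (y i) 0 with h | h | h
        · simp [sign_neg h]
        · simp [h]
        · simp [sign_pos h]
      have h4 : Q ^ (-(1 / p)) * (|(SignType.sign (y i) : ℝ)| * |y i| ^ (q - 1)) ≤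
          Q ^ (-(1 / p)) * |y i| ^ (q - 1) := by
        apply mul_le_mul_of_nonneg_left _ (Real.rpow_nonneg hQ0 _)
        exact mul_le_of_le_one_left (Real.rpow_nonneg (abs_nonneg _) _) h3
      refine (Real.rpow_le_rpow (by positivity) h4 hp0.le).trans ?_
      rw [Real.mul_rpow (Real.rpow_nonneg hQ0 _) (Real.rpow_nonneg (abs_nonneg _) _),
        ← Real.rpow_mul hQ0, ← Real.rpow_mul (abs_nonneg _)]
      have e1 : -(1 / p) * p = -1 := by field_simp
      have e2 : (q - 1) * p = q := by rw [hq1, hq]; field_simp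
      rw [e1, e2, Real.rpow_neg_one]
    calc _ ≤ ∑ i, Q⁻¹ * |y i| ^ q := Finset.sum_le_sum fun i _ => h2 i
      _ = Q⁻¹ * Q := by rw [← Finset.mul_sum]
      _ ≤ 1 := by rw [inv_mul_cancel₀ hQp.ne'])
  have h5 : ∀ i, Q ^ (-(1 / p)) * ((SignType.sign (y i) : ℝ) * |y i| ^ (q - 1)) * y i =
      Q ^ (-(1 / p)) * |y i| ^ q := by
    intro i
    have h6 : (SignType.sign (y i) : ℝ) * y i = |y i| := sign_mul_self _
    have h7 : |y i| ^ (q - 1) * |y i| = |y i| ^ q := by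
      rcases eq_or_ne (y i) 0 with h0 | h0
      · rw [h0]; simp [Real.zero_rpow hq0.ne']
      · rw [Real.rpow_sub_one (abs_ne_zero.2 h0)]
        field_simp
    calc _ = Q ^ (-(1 / p)) * (|y i| ^ (q - 1) * ((SignType.sign (y i) : ℝ) * y i)) := by ring
      _ = _ := by rw [h6, h7]
  rw [Finset.sum_congr rfl (fun i _ => h5 i), ← Finset.mul_sum, ← hQ] at h1
  have h8 : Q ^ (-(1 / p)) * Q = Q ^ (1 / q) := by
    have e : (1 : ℝ) / q = -(1 / p) + 1 := by rw [hq]; field_simp; ring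
    rw [e, Real.rpow_add hQp, Real.rpow_one]
  rw [h8] at h1
  exact absurd h1 (not_le.2 (Real.one_lt_rpow hcon (by positivity)))

end VAux

open VAux in
/-- Task V -/
theorem V (hM : S_M) : S_V := by
  intro κ _ n p hp hp2 l hl
  have hp0 : 0 < p := by linarith
  have hp1 : 0 < p - 1 := by linarith
  have hq0 : 0 < p / (p - 1) := by positivity
  cases n with
  | zero =>
    have e1 : {x : Fin 0 → ℝ | ∑ i, |x i| ^ p ≤ 1} = Set.univ := by
      ext x; simp
    have e2 : {x : Fin 0 → ℝ | ∑ k, |l k ⬝ᵥ x| ^ p ≤ 1} = Set.univ := by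
      ext x
      have : ∀ k, l k ⬝ᵥ x = 0 := fun k => by simp [dotProduct]
      simp [this, Real.zero_rpow hp0.ne']
    have e3 : {y : Fin 0 → ℝ | ∀ x : Fin 0 → ℝ, ∑ k, |l k ⬝ᵥ x| ^ p ≤ 1 → ∑ i, x i * y i ≤ 1} =
        Set.univ := by
      ext y; simp
    have e4 : {y : Fin 0 → ℝ | ∀ x : Fin 0 → ℝ, ∑ i, |x i| ^ p ≤ 1 → ∑ i, x i * y i ≤ 1} =
        Set.univ := by
      ext y; simp
    rw [e1, e2, e3, e4]
  | succ r =>
    have h1 := hM κ r p hp hp2 l hl
    rw [primal hp0 l, dual hp0 hq0 l hl] at h1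
    have h2 : ENNReal.ofReal (Sp p ^ (r + 1)) =
        (Cc p (r + 1) * volume {x : Fin (r + 1) → ℝ | ∑ i, |x i| ^ p ≤ 1}) *
        (Cc (p / (p - 1)) (r + 1) *
          volume {x : Fin (r + 1) → ℝ | ∑ i, |x i| ^ (p / (p - 1)) ≤ 1}) := by
      rw [std_ball hp0, std_ball hq0, ← ENNReal.ofReal_mul (pow_nonneg (II_pos hp0).le _),
        ← mul_pow]
      rfl
    rw [h2] at h1
    set A := Cc p (r + 1) with hA
    set B := Cc (p / (p - 1)) (r + 1) with hB
    have hA0 : A ≠ 0 := Cc_ne_zero hp0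
    have hAt : A ≠ ⊤ := Cc_ne_top hp0
    have hB0 : B ≠ 0 := Cc_ne_zero hq0
    have hBt : B ≠ ⊤ := Cc_ne_top hq0
    have h3 : (A * B) * (volume {x : Fin (r + 1) → ℝ | ∑ i, |x i| ^ p ≤ 1} *
        volume {x : Fin (r + 1) → ℝ | ∑ i, |x i| ^ (p / (p - 1)) ≤ 1}) ≤
        (A * B) * (volume {x : Fin (r + 1) → ℝ | ∑ k, |l k ⬝ᵥ x| ^ p ≤ 1} *
          volume {y : Fin (r + 1) → ℝ | ∀ x : Fin (r + 1) → ℝ, ∑ k, |l k ⬝ᵥ x| ^ p ≤ 1 →
            ∑ i, x i * y i ≤ 1}) := by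
      calc _ = (A * volume {x : Fin (r + 1) → ℝ | ∑ i, |x i| ^ p ≤ 1}) *
          (B * volume {x : Fin (r + 1) → ℝ | ∑ i, |x i| ^ (p / (p - 1)) ≤ 1}) := by ring
        _ ≤ _ := h1
        _ = _ := by ring
    have h4 := (ENNReal.mul_le_mul_iff_right (mul_ne_zero hA0 hB0)
      (ENNReal.mul_ne_top hAt hBt)).1 h3
    refine le_trans ?_ h4
    gcongr
    intro hy
    exact std_polar hp rfl _ hy

end H845LP
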