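import Pool.Agent.H845R4.LP.Stm

set_option autoImplicit false
open MeasureTheory Filter Topology
open scoped BigOperators Matrix ENNReal Pointwise

namespace H845LP
open H712MA

namespace ZZ

theorem spans_of_inj {κ : Type} [Fintype κ] {n : ℕ} (l : κ → Fin n → ℝ)
    (h : ∀ x : Fin n → ℝ, (∀ k, l k ⬝ᵥ x = 0) → x = 0) : Spans l := by
  classical
  let A : Matrix κ (Fin n) ℝ := Matrix.of l
  have hinj : Function.Injective A.mulVecLin := by
    rw [injective_iff_map_eq_zero]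
    intro x hx
    apply h
    intro k
    have := congrFun hx k
    simpa [A, Matrix.mulVecLin, Matrix.mulVec] using this
  have hrank : A.rank = n := by
    rw [Matrix.rank, LinearMap.finrank_range_of_inj hinj]; simp
  rw [Matrix.rank_eq_finrank_span_row] at hrank
  obtain ⟨b, hb, hspan, hli⟩ := exists_linearIndependent ℝ (Set.range A.row)
  have hbfin : b.Finite := (Set.finite_range A.row).subset hb
  have : Fintype b := hbfin.fintype
  have hcard : Fintype.card b = n := by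
    rw [← hspan, finrank_span_set_eq_card hli] at hrank
    simpa [Set.toFinset_card] using hrank
  let e : Fin n ≃ b := (Fintype.equivFinOfCardEq hcard).symm
  choose g hg using fun i : Fin n => hb (e i).2
  refine ⟨g, ?_⟩
  have hli2 : LinearIndependent ℝ (Matrix.of fun i j => l (g i) j).row := by
    have : (Matrix.of fun i j => l (g i) j).row = fun i => ((e i : b) : Fin n → ℝ) := by
      funext i; exact hg i
    rw [this]
    exact hli.comp e e.injective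
  rw [Matrix.linearIndependent_rows_iff_isUnit, Matrix.isUnit_iff_isUnit_det] at hli2
  exact hli2.ne_zero

/-- combine simple functions -/
def comb {n : ℕ} (g : Fin n → SimpleFunc ℝ ℝ) : SimpleFunc ℝ (Fin n → ℝ) where
  toFun t := fun i => g i t
  measurableSet_fiber' y := by
    have : (fun t => fun i => g i t) ⁻¹' {y} = ⋂ i, (g i) ⁻¹' {y i} := by
      ext t; simp [funext_iff]
    rw [this]
    exact MeasurableSet.iInter fun i => (g i).measurableSet_fiber _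
  finite_range' := by
    apply (Set.Finite.pi' (fun i => (g i).finite_range)).subset
    rintro _ ⟨t, rfl⟩ i
    exact ⟨t, rfl⟩

theorem comb_apply {n : ℕ} (g : Fin n → SimpleFunc ℝ ℝ) (t : ℝ) (i : Fin n) :
    comb g t i = g i t := rfl

/-- the vectors -/
noncomputable def lv {n : ℕ} (p : ℝ) (μ : Measure ℝ) (s : SimpleFunc ℝ (Fin n → ℝ)) (v : s.range) : Fin n → ℝ :=
  ((μ (s ⁻¹' {(v : Fin n → ℝ)})).toReal ^ (1/p)) • (v : Fin n → ℝ)

theorem simple_norm {n : ℕ} (p : ℝ) (hp : 0 < p) (μ : Measure ℝ) [IsFiniteMeasure μ]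
    (s : SimpleFunc ℝ (Fin n → ℝ)) (x : Fin n → ℝ) :
    (eLpNorm (fun t => s t ⬝ᵥ x) (ENNReal.ofReal p) μ).toReal ^ p =
      ∑ v : s.range, |lv p μ s v ⬝ᵥ x| ^ p := by
  rw [eLpNorm_eq_lintegral_rpow_enorm_toReal (by simpa using hp) ENNReal.ofReal_ne_top,
    ENNReal.toReal_ofReal hp.le]
  have e1 : ∫⁻ t, ‖s t ⬝ᵥ x‖ₑ ^ p ∂μ =
      ∑ v ∈ s.range, ENNReal.ofReal (|v ⬝ᵥ x| ^ p) * μ (s ⁻¹' {v}) := by
    rw [← SimpleFunc.map_lintegral (fun v => ENNReal.ofReal (|v ⬝ᵥ x| ^ p)) s,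
      ← SimpleFunc.lintegral_eq_lintegral]
    apply lintegral_congr
    intro t
    rw [SimpleFunc.map_apply, ← Real.norm_eq_abs, ← ENNReal.ofReal_rpow_of_nonneg (norm_nonneg _) hp.le,
      ofReal_norm]
  rw [e1, ← ENNReal.toReal_rpow, ← Real.rpow_mul ENNReal.toReal_nonneg, one_div, inv_mul_cancel₀ hp.ne',
    Real.rpow_one, ENNReal.toReal_sum]
  · rw [← Finset.sum_coe_sort]
    apply Finset.sum_congr rfl
    intro v _
    rw [lv, smul_dotProduct, smul_eq_mul, abs_mul, Real.mul_rpow (abs_nonneg _) (abs_nonneg _),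
      abs_of_nonneg (Real.rpow_nonneg ENNReal.toReal_nonneg _), ← Real.rpow_mul ENNReal.toReal_nonneg,
      one_div, inv_mul_cancel₀ hp.ne', Real.rpow_one, ENNReal.toReal_mul,
      ENNReal.toReal_ofReal (by positivity), mul_comm]
  · intro v _
    exact ENNReal.mul_ne_top ENNReal.ofReal_ne_top (measure_ne_top _ _)

theorem vol_compare {n : ℕ} (G H : (Fin n → ℝ) → ℝ)
    (hG : ∀ (c : ℝ) (x : Fin n → ℝ), 0 ≤ c → G (c • x) = c * G x)
    (hH : ∀ (c : ℝ) (x : Fin n → ℝ), 0 ≤ c → H (c • x) = c * H x)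
    (ε : ℝ) (h0 : 0 < ε) (h1 : ε < 1)
    (hle : ∀ x, (1 - ε) * G x ≤ H x) (hge : ∀ x, H x ≤ (1 + ε) * G x) :
    volume {x : Fin n → ℝ | H x ≤ 1} *
        volume {y : Fin n → ℝ | ∀ x : Fin n → ℝ, H x ≤ 1 → ∑ i, x i * y i ≤ 1} ≤
      ENNReal.ofReal (((1 + ε) / (1 - ε)) ^ n) *
        (volume {x : Fin n → ℝ | G x ≤ 1} *
          volume {y : Fin n → ℝ | ∀ x : Fin n → ℝ, G x ≤ 1 → ∑ i, x i * y i ≤ 1}) := by
  have ha : 0 < 1 - ε := by linarith
  have hb : 0 < 1 + ε := by linarith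
  have s1 : {x : Fin n → ℝ | H x ≤ 1} ⊆ (1 - ε)⁻¹ • {x : Fin n → ℝ | G x ≤ 1} := by
    intro x hx
    refine Set.mem_smul_set.2 ⟨(1 - ε) • x, ?_, ?_⟩
    · show G ((1 - ε) • x) ≤ 1
      rw [hG _ _ ha.le]
      exact (hle x).trans hx
    · rw [smul_smul, inv_mul_cancel₀ ha.ne', one_smul]
  have s2 : {y : Fin n → ℝ | ∀ x : Fin n → ℝ, H x ≤ 1 → ∑ i, x i * y i ≤ 1} ⊆
      (1 + ε) • {y : Fin n → ℝ | ∀ x : Fin n → ℝ, G x ≤ 1 → ∑ i, x i * y i ≤ 1} := by
    intro y hy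
    refine Set.mem_smul_set.2 ⟨(1 + ε)⁻¹ • y, ?_, ?_⟩
    · intro x hx
      have := hy ((1 + ε)⁻¹ • x) (by
        rw [hH _ _ (inv_nonneg.2 hb.le)]
        calc (1 + ε)⁻¹ * H x ≤ (1 + ε)⁻¹ * ((1 + ε) * G x) :=
              mul_le_mul_of_nonneg_left (hge x) (inv_nonneg.2 hb.le)
          _ = G x := by rw [← mul_assoc, inv_mul_cancel₀ hb.ne', one_mul]
          _ ≤ 1 := hx)
      refine le_trans (le_of_eq ?_) this
      apply Finset.sum_congr rfl
      intro i _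
      simp only [Pi.smul_apply, smul_eq_mul]
      ring
    · rw [smul_smul, mul_inv_cancel₀ hb.ne', one_smul]
  have v1 := (measure_mono (μ := volume) s1)
  have v2 := (measure_mono (μ := volume) s2)
  rw [Measure.addHaar_smul, Module.finrank_fin_fun] at v1 v2
  refine (mul_le_mul' v1 v2).trans (le_of_eq ?_)
  have : ENNReal.ofReal (((1 + ε) / (1 - ε)) ^ n) =
      ENNReal.ofReal |(1 - ε)⁻¹ ^ n| * ENNReal.ofReal |(1 + ε) ^ n| := by
    rw [← ENNReal.ofReal_mul (abs_nonneg _), ← abs_mul, ← mul_pow]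
    rw [abs_of_nonneg (by positivity)]
    congr 2
    field_simp
  rw [this]
  ring

theorem approx {n : ℕ} (p : ℝ) (hp1 : 1 < p) (μ : Measure ℝ) [IsFiniteMeasure μ]
    (f : Fin n → Lp ℝ (ENNReal.ofReal p) μ) (hf : LinearIndependent ℝ f) (ε : ℝ) (h0 : 0 < ε) (h1 : ε < 1) :
    ∃ (κ : Type) (_ : Fintype κ) (l : κ → Fin n → ℝ), Spans l ∧
      ∀ x : Fin n → ℝ, (1 - ε) * ‖∑ i, x i • f i‖ ≤ (∑ k, |l k ⬝ᵥ x| ^ p) ^ (1 / p) ∧
        (∑ k, |l k ⬝ᵥ x| ^ p) ^ (1 / p) ≤ (1 + ε) * ‖∑ i, x i • f i‖ := by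
  have hp0 : 0 < p := by linarith
  have hF : Fact ((1 : ℝ≥0∞) ≤ ENNReal.ofReal p) := ⟨by rw [ENNReal.one_le_ofReal]; linarith⟩
  let T : (Fin n → ℝ) →ₗ[ℝ] Lp ℝ (ENNReal.ofReal p) μ := Fintype.linearCombination ℝ f
  have hT : ∀ x, T x = ∑ i, x i • f i := fun x => Fintype.linearCombination_apply ℝ f x
  have hker : LinearMap.ker T = ⊥ := by
    rw [LinearMap.ker_eq_bot']
    intro x hx
    funext i
    exact Fintype.linearIndependent_iff.1 hf x (by rw [← hT]; exact hx) i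
  obtain ⟨K, hK, hanti⟩ := LinearMap.exists_antilipschitzWith T hker
  have hlow : ∀ x, ‖x‖ ≤ K * ‖T x‖ := by
    intro x
    have := hanti.le_mul_dist x 0
    simpa using this
  -- the tolerance
  set δ : ℝ := ε / (2 * (n + 1) * K) with hδ
  have hK' : (0 : ℝ) < K := by exact_mod_cast hK
  have hδ0 : 0 < δ := by positivity
  have hsimple : ∀ i, ∃ g : SimpleFunc ℝ ℝ, eLpNorm (⇑(f i) - ⇑g) (ENNReal.ofReal p) μ < ENNReal.ofReal δ ∧
      MemLp (⇑g) (ENNReal.ofReal p) μ := fun i =>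
    (Lp.memLp (f i)).exists_simpleFunc_eLpNorm_sub_lt ENNReal.ofReal_ne_top
      (by simpa using hδ0)
  choose g hg1 hg2 using hsimple
  set s := comb g with hs
  -- elements of Lp
  let gL : Fin n → Lp ℝ (ENNReal.ofReal p) μ := fun i => (hg2 i).toLp (g i)
  have hnorm : ∀ i, ‖f i - gL i‖ ≤ δ := by
    intro i
    rw [Lp.norm_def]
    have : eLpNorm (⇑(f i - gL i)) (ENNReal.ofReal p) μ = eLpNorm (⇑(f i) - ⇑(g i)) (ENNReal.ofReal p) μ := by
      apply eLpNorm_congr_ae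
      filter_upwards [Lp.coeFn_sub (f i) (gL i), (hg2 i).coeFn_toLp] with t h1 h2
      rw [h1, Pi.sub_apply, Pi.sub_apply, h2]
    rw [this]
    exact (ENNReal.toReal_le_of_le_ofReal hδ0.le (hg1 i).le)
  have hGg : ∀ x : Fin n → ℝ, ‖∑ i, x i • gL i‖ = (∑ k : s.range, |lv p μ s k ⬝ᵥ x| ^ p) ^ (1 / p) := by
    intro x
    rw [← simple_norm p hp0 μ s x, ← Real.rpow_mul ENNReal.toReal_nonneg, mul_one_div_cancel hp0.ne',
      Real.rpow_one, Lp.norm_def]
    congr 1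
    apply eLpNorm_congr_ae
    have hall : ∀ᵐ t ∂μ, ∀ i, (gL i : ℝ → ℝ) t = g i t := ae_all_iff.2 fun i => (hg2 i).coeFn_toLp
    have hall2 : ∀ᵐ t ∂μ, ∀ i, ((x i • gL i : Lp ℝ (ENNReal.ofReal p) μ) : ℝ → ℝ) t = x i * (gL i : ℝ → ℝ) t :=
      ae_all_iff.2 fun i => by
        filter_upwards [Lp.coeFn_smul (x i) (gL i)] with t ht
        rw [ht]; rfl
    filter_upwards [Lp.coeFn_fun_finsetSum Finset.univ (fun i => x i • gL i), hall, hall2] with t h1 h2 h3
    rw [h1, dotProduct]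
    apply Finset.sum_congr rfl
    intro i _
    rw [h3 i, h2 i, hs, comb_apply, mul_comm]
  have hdiff : ∀ x : Fin n → ℝ, |‖∑ i, x i • gL i‖ - ‖∑ i, x i • f i‖| ≤ ε * ‖∑ i, x i • f i‖ / 2 := by
    intro x
    calc |‖∑ i, x i • gL i‖ - ‖∑ i, x i • f i‖| ≤ ‖(∑ i, x i • gL i) - ∑ i, x i • f i‖ :=
          abs_norm_sub_norm_le _ _
      _ = ‖∑ i, x i • (gL i - f i)‖ := by
          rw [← Finset.sum_sub_distrib]
          simp only [smul_sub]
      _ ≤ ∑ i, ‖x i • (gL i - f i)‖ := norm_sum_le _ _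
      _ ≤ ∑ i : Fin n, ‖x‖ * δ := by
          apply Finset.sum_le_sum
          intro i _
          rw [norm_smul]
          apply mul_le_mul (norm_le_pi_norm x i) _ (norm_nonneg _) (norm_nonneg _)
          rw [norm_sub_rev]
          exact hnorm i
      _ = n * (‖x‖ * δ) := by simp
      _ ≤ n * ((K * ‖∑ i, x i • f i‖) * δ) := by
          have := hlow x
          rw [hT] at this
          gcongr
      _ ≤ (n + 1) * ((K * ‖∑ i, x i • f i‖) * δ) := by
          have : 0 ≤ (K * ‖∑ i, x i • f i‖) * δ := by positivity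
          nlinarith
      _ = ε * ‖∑ i, x i • f i‖ / 2 := by
          rw [hδ]; field_simp
  have hbounds : ∀ x : Fin n → ℝ, (1 - ε) * ‖∑ i, x i • f i‖ ≤ (∑ k : s.range, |lv p μ s k ⬝ᵥ x| ^ p) ^ (1 / p) ∧
        (∑ k : s.range, |lv p μ s k ⬝ᵥ x| ^ p) ^ (1 / p) ≤ (1 + ε) * ‖∑ i, x i • f i‖ := by
    intro x
    have h := abs_le.1 (hdiff x)
    rw [← hGg]
    have h3 : 0 ≤ ε * ‖∑ i, x i • f i‖ := by positivity
    constructor <;> nlinarith [h.1, h.2]
  refine ⟨s.range, inferInstance, lv p μ s, ?_, hbounds⟩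
  apply spans_of_inj
  intro x hx
  have h := (hbounds x).1
  have hz : (∑ k : s.range, |lv p μ s k ⬝ᵥ x| ^ p) ^ (1 / p) = 0 := by
    have : (∑ k : s.range, |lv p μ s k ⬝ᵥ x| ^ p) = 0 := by
      apply Finset.sum_eq_zero
      intro k _
      rw [hx k, abs_zero, Real.zero_rpow hp0.ne']
    rw [this, Real.zero_rpow (by positivity)]
  rw [hz] at h
  have h4 : ‖∑ i, x i • f i‖ ≤ 0 := by
    by_contra hcon
    push Not at hcon
    have : 0 < (1 - ε) * ‖∑ i, x i • f i‖ := mul_pos (by linarith) hcon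
    linarith
  have h5 := hlow x
  rw [hT] at h5
  have h6 : ‖x‖ ≤ 0 := by
    have : (K : ℝ) * ‖∑ i, x i • f i‖ ≤ 0 := mul_nonpos_of_nonneg_of_nonpos hK'.le h4
    linarith
  exact norm_le_zero_iff.1 h6

end ZZ

open ZZ in
theorem Z (hV : S_V) : S_Z := by
  intro n p hp1 hp2 f hf
  have hp0 : 0 < p := by linarith
  have hF : Fact ((1 : ℝ≥0∞) ≤ ENNReal.ofReal p) := ⟨by rw [ENNReal.one_le_ofReal]; linarith⟩
  set C := volume {x : Fin n → ℝ | ∑ i, |x i| ^ p ≤ 1} *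
      volume {y : Fin n → ℝ | ∀ x : Fin n → ℝ, ∑ i, |x i| ^ p ≤ 1 → ∑ i, x i * y i ≤ 1} with hC
  set D := volume {x : Fin n → ℝ | ‖∑ i, x i • f i‖ ≤ 1} *
      volume {y : Fin n → ℝ | ∀ x : Fin n → ℝ, ‖∑ i, x i • f i‖ ≤ 1 → ∑ i, x i * y i ≤ 1} with hD
  have key : ∀ ε : ℝ, 0 < ε → ε < 1 → C ≤ ENNReal.ofReal (((1 + ε) / (1 - ε)) ^ n) * D := by
    intro ε h0 h1
    obtain ⟨κ, _, l, hl, hb⟩ := approx p hp1 _ f hf ε h0 h1
    have hv := hV κ n p hp1 hp2 l hl
    have hset : ∀ x : Fin n → ℝ, (∑ k, |l k ⬝ᵥ x| ^ p ≤ 1) ↔ (∑ k, |l k ⬝ᵥ x| ^ p) ^ (1 / p) ≤ 1 := by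
      intro x
      have hs0 : 0 ≤ ∑ k, |l k ⬝ᵥ x| ^ p := Finset.sum_nonneg fun k _ => by positivity
      constructor
      · intro h
        exact Real.rpow_le_one hs0 h (by positivity)
      · intro h
        have := Real.rpow_le_rpow (Real.rpow_nonneg hs0 _) h hp0.le
        rwa [Real.one_rpow, ← Real.rpow_mul hs0, one_div, inv_mul_cancel₀ hp0.ne', Real.rpow_one] at this
    simp only [hset] at hv
    refine hv.trans ?_
    apply vol_compare (fun x => ‖∑ i, x i • f i‖) (fun x => (∑ k, |l k ⬝ᵥ x| ^ p) ^ (1 / p)) ?_ ?_ ε h0 h1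
      (fun x => (hb x).1) (fun x => (hb x).2)
    · intro c x hc
      have : ∑ i, (c • x) i • f i = c • ∑ i, x i • f i := by
        rw [Finset.smul_sum]
        apply Finset.sum_congr rfl
        intro i _
        rw [Pi.smul_apply, smul_eq_mul, mul_smul]
      simp only [this]
      rw [norm_smul, Real.norm_of_nonneg hc]
    · intro c x hc
      have : ∑ k, |l k ⬝ᵥ (c • x)| ^ p = c ^ p * ∑ k, |l k ⬝ᵥ x| ^ p := by
        rw [Finset.mul_sum]
        apply Finset.sum_congr rfl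
        intro k _
        rw [dotProduct_smul, smul_eq_mul, abs_mul, abs_of_nonneg hc, Real.mul_rpow hc (abs_nonneg _)]
      simp only [this]
      have hs0 : 0 ≤ ∑ k, |l k ⬝ᵥ x| ^ p := Finset.sum_nonneg fun k _ => by positivity
      rw [Real.mul_rpow (by positivity) hs0, ← Real.rpow_mul hc, mul_one_div_cancel hp0.ne', Real.rpow_one]
  have hlim : Tendsto (fun ε : ℝ => ENNReal.ofReal (((1 + ε) / (1 - ε)) ^ n) * D) (𝓝[>] 0) (𝓝 D) := by
    have h1 : Tendsto (fun ε : ℝ => ENNReal.ofReal (((1 + ε) / (1 - ε)) ^ n)) (𝓝[>] 0) (𝓝 1) := by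
      rw [← ENNReal.ofReal_one]
      apply ENNReal.tendsto_ofReal
      have : Tendsto (fun ε : ℝ => ((1 + ε) / (1 - ε)) ^ n) (𝓝 0) (𝓝 (((1 + 0) / (1 - 0)) ^ n)) := by
        apply Tendsto.pow
        apply Tendsto.div
        · exact tendsto_const_nhds.add tendsto_id
        · exact tendsto_const_nhds.sub tendsto_id
        · norm_num
      simp only [add_zero, sub_zero, div_one, one_pow] at this
      exact this.mono_left nhdsWithin_le_nhds
    have := ENNReal.Tendsto.mul_const (b := D) h1 (Or.inl one_ne_zero)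
    rwa [one_mul] at this
  refine ge_of_tendsto hlim ?_
  filter_upwards [Ioo_mem_nhdsGT (show (0:ℝ) < 1 by norm_num)] with ε hε
  exact key ε hε.1 hε.2

end H845LP
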